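import Pool.Agent.SB.Defs

/-!
# Invariants of the reachable states
-/

set_option autoImplicit false
set_option linter.unusedSectionVars false

namespace Pool.Agent.SB

open Finset

variable {D q : ℕ} [NeZero q]

theorem dist1_self (x : Site D) : dist1 x x = 0 := by
  simp [dist1]

theorem dist1_tri (x y z : Site D) : dist1 x z ≤ dist1 x y + dist1 y z := by
  unfold dist1
  have h1 : (x.1 - z.1).natAbs ≤ (x.1 - y.1).natAbs + (y.1 - z.1).natAbs := by omega
  have h2 : ∑ i, (x.2 i - z.2 i).natAbs ≤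
      ∑ i, (x.2 i - y.2 i).natAbs + ∑ i, (y.2 i - z.2 i).natAbs := by
    rw [← sum_add_distrib]
    refine sum_le_sum fun i _ => ?_
    omega
  omega

theorem nb_cases {z y : Site D} (h : y ∈ nb z) :
    dist1 y z = 1 ∧ (y.1 ≤ z.1 ∨ y = z + (1, 0)) ∧ y ≠ z := by
  obtain ⟨d, -, rfl⟩ := mem_image.1 h
  have key : dist1 (z + dir d) z = 1 ∧ ((z + dir d).1 ≤ z.1 ∨ z + dir d = z + (1, 0)) := by
    rcases d with ⟨_ | i, _ | _⟩
    · refine ⟨?_, Or.inl ?_⟩
      · simp [dist1, dir]
      · simp [dir]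
    · refine ⟨?_, Or.inr rfl⟩
      simp [dist1, dir]
    · refine ⟨?_, Or.inl ?_⟩
      · simp only [dist1, dir, Prod.fst_add, Prod.snd_add, add_zero, sub_self, Int.natAbs_zero,
          zero_add, Pi.add_apply, add_sub_cancel_left]
        rw [sum_eq_single i]
        · simp
        · intro j _ hj
          rw [Pi.single_eq_of_ne hj]
          rfl
        · intro h
          exact absurd (mem_univ i) h
      · simp [dir]
    · refine ⟨?_, Or.inl ?_⟩
      · simp only [dist1, dir, Prod.fst_add, Prod.snd_add, add_zero, sub_self, Int.natAbs_zero,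
          zero_add, Pi.add_apply, add_sub_cancel_left]
        rw [sum_eq_single i]
        · simp
        · intro j _ hj
          rw [Pi.single_eq_of_ne hj]
          rfl
        · intro h
          exact absurd (mem_univ i) h
      · simp [dir]
  refine ⟨key.1, key.2, fun h => ?_⟩
  have h1 := key.1
  rw [h, dist1_self] at h1
  omega

theorem lab_sub {B : Finset (Site D)} {c : ZMod q} {b : St D q} (h : b ∈ lab B c) :
    b.support ⊆ B ∧ (b.sum fun _ k => k) = c := by
  rw [lab, mem_filter, Finset.mem_finsupp_iff] at h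
  exact ⟨h.1.1, h.2⟩

/-- one step -/
def Step (a a' : St D q) (z : Site D) (B : Finset (Site D)) : Prop :=
  z ∈ lft a ∧ B ⊆ nb z ∧ B.Nonempty ∧ ∃ (c : ZMod q) (b : St D q), (c = a z ∨ c = 0) ∧
    b.support ⊆ B ∧ (b.sum fun _ k => k) = c ∧ a' = a - Finsupp.single z c + b

theorem mem_stepAt {β J : ℝ} {a : St D q} {z : Site D} {r : St D q × ℕ}
    (h : r ∈ (stepAt β J a z).support) : ∃ B ⊆ nb z, B.Nonempty ∧ r.2 = B.card ∧
      ∃ (c : ZMod q) (b : St D q), (c = a z ∨ c = 0) ∧
        b.support ⊆ B ∧ (b.sum fun _ k => k) = c ∧ r.1 = a - Finsupp.single z c + b := by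
  unfold stepAt at h
  obtain ⟨B, hB, h1⟩ := mem_biUnion.1 (Finsupp.support_finsetSum h)
  obtain ⟨h2, h3⟩ := mem_erase.1 hB
  have h4 := Finsupp.support_smul h1
  rcases mem_union.1 (Finsupp.support_sub h4) with h5 | h5
  · obtain ⟨b, hb, h6⟩ := mem_biUnion.1 (Finsupp.support_finsetSum h5)
    have h7 := mem_singleton.1 (Finsupp.support_single_subset h6)
    obtain ⟨b1, b2⟩ := lab_sub hb
    exact ⟨B, mem_powerset.1 h3, nonempty_iff_ne_empty.2 h2, by rw [h7], a z, b, Or.inl rfl, b1, b2,
      by rw [h7]⟩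
  · obtain ⟨b, hb, h6⟩ := mem_biUnion.1 (Finsupp.support_finsetSum h5)
    have h7 := mem_singleton.1 (Finsupp.support_single_subset h6)
    obtain ⟨b1, b2⟩ := lab_sub hb
    exact ⟨B, mem_powerset.1 h3, nonempty_iff_ne_empty.2 h2, by rw [h7], 0, b, Or.inr rfl, b1, b2,
      by rw [h7, Finsupp.single_zero, sub_zero]⟩

theorem mem_TT {β J : ℝ} {m : (St D q × ℕ) →₀ ℝ} {p' : St D q × ℕ} (h : p' ∈ (TT β J m).support) :
    ∃ p ∈ m.support, ∃ z B, Step p.1 p'.1 z B ∧ p'.2 = p.2 + B.card := by
  unfold TT at h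
  rw [Finsupp.linearCombination_apply, Finsupp.sum] at h
  obtain ⟨p, hp, h1⟩ := mem_biUnion.1 (Finsupp.support_finsetSum h)
  have h2 := Finsupp.mapDomain_support (Finsupp.support_smul h1)
  obtain ⟨r, hr, h3⟩ := mem_image.1 h2
  unfold stepL at hr
  obtain ⟨z, hz, h4⟩ := mem_biUnion.1 (Finsupp.support_finsetSum hr)
  obtain ⟨B, b1, b2, b3, c, b, b4, b5, b6, b7⟩ := mem_stepAt (Finsupp.support_smul h4)
  refine ⟨p, hp, z, B, ⟨hz, b1, b2, c, b, b4, b5, b6, ?_⟩, ?_⟩
  · rw [← b7, ← h3]
  · rw [← b3, ← h3]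

theorem Step.charge {a a' : St D q} {z : Site D} {B : Finset (Site D)} (h : Step a a' z B) :
    (a'.sum fun _ k => k) = a.sum fun _ k => k := by
  obtain ⟨-, -, -, c, b, -, -, h2, rfl⟩ := h
  have hadd : ∀ f g : St D q, ((f + g).sum fun _ k => k) = (f.sum fun _ k => k) + g.sum fun _ k => k :=
    fun f g => Finsupp.sum_add_index' (fun _ => rfl) fun _ _ _ => rfl
  have hsub : ((a - Finsupp.single z c).sum fun _ k => k) + c = a.sum fun _ k => k := by
    have h3 := hadd (a - Finsupp.single z c) (Finsupp.single z c)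
    rw [sub_add_cancel, Finsupp.sum_single_index rfl] at h3
    exact h3.symm
  rw [hadd, h2, hsub]

theorem Step.supp {a a' : St D q} {z : Site D} {B : Finset (Site D)} (h : Step a a' z B)
    {y : Site D} (hy : y ∈ a'.support) : y ∈ a.support ∨ y ∈ B := by
  obtain ⟨hz, -, -, c, b, h0, h1, -, rfl⟩ := h
  by_cases hb : y ∈ B
  · exact Or.inr hb
  · left
    have h3 : b y = 0 := by
      by_contra h4
      exact hb (h1 (Finsupp.mem_support_iff.2 h4))
    rw [Finsupp.mem_support_iff, Finsupp.add_apply, h3, add_zero, Finsupp.sub_apply] at hy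
    rw [Finsupp.mem_support_iff]
    intro h4
    have hz1 := (mem_filter.1 hz).1
    by_cases hyz : y = z
    · subst hyz
      exact (Finsupp.mem_support_iff.1 hz1) h4
    · rw [h4, Finsupp.single_eq_of_ne hyz, sub_zero] at hy
      exact hy rfl

/-- an old particle away from `z` and `B` stays -/
theorem Step.stay {a a' : St D q} {z : Site D} {B : Finset (Site D)} (h : Step a a' z B)
    {y : Site D} (hy : y ∈ a.support) (hyz : y ≠ z) (hB : y ∉ B) : y ∈ a'.support := by
  obtain ⟨hz, -, -, c, b, h0, h1, -, rfl⟩ := h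
  have h3 : b y = 0 := by
    by_contra h4
    exact hB (h1 (Finsupp.mem_support_iff.2 h4))
  rw [Finsupp.mem_support_iff, Finsupp.add_apply, h3, add_zero, Finsupp.sub_apply,
    Finsupp.single_eq_of_ne hyz, sub_zero]
  exact Finsupp.mem_support_iff.1 hy

/-- the invariants of the states with at least two particles -/
structure Inv (x : Site D) (n : ℕ) (p : St D q × ℕ) : Prop where
  two : 2 ≤ p.1.support.card
  charge : (p.1.sum fun _ k => k) = 1
  edges : n + 2 ≤ p.2
  r1 : ∀ y ∈ p.1.support, ∀ y' ∈ p.1.support, y ≠ y' → y.1 + y'.1 ≤ p.2 + 2 * x.1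
  r2 : ∀ y ∈ p.1.support, 2 * y.1 ≤ p.2 + 1 + 2 * x.1
  r3 : ∀ y ∈ p.1.support, dist1 y x ≤ p.2

theorem Inv.other {x : Site D} {n : ℕ} {p : St D q × ℕ} (h : Inv x n p) (y : Site D) :
    ∃ y' ∈ p.1.support, y' ≠ y :=
  exists_mem_ne (lt_of_lt_of_le one_lt_two h.two) y

theorem Inv.low {x : Site D} {n : ℕ} {p : St D q × ℕ} (h : Inv x n p) {z : Site D}
    (hz : z ∈ lft p.1) : 2 * z.1 ≤ p.2 + 2 * x.1 := by
  obtain ⟨y', h1, h2⟩ := h.other z
  have h3 := (mem_filter.1 hz).2 y' h1
  have h4 := h.r1 z (mem_filter.1 hz).1 y' h1 h2.symm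
  omega

theorem Inv.step {x : Site D} {n : ℕ} {p p' : St D q × ℕ} (h : Inv x n p) {z : Site D}
    {B : Finset (Site D)} (hs : Step p.1 p'.1 z B) (hp : p'.2 = p.2 + B.card)
    (h2 : 2 ≤ p'.1.support.card) : Inv x (n + 1) p' := by
  have hz := hs.1
  have hzs := (mem_filter.1 hz).1
  have hzl := (mem_filter.1 hz).2
  have hl := h.low hz
  have hB : 1 ≤ B.card := hs.2.2.1.card_pos
  have hn : ∀ y ∈ B, dist1 y z = 1 ∧ (y.1 ≤ z.1 ∨ y = z + (1, 0)) ∧ y ≠ z :=
    fun y hy => nb_cases (hs.2.1 hy)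
  have hup : ∀ y ∈ B, y.1 ≤ z.1 + 1 := by
    intro y hy
    rcases (hn y hy).2.1 with h3 | h3
    · omega
    · rw [h3]
      simp
  have hR3 : ∀ y ∈ B, dist1 y x ≤ p.2 + 1 := by
    intro y hy
    have h3 := dist1_tri y z x
    have h4 := h.r3 z hzs
    have h5 := (hn y hy).1
    omega
  have hmix : ∀ y ∈ p.1.support, ∀ y' ∈ B, y.1 + y'.1 ≤ p'.2 + 2 * x.1 := by
    intro y hy y' hy'
    obtain ⟨y'', h3, h4⟩ := h.other y
    have h5 := hzl y'' h3
    have h6 := h.r1 y hy y'' h3 h4.symm
    have h7 := hup y' hy'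
    rw [hp]
    push_cast
    omega
  refine ⟨h2, hs.charge.trans h.charge, ?_, ?_, ?_, ?_⟩
  · have := h.edges
    omega
  · intro y hy y' hy' hne
    rcases hs.supp hy with h3 | h3 <;> rcases hs.supp hy' with h4 | h4
    · have := h.r1 y h3 y' h4 hne
      rw [hp]
      push_cast
      omega
    · exact hmix y h3 y' h4
    · have := hmix y' h4 y h3
      omega
    · rw [hp]
      push_cast
      rcases (hn y h3).2.1 with h5 | h5 <;> rcases (hn y' h4).2.1 with h6 | h6
      · omega
      · have := hup y' h4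
        omega
      · have := hup y h3
        omega
      · exact absurd (h5.trans h6.symm) hne
  · intro y hy
    rcases hs.supp hy with h3 | h3
    · have := h.r2 y h3
      rw [hp]
      push_cast
      omega
    · have := hup y h3
      rw [hp]
      push_cast
      omega
  · intro y hy
    rcases hs.supp hy with h3 | h3
    · have := h.r3 y h3
      omega
    · have := hR3 y h3
      omega

theorem Inv.start {x : Site D} {p' : St D q × ℕ} {z : Site D} {B : Finset (Site D)}
    (hs : Step (Finsupp.single x (1 : ZMod q)) p'.1 z B) (hp : p'.2 = B.card)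
    (h2 : 2 ≤ p'.1.support.card) : Inv x 0 p' := by
  have hzs := (mem_filter.1 hs.1).1
  have hzx : z = x := mem_singleton.1 (Finsupp.support_single_subset hzs)
  subst hzx
  have hn : ∀ y ∈ B, dist1 y z = 1 ∧ (y.1 ≤ z.1 ∨ y = z + (1, 0)) ∧ y ≠ z :=
    fun y hy => nb_cases (hs.2.1 hy)
  have hup : ∀ y ∈ B, y.1 ≤ z.1 + 1 := by
    intro y hy
    rcases (hn y hy).2.1 with h3 | h3
    · omega
    · rw [h3]
      simp
  have hB : 2 ≤ B.card := by
    obtain ⟨-, -, h3, c, b, hc, hb, hsum, h4⟩ := hs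
    by_contra hcon
    have h5 : B.card = 1 := by
      have := h3.card_pos
      omega
    obtain ⟨w, hw⟩ := card_eq_one.1 h5
    have hbs : b = Finsupp.single w (b w) := by
      ext y
      by_cases hy : y = w
      · subst hy
        rw [Finsupp.single_eq_same]
      · rw [Finsupp.single_eq_of_ne hy]
        by_contra h6
        have h7 := hb (Finsupp.mem_support_iff.2 h6)
        rw [hw, mem_singleton] at h7
        exact hy h7
    rw [hbs, Finsupp.sum_single_index rfl] at hsum
    rcases hc with hc | hc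
    · rw [Finsupp.single_eq_same] at hc
      rw [h4, hc, sub_self, zero_add] at h2
      have := card_le_card hb
      omega
    · rw [hc] at hsum
      rw [h4, hc, hbs, hsum, Finsupp.single_zero, Finsupp.single_zero, sub_zero, add_zero] at h2
      have := card_le_card (Finsupp.support_single_subset (a := z) (b := (1 : ZMod q)))
      rw [card_singleton] at this
      omega
  have hsupp : ∀ y ∈ p'.1.support, y = z ∨ y ∈ B := by
    intro y hy
    rcases hs.supp hy with h3 | h3
    · exact Or.inl (mem_singleton.1 (Finsupp.support_single_subset h3))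
    · exact Or.inr h3
  refine ⟨h2, ?_, by omega, ?_, ?_, ?_⟩
  · rw [hs.charge, Finsupp.sum_single_index rfl]
  · intro y hy y' hy' hne
    rcases hsupp y hy with h3 | h3 <;> rcases hsupp y' hy' with h4 | h4
    · exact absurd (h3.trans h4.symm) hne
    · have := hup y' h4
      rw [h3]
      omega
    · have := hup y h3
      rw [h4]
      omega
    · have h7 := hup y h3
      have h8 := hup y' h4
      omega
  · intro y hy
    rcases hsupp y hy with h3 | h3
    · rw [h3]
      omega
    · have := hup y h3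
      omega
  · intro y hy
    rcases hsupp y hy with h3 | h3
    · rw [h3, dist1_self]
      omega
    · have := (hn y h3).1
      omega

theorem mem_QQ {m : (St D q × ℕ) →₀ ℝ} {p : St D q × ℕ} (h : p ∈ (QQ m).support) :
    2 ≤ p.1.support.card ∧ p ∈ m.support := by
  rw [QQ, Finsupp.support_filter, mem_filter] at h
  exact ⟨h.2, h.1⟩

theorem mm_Inv (β J : ℝ) (x : Site D) (n : ℕ) (p : St D q × ℕ)
    (hp : p ∈ (mm (q := q) β J x n).support) : Inv x n p := by
  induction n generalizing p with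
  | zero =>
    rw [mm] at hp
    obtain ⟨h2, h3⟩ := mem_QQ hp
    obtain ⟨p0, h4, z, B, h5, h6⟩ := mem_TT h3
    have h7 := mem_singleton.1 (Finsupp.support_single_subset h4)
    rw [h7] at h5 h6
    exact Inv.start h5 (by rw [h6, zero_add]) h2
  | succ n ih =>
    rw [mm] at hp
    obtain ⟨h2, h3⟩ := mem_QQ hp
    obtain ⟨p0, h4, z, B, h5, h6⟩ := mem_TT h3
    exact (ih p0 h4).step h5 h6 h2

theorem mm_inv (β J : ℝ) (x : Site D) (n : ℕ) (p : St D q × ℕ)
    (hp : p ∈ (mm (q := q) β J x n).support) :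
    2 ≤ p.1.support.card ∧ (p.1.sum fun _ k => k) = 1 ∧ n + 2 ≤ p.2 ∧
      (∀ y ∈ p.1.support, ∀ y' ∈ p.1.support, y ≠ y' → y.1 + y'.1 ≤ p.2 + 2 * x.1) ∧
      (∀ y ∈ p.1.support, 2 * y.1 ≤ p.2 + 1 + 2 * x.1) ∧
      ∀ y ∈ p.1.support, dist1 y x ≤ p.2 := by
  obtain ⟨h1, h2, h3, h4, h5, h6⟩ := mm_Inv β J x n p hp
  exact ⟨h1, h2, h3, h4, h5, h6⟩

theorem SS_inv (β J : ℝ) (x y : Site D) (N : ℕ) (h : SS D q β J x y N ≠ 0) :
    3 ≤ N ∧ 2 * (y.1 - x.1) ≤ N ∧ dist1 y x ≤ N := by
  rw [SS] at h
  obtain ⟨n, -, hn⟩ := exists_ne_zero_of_sum_ne_zero h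
  obtain ⟨p, hp, z, B, hs, hN⟩ := mem_TT (Finsupp.mem_support_iff.2 hn)
  have hI := mm_Inv β J x n p hp
  dsimp only at hs hN
  have hB : 1 ≤ B.card := hs.2.2.1.card_pos
  have he := hI.edges
  have hl := hI.low hs.1
  have hzs := (mem_filter.1 hs.1).1
  have h1 : (Finsupp.single y (1 : ZMod q)).support ⊆ {y} := Finsupp.support_single_subset
  -- `y` is in the support
  have hy : y ∈ (Finsupp.single y (1 : ZMod q)).support := by
    by_contra hcon
    have h2 : Finsupp.single y (1 : ZMod q) = 0 := by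
      rw [← Finsupp.support_eq_empty]
      exact subset_empty.1 fun w hw => absurd (mem_singleton.1 (h1 hw) ▸ hw) hcon
    have h3 : (1 : ZMod q) = 0 := by
      have := congrArg (fun f : St D q => f y) h2
      simpa using this
    obtain ⟨w, hw, -⟩ := hI.other z
    rw [Finsupp.mem_support_iff] at hw
    apply hw
    rw [← mul_one (p.1 w), h3, mul_zero]
  refine ⟨by omega, ?_, ?_⟩
  · rcases hs.supp hy with h3 | h3
    · have := hI.r2 y h3
      omega
    · obtain ⟨h4, h5, h6⟩ := nb_cases (hs.2.1 h3)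
      by_cases hyo : y ∈ p.1.support
      · have := hI.r2 y hyo
        omega
      rcases h5 with h5 | h5
      · omega
      · have h7 : y.1 = z.1 + 1 := by rw [h5]; simp
        by_cases hc : B.card = 1
        · exfalso
          obtain ⟨w, hw⟩ := card_eq_one.1 hc
          rw [hw, mem_singleton] at h3
          obtain ⟨z2, hz2, hne⟩ := hI.other z
          have hz2y : z2 ≠ y := fun h => hyo (h ▸ hz2)
          have := hs.stay hz2 hne (by rw [hw, mem_singleton, ← h3]; exact hz2y)
          exact hz2y (mem_singleton.1 (h1 this))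
        · omega
  · rcases hs.supp hy with h3 | h3
    · have := hI.r3 y h3
      omega
    · have h4 := (nb_cases (hs.2.1 h3)).1
      have h5 := dist1_tri y z x
      have h6 := hI.r3 z hzs
      omega

/-- The iteration without projection. -/
theorem TT_inv (β J : ℝ) (x : Site D) (n : ℕ) (p : St D q × ℕ)
    (hp : p ∈ (((TT β J) ^ n) (Finsupp.single (Finsupp.single x (1 : ZMod q), 0) (1 : ℝ))).support) :
    ∀ y ∈ p.1.support, dist1 y x ≤ p.2 := by
  induction n generalizing p with
  | zero =>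
    intro y hy
    rw [pow_zero, Module.End.one_apply] at hp
    have h1 := mem_singleton.1 (Finsupp.support_single_subset hp)
    rw [h1] at hy ⊢
    have h2 := mem_singleton.1 (Finsupp.support_single_subset hy)
    rw [h2, dist1_self]
  | succ n ih =>
    intro y hy
    rw [pow_succ', Module.End.mul_apply] at hp
    obtain ⟨p0, h4, z, B, h5, h6⟩ := mem_TT hp
    have h7 := ih p0 h4
    have hB : 1 ≤ B.card := h5.2.2.1.card_pos
    rcases h5.supp hy with h3 | h3
    · have := h7 y h3
      omega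
    · have h8 := (nb_cases (h5.2.1 h3)).1
      have h9 := dist1_tri y z x
      have h10 := h7 z (mem_filter.1 h5.1).1
      omega

end Pool.Agent.SB
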