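import Pool.Agent.SB.Defs

/-!
# Neighbours and labellings
-/

set_option autoImplicit false
set_option linter.unusedSectionVars false

namespace Pool.Agent.SB

open Finset

variable {D q : ℕ} [NeZero q]

theorem dist1_add_dir (x : Site D) (d : Option (Fin D) × Bool) : dist1 (x + dir d) x = 1 := by
  rcases d with ⟨_ | i, _ | _⟩
  · simp [dist1, dir]
  · simp [dist1, dir]
  · simp only [dist1, dir, Prod.fst_add, Prod.snd_add, Pi.add_apply, add_zero, sub_self,
      add_sub_cancel_left, Int.natAbs_zero, zero_add]
    rw [Finset.sum_eq_single i]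
    · simp
    · intro j _ hj
      simp [Pi.single_eq_of_ne hj]
    · simp
  · simp only [dist1, dir, Prod.fst_add, Prod.snd_add, Pi.add_apply, add_zero, sub_self,
      add_sub_cancel_left, Int.natAbs_zero, zero_add]
    rw [Finset.sum_eq_single i]
    · simp
    · intro j _ hj
      simp [Pi.single_eq_of_ne hj]
    · simp

theorem mem_nb (x y : Site D) : y ∈ nb x ↔ dist1 y x = 1 := by
  unfold nb
  simp only [mem_image, mem_univ, true_and]
  constructor
  · rintro ⟨d, rfl⟩
    exact dist1_add_dir x d
  · intro h
    unfold dist1 at h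
    by_cases h1 : (y.1 - x.1).natAbs = 0
    · -- a transverse direction
      have h2 : ∑ i, (y.2 i - x.2 i).natAbs = 1 := by omega
      have hx1 : y.1 = x.1 := by omega
      obtain ⟨i, hi⟩ : ∃ i, (y.2 i - x.2 i).natAbs ≠ 0 := by
        by_contra hcon
        push Not at hcon
        rw [Finset.sum_eq_zero fun i _ => hcon i] at h2
        omega
      have h3 : (y.2 i - x.2 i).natAbs + ∑ j ∈ Finset.univ.erase i, (y.2 j - x.2 j).natAbs = 1 := by
        rw [Finset.add_sum_erase univ (fun j => (y.2 j - x.2 j).natAbs) (mem_univ i)]
        exact h2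
      have h4 : ∑ j ∈ Finset.univ.erase i, (y.2 j - x.2 j).natAbs = 0 := by omega
      have h5 : ∀ j, j ≠ i → y.2 j = x.2 j := by
        intro j hj
        have := Finset.sum_eq_zero_iff.mp h4 j (by simp [hj])
        omega
      have h6 : y.2 i - x.2 i = 1 ∨ y.2 i - x.2 i = -1 := by omega
      rcases h6 with h6 | h6
      · refine ⟨(some i, true), ?_⟩
        refine Prod.ext (by simp [dir, hx1]) (funext fun j => ?_)
        by_cases hj : j = i
        · subst hj
          simp only [dir, Prod.snd_add, Pi.add_apply, Pi.single_eq_same]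
          omega
        · simp only [dir, Prod.snd_add, Pi.add_apply, Pi.single_eq_of_ne hj, add_zero]
          exact (h5 j hj).symm
      · refine ⟨(some i, false), ?_⟩
        refine Prod.ext (by simp [dir, hx1]) (funext fun j => ?_)
        by_cases hj : j = i
        · subst hj
          simp only [dir, Prod.snd_add, Pi.add_apply, Pi.single_eq_same]
          omega
        · simp only [dir, Prod.snd_add, Pi.add_apply, Pi.single_eq_of_ne hj, add_zero]
          exact (h5 j hj).symm
    · have h2 : ∑ i, (y.2 i - x.2 i).natAbs = 0 := by omega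
      have h3 : ∀ j, y.2 j = x.2 j := by
        intro j
        have := Finset.sum_eq_zero_iff.mp h2 j (mem_univ j)
        omega
      have h4 : y.1 - x.1 = 1 ∨ y.1 - x.1 = -1 := by omega
      rcases h4 with h4 | h4
      · refine ⟨(none, true), Prod.ext ?_ (funext fun j => ?_)⟩
        · simp only [dir, Prod.fst_add]
          omega
        · simp [dir, h3 j]
      · refine ⟨(none, false), Prod.ext ?_ (funext fun j => ?_)⟩
        · simp only [dir, Prod.fst_add]
          omega
        · simp [dir, h3 j]

theorem dir_injective : Function.Injective (dir : Option (Fin D) × Bool → Site D) := by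
  rintro ⟨_ | i, b⟩ ⟨_ | j, b'⟩ h
  · cases b <;> cases b' <;> simp [dir] at h ⊢
  · cases b <;> cases b' <;> simp [dir] at h
  · cases b <;> cases b' <;> simp [dir] at h
  · have hij : i = j := by
      by_contra hij
      have h1 := congrFun (congrArg Prod.snd h) i
      cases b <;> cases b' <;> simp [dir, Pi.single_eq_of_ne hij] at h1
    subst hij
    have h1 := congrFun (congrArg Prod.snd h) i
    cases b <;> cases b' <;> simp [dir] at h1 ⊢

theorem sum_nb (x : Site D) (f : Site D → ℝ) : ∑ y ∈ nb x, f y = ∑ d, f (x + dir d) := by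
  unfold nb
  rw [Finset.sum_image]
  intro d _ d' _ h
  exact dir_injective (add_left_cancel h)

theorem mem_lab (B : Finset (Site D)) (c : ZMod q) (b : St D q) :
    b ∈ lab B c ↔ b.support ⊆ B ∧ (b.sum fun _ k => k) = c := by
  unfold lab
  simp [Finset.mem_finsupp_iff]

theorem not_mem_nb_self (x : Site D) : x ∉ nb x := by
  rw [mem_nb]
  simp [dist1]

theorem dist1_comm (x y : Site D) : dist1 x y = dist1 y x := by
  unfold dist1
  rw [← Int.natAbs_neg, neg_sub]
  congr 1
  refine Finset.sum_congr rfl fun i _ => ?_
  rw [← Int.natAbs_neg, neg_sub]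

theorem coup_comm (J : ℝ) (x y : Site D) : coup J x y = coup J y x := by
  unfold coup
  simp only [and_comm]

end Pool.Agent.SB
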