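import Mathlib

/-!
# The threshold integrals
-/

set_option autoImplicit false

namespace Pool.Agent.SB

open MeasureTheory Set Real

/-- The cube `[-π, π]^D`. -/
def cube (D : ℕ) : Set (Fin D → ℝ) := Set.pi Set.univ fun _ => Set.Icc (-Real.pi) Real.pi

/-- The integral which governs the threshold (`‖k‖` is the sup norm). -/
noncomputable def Phi (D : ℕ) (δ : ℝ) : ℝ := ∫ k in cube D, δ / ((δ + ‖k‖ ^ 2) * ‖k‖ ^ 2)

lemma mem_cube {D : ℕ} {k : Fin D → ℝ} : k ∈ cube D ↔ ‖k‖ ≤ π := by
  rw [pi_norm_le_iff_of_nonneg Real.pi_pos.le]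
  simp only [cube, Set.mem_univ_pi, Set.mem_Icc, Real.norm_eq_abs, abs_le]

lemma measurableSet_cube (D : ℕ) : MeasurableSet (cube D) :=
  MeasurableSet.univ_pi fun _ => measurableSet_Icc

lemma indicator_cube (D : ℕ) (F : ℝ → ℝ) :
    (cube D).indicator (fun k => F ‖k‖) = fun k => (Set.Iic π).indicator F ‖k‖ := by
  funext k
  by_cases hk : k ∈ cube D
  · rw [Set.indicator_of_mem hk, Set.indicator_of_mem (show ‖k‖ ∈ Set.Iic π from mem_cube.1 hk)]
  · rw [Set.indicator_of_notMem hk, Set.indicator_of_notMem (show ‖k‖ ∉ Set.Iic π from fun h => hk (mem_cube.2 h))]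

lemma volume_ball_one (D : ℕ) :
    (volume : Measure (Fin D → ℝ)).real (Metric.ball 0 1) = 2 ^ D := by
  rw [Measure.real, Real.volume_pi_ball _ one_pos]
  simp

lemma integral_cube (D : ℕ) (hD : 1 ≤ D) (F : ℝ → ℝ) :
    ∫ k in cube D, F ‖k‖ = (D * 2 ^ D : ℝ) * ∫ y in (0 : ℝ)..π, y ^ (D - 1) * F y := by
  have : Nonempty (Fin D) := ⟨⟨0, hD⟩⟩
  rw [← integral_indicator (measurableSet_cube D), indicator_cube,
    integral_fun_norm_addHaar volume ((Set.Iic π).indicator F), volume_ball_one]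
  simp only [Module.finrank_fintype_fun_eq_card, Fintype.card_fin, nsmul_eq_mul, smul_eq_mul]
  rw [intervalIntegral.integral_of_le Real.pi_pos.le]
  have h : ∫ y in Ioi (0 : ℝ), y ^ (D - 1) * (Iic π).indicator F y =
      ∫ y in Ioc (0 : ℝ) π, y ^ (D - 1) * F y := by
    rw [← integral_indicator measurableSet_Ioi, ← integral_indicator measurableSet_Ioc]
    congr 1
    funext y
    by_cases h0 : 0 < y
    · by_cases h1 : y ≤ π
      · rw [Set.indicator_of_mem (show y ∈ Ioi (0 : ℝ) from h0),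
          Set.indicator_of_mem (show y ∈ Iic π from h1),
          Set.indicator_of_mem (show y ∈ Ioc (0 : ℝ) π from ⟨h0, h1⟩)]
      · rw [Set.indicator_of_mem (show y ∈ Ioi (0 : ℝ) from h0),
          Set.indicator_of_notMem (show y ∉ Iic π from h1),
          Set.indicator_of_notMem (show y ∉ Ioc (0 : ℝ) π from fun h => h1 h.2), mul_zero]
    · rw [Set.indicator_of_notMem (show y ∉ Ioi (0 : ℝ) from h0),
          Set.indicator_of_notMem (show y ∉ Ioc (0 : ℝ) π from fun h => h0 h.1)]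
  rw [h]
  ring

lemma integrableOn_cube (D : ℕ) (hD : 1 ≤ D) (F : ℝ → ℝ) :
    IntegrableOn (fun k => F ‖k‖) (cube D) ↔
      IntegrableOn (fun y => y ^ (D - 1) * F y) (Ioc 0 π) := by
  have : Nonempty (Fin D) := ⟨⟨0, hD⟩⟩
  rw [← integrable_indicator_iff (measurableSet_cube D), indicator_cube,
    integrable_fun_norm_addHaar volume, ← integrable_indicator_iff measurableSet_Ioi,
    ← integrable_indicator_iff measurableSet_Ioc]
  have h : (Ioi (0 : ℝ)).indicator (fun y => y ^ (Module.finrank ℝ (Fin D → ℝ) - 1) •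
      (Iic π).indicator F y) = (Ioc (0 : ℝ) π).indicator (fun y => y ^ (D - 1) * F y) := by
    funext y
    simp only [Module.finrank_fintype_fun_eq_card, Fintype.card_fin, smul_eq_mul]
    by_cases h0 : 0 < y
    · by_cases h1 : y ≤ π
      · rw [Set.indicator_of_mem (show y ∈ Ioi (0 : ℝ) from h0),
          Set.indicator_of_mem (show y ∈ Iic π from h1),
          Set.indicator_of_mem (show y ∈ Ioc (0 : ℝ) π from ⟨h0, h1⟩)]
      · rw [Set.indicator_of_mem (show y ∈ Ioi (0 : ℝ) from h0),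
          Set.indicator_of_notMem (show y ∉ Iic π from h1),
          Set.indicator_of_notMem (show y ∉ Ioc (0 : ℝ) π from fun h => h1 h.2), mul_zero]
    · rw [Set.indicator_of_notMem (show y ∉ Ioi (0 : ℝ) from h0),
          Set.indicator_of_notMem (show y ∉ Ioc (0 : ℝ) π from fun h => h0 h.1)]
  rw [h]

theorem integrable_inv_sq (D : ℕ) (hD : 3 ≤ D) :
    MeasureTheory.IntegrableOn (fun k : Fin D → ℝ => 1 / ‖k‖ ^ 2) (cube D) := by
  rw [integrableOn_cube D (by omega) (fun y => 1 / y ^ 2)]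
  have h1 : IntegrableOn (fun y : ℝ => y ^ (D - 3)) (Ioc 0 π) :=
    ((continuous_pow (D - 3)).integrableOn_Icc).mono_set Ioc_subset_Icc_self
  refine h1.congr_fun (fun y hy => ?_) measurableSet_Ioc
  have hy0 : y ≠ 0 := ne_of_gt hy.1
  have e : y ^ (D - 1) = y ^ (D - 3) * y ^ 2 := by
    rw [← pow_add]; congr 1; omega
  simp only [e]
  field_simp

/-- The radial form of `Phi`. -/
lemma Phi_eq (D : ℕ) (hD : 3 ≤ D) (δ : ℝ) (hδ : 0 < δ) :
    Phi D δ = (D * 2 ^ D : ℝ) * ∫ y in (0 : ℝ)..π, δ * y ^ (D - 3) / (δ + y ^ 2) := by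
  rw [Phi, integral_cube D (by omega) (fun y => δ / ((δ + y ^ 2) * y ^ 2))]
  congr 1
  apply intervalIntegral.integral_congr_ae
  have : ∀ᵐ y : ℝ, y ≠ 0 := by
    simp [ae_iff, measure_singleton]
  filter_upwards [this] with y hy _
  have e : y ^ (D - 1) = y ^ (D - 3) * y ^ 2 := by
    rw [← pow_add]; congr 1; omega
  have h2 : δ + y ^ 2 ≠ 0 := by positivity
  rw [e]
  field_simp

lemma cont_radial (n : ℕ) (δ : ℝ) (hδ : 0 < δ) :
    Continuous fun y : ℝ => δ * y ^ n / (δ + y ^ 2) :=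
  Continuous.div (by fun_prop) (by fun_prop) fun y => by positivity

theorem Phi_three : ∃ c C : ℝ, 0 < c ∧ 0 < C ∧ ∀ δ, 0 < δ → δ ≤ 1 →
    c * Real.sqrt δ ≤ Phi 3 δ ∧ Phi 3 δ ≤ C * Real.sqrt δ := by
  have key : ∀ δ : ℝ, 0 < δ → ∫ y in (0 : ℝ)..π, δ * y ^ (3 - 3) / (δ + y ^ 2) =
      √δ * arctan (π / √δ) := by
    intro δ hδ
    have hs : 0 < √δ := Real.sqrt_pos.2 hδ
    have hs2 : √δ ^ 2 = δ := Real.sq_sqrt hδ.le
    have hd : ∀ y ∈ uIcc (0 : ℝ) π, HasDerivAt (fun y => √δ * arctan (y / √δ))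
        (δ * y ^ (3 - 3) / (δ + y ^ 2)) y := by
      intro y _
      have h1 : HasDerivAt (fun y : ℝ => y / √δ) (1 / √δ) y := (hasDerivAt_id y).div_const _
      have h2 := (h1.arctan).const_mul (√δ)
      refine h2.congr_deriv ?_
      have h3 : δ + y ^ 2 ≠ 0 := by positivity
      have h4 : (1 : ℝ) + (y / √δ) ^ 2 = (δ + y ^ 2) / δ := by
        rw [div_pow, hs2]; field_simp
      rw [h4]
      field_simp
      simp
    rw [intervalIntegral.integral_eq_sub_of_hasDerivAt hd
      ((cont_radial (3 - 3) δ hδ).intervalIntegrable _ _)]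
    simp
  refine ⟨24 * (π / 4), 24 * (π / 2), by positivity, by positivity, fun δ hδ hδ1 => ?_⟩
  rw [Phi_eq 3 le_rfl δ hδ, key δ hδ]
  have hs : 0 < √δ := Real.sqrt_pos.2 hδ
  have hs1 : √δ ≤ 1 := Real.sqrt_le_one.2 hδ1
  have h1 : π / 4 ≤ arctan (π / √δ) := by
    rw [← Real.arctan_one]
    apply Real.arctan_strictMono.monotone
    rw [le_div_iff₀ hs]
    nlinarith [Real.pi_gt_three]
  have h2 : arctan (π / √δ) ≤ π / 2 := (Real.arctan_lt_pi_div_two _).le
  constructor
  · push_cast; nlinarith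
  · push_cast; nlinarith

theorem Phi_four : ∃ c C : ℝ, 0 < c ∧ 0 < C ∧ ∀ δ, 0 < δ → δ ≤ 1 / 2 →
    c * (δ * Real.log (1 / δ)) ≤ Phi 4 δ ∧ Phi 4 δ ≤ C * (δ * Real.log (1 / δ)) := by
  have key : ∀ δ : ℝ, 0 < δ → ∫ y in (0 : ℝ)..π, δ * y ^ (4 - 3) / (δ + y ^ 2) =
      δ / 2 * (log (δ + π ^ 2) - log δ) := by
    intro δ hδ
    have hd : ∀ y ∈ uIcc (0 : ℝ) π, HasDerivAt (fun y => δ / 2 * log (δ + y ^ 2))
        (δ * y ^ (4 - 3) / (δ + y ^ 2)) y := by
      intro y _
      have h3 : δ + y ^ 2 ≠ 0 := by positivity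
      have h1 : HasDerivAt (fun y : ℝ => δ + y ^ 2) (2 * y) y := by
        simpa using (hasDerivAt_pow 2 y).const_add δ
      have h2 := (h1.log h3).const_mul (δ / 2)
      refine h2.congr_deriv ?_
      field_simp
      simp
    rw [intervalIntegral.integral_eq_sub_of_hasDerivAt hd
      ((cont_radial (4 - 3) δ hδ).intervalIntegrable _ _)]
    simp
    ring
  have hlog2 : 0 < log 2 := Real.log_pos one_lt_two
  refine ⟨32, 32 * (1 + log (1 + π ^ 2) / log 2), by positivity, by
    have : 0 < log (1 + π ^ 2) := Real.log_pos (by nlinarith [Real.pi_gt_three])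
    positivity, fun δ hδ hδ1 => ?_⟩
  rw [Phi_eq 4 (by norm_num) δ hδ, key δ hδ]
  have hl : log (1 / δ) = - log δ := by rw [one_div, Real.log_inv]
  have hpos : 0 < log (1 + π ^ 2) := Real.log_pos (by nlinarith [Real.pi_gt_three])
  have h2 : log 2 ≤ - log δ := by
    rw [← hl]
    apply Real.log_le_log two_pos
    rw [le_div_iff₀ hδ]; linarith
  have h3 : 0 ≤ log (δ + π ^ 2) := Real.log_nonneg (by nlinarith [Real.pi_gt_three])
  have h4 : log (δ + π ^ 2) ≤ log (1 + π ^ 2) := Real.log_le_log (by positivity) (by linarith)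
  have h5 : log (1 + π ^ 2) ≤ log (1 + π ^ 2) / log 2 * (- log δ) := by
    rw [div_mul_eq_mul_div, le_div_iff₀ hlog2]
    exact mul_le_mul_of_nonneg_left h2 hpos.le
  rw [hl]
  constructor
  · push_cast
    nlinarith [mul_nonneg hδ.le h3]
  · push_cast
    have h6 : log (δ + π ^ 2) - log δ ≤ (1 + log (1 + π ^ 2) / log 2) * (- log δ) := by
      rw [add_mul, one_mul]; linarith
    nlinarith [mul_le_mul_of_nonneg_left h6 hδ.le]

theorem Phi_ge_five (D : ℕ) (hD : 5 ≤ D) : ∃ c C : ℝ, 0 < c ∧ 0 < C ∧ ∀ δ, 0 < δ → δ ≤ 1 →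
    c * δ ≤ Phi D δ ∧ Phi D δ ≤ C * δ := by
  have hD0 : (0 : ℝ) < D := by exact_mod_cast (by omega : 0 < D)
  refine ⟨(D * 2 ^ D : ℝ) * ∫ y in (0 : ℝ)..π, y ^ (D - 3) / (1 + y ^ 2),
    (D * 2 ^ D : ℝ) * ∫ y in (0 : ℝ)..π, y ^ (D - 5), ?_, ?_, fun δ hδ hδ1 => ?_⟩
  · apply mul_pos (by positivity)
    apply intervalIntegral.intervalIntegral_pos_of_pos_on
    · exact (Continuous.div (by fun_prop) (by fun_prop) fun y => by positivity).intervalIntegrable
        _ _
    · intro y hy
      have := hy.1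
      positivity
    · exact Real.pi_pos
  · apply mul_pos (by positivity)
    apply intervalIntegral.intervalIntegral_pos_of_pos_on
    · exact (continuous_pow _).intervalIntegrable _ _
    · intro y hy
      have := hy.1
      positivity
    · exact Real.pi_pos
  · rw [Phi_eq D (by omega) δ hδ]
    constructor
    · rw [mul_assoc (D * 2 ^ D : ℝ) _ δ, ← intervalIntegral.integral_mul_const]
      apply mul_le_mul_of_nonneg_left _ (by positivity)
      apply intervalIntegral.integral_mono_on Real.pi_pos.le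
      · exact ((Continuous.div (by fun_prop) (by fun_prop) fun y => by
          positivity).mul continuous_const).intervalIntegrable _ _
      · exact (cont_radial _ δ hδ).intervalIntegrable _ _
      · intro y hy
        have hy0 := hy.1
        rw [div_mul_eq_mul_div, mul_comm]
        apply div_le_div_of_nonneg_left (by positivity) (by positivity)
        linarith
    · rw [mul_assoc (D * 2 ^ D : ℝ) _ δ, ← intervalIntegral.integral_mul_const]
      apply mul_le_mul_of_nonneg_left _ (by positivity)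
      apply intervalIntegral.integral_mono_on Real.pi_pos.le
      · exact (cont_radial _ δ hδ).intervalIntegrable _ _
      · exact ((continuous_pow _).mul continuous_const).intervalIntegrable _ _
      · intro y hy
        have hy0 := hy.1
        rw [div_le_iff₀ (by positivity)]
        have e : y ^ (D - 3) = y ^ (D - 5) * y ^ 2 := by
          rw [← pow_add]; congr 1; omega
        rw [e]
        have : 0 ≤ y ^ (D - 5) := by positivity
        nlinarith [mul_nonneg (mul_nonneg this hδ.le) hδ.le]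

end Pool.Agent.SB
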