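import Pool.Agent.SB.Defs
import Pool.Agent.SB.Int

/-!
# Definitions of the analytic part
-/

set_option autoImplicit false
set_option linter.unusedSectionVars false

namespace Pool.Agent.SB

open Finset Filter Topology

/-- The transverse lattice. -/
abbrev Gam (D : ℕ) := Fin D → ℤ

/-- `ℓ¹` and `ℓ^∞` of an index set. -/
abbrev L1 (α : Type) := lp (fun _ : α => ℝ) 1
abbrev Li (α : Type) := lp (fun _ : α => ℝ) ⊤

section defs
variable (D q : ℕ) [NeZero q]

noncomputable def AA : ℝ := 128 * q * (D + 1)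
/-- The largest `z`; note `zm q β = AA D q / rr D β`. -/
noncomputable def zm (β : ℝ) : ℝ := 4 * q / β
noncomputable def za (β : ℝ) : ℝ := 1 / (4 * rr D β)
noncomputable def c0 (β : ℝ) : ℝ := cc (D := D) q β 1 (0, 0) (1, 0)
noncomputable def kap0 (β : ℝ) : ℝ := kap (D := D) q β 1 (0, 0)

/-- Laplace transform of the excursion kernel. -/
noncomputable def Sz (β J z : ℝ) (x y : Gam D) : ℝ :=
  ∑' p : ℤ × ℕ, z ^ p.1 * SS D q β J (0, x) (p.1, y) p.2

/-- Laplace transform of the one-step kernel. -/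
noncomputable def dz (β J z : ℝ) (x y : Gam D) : ℝ :=
  if y = x then z * cc q β J (0, x) (1, x) + z⁻¹ * cc q β J (0, x) (-1, x) - kap q β J (0, x)
  else if (0, y) ∈ nb ((0, x) : Site D) then cc q β J (0, x) (0, y) else 0

noncomputable def Ez (β J z : ℝ) (x y : Gam D) : ℝ := dz D q β J z x y + Sz D q β J z x y

/-- The scalar part of the perturbation. -/
noncomputable def vsc (β J z : ℝ) : ℝ := Ez D q β J z 0 0 - Ez D q β 1 z 0 0

/-- The rest of the perturbation. -/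
noncomputable def Vf (β J z : ℝ) (p : Gam D × Gam D) : ℝ :=
  if p = (0, 0) then 0 else Ez D q β J z p.1 p.2 - Ez D q β 1 z p.1 p.2

/-- The homogeneous operator. -/
noncomputable def Hz (β z : ℝ) (g : Gam D → ℝ) (w : Gam D) : ℝ :=
  (1 + kap0 D q β - c0 D q β * (z + z⁻¹)) * g w -
    c0 D q β * ∑ i, (g (w + Pi.single i 1) + g (w - Pi.single i 1)) -
    ∑' u, Sz D q β 1 z 0 u * g (w + u)

/-- Its symbol. -/
noncomputable def hh (β z : ℝ) (k : Fin D → ℝ) : ℝ :=
  1 + kap0 D q β - c0 D q β * (z + z⁻¹) - 2 * c0 D q β * ∑ i, Real.cos (k i) -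
    ∑' w : Gam D, Sz D q β 1 z 0 w * Real.cos (∑ i, k i * w i)

/-- The resolvent kernel. -/
noncomputable def Rz (β z : ℝ) (x : Gam D) : ℝ :=
  ((2 * Real.pi) ^ D)⁻¹ * ∫ k in cube D, Real.cos (∑ i, k i * x i) / hh D q β z k

end defs

/-- The source: `τ, σ` as in `G_eqn`. -/
noncomputable def src {D : ℕ} (τ : Site D → ℝ) (σ : Site D → Site D → ℕ → ℝ) (z : ℝ)
    (x : Gam D) : ℝ :=
  (if x = 0 then 1 - τ (0, 0) else 0) + ∑' p : ℤ × ℕ, z ^ p.1 * σ (0, x) (p.1, 0) p.2

/-- The scalar function whose zero is the singularity. -/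
noncomputable def DD {X Y : Type} [NormedAddCommGroup X] [NormedSpace ℝ X] [NormedAddCommGroup Y]
    [NormedSpace ℝ Y] (e : X) (ε : Y →L[ℝ] ℝ) (R : X →L[ℝ] Y) (V : Y →L[ℝ] X) (v : ℝ) : ℝ :=
  1 - v * ε (R ((Ring.inverse (1 - V.comp R) : X →L[ℝ] X) e))

end Pool.Agent.SB
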