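import Pool.Agent.SB.Vol
import Pool.Agent.SB.Defs2

/-! Row FEK: the inverse correlation length. -/

set_option autoImplicit false
set_option linter.unusedSectionVars false
set_option linter.unusedVariables false

namespace Pool.Agent.SB

open Finset Filter Topology

variable {D q : ℕ} [NeZero q]

theorem G_add (hq : 2 ≤ q) (β J : ℝ) (hβ : 0 ≤ β) (hJ : 0 ≤ J) (m n : ℕ) :
    G D q β J (0, 0) ((m : ℤ), 0) * G D q β J (0, 0) ((n : ℤ), 0) ≤
      G D q β J (0, 0) (((m + n : ℕ) : ℤ), 0) := by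
  have h1 := G_shift hq β J hβ hJ ((0, 0) : Site D) ((n : ℤ), 0) (m : ℤ)
  simp only [zero_add] at h1
  have h2 := G_mul hq β J hβ hJ ((0, 0) : Site D) ((m : ℤ), 0) ((n : ℤ) + m, 0)
  rw [h1] at h2
  push_cast
  rwa [add_comm (m : ℤ)]

theorem subadd (hq : 2 ≤ q) (hD : 1 ≤ D) (β J : ℝ) (hβ : 0 < β) (hJ : 0 ≤ J) :
    Subadditive fun n : ℕ => -Real.log (G D q β J (0, 0) ((n : ℤ), 0)) := by
  intro m n
  have hp : ∀ n : ℕ, 0 < G D q β J (0, 0) ((n : ℤ), 0) := fun n => G_pos hq hD β J hβ hJ _ _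
  have h1 := Real.log_le_log (mul_pos (hp m) (hp n)) (G_add hq β J hβ.le hJ m n)
  rw [Real.log_mul (hp m).ne' (hp n).ne'] at h1
  linarith

theorem bddBelow_log (hq : 2 ≤ q) (β J : ℝ) (hβ : 0 ≤ β) (hJ : 0 ≤ J) :
    BddBelow (Set.range fun n : ℕ => -Real.log (G D q β J (0, 0) ((n : ℤ), 0)) / n) := by
  refine ⟨0, ?_⟩
  rintro _ ⟨n, rfl⟩
  have h1 : Real.log (G D q β J (0, 0) ((n : ℤ), 0)) ≤ 0 :=
    Real.log_nonpos (G_nonneg hq β J hβ hJ _ _) (G_le_one hq β J hβ hJ _ _)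
  simp only
  exact div_nonneg (by linarith) (Nat.cast_nonneg n)

theorem tendsto_form (hq : 2 ≤ q) (hD : 1 ≤ D) (β J : ℝ) (hβ : 0 < β) (hJ : 0 ≤ J) :
    Tendsto (fun n : ℕ => -(1 / (n : ℝ)) * Real.log (G D q β J (0, 0) ((n : ℤ), 0))) atTop
      (𝓝 (subadd (D := D) (q := q) hq hD β J hβ hJ).lim) := by
  have h := (subadd (D := D) (q := q) hq hD β J hβ hJ).tendsto_lim
    (bddBelow_log hq β J hβ.le hJ)
  refine h.congr fun n => ?_
  rw [div_eq_mul_inv, one_div]
  ring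

/-- The exponential upper bound with the exact rate. -/
theorem G_le_exp (hq : 2 ≤ q) (hD : 1 ≤ D) (β J : ℝ) (hβ : 0 < β) (hJ : 0 ≤ J) (ξ : ℝ)
    (hξ : Tendsto (fun n : ℕ => -(1 / (n : ℝ)) * Real.log (G D q β J (0, 0) ((n : ℤ), 0))) atTop
      (𝓝 ξ)) (n : ℕ) : G D q β J (0, 0) ((n : ℤ), 0) ≤ Real.exp (-ξ * n) := by
  have hlim : (subadd (D := D) (q := q) hq hD β J hβ hJ).lim = ξ :=
    tendsto_nhds_unique (tendsto_form hq hD β J hβ hJ) hξ
  rcases Nat.eq_zero_or_pos n with h0 | h0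
  · subst h0
    simp only [Nat.cast_zero, mul_zero, Real.exp_zero]
    exact G_le_one hq β J hβ.le hJ _ _
  · have h1 := (subadd (D := D) (q := q) hq hD β J hβ hJ).lim_le_div
      (bddBelow_log hq β J hβ.le hJ) h0.ne'
    rw [hlim] at h1
    have h2 : (0 : ℝ) < n := Nat.cast_pos.2 h0
    rw [le_div_iff₀ h2] at h1
    rw [← Real.log_le_iff_le_exp (G_pos hq hD β J hβ hJ _ _)]
    linarith

theorem exists_xi (D q : ℕ) [NeZero q] (hq : 2 ≤ q) (hD : 1 ≤ D) (β J : ℝ) (hβ : 0 < β)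
    (hJ : 0 ≤ J) : ∃ ξ : ℝ,
      Tendsto (fun n : ℕ => -(1 / (n : ℝ)) * Real.log (G D q β J (0, 0) (n, 0))) atTop (𝓝 ξ) ∧
      (∀ z, 0 < z → Summable (fun n : ℕ => z ^ n * G D q β J (0, 0) (n, 0)) → Real.log z ≤ ξ) ∧
      (∀ z, 0 < z → Real.log z < ξ → Summable (fun n : ℕ => z ^ n * G D q β J (0, 0) (n, 0))) := by
  have ht := tendsto_form (D := D) (q := q) hq hD β J hβ hJ
  set ξ := (subadd (D := D) (q := q) hq hD β J hβ hJ).lim with hξ
  have hp : ∀ n : ℕ, 0 < G D q β J (0, 0) ((n : ℤ), 0) := fun n => G_pos hq hD β J hβ hJ _ _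
  refine ⟨ξ, ht, ?_, ?_⟩
  · intro z hz hs
    by_contra hlt
    push Not at hlt
    have h0 := hs.tendsto_atTop_zero
    have h1 : ∀ᶠ n : ℕ in atTop, -(1 / (n : ℝ)) * Real.log (G D q β J (0, 0) ((n : ℤ), 0)) <
        Real.log z := ht.eventually (gt_mem_nhds hlt)
    have h2 : ∀ᶠ n : ℕ in atTop, z ^ n * G D q β J (0, 0) ((n : ℤ), 0) < 1 :=
      h0.eventually (gt_mem_nhds zero_lt_one)
    obtain ⟨n, ⟨hn1, hn2⟩, hn3⟩ := ((h1.and h2).and (eventually_ge_atTop 1)).exists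
    have hn : (0 : ℝ) < n := by exact_mod_cast (by omega : 0 < n)
    have h3 : -Real.log (G D q β J (0, 0) ((n : ℤ), 0)) < n * Real.log z := by
      have := mul_lt_mul_of_pos_left hn1 hn
      rw [← mul_assoc, mul_neg, mul_one_div_cancel hn.ne'] at this
      linarith
    have h4 : Real.log (z ^ n * G D q β J (0, 0) ((n : ℤ), 0)) < 0 :=
      Real.log_neg (mul_pos (pow_pos hz n) (hp n)) hn2
    rw [Real.log_mul (pow_pos hz n).ne' (hp n).ne', Real.log_pow] at h4
    linarith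
  · intro z hz hlt
    have hr : z * Real.exp (-ξ) < 1 := by
      have : z = Real.exp (Real.log z) := (Real.exp_log hz).symm
      rw [this, ← Real.exp_add]
      exact Real.exp_lt_one_iff.2 (by linarith)
    have hr0 : 0 ≤ z * Real.exp (-ξ) := by positivity
    refine Summable.of_nonneg_of_le (fun n => mul_nonneg (pow_pos hz n).le (hp n).le) (fun n => ?_)
      (summable_geometric_of_lt_one hr0 hr)
    rw [mul_pow, ← Real.exp_nat_mul]
    refine mul_le_mul_of_nonneg_left ?_ (pow_pos hz n).le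
    have := G_le_exp hq hD β J hβ hJ ξ ht n
    rwa [mul_comm (n : ℝ)]

/-- Products of a summable function are summable over the lattice. -/
theorem summable_prod_lattice {ι : Type*} [Fintype ι] [DecidableEq ι] {α : Type*} [DecidableEq α]
    (f : α → ℝ) (hf : ∀ k, 0 ≤ f k) (hs : Summable f) :
    Summable fun x : ι → α => ∏ i, f (x i) := by
  refine summable_of_sum_le (c := (∑' k, f k) ^ Fintype.card ι)
    (fun x => Finset.prod_nonneg fun i _ => hf _) fun u => ?_
  have hsub : u ⊆ Fintype.piFinset fun i => u.image fun x => x i := by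
    intro x hx
    rw [Fintype.mem_piFinset]
    exact fun i => Finset.mem_image_of_mem (fun x => x i) hx
  calc ∑ x ∈ u, ∏ i, f (x i) ≤ ∑ x ∈ Fintype.piFinset fun i => u.image fun x => x i, ∏ i, f (x i) :=
        Finset.sum_le_sum_of_subset_of_nonneg hsub fun x _ _ => Finset.prod_nonneg fun i _ => hf _
    _ = ∏ i, ∑ k ∈ u.image fun x => x i, f k := (Finset.prod_univ_sum _ _).symm
    _ ≤ ∏ _i : ι, ∑' k, f k := Finset.prod_le_prod
        (fun i _ => Finset.sum_nonneg fun k _ => hf k)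
        (fun i _ => hs.sum_le_tsum _ fun k _ => hf k)
    _ = _ := by rw [Finset.prod_const, Finset.card_univ]

theorem summable_natAbs (s : ℝ) (h0 : 0 ≤ s) (h1 : s < 1) :
    Summable fun k : ℤ => s ^ k.natAbs := by
  refine Summable.of_nat_of_neg ?_ ?_
  · simpa using summable_geometric_of_lt_one h0 h1
  · simpa using summable_geometric_of_lt_one h0 h1

theorem summable_nt (D : ℕ) (s : ℝ) (h0 : 0 ≤ s) (h1 : s < 1) :
    Summable fun x : Gam D => s ^ nt x := by
  have h := summable_prod_lattice (ι := Fin D) (fun k : ℤ => s ^ k.natAbs)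
    (fun k => pow_nonneg h0 _) (summable_natAbs s h0 h1)
  refine h.congr fun x => ?_
  rw [nt, Finset.prod_pow_eq_pow_sum]

/-- The square of an off axis value is at most an on axis value, homogeneous model. -/
theorem G_sq_le (hq : 2 ≤ q) (β : ℝ) (hβ : 0 ≤ β) (x : Gam D) (n : ℤ) :
    G D q β 1 (0, x) (n, 0) ^ 2 ≤ G D q β 1 (0, 0) (2 * n, 0) := by
  have h1 : G D q β 1 (n, 0) (2 * n, x) = G D q β 1 (0, x) (n, 0) := by
    have e1 := G_refl hq β 1 hβ zero_le_one ((0, x) : Site D) (n, 0)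
    have e2 := G_shift hq β 1 hβ zero_le_one ((-0, x) : Site D) (-n, 0) (2 * n)
    rw [e1] at e2
    simp only at e2
    rw [G_comm hq β 1 hβ zero_le_one, ← e2]
    congr 2 <;> ring
  have h2 := G_mul hq β 1 hβ zero_le_one ((0, x) : Site D) (n, 0) (2 * n, x)
  rw [h1] at h2
  have h3 := G_shift_one hq β hβ ((0, 0) : Site D) (2 * n, 0) x
  simp only [zero_add] at h3
  rw [h3] at h2
  rw [sq]
  exact h2

/-- The full sum converges if the on-axis rate is larger; the decay is a hypothesis. -/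
theorem summable_full (hq : 2 ≤ q) (hD : 1 ≤ D) (β z ξ s A : ℝ) (hβ : 0 < β)
    (hz : 1 ≤ z) (hs0 : 0 < s) (hs1 : s < 1) (hρ0 : 0 ≤ rr D β)
    (hdec : ∀ x y : Site D, G D q β 1 x y ≤ 4 * (rr D β) ^ dist1 x y)
    (hA1 : 1 ≤ A) (hzA : z * rr D β ≤ A) (hAs : A * rr D β ≤ s ^ 2)
    (hzξ : z * Real.exp (-ξ) ≤ s ^ 2)
    (hξ : Tendsto (fun n : ℕ => -(1 / (n : ℝ)) * Real.log (G D q β 1 (0, 0) ((n : ℤ), 0))) atTop
      (𝓝 ξ)) :
    Summable (fun p : Gam D × ℤ => z ^ p.2 * G D q β 1 (0, p.1) (p.2, 0)) := by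
  have hz0 : 0 < z := by linarith
  have hG0 : ∀ x y : Site D, 0 ≤ G D q β 1 x y := fun x y => G_nonneg hq β 1 hβ.le zero_le_one x y
  have hsum : Summable (fun p : Gam D × ℤ => 4 * (s ^ nt p.1 * s ^ p.2.natAbs)) := by
    refine Summable.mul_left 4 ?_
    exact (summable_nt D s hs0.le hs1).mul_of_nonneg (summable_natAbs s hs0.le hs1)
      (fun x => pow_nonneg hs0.le _) (fun n => pow_nonneg hs0.le _)
  refine Summable.of_nonneg_of_le (fun p => mul_nonneg (zpow_nonneg hz0.le _) (hG0 _ _)) ?_ hsum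
  rintro ⟨x, n⟩
  simp only
  set m : ℕ := n.natAbs with hm
  -- reduction to nonnegative exponents
  have hred : z ^ n * G D q β 1 (0, x) (n, 0) ≤ z ^ m * G D q β 1 (0, x) ((m : ℤ), 0) := by
    rcases le_total 0 n with hn | hn
    · have h1 : (m : ℤ) = n := by omega
      rw [← zpow_natCast, h1]
    · have h1 : (m : ℤ) = -n := by omega
      have h2 := G_refl hq β 1 hβ.le zero_le_one ((0, x) : Site D) (n, 0)
      simp only [neg_zero] at h2
      rw [← zpow_natCast, h1, h2]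
      refine mul_le_mul_of_nonneg_right ?_ (hG0 _ _)
      exact zpow_le_zpow_right₀ hz (by omega)
  refine hred.trans ?_
  rcases le_or_gt (nt x) m with hxm | hxm
  · have h1 : G D q β 1 (0, x) ((m : ℤ), 0) ≤ Real.exp (-ξ) ^ m := by
      have h2 := G_sq_le (q := q) hq β hβ.le x (m : ℤ)
      have h3 := G_le_exp hq hD β 1 hβ zero_le_one ξ hξ (2 * m)
      push_cast at h3
      have h4 : G D q β 1 (0, x) ((m : ℤ), 0) ^ 2 ≤ (Real.exp (-ξ) ^ m) ^ 2 := by
        refine h2.trans (h3.trans (le_of_eq ?_))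
        rw [← pow_mul, ← Real.exp_nat_mul]
        congr 1
        push_cast
        ring
      exact le_of_sq_le_sq h4 (by positivity)
    have h5 : z ^ m * G D q β 1 (0, x) ((m : ℤ), 0) ≤ (s ^ 2) ^ m := by
      calc z ^ m * G D q β 1 (0, x) ((m : ℤ), 0) ≤ z ^ m * Real.exp (-ξ) ^ m :=
            mul_le_mul_of_nonneg_left h1 (pow_pos hz0 m).le
        _ = (z * Real.exp (-ξ)) ^ m := (mul_pow _ _ _).symm
        _ ≤ (s ^ 2) ^ m := pow_le_pow_left₀ (by positivity) hzξ m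
    refine h5.trans ?_
    rw [← pow_mul, ← pow_add]
    have h6 : s ^ (2 * m) ≤ s ^ (nt x + m) :=
      pow_le_pow_of_le_one hs0.le hs1.le (by omega)
    have h7 : 0 ≤ s ^ (nt x + m) := pow_nonneg hs0.le _
    linarith
  · have h1 : dist1 ((0, x) : Site D) ((m : ℤ), 0) = m + nt x := by
      unfold dist1 nt
      simp
    have h2 := hdec ((0, x) : Site D) ((m : ℤ), 0)
    rw [h1] at h2
    have h3 : z ^ m * G D q β 1 (0, x) ((m : ℤ), 0) ≤ 4 * (s ^ 2) ^ nt x := by
      calc z ^ m * G D q β 1 (0, x) ((m : ℤ), 0) ≤ z ^ m * (4 * (rr D β) ^ (m + nt x)) :=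
            mul_le_mul_of_nonneg_left h2 (pow_pos hz0 m).le
        _ = 4 * ((z * rr D β) ^ m * rr D β ^ nt x) := by
            rw [mul_pow, pow_add]
            ring
        _ ≤ 4 * (A ^ nt x * rr D β ^ nt x) := by
            refine mul_le_mul_of_nonneg_left (mul_le_mul_of_nonneg_right ?_
              (pow_nonneg hρ0 _)) (by norm_num)
            calc (z * rr D β) ^ m ≤ A ^ m := pow_le_pow_left₀ (by positivity) hzA m
              _ ≤ A ^ nt x := pow_le_pow_right₀ hA1 hxm.le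
        _ = 4 * (A * rr D β) ^ nt x := by rw [mul_pow]
        _ ≤ 4 * (s ^ 2) ^ nt x := by
            refine mul_le_mul_of_nonneg_left (pow_le_pow_left₀ (by positivity) hAs _) (by norm_num)
    refine h3.trans ?_
    refine mul_le_mul_of_nonneg_left ?_ (by norm_num)
    rw [← pow_mul, ← pow_add]
    exact pow_le_pow_of_le_one hs0.le hs1.le (by omega)

end Pool.Agent.SB
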