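import Pool.Agent.SB.FK2

/-! Row VOL: finite and infinite volume two-point functions. -/

set_option autoImplicit false
set_option linter.unusedSectionVars false
set_option linter.unusedVariables false

namespace Pool.Agent.SB

open Finset Filter Topology

section Inj

variable {W W' : Type*} [Fintype W] [DecidableEq W] [Fintype W'] [DecidableEq W'] {q : ℕ} [NeZero q]

/-- Sums of functions of the restriction of a configuration. -/
theorem sum_comp_inj (ι : W → W') (hι : Function.Injective ι) :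
    ∃ c : ℝ, 0 < c ∧ ∀ F : (W → ZMod q) → ℝ,
      ∑ s : W' → ZMod q, F (s ∘ ι) = c * ∑ s : W → ZMod q, F s := by
  classical
  set K : (W → ZMod q) → Finset (W' → ZMod q) := fun t => Finset.univ.filter fun s => s ∘ ι = t
    with hK
  have hcard : ∀ t, (K t).card = (K 0).card := by
    intro t
    have hx : (Function.extend ι t 0) ∘ ι = t := by
      funext i
      exact hι.extend_apply t 0 i
    refine Finset.card_bij (fun s _ => s - Function.extend ι t 0) ?_ ?_ ?_
    · intro s hs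
      simp only [hK, Finset.mem_filter, Finset.mem_univ, true_and] at hs ⊢
      have : (s - Function.extend ι t 0) ∘ ι = s ∘ ι - (Function.extend ι t 0) ∘ ι := rfl
      rw [this, hs, hx, sub_self]
    · intro a _ b _ h
      exact sub_left_injective h
    · intro s hs
      simp only [hK, Finset.mem_filter, Finset.mem_univ, true_and] at hs
      refine ⟨s + Function.extend ι t 0, ?_, add_sub_cancel_right _ _⟩
      simp only [hK, Finset.mem_filter, Finset.mem_univ, true_and]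
      have : (s + Function.extend ι t 0) ∘ ι = s ∘ ι + (Function.extend ι t 0) ∘ ι := rfl
      rw [this, hs, hx, zero_add]
  refine ⟨(K 0).card, ?_, fun F => ?_⟩
  · have : 0 < (K 0).card := Finset.card_pos.2 ⟨0, by
      simp only [hK, Finset.mem_filter, Finset.mem_univ, true_and]
      rfl⟩
    exact_mod_cast this
  · rw [← Finset.sum_fiberwise (s := Finset.univ) (g := fun s : W' → ZMod q => s ∘ ι)
      (f := fun s => F (s ∘ ι)), Finset.mul_sum]
    refine Finset.sum_congr rfl fun t _ => ?_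
    have h1 : ∑ s ∈ Finset.univ.filter (fun s : W' → ZMod q => s ∘ ι = t), F (s ∘ ι) =
        ∑ s ∈ K t, F t := by
      refine Finset.sum_congr rfl fun s hs => ?_
      rw [(Finset.mem_filter.1 hs).2]
    rw [h1, Finset.sum_const, hcard t, nsmul_eq_mul]

/-- More sites and larger weights. -/
theorem g2_inj_le (hq : 2 ≤ q) (ι : W → W') (hι : Function.Injective ι) (v : W × W → ℝ)
    (v' : W' × W' → ℝ) (hv : ∀ p, 0 ≤ v p) (hv' : ∀ p, 0 ≤ v' p)
    (h : ∀ p : W × W, v p ≤ v' (ι p.1, ι p.2)) (x y : W) :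
    g2 q v x y ≤ g2 q v' (ι x) (ι y) := by
  classical
  have hm : Function.Injective (Prod.map ι ι) := hι.prodMap hι
  set v'' : W' × W' → ℝ := Function.extend (Prod.map ι ι) v 0 with hv''
  have hex : ∀ p : W × W, v'' (ι p.1, ι p.2) = v p := fun p => hm.extend_apply v 0 p
  have hne : ∀ p : W' × W', p ∉ Set.range (Prod.map ι ι) → v'' p = 0 := fun p hp =>
    Function.extend_apply' _ _ _ (fun ⟨a, ha⟩ => hp ⟨a, ha⟩)
  have h0 : ∀ p, 0 ≤ v'' p := by
    intro p
    by_cases hp : p ∈ Set.range (Prod.map ι ι)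
    · obtain ⟨a, rfl⟩ := hp
      exact le_of_le_of_eq (hv a) (hex a).symm
    · rw [hne p hp]
  have h1 : ∀ p, v'' p ≤ v' p := by
    intro p
    by_cases hp : p ∈ Set.range (Prod.map ι ι)
    · obtain ⟨a, rfl⟩ := hp
      exact le_of_eq_of_le (hex a) (h a)
    · rw [hne p hp]
      exact hv' p
  have hwt : ∀ s : W' → ZMod q, wt v'' s = wt v (s ∘ ι) := by
    intro s
    unfold wt
    symm
    refine Fintype.prod_of_injective (Prod.map ι ι) hm _ _ ?_ ?_
    · intro p hp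
      rw [hne p hp]
      simp
    · intro p
      have := hex p
      simp only [Prod.map, Function.comp_apply]
      rw [this]
  have hg : g2 q v'' (ι x) (ι y) = g2 q v x y := by
    obtain ⟨c, hc, hF⟩ := sum_comp_inj (q := q) ι hι
    unfold g2
    have e1 : ∑ s : W' → ZMod q, cosq (s (ι x) - s (ι y)) * wt v'' s =
        ∑ s : W' → ZMod q, (fun t : W → ZMod q => cosq (t x - t y) * wt v t) (s ∘ ι) := by
      refine Finset.sum_congr rfl fun s _ => ?_
      rw [hwt s]
      rfl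
    have e2 : ∑ s : W' → ZMod q, wt v'' s =
        ∑ s : W' → ZMod q, (fun t : W → ZMod q => wt v t) (s ∘ ι) :=
      Finset.sum_congr rfl fun s _ => hwt s
    rw [e1, e2, hF (fun t : W → ZMod q => cosq (t x - t y) * wt v t),
      hF (fun t : W → ZMod q => wt v t), mul_div_mul_left _ _ hc.ne']
  rw [← hg]
  exact g2_mono hq v'' v' h0 h1 (ι x) (ι y)

end Inj

variable {D q : ℕ} [NeZero q]

/-- Half edge weights. -/
noncomputable def vh {D : ℕ} (β J : ℝ) (Λ : Finset (Site D)) (p : Λ × Λ) : ℝ :=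
  if dist1 p.1.1 p.2.1 = 1 then Real.exp (β * coup J p.1.1 p.2.1 / 2) - 1 else 0

theorem coup_nonneg {J : ℝ} (hJ : 0 ≤ J) (x y : Site D) : 0 ≤ coup J x y := by
  unfold coup
  split_ifs
  · exact hJ
  · exact zero_le_one

theorem vh_nonneg {β J : ℝ} (hβ : 0 ≤ β) (hJ : 0 ≤ J) (Λ : Finset (Site D)) (p : Λ × Λ) :
    0 ≤ vh β J Λ p := by
  unfold vh
  split_ifs
  · have h := coup_nonneg hJ p.1.1 p.2.1
    have h1 : 0 ≤ β * coup J p.1.1 p.2.1 / 2 := by positivity
    linarith [Real.one_le_exp h1]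
  · exact le_rfl

theorem ext_mem {Λ : Finset (Site D)} (s : Λ → ZMod q) (p : Λ) : ext s p.1 = s p := by
  unfold ext
  rw [dif_pos p.2]

theorem ext_of_mem {Λ : Finset (Site D)} (s : Λ → ZMod q) {x : Site D} (hx : x ∈ Λ) :
    ext s x = s ⟨x, hx⟩ := by
  unfold ext
  rw [dif_pos hx]

theorem exp_energy (β J : ℝ) (Λ : Finset (Site D)) (s : Λ → ZMod q) :
    Real.exp (β * energy J Λ s) = wt (vh β J Λ) s := by
  have h1 : β * energy J Λ s = ∑ p : Λ × Λ,
      (if dist1 p.1.1 p.2.1 = 1 ∧ s p.1 = s p.2 then β * coup J p.1.1 p.2.1 / 2 else 0) := by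
    unfold energy
    rw [Fintype.sum_prod_type, ← Finset.sum_coe_sort Λ, Finset.mul_sum, Finset.mul_sum]
    refine Finset.sum_congr rfl fun a _ => ?_
    rw [← Finset.sum_coe_sort Λ, Finset.mul_sum, Finset.mul_sum]
    refine Finset.sum_congr rfl fun b _ => ?_
    rw [ext_mem, ext_mem]
    split_ifs <;> ring
  rw [h1, Real.exp_sum]
  unfold wt
  refine Finset.prod_congr rfl fun p _ => ?_
  unfold vh
  by_cases h2 : dist1 p.1.1 p.2.1 = 1
  · by_cases h3 : s p.1 = s p.2
    · rw [if_pos ⟨h2, h3⟩, if_pos h3, if_pos h2]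
      ring
    · rw [if_neg (fun h => h3 h.2), if_neg h3, Real.exp_zero, add_zero]
  · rw [if_neg (fun h => h2 h.1), if_neg h2, Real.exp_zero]
    simp

theorem sum_char (Λ : Finset (Site D)) (s : Λ → ZMod q) (x y : Site D) :
    ((Finsupp.single x (1 : ZMod q) - Finsupp.single y 1).sum fun x k => k * ext s x) =
      ext s x - ext s y := by
  rw [Finsupp.sum_sub_index]
  · rw [Finsupp.sum_single_index, Finsupp.sum_single_index] <;> simp
  · intro a b c
    ring

theorem gL_eq (β J : ℝ) (Λ : Finset (Site D)) {x y : Site D} (hx : x ∈ Λ) (hy : y ∈ Λ) :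
    gL D q β J Λ x y = g2 q (vh β J Λ) ⟨x, hx⟩ ⟨y, hy⟩ := by
  unfold gL uL g2
  rw [if_pos ⟨hx, hy⟩]
  congr 1
  · refine Finset.sum_congr rfl fun s _ => ?_
    rw [sum_char, exp_energy, ext_of_mem s hx, ext_of_mem s hy]
  · exact Finset.sum_congr rfl fun s _ => exp_energy β J Λ s

theorem gL_of_not (β J : ℝ) (Λ : Finset (Site D)) {x y : Site D} (h : ¬ (x ∈ Λ ∧ y ∈ Λ)) :
    gL D q β J Λ x y = 0 := by
  unfold gL
  rw [if_neg h]

theorem gL_nonneg (hq : 2 ≤ q) {β J : ℝ} (hβ : 0 ≤ β) (hJ : 0 ≤ J) (Λ : Finset (Site D))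
    (x y : Site D) : 0 ≤ gL D q β J Λ x y := by
  by_cases h : x ∈ Λ ∧ y ∈ Λ
  · rw [gL_eq β J Λ h.1 h.2]
    exact g2_nonneg hq _ (vh_nonneg hβ hJ Λ) _ _
  · rw [gL_of_not β J Λ h]

theorem gL_le_one {β J : ℝ} (hβ : 0 ≤ β) (hJ : 0 ≤ J) (Λ : Finset (Site D))
    (x y : Site D) : gL D q β J Λ x y ≤ 1 := by
  by_cases h : x ∈ Λ ∧ y ∈ Λ
  · rw [gL_eq β J Λ h.1 h.2]
    exact g2_le_one _ (vh_nonneg hβ hJ Λ) _ _
  · rw [gL_of_not β J Λ h]
    exact zero_le_one

theorem gL_map_le (hq : 2 ≤ q) {β J J' : ℝ} (hβ : 0 ≤ β) (hJ : 0 ≤ J) (hJ' : 0 ≤ J')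
    (e : Site D → Site D) (he : Function.Injective e) (Λ Λ' : Finset (Site D))
    (hΛ : ∀ x ∈ Λ, e x ∈ Λ') (hd : ∀ x y, dist1 x y = 1 → dist1 (e x) (e y) = 1)
    (hc : ∀ x y, dist1 x y = 1 → coup J x y ≤ coup J' (e x) (e y)) (x y : Site D) :
    gL D q β J Λ x y ≤ gL D q β J' Λ' (e x) (e y) := by
  by_cases h : x ∈ Λ ∧ y ∈ Λ
  · rw [gL_eq β J Λ h.1 h.2, gL_eq β J' Λ' (hΛ x h.1) (hΛ y h.2)]
    refine g2_inj_le hq (fun z : Λ => (⟨e z.1, hΛ z.1 z.2⟩ : Λ')) ?_ _ _ (vh_nonneg hβ hJ Λ)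
      (vh_nonneg hβ hJ' Λ') ?_ ⟨x, h.1⟩ ⟨y, h.2⟩
    · intro a b hab
      exact Subtype.ext (he (congrArg Subtype.val hab))
    · intro p
      unfold vh
      by_cases h1 : dist1 p.1.1 p.2.1 = 1
      · rw [if_pos h1, if_pos (hd _ _ h1)]
        have h2 := hc _ _ h1
        have h3 : β * coup J p.1.1 p.2.1 / 2 ≤ β * coup J' (e p.1.1) (e p.2.1) / 2 := by
          have := mul_le_mul_of_nonneg_left h2 hβ
          linarith
        have := Real.exp_le_exp.2 h3
        linarith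
      · rw [if_neg h1]
        exact vh_nonneg hβ hJ' Λ' _
  · rw [gL_of_not β J Λ h]
    exact gL_nonneg hq hβ hJ' _ _ _

theorem bdd (β J : ℝ) (hβ : 0 ≤ β) (hJ : 0 ≤ J) (x y : Site D) :
    BddAbove (Set.range fun Λ : Finset (Site D) => gL D q β J Λ x y) :=
  ⟨1, by rintro _ ⟨Λ, rfl⟩; exact gL_le_one hβ hJ Λ x y⟩

theorem G_nonneg (hq : 2 ≤ q) (β J : ℝ) (hβ : 0 ≤ β) (hJ : 0 ≤ J) (x y : Site D) :
    0 ≤ G D q β J x y :=
  le_ciSup_of_le (bdd β J hβ hJ x y) ∅ (gL_nonneg hq hβ hJ _ _ _)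

theorem G_le_one (hq : 2 ≤ q) (β J : ℝ) (hβ : 0 ≤ β) (hJ : 0 ≤ J) (x y : Site D) :
    G D q β J x y ≤ 1 :=
  ciSup_le fun Λ => gL_le_one hβ hJ Λ x y

theorem gL_le_G (β J : ℝ) (hβ : 0 ≤ β) (hJ : 0 ≤ J) (Λ : Finset (Site D))
    (x y : Site D) : gL D q β J Λ x y ≤ G D q β J x y :=
  le_ciSup (bdd β J hβ hJ x y) Λ

theorem G_self (hq : 2 ≤ q) (β J : ℝ) (hβ : 0 ≤ β) (hJ : 0 ≤ J) (x : Site D) :
    G D q β J x x = 1 := by
  refine le_antisymm (G_le_one hq β J hβ hJ x x) ?_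
  have h := gL_le_G (q := q) β J hβ hJ {x} x x
  rwa [gL_eq β J {x} (Finset.mem_singleton_self x) (Finset.mem_singleton_self x),
    g2_self _ (vh_nonneg hβ hJ _)] at h

theorem G_map_le (hq : 2 ≤ q) {β J J' : ℝ} (hβ : 0 ≤ β) (hJ : 0 ≤ J) (hJ' : 0 ≤ J')
    (e : Site D → Site D) (he : Function.Injective e)
    (hd : ∀ x y, dist1 x y = 1 → dist1 (e x) (e y) = 1)
    (hc : ∀ x y, dist1 x y = 1 → coup J x y ≤ coup J' (e x) (e y)) (x y : Site D) :
    G D q β J x y ≤ G D q β J' (e x) (e y) := by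
  classical
  refine ciSup_le fun Λ => ?_
  refine (gL_map_le hq hβ hJ hJ' e he Λ (Λ.image e) (fun z hz => Finset.mem_image_of_mem e hz)
    hd hc x y).trans (gL_le_G β J' hβ hJ' _ _ _)

theorem gL_mono (hq : 2 ≤ q) {β J : ℝ} (hβ : 0 ≤ β) (hJ : 0 ≤ J) (x y : Site D) :
    Monotone fun Λ : Finset (Site D) => gL D q β J Λ x y := fun _ _ h =>
  gL_map_le hq hβ hJ hJ id Function.injective_id _ _ (fun z hz => h hz) (fun _ _ h => h)
    (fun _ _ _ => le_rfl) x y

theorem tendsto_gL (hq : 2 ≤ q) (β J : ℝ) (hβ : 0 ≤ β) (hJ : 0 ≤ J) (x y : Site D) :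
    Tendsto (fun Λ : Finset (Site D) => gL D q β J Λ x y) atTop (𝓝 (G D q β J x y)) :=
  tendsto_atTop_ciSup (gL_mono hq hβ hJ x y) (bdd β J hβ hJ x y)

theorem gL_mul (hq : 2 ≤ q) {β J : ℝ} (hβ : 0 ≤ β) (hJ : 0 ≤ J) (Λ : Finset (Site D))
    (x y z : Site D) : gL D q β J Λ x y * gL D q β J Λ y z ≤ gL D q β J Λ x z := by
  by_cases h1 : x ∈ Λ ∧ y ∈ Λ
  · by_cases h2 : y ∈ Λ ∧ z ∈ Λ
    · rw [gL_eq β J Λ h1.1 h1.2, gL_eq β J Λ h2.1 h2.2, gL_eq β J Λ h1.1 h2.2]
      exact g2_mul hq _ (vh_nonneg hβ hJ Λ) _ _ _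
    · rw [gL_of_not β J Λ h2, mul_zero]
      exact gL_nonneg hq hβ hJ _ _ _
  · rw [gL_of_not β J Λ h1, zero_mul]
    exact gL_nonneg hq hβ hJ _ _ _

theorem G_mul (hq : 2 ≤ q) (β J : ℝ) (hβ : 0 ≤ β) (hJ : 0 ≤ J) (x y z : Site D) :
    G D q β J x y * G D q β J y z ≤ G D q β J x z :=
  le_of_tendsto_of_tendsto' ((tendsto_gL hq β J hβ hJ x y).mul (tendsto_gL hq β J hβ hJ y z))
    (tendsto_gL hq β J hβ hJ x z) fun Λ => gL_mul hq hβ hJ Λ x y z

theorem G_mono (hq : 2 ≤ q) (β J J' : ℝ) (hβ : 0 ≤ β) (hJ : 0 ≤ J) (h : J ≤ J') (x y : Site D) :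
    G D q β J x y ≤ G D q β J' x y :=
  G_map_le hq hβ hJ (hJ.trans h) id Function.injective_id (fun _ _ h => h) (fun a b _ => by
    unfold coup
    simp only [id]
    split_ifs
    · exact h
    · exact le_rfl) x y

theorem gL_comm (hq : 2 ≤ q) (β J : ℝ) (Λ : Finset (Site D)) (x y : Site D) :
    gL D q β J Λ x y = gL D q β J Λ y x := by
  by_cases h : x ∈ Λ ∧ y ∈ Λ
  · rw [gL_eq β J Λ h.1 h.2, gL_eq β J Λ h.2 h.1, g2_comm hq]
  · rw [gL_of_not β J Λ h, gL_of_not β J Λ (fun h' => h h'.symm)]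

theorem G_comm (hq : 2 ≤ q) (β J : ℝ) (hβ : 0 ≤ β) (hJ : 0 ≤ J) (x y : Site D) :
    G D q β J x y = G D q β J y x := by
  unfold G
  exact iSup_congr fun Λ => gL_comm hq β J Λ x y

/-- Translation along the line. -/
theorem G_shift (hq : 2 ≤ q) (β J : ℝ) (hβ : 0 ≤ β) (hJ : 0 ≤ J) (x y : Site D) (m : ℤ) :
    G D q β J (x.1 + m, x.2) (y.1 + m, y.2) = G D q β J x y := by
  have key : ∀ (m : ℤ) (x y : Site D),
      G D q β J x y ≤ G D q β J (x.1 + m, x.2) (y.1 + m, y.2) := by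
    intro m x y
    refine G_map_le hq hβ hJ hJ (fun z : Site D => (z.1 + m, z.2)) ?_ ?_ ?_ x y
    · intro a b h
      have h1 := congrArg Prod.fst h
      have h2 := congrArg Prod.snd h
      simp only at h1 h2
      exact Prod.ext (by omega) h2
    · intro a b h
      rw [← h]
      unfold dist1
      simp
    · intro a b _
      exact le_rfl
  refine le_antisymm ?_ (key m x y)
  have h := key (-m) (x.1 + m, x.2) (y.1 + m, y.2)
  simpa using h

/-- Transverse translation, homogeneous model. -/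
theorem G_shift_one (hq : 2 ≤ q) (β : ℝ) (hβ : 0 ≤ β) (x y : Site D) (w : Fin D → ℤ) :
    G D q β 1 (x.1, x.2 + w) (y.1, y.2 + w) = G D q β 1 x y := by
  have key : ∀ (w : Fin D → ℤ) (x y : Site D),
      G D q β 1 x y ≤ G D q β 1 (x.1, x.2 + w) (y.1, y.2 + w) := by
    intro w x y
    refine G_map_le hq hβ zero_le_one zero_le_one (fun z : Site D => (z.1, z.2 + w)) ?_ ?_ ?_ x y
    · intro a b h
      have h1 := congrArg Prod.fst h
      have h2 := congrArg Prod.snd h
      simp only at h1 h2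
      exact Prod.ext h1 (add_right_cancel h2)
    · intro a b h
      rw [← h]
      unfold dist1
      simp
    · intro a b _
      simp [coup]
  refine le_antisymm ?_ (key w x y)
  have h := key (-w) (x.1, x.2 + w) (y.1, y.2 + w)
  simpa using h

/-- Reflection of the first coordinate. -/
theorem G_refl (hq : 2 ≤ q) (β J : ℝ) (hβ : 0 ≤ β) (hJ : 0 ≤ J) (x y : Site D) :
    G D q β J (-x.1, x.2) (-y.1, y.2) = G D q β J x y := by
  have key : ∀ (x y : Site D),
      G D q β J x y ≤ G D q β J (-x.1, x.2) (-y.1, y.2) := by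
    intro x y
    refine G_map_le hq hβ hJ hJ (fun z : Site D => (-z.1, z.2)) ?_ ?_ ?_ x y
    · intro a b h
      have h1 := congrArg Prod.fst h
      have h2 := congrArg Prod.snd h
      simp only at h1 h2
      exact Prod.ext (by omega) h2
    · intro a b h
      rw [← h]
      unfold dist1
      have : (-a.1 - -b.1).natAbs = (a.1 - b.1).natAbs := by omega
      rw [this]
    · intro a b _
      exact le_rfl
  refine le_antisymm ?_ (key x y)
  have h := key (-x.1, x.2) (-y.1, y.2)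
  simpa using h

theorem G_pos_nb (hq : 2 ≤ q) (β J : ℝ) (hβ : 0 < β) (hJ : 0 ≤ J) (x y : Site D)
    (h : dist1 x y = 1) (hc : 0 < coup J x y) : 0 < G D q β J x y := by
  classical
  refine lt_of_lt_of_le ?_ (gL_le_G β J hβ.le hJ {x, y} x y)
  have hx : x ∈ ({x, y} : Finset (Site D)) := by simp
  have hy : y ∈ ({x, y} : Finset (Site D)) := by simp
  rw [gL_eq β J _ hx hy]
  refine g2_pos hq _ (vh_nonneg hβ.le hJ _) _ _ ?_
  unfold vh
  rw [if_pos h]
  have h1 : 0 < β * coup J x y / 2 := by positivity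
  have := Real.one_lt_exp_iff.2 h1
  simp only
  linarith

theorem G_pos_trans (hq : 2 ≤ q) {β J : ℝ} (hβ : 0 < β) (hJ : 0 ≤ J) {x y z : Site D}
    (h1 : 0 < G D q β J x y) (h2 : 0 < G D q β J y z) : 0 < G D q β J x z :=
  lt_of_lt_of_le (mul_pos h1 h2) (G_mul hq β J hβ.le hJ x y z)

/-- A transverse step. -/
theorem G_pos_tr (hq : 2 ≤ q) {β J : ℝ} (hβ : 0 < β) (hJ : 0 ≤ J) (n : ℤ) (w : Fin D → ℤ)
    (i : Fin D) : 0 < G D q β J (n, w) (n, w + Pi.single i 1) := by
  refine G_pos_nb hq β J hβ hJ _ _ ?_ ?_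
  · unfold dist1
    simp only [sub_self, Int.natAbs_zero, zero_add, Pi.add_apply]
    rw [Finset.sum_eq_single i]
    · simp
    · intro j _ hj
      simp [Pi.single_eq_of_ne hj]
    · intro h
      exact absurd (Finset.mem_univ i) h
  · unfold coup
    rw [if_neg]
    · exact zero_lt_one
    · rintro ⟨h1, h2⟩
      simp only at h1 h2
      rw [h1, zero_add] at h2
      have := congrFun h2 i
      simp at this

theorem G_pos_ln (hq : 2 ≤ q) (hD : 1 ≤ D) {β J : ℝ} (hβ : 0 < β) (hJ : 0 ≤ J) (n : ℤ)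
    (w : Fin D → ℤ) : 0 < G D q β J (n, w) (n + 1, w) := by
  have hstep : ∀ w' : Fin D → ℤ, w' ≠ 0 → 0 < G D q β J (n, w') (n + 1, w') := by
    intro w' hw'
    refine G_pos_nb hq β J hβ hJ _ _ ?_ ?_
    · unfold dist1
      simp
    · unfold coup
      rw [if_neg]
      · exact zero_lt_one
      · rintro ⟨h1, _⟩
        exact hw' h1
  by_cases hw : w = 0
  · set i : Fin D := ⟨0, hD⟩
    have h1 := G_pos_tr (q := q) hq hβ hJ n w i
    have h2 : 0 < G D q β J (n, w + Pi.single i 1) (n + 1, w + Pi.single i 1) := by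
      refine hstep _ ?_
      rw [hw, zero_add]
      intro h
      have := congrFun h i
      simp at this
    have h3 := G_pos_tr (q := q) hq hβ hJ (n + 1) w i
    rw [G_comm hq β J hβ.le hJ] at h3
    exact G_pos_trans hq hβ hJ (G_pos_trans hq hβ hJ h1 h2) h3
  · exact hstep w hw

theorem G_pos (hq : 2 ≤ q) (hD : 1 ≤ D) (β J : ℝ) (hβ : 0 < β) (hJ : 0 ≤ J) (x y : Site D) :
    0 < G D q β J x y := by
  classical
  have hself : ∀ z : Site D, 0 < G D q β J z z := fun z => by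
    rw [G_self hq β J hβ.le hJ]
    exact zero_lt_one
  -- along the line
  have h1 : ∀ (n : ℤ) (k : ℕ) (w : Fin D → ℤ), 0 < G D q β J (n, w) (n + k, w) := by
    intro n k w
    induction k with
    | zero => simpa using hself (n, w)
    | succ k ih =>
      have := G_pos_ln (q := q) hq hD hβ hJ (n + k) w
      have h2 := G_pos_trans hq hβ hJ ih this
      push_cast
      rwa [← add_assoc]
  have h1' : ∀ (n m : ℤ) (w : Fin D → ℤ), 0 < G D q β J (n, w) (m, w) := by
    intro n m w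
    rcases le_total n m with h | h
    · have := h1 n (m - n).toNat w
      rwa [Int.toNat_of_nonneg (by omega), add_sub_cancel] at this
    · have := h1 m (n - m).toNat w
      rw [Int.toNat_of_nonneg (by omega), add_sub_cancel] at this
      rwa [G_comm hq β J hβ.le hJ]
  -- one transverse coordinate
  have h2 : ∀ (n : ℤ) (w : Fin D → ℤ) (i : Fin D) (k : ℕ),
      0 < G D q β J (n, w) (n, w + Pi.single i (k : ℤ)) := by
    intro n w i k
    induction k with
    | zero => simpa using hself (n, w)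
    | succ k ih =>
      have := G_pos_tr (q := q) hq hβ hJ n (w + Pi.single i (k : ℤ)) i
      have h2 := G_pos_trans hq hβ hJ ih this
      rw [add_assoc, ← Pi.single_add] at h2
      push_cast
      exact h2
  have h2' : ∀ (n : ℤ) (w : Fin D → ℤ) (i : Fin D) (k : ℤ),
      0 < G D q β J (n, w) (n, w + Pi.single i k) := by
    intro n w i k
    rcases le_total 0 k with h | h
    · have := h2 n w i k.toNat
      rwa [Int.toNat_of_nonneg h] at this
    · have := h2 n (w + Pi.single i k) i (-k).toNat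
      rw [Int.toNat_of_nonneg (by omega), add_assoc, ← Pi.single_add, add_neg_cancel,
        Pi.single_zero, add_zero] at this
      rwa [G_comm hq β J hβ.le hJ]
  have h3 : ∀ (n : ℤ) (w u : Fin D → ℤ) (S : Finset (Fin D)),
      0 < G D q β J (n, w) (n, w + ∑ i ∈ S, Pi.single i (u i)) := by
    intro n w u S
    induction S using Finset.induction_on with
    | empty => simpa using hself (n, w)
    | insert i S hi ih =>
      have := h2' n (w + ∑ i ∈ S, Pi.single i (u i)) i (u i)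
      have h4 := G_pos_trans hq hβ hJ ih this
      have h5 : w + ∑ j ∈ insert i S, (Pi.single j (u j) : Fin D → ℤ) =
          w + ∑ j ∈ S, (Pi.single j (u j) : Fin D → ℤ) + Pi.single i (u i) := by
        rw [Finset.sum_insert hi, add_comm (Pi.single i (u i) : Fin D → ℤ), ← add_assoc]
      rw [h5]
      exact h4
  have h4 := h3 x.1 x.2 (y.2 - x.2) Finset.univ
  rw [Finset.univ_sum_single, add_sub_cancel] at h4
  exact G_pos_trans hq hβ hJ h4 (h1' x.1 y.1 y.2)

theorem mem_box (D L : ℕ) (x : Site D) :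
    x ∈ box D L ↔ (-(L : ℤ) ≤ x.1 ∧ x.1 ≤ L) ∧ ∀ i, -(L : ℤ) ≤ x.2 i ∧ x.2 i ≤ L := by
  unfold box
  rw [Finset.mem_product, Finset.mem_Icc, Finset.mem_Icc, Pi.le_def, Pi.le_def, ← forall_and]

theorem tendsto_box (D : ℕ) : Tendsto (fun L : ℕ => box D L) atTop atTop := by
  refine tendsto_atTop_finset_of_monotone ?_ ?_
  · intro L L' h x hx
    rw [mem_box] at hx ⊢
    have h' : (L : ℤ) ≤ L' := by exact_mod_cast h
    refine ⟨⟨by linarith [hx.1.1], by linarith [hx.1.2]⟩, fun i => ?_⟩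
    have := hx.2 i
    exact ⟨by linarith [this.1], by linarith [this.2]⟩
  · intro x
    refine ⟨x.1.natAbs + ∑ i, (x.2 i).natAbs, ?_⟩
    rw [mem_box]
    refine ⟨?_, fun i => ?_⟩
    · push_cast
      have h1 : 0 ≤ ∑ i, |x.2 i| := Finset.sum_nonneg fun i _ => abs_nonneg _
      have h2 := abs_le.1 (le_refl |x.1|)
      constructor <;> linarith [h2.1, h2.2]
    · push_cast
      have h1 : |x.2 i| ≤ ∑ i, |x.2 i| :=
        Finset.single_le_sum (f := fun i => |x.2 i|) (fun j _ => abs_nonneg _) (Finset.mem_univ i)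
      have h2 := abs_le.1 (le_refl |x.2 i|)
      have h3 := abs_nonneg x.1
      constructor <;> linarith [h2.1, h2.2]

theorem same_eq (hq : 2 ≤ q) {β J : ℝ} (hβ : 0 ≤ β) (hJ : 0 ≤ J) (Λ : Finset (Site D))
    {x y : Site D} (hx : x ∈ Λ) (hy : y ∈ Λ) :
    same D q β J Λ x y = 1 / q + (1 - 1 / q) * gL D q β J Λ x y := by
  rw [gL_eq β J Λ hx hy, ← same_eq_g2 hq _ (vh_nonneg hβ hJ Λ)]
  unfold same
  congr 1
  · refine Finset.sum_congr rfl fun s _ => ?_
    rw [exp_energy, ext_of_mem s hx, ext_of_mem s hy]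
  · exact Finset.sum_congr rfl fun s _ => exp_energy β J Λ s

theorem tendsto_same (hq : 2 ≤ q) (β J : ℝ) (hβ : 0 ≤ β) (hJ : 0 ≤ J) (x y : Site D) :
    Tendsto (fun L : ℕ => same D q β J (box D L) x y) atTop
      (𝓝 (1 / q + (1 - 1 / q) * G D q β J x y)) := by
  have h1 : Tendsto (fun L : ℕ => gL D q β J (box D L) x y) atTop (𝓝 (G D q β J x y)) :=
    (tendsto_gL hq β J hβ hJ x y).comp (tendsto_box D)
  have h2 : Tendsto (fun L : ℕ => 1 / (q : ℝ) + (1 - 1 / q) * gL D q β J (box D L) x y) atTop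
      (𝓝 (1 / q + (1 - 1 / q) * G D q β J x y)) := (h1.const_mul _).const_add _
  refine h2.congr' ?_
  have hx := (tendsto_box D).eventually (eventually_ge_atTop ({x} : Finset (Site D)))
  have hy := (tendsto_box D).eventually (eventually_ge_atTop ({y} : Finset (Site D)))
  filter_upwards [hx, hy] with L hxL hyL
  exact (same_eq hq hβ hJ _ (Finset.singleton_subset_iff.1 hxL)
    (Finset.singleton_subset_iff.1 hyL)).symm

end Pool.Agent.SB
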