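import Pool.Agent.SB.Inv

/-!
# Symmetries and locality of the excursion kernel
-/

set_option autoImplicit false
set_option linter.unusedSectionVars false

namespace Pool.Agent.SB

open Finset

variable {D q : ℕ} [NeZero q]

/-! ### Locality -/

theorem TT_filter (β J : ℝ) (m : (St D q × ℕ) →₀ ℝ) (p' : St D q × ℕ) :
    TT β J m p' = TT β J (m.filter fun p => p.2 < p'.2) p' := by
  have h1 := Finsupp.filter_add_filter_not m (fun p => p.2 < p'.2)
  conv_lhs => rw [← h1]
  rw [map_add, Finsupp.add_apply]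
  have h2 : TT β J (m.filter fun p => ¬ p.2 < p'.2) p' = 0 := by
    by_contra h
    obtain ⟨p, hp, z, B, hs, hN⟩ := mem_TT (Finsupp.mem_support_iff.2 h)
    have hB : 1 ≤ B.card := hs.2.2.1.card_pos
    rw [Finsupp.support_filter, mem_filter] at hp
    exact hp.2 (by omega)
  rw [h2, add_zero]

theorem coup_off {J J' : ℝ} {x : Site D} (hx : x.2 ≠ 0) (y : Site D) :
    coup J x y = coup J' x y := by
  unfold coup
  rw [if_neg fun h => hx h.1, if_neg fun h => hx h.1]

theorem stepAt_off (β J J' : ℝ) (a : St D q) {x : Site D} (hx : x.2 ≠ 0) :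
    stepAt β J a x = stepAt β J' a x := by
  unfold stepAt
  refine sum_congr rfl fun B _ => ?_
  have h1 : tB q β J x B = tB q β J' x B := by
    unfold tB vv
    exact prod_congr rfl fun y _ => by rw [coup_off (J := J) (J' := J') hx]
  rw [h1]

theorem TT_off (β J J' : ℝ) {m : (St D q × ℕ) →₀ ℝ}
    (h : ∀ p ∈ m.support, ∀ z ∈ p.1.support, z.2 ≠ 0) : TT β J m = TT β J' m := by
  unfold TT
  rw [Finsupp.linearCombination_apply, Finsupp.linearCombination_apply]
  refine Finsupp.sum_congr fun p hp => ?_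
  have h1 : stepL β J p.1 = stepL β J' p.1 := by
    unfold stepL
    exact sum_congr rfl fun z hz => by
      rw [stepAt_off β J J' _ (h p hp z (mem_filter.1 hz).1)]
  rw [h1]

theorem nt_tri (x z : Site D) : nt x.2 ≤ dist1 z x + nt z.2 := by
  unfold nt dist1
  have h2 : ∑ i, (x.2 i).natAbs ≤ ∑ i, (z.2 i - x.2 i).natAbs + ∑ i, (z.2 i).natAbs := by
    rw [← sum_add_distrib]
    refine sum_le_sum fun i _ => ?_
    omega
  omega

theorem TT_loc (β J J' : ℝ) (x : Site D) {m m' : (St D q × ℕ) →₀ ℝ}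
    (hm : ∀ p, p.2 ≤ nt x.2 → m p = m' p) (hs : ∀ p ∈ m.support, ∀ z ∈ p.1.support, dist1 z x ≤ p.2)
    (p' : St D q × ℕ) (hp : p'.2 ≤ nt x.2) : TT β J m p' = TT β J' m' p' := by
  rw [TT_filter β J m p', TT_filter β J' m' p']
  have h1 : (m.filter fun p => p.2 < p'.2) = m'.filter fun p => p.2 < p'.2 := by
    ext p
    rw [Finsupp.filter_apply, Finsupp.filter_apply]
    split_ifs with h
    · exact hm p (by omega)
    · rfl
  rw [← h1]
  rw [TT_off β J J']
  intro p hp1 z hz h0
  rw [Finsupp.support_filter, mem_filter] at hp1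
  have h2 := hs p hp1.1 z hz
  have h3 := nt_tri x z
  have h4 : nt z.2 = 0 := by
    rw [h0]
    simp [nt]
  omega

theorem mm_loc (β J J' : ℝ) (x : Site D) (n : ℕ) (p : St D q × ℕ) (hp : p.2 ≤ nt x.2) :
    mm β J x n p = mm β J' x n p := by
  induction n generalizing p with
  | zero =>
    rw [mm, mm, QQ, QQ, Finsupp.filter_apply, Finsupp.filter_apply]
    split_ifs
    · refine TT_loc β J J' x (fun _ _ => rfl) ?_ p hp
      intro p hp z hz
      have h1 := mem_singleton.1 (Finsupp.support_single_subset hp)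
      rw [h1] at hz ⊢
      have h2 := mem_singleton.1 (Finsupp.support_single_subset hz)
      rw [h2, dist1_self]
    · rfl
  | succ n ih =>
    rw [mm, mm, QQ, QQ, Finsupp.filter_apply, Finsupp.filter_apply]
    split_ifs
    · exact TT_loc β J J' x (fun p hp => ih p hp) (fun p hp => (mm_Inv β J x n p hp).r3) p hp
    · rfl

/-- **Locality**: excursions which do not reach the line do not depend on the coupling. -/
theorem SS_loc (β J J' : ℝ) (x y : Site D) (N : ℕ) (h : N ≤ nt x.2) :
    SS D q β J x y N = SS D q β J' x y N := by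
  rw [SS, SS]
  refine sum_congr rfl fun n _ => ?_
  exact TT_loc β J J' x (fun p hp => mm_loc β J J' x n p hp)
    (fun p hp => (mm_Inv β J x n p hp).r3) _ h

/-! ### Symmetries -/

theorem mem_lab_iff (B : Finset (Site D)) (c : ZMod q) (b : St D q) :
    b ∈ lab B c ↔ b.support ⊆ B ∧ (b.sum fun _ k => k) = c := by
  rw [lab, mem_filter, Finset.mem_finsupp_iff]
  simp

/-- symmetries of the lattice which preserve the couplings and the order of the planes -/
structure SymOK (φ : Site D ≃ Site D) (J : ℝ) : Prop where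
  nb : ∀ x, nb (φ x) = (nb x).map φ.toEmbedding
  coup : ∀ x y, coup J (φ x) (φ y) = coup J x y
  ord : ∀ x y, (φ x).1 ≤ (φ y).1 ↔ x.1 ≤ y.1

/-- the map of the states -/
noncomputable def FF (q : ℕ) (φ : Site D ≃ Site D) : St D q ≃+ St D q := Finsupp.domCongr φ

theorem FF_apply (φ : Site D ≃ Site D) (a : St D q) (y : Site D) : FF q φ a y = a (φ.symm y) := rfl

theorem FF_single (φ : Site D ≃ Site D) (x : Site D) (c : ZMod q) :
    FF q φ (Finsupp.single x c) = Finsupp.single (φ x) c := by
  rw [FF, Finsupp.domCongr_apply, Finsupp.equivMapDomain_single]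

theorem FF_support (φ : Site D ≃ Site D) (a : St D q) :
    (FF q φ a).support = a.support.map φ.toEmbedding := by
  ext y
  rw [Finsupp.mem_support_iff, FF_apply, mem_map_equiv, Finsupp.mem_support_iff]

theorem FF_charge (φ : Site D ≃ Site D) (a : St D q) :
    ((FF q φ a).sum fun _ k => k) = a.sum fun _ k => k := by
  rw [Finsupp.sum, Finsupp.sum, FF_support, sum_map]
  refine sum_congr rfl fun y _ => ?_
  rw [FF_apply]
  simp

theorem sum_lab_map {M : Type*} [AddCommMonoid M] (φ : Site D ≃ Site D) (B : Finset (Site D))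
    (c : ZMod q) (f : St D q → M) :
    ∑ b ∈ lab (B.map φ.toEmbedding) c, f b = ∑ b ∈ lab B c, f (FF q φ b) := by
  symm
  refine sum_bij (fun b _ => FF q φ b) ?_ ?_ ?_ ?_
  · intro b hb
    rw [mem_lab_iff] at hb ⊢
    rw [FF_support, FF_charge, map_subset_map]
    exact hb
  · intro b _ b' _ h
    exact (FF q φ).injective h
  · intro b hb
    refine ⟨(FF q φ).symm b, ?_, (FF q φ).apply_symm_apply b⟩
    rw [mem_lab_iff] at hb ⊢
    have h1 := FF_support φ ((FF q φ).symm b)
    rw [AddEquiv.apply_symm_apply] at h1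
    have h2 := FF_charge φ ((FF q φ).symm b)
    rw [AddEquiv.apply_symm_apply] at h2
    refine ⟨?_, by rw [← h2]; exact hb.2⟩
    rw [h1, map_subset_map] at hb
    exact hb.1
  · intro b _
    rfl

/-- the map of the measures -/
noncomputable def LL (q : ℕ) (φ : Site D ≃ Site D) :
    ((St D q × ℕ) →₀ ℝ) →ₗ[ℝ] ((St D q × ℕ) →₀ ℝ) :=
  Finsupp.lmapDomain ℝ ℝ fun p => (FF q φ p.1, p.2)

theorem LL_inj (φ : Site D ≃ Site D) :
    Function.Injective (fun p : St D q × ℕ => (FF q φ p.1, p.2)) := by
  intro p p' h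
  have h1 := congrArg Prod.fst h
  have h2 := congrArg Prod.snd h
  exact Prod.ext ((FF q φ).injective h1) h2

theorem LL_single (φ : Site D ≃ Site D) (p : St D q × ℕ) (c : ℝ) :
    LL q φ (Finsupp.single p c) = Finsupp.single (FF q φ p.1, p.2) c := by
  rw [LL, Finsupp.lmapDomain_apply, Finsupp.mapDomain_single]

theorem LL_apply (φ : Site D ≃ Site D) (m : (St D q × ℕ) →₀ ℝ) (a : St D q) (N : ℕ) :
    LL q φ m (FF q φ a, N) = m (a, N) := by
  rw [LL, Finsupp.lmapDomain_apply]
  exact Finsupp.mapDomain_apply (LL_inj φ) m (a, N)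

theorem stepAt_sym {φ : Site D ≃ Site D} {J : ℝ} (h : SymOK φ J) (β : ℝ) (a : St D q)
    (x : Site D) : stepAt β J (FF q φ a) (φ x) = LL q φ (stepAt β J a x) := by
  symm
  unfold stepAt
  rw [map_sum]
  refine sum_bij (fun B _ => B.map φ.toEmbedding) ?_ ?_ ?_ ?_
  · intro B hB
    rw [mem_erase, mem_powerset] at hB ⊢
    rw [h.nb, map_subset_map]
    exact ⟨fun h1 => hB.1 (map_eq_empty.1 h1), hB.2⟩
  · intro B _ B' _ h1
    exact map_injective _ h1
  · intro B hB
    rw [mem_erase, mem_powerset, h.nb] at hB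
    have h1 : (B.map φ.symm.toEmbedding).map φ.toEmbedding = B := by
      ext y
      simp
    refine ⟨B.map φ.symm.toEmbedding, ?_, h1⟩
    rw [mem_erase, mem_powerset]
    refine ⟨fun h2 => hB.1 (map_eq_empty.1 h2), ?_⟩
    have h2 := hB.2
    rw [← h1, map_subset_map] at h2
    exact h2
  · intro B _
    have h1 : tB q β J (φ x) (B.map φ.toEmbedding) = tB q β J x B := by
      unfold tB vv
      rw [prod_map]
      refine prod_congr rfl fun y _ => ?_
      rw [Equiv.coe_toEmbedding, h.coup]
    have h2 : FF q φ a (φ x) = a x := by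
      rw [FF_apply, Equiv.symm_apply_apply]
    rw [map_smul, map_sub, map_sum, map_sum, h1, h2, sum_lab_map, sum_lab_map, card_map]
    congr 2
    · refine sum_congr rfl fun b _ => ?_
      rw [LL_single, map_add, map_sub, FF_single]
    · refine sum_congr rfl fun b _ => ?_
      rw [LL_single, map_add]

theorem lft_sym {φ : Site D ≃ Site D} {J : ℝ} (h : SymOK φ J) (a : St D q) :
    lft (FF q φ a) = (lft a).map φ.toEmbedding := by
  ext y
  rw [lft, mem_filter, mem_map_equiv, lft, mem_filter, FF_support, mem_map_equiv]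
  refine and_congr_right fun _ => ?_
  constructor
  · intro h1 z hz
    have h2 := h1 (φ z) (by rw [mem_map_equiv, Equiv.symm_apply_apply]; exact hz)
    rw [← h.ord, Equiv.apply_symm_apply]
    exact h2
  · intro h1 z hz
    rw [mem_map_equiv] at hz
    have h2 := h1 _ hz
    rw [← h.ord, Equiv.apply_symm_apply, Equiv.apply_symm_apply] at h2
    exact h2

theorem stepL_sym {φ : Site D ≃ Site D} {J : ℝ} (h : SymOK φ J) (β : ℝ) (a : St D q) :
    stepL β J (FF q φ a) = LL q φ (stepL β J a) := by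
  unfold stepL
  rw [lft_sym h, card_map, sum_map, map_sum]
  refine sum_congr rfl fun x _ => ?_
  rw [Equiv.coe_toEmbedding, stepAt_sym h, map_smul]

theorem TT_sym {φ : Site D ≃ Site D} {J : ℝ} (h : SymOK φ J) (β : ℝ)
    (m : (St D q × ℕ) →₀ ℝ) : TT β J (LL q φ m) = LL q φ (TT β J m) := by
  have key : (TT β J).comp (LL q φ) = (LL q φ).comp (TT (q := q) β J) := by
    refine Finsupp.lhom_ext fun p c => ?_
    rw [LinearMap.comp_apply, LinearMap.comp_apply, LL_single]
    unfold TT
    rw [Finsupp.linearCombination_single, Finsupp.linearCombination_single, map_smul, stepL_sym h]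
    unfold LL
    rw [Finsupp.lmapDomain_apply, Finsupp.lmapDomain_apply, ← Finsupp.mapDomain_comp,
      ← Finsupp.mapDomain_comp]
    rfl
  exact congrFun (congrArg DFunLike.coe key) m

theorem QQ_sym (φ : Site D ≃ Site D) (m : (St D q × ℕ) →₀ ℝ) :
    QQ (LL q φ m) = LL q φ (QQ m) := by
  ext p
  obtain ⟨a, N, rfl⟩ : ∃ a N, p = (FF q φ a, N) :=
    ⟨(FF q φ).symm p.1, p.2, by rw [AddEquiv.apply_symm_apply]⟩
  rw [LL_apply, QQ, QQ, Finsupp.filter_apply, Finsupp.filter_apply, LL_apply]
  simp only [FF_support, card_map]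

theorem mm_sym {φ : Site D ≃ Site D} {J : ℝ} (h : SymOK φ J) (β : ℝ) (x : Site D) (n : ℕ) :
    mm (q := q) β J (φ x) n = LL q φ (mm β J x n) := by
  induction n with
  | zero => rw [mm, mm, ← QQ_sym, ← TT_sym h, LL_single, FF_single]
  | succ n ih => rw [mm, mm, ih, ← QQ_sym, ← TT_sym h]

theorem SS_sym {φ : Site D ≃ Site D} {J : ℝ} (h : SymOK φ J) (β : ℝ) (x y : Site D) (N : ℕ) :
    SS D q β J (φ x) (φ y) N = SS D q β J x y N := by
  rw [SS, SS]
  refine sum_congr rfl fun n _ => ?_
  rw [mm_sym h, TT_sym h, ← FF_single, LL_apply]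

/-! ### The symmetries -/

theorem symOK_add {J : ℝ} (v : Site D) (hc : ∀ x y : Site D, coup J (x + v) (y + v) = coup J x y) :
    SymOK (Equiv.addRight v) J where
  nb x := by
    ext y
    rw [mem_map_equiv]
    unfold Pool.Agent.SB.nb
    rw [mem_image, mem_image]
    refine exists_congr fun d => and_congr_right fun _ => ?_
    rw [Equiv.addRight_symm, Equiv.coe_addRight, Equiv.coe_addRight]
    change x + v + dir d = y ↔ x + dir d = y + -v
    rw [add_right_comm, ← sub_eq_add_neg, eq_sub_iff_add_eq]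
  coup x y := hc x y
  ord x y := by
    rw [Equiv.coe_addRight, Prod.fst_add, Prod.fst_add]
    exact add_le_add_iff_right _

theorem SS_shift (β J : ℝ) (x y : Site D) (N : ℕ) (m : ℤ) :
    SS D q β J (x.1 + m, x.2) (y.1 + m, y.2) N = SS D q β J x y N := by
  have h := SS_sym (q := q) (symOK_add (J := J) ((m, 0) : Site D) (fun x y => by
    unfold coup
    simp)) β x y N
  have e : ∀ x : Site D, Equiv.addRight ((m, 0) : Site D) x = (x.1 + m, x.2) := fun x =>
    Prod.ext rfl (add_zero _)
  rw [e, e] at h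
  exact h

theorem SS_shift_one (β : ℝ) (x y : Site D) (N : ℕ) (w : Fin D → ℤ) :
    SS D q β 1 (x.1, x.2 + w) (y.1, y.2 + w) N = SS D q β 1 x y N := by
  have h := SS_sym (q := q) (symOK_add (J := 1) ((0, w) : Site D) (fun x y => by
    unfold coup
    simp)) β x y N
  have e : ∀ x : Site D, Equiv.addRight ((0, w) : Site D) x = (x.1, x.2 + w) := fun x =>
    Prod.ext (add_zero _) rfl
  rw [e, e] at h
  exact h

/-- the reflection of the transverse coordinates -/
def refl2 (D : ℕ) : Site D ≃ Site D := (Equiv.refl ℤ).prodCongr (Equiv.neg _)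

theorem refl2_apply (x : Site D) : refl2 D x = (x.1, -x.2) := rfl

theorem refl2_dir (x : Site D) (d : Option (Fin D) × Bool) :
    refl2 D (x + dir d) = refl2 D x + dir (d.1, if d.1 = none then d.2 else !d.2) := by
  rcases d with ⟨_ | i, _ | _⟩
  · simp [refl2_apply, dir]
  · simp [refl2_apply, dir]
  · simp only [refl2_apply, dir, Prod.fst_add, Prod.snd_add, reduceCtorEq, if_false, Bool.not_false]
    refine Prod.ext rfl ?_
    change -(x.2 + Pi.single i (-1)) = -x.2 + Pi.single i 1
    rw [Pi.single_neg, neg_add, neg_neg]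
  · simp only [refl2_apply, dir, Prod.fst_add, Prod.snd_add, reduceCtorEq, if_false, Bool.not_true]
    refine Prod.ext rfl ?_
    change -(x.2 + Pi.single i 1) = -x.2 + Pi.single i (-1)
    rw [Pi.single_neg, neg_add]

theorem symOK_refl2 : SymOK (refl2 D) 1 where
  nb x := by
    ext y
    rw [mem_map_equiv]
    unfold Pool.Agent.SB.nb
    rw [mem_image, mem_image]
    constructor
    · rintro ⟨d, -, rfl⟩
      refine ⟨(d.1, if d.1 = none then d.2 else !d.2), mem_univ _, ?_⟩
      rw [Equiv.eq_symm_apply, refl2_dir]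
      congr 2
      rcases d with ⟨_ | i, _ | _⟩ <;> simp
    · rintro ⟨d, -, h⟩
      refine ⟨(d.1, if d.1 = none then d.2 else !d.2), mem_univ _, ?_⟩
      rw [← refl2_dir, h, Equiv.apply_symm_apply]
  coup x y := by
    unfold Pool.Agent.SB.coup
    simp
  ord x y := by
    rw [refl2_apply, refl2_apply]

theorem SS_refl (β : ℝ) (x y : Site D) (N : ℕ) :
    SS D q β 1 (x.1, -x.2) (y.1, -y.2) N = SS D q β 1 x y N :=
  SS_sym symOK_refl2 β x y N

end Pool.Agent.SB
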