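import Pool.Agent.SB.Nrm
import Pool.Agent.SB.Sym
import Pool.Agent.SB.Defs2

/-!
# Sums with `z ^ n`
-/

set_option autoImplicit false
set_option linter.unusedSectionVars false

namespace Pool.Agent.SB

open Finset Filter Topology

/-! ### Elementary bounds -/

theorem AA_ge (D q : ℕ) [NeZero q] : 128 ≤ AA D q := by
  have h1 : (1 : ℝ) ≤ q := by exact_mod_cast NeZero.one_le
  have h2 : (0 : ℝ) ≤ D := Nat.cast_nonneg D
  unfold AA
  nlinarith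

theorem zm_eq (D q : ℕ) [NeZero q] {β : ℝ} (hβ : 0 < β) : zm q β * rr D β = AA D q := by
  unfold zm rr AA
  field_simp
  ring

theorem pow_bound (D q : ℕ) [NeZero q] {β z : ℝ} (hβ : 0 < β) (h1 : 1 ≤ z) (hz : z ≤ zm q β)
    (n : ℤ) (N : ℕ) (hn : 2 * n ≤ N) :
    z ^ n * rr D β ^ N ≤ (Real.sqrt (AA D q * rr D β)) ^ N := by
  have hρ : 0 < rr D β := rr_pos β hβ
  have hA := AA_ge D q
  have hzm : 1 ≤ zm q β := h1.trans hz
  have hz0 : 0 < z := by linarith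
  obtain ⟨m, hm, hmz⟩ : ∃ m : ℕ, 2 * m ≤ N ∧ z ^ n ≤ z ^ m := by
    rcases le_total 0 n with h | h
    · obtain ⟨m, rfl⟩ := Int.eq_ofNat_of_zero_le h
      exact ⟨m, by omega, by rw [zpow_natCast]⟩
    · refine ⟨0, by omega, ?_⟩
      rw [pow_zero]
      exact zpow_le_one_of_nonpos₀ h1 h
  have h3 : z ^ m ≤ zm q β ^ m := pow_le_pow_left₀ hz0.le hz m
  refine (mul_le_mul_of_nonneg_right (hmz.trans h3) (by positivity)).trans ?_
  refine le_of_sq_le_sq ?_ (by positivity)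
  have h4 : ((Real.sqrt (AA D q * rr D β)) ^ N) ^ 2 = (AA D q * rr D β) ^ N := by
    rw [← pow_mul, mul_comm N 2, pow_mul, Real.sq_sqrt (by positivity)]
  rw [h4]
  have h5 : (zm q β ^ m * rr D β ^ N) ^ 2 = zm q β ^ (2 * m) * (rr D β ^ 2) ^ N := by
    rw [mul_pow, ← pow_mul, ← pow_mul, ← pow_mul, mul_comm m 2, mul_comm N 2]
  rw [h5]
  calc zm q β ^ (2 * m) * (rr D β ^ 2) ^ N ≤ zm q β ^ N * (rr D β ^ 2) ^ N :=
        mul_le_mul_of_nonneg_right (pow_le_pow_right₀ hzm hm) (by positivity)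
    _ = (zm q β * rr D β * rr D β) ^ N := by
        rw [← mul_pow]
        ring
    _ = _ := by rw [zm_eq D q hβ]

theorem omega_bound2_aux (D q : ℕ) [NeZero q] (β z : ℝ) (hβ : 0 < β) (h1 : 1 ≤ z) (hz : z ≤ zm q β)
    (n : ℤ) (N : ℕ) (hN : 2 ≤ N) (hn : 2 * n ≤ N) :
    z ^ n * rr D β ^ N ≤ AA D q * rr D β * (Real.sqrt (AA D q * rr D β)) ^ (N - 2) := by
  have hρ : 0 < rr D β := rr_pos β hβ
  have hA := AA_ge D q
  refine (pow_bound D q hβ h1 hz n N hn).trans (le_of_eq ?_)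
  obtain ⟨k, rfl⟩ : ∃ k, N = k + 2 := ⟨N - 2, by omega⟩
  rw [pow_add, Real.sq_sqrt (by positivity), Nat.add_sub_cancel]
  ring

theorem omega_bound_aux (D q : ℕ) [NeZero q] (β z : ℝ) (hβ : 0 < β) (h1 : 1 ≤ z) (hz : z ≤ zm q β)
    (hA : AA D q * rr D β ≤ 1) (n : ℤ) (N : ℕ) (hN : 3 ≤ N) (hn : 2 * n ≤ N) :
    z ^ n * rr D β ^ N ≤ AA D q ^ 2 * rr D β ^ 2 * (Real.sqrt (AA D q * rr D β)) ^ (N - 4) := by
  have hρ : 0 < rr D β := rr_pos β hβ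
  have hA1 := AA_ge D q
  have hz0 : 0 < z := by linarith
  rcases Nat.lt_or_ge N 4 with h4 | h4
  · have hN3 : N = 3 := by omega
    subst hN3
    rw [show 3 - 4 = 0 from rfl, pow_zero, mul_one]
    have h5 : z ^ n ≤ zm q β := by
      have h6 : z ^ n ≤ z ^ (1 : ℤ) := zpow_le_zpow_right₀ h1 (by omega)
      rw [zpow_one] at h6
      exact h6.trans hz
    calc z ^ n * rr D β ^ 3 ≤ zm q β * rr D β ^ 3 := by gcongr
      _ = (zm q β * rr D β) * rr D β ^ 2 := by ring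
      _ = AA D q * rr D β ^ 2 := by rw [zm_eq D q hβ]
      _ ≤ AA D q ^ 2 * rr D β ^ 2 := by
          have : AA D q ≤ AA D q ^ 2 := by nlinarith
          gcongr
  · refine (pow_bound D q hβ h1 hz n N hn).trans (le_of_eq ?_)
    obtain ⟨k, rfl⟩ : ∃ k, N = k + 4 := ⟨N - 4, by omega⟩
    rw [pow_add, Nat.add_sub_cancel]
    have h5 : Real.sqrt (AA D q * rr D β) ^ 4 = (AA D q * rr D β) ^ 2 := by
      rw [show (4 : ℕ) = 2 * 2 from rfl, pow_mul, Real.sq_sqrt (by positivity)]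
    rw [h5]
    ring

theorem pos_of_zm {q : ℕ} {β z : ℝ} (h1 : 1 ≤ z) (hz : z ≤ zm q β) : NeZero q := by
  refine ⟨fun h => ?_⟩
  rw [h] at hz
  unfold zm at hz
  simp at hz
  linarith

theorem omega_bound (D q : ℕ) (β z : ℝ) (hβ : 0 < β) (h1 : 1 ≤ z) (hz : z ≤ zm q β)
    (hA : AA D q * rr D β ≤ 1) (n : ℤ) (N : ℕ) (hN : 3 ≤ N) (hn : 2 * n ≤ N) :
    z ^ n * rr D β ^ N ≤ AA D q ^ 2 * rr D β ^ 2 * (Real.sqrt (AA D q * rr D β)) ^ (N - 4) := by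
  haveI := pos_of_zm h1 hz
  exact omega_bound_aux D q β z hβ h1 hz hA n N hN hn

theorem omega_bound2 (D q : ℕ) (β z : ℝ) (hβ : 0 < β) (h1 : 1 ≤ z) (hz : z ≤ zm q β)
    (_hA : AA D q * rr D β ≤ 1) (n : ℤ) (N : ℕ) (hN : 2 ≤ N) (hn : 2 * n ≤ N) :
    z ^ n * rr D β ^ N ≤ AA D q * rr D β * (Real.sqrt (AA D q * rr D β)) ^ (N - 2) := by
  haveI := pos_of_zm h1 hz
  exact omega_bound2_aux D q β z hβ h1 hz n N hN hn

/-- the numbers of edges beat polynomials -/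
theorem edges_bound {θ : ℝ} (h0 : 0 ≤ θ) (h1 : θ ≤ 1 / 4) (N : ℕ) (hN : 3 ≤ N) :
    (1 + (N : ℝ) ^ 2) * θ ^ (N - 4) ≤ 512 * (1 / 2) ^ N := by
  rcases Nat.lt_or_ge N 4 with h4 | h4
  · have hN3 : N = 3 := by omega
    subst hN3
    norm_num
  · obtain ⟨k, rfl⟩ : ∃ k, N = k + 4 := ⟨N - 4, by omega⟩
    rw [Nat.add_sub_cancel]
    have h2 : θ ^ k ≤ (1 / 4) ^ k := pow_le_pow_left₀ h0 h1 k
    have h3 : (1 + ((k + 4 : ℕ) : ℝ) ^ 2) ≤ 32 * 2 ^ k := by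
      induction k with
      | zero => norm_num
      | succ k ih =>
        have h5 : (1 + ((k + 1 + 4 : ℕ) : ℝ) ^ 2) ≤ 2 * (1 + ((k + 4 : ℕ) : ℝ) ^ 2) := by
          push_cast
          have : (0 : ℝ) ≤ k := Nat.cast_nonneg k
          nlinarith
        have h6 := ih (by omega) (by omega) (pow_le_pow_left₀ h0 h1 k)
        calc (1 + ((k + 1 + 4 : ℕ) : ℝ) ^ 2) ≤ 2 * (1 + ((k + 4 : ℕ) : ℝ) ^ 2) := h5
          _ ≤ 2 * (32 * 2 ^ k) := by gcongr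
          _ = 32 * 2 ^ (k + 1) := by ring
    calc (1 + ((k + 4 : ℕ) : ℝ) ^ 2) * θ ^ k ≤ (32 * 2 ^ k) * (1 / 4) ^ k := by gcongr
      _ = 512 * (1 / 2) ^ (k + 4) := by
          rw [pow_add, mul_assoc, ← mul_pow]
          norm_num
          ring

/-- The basic bound of a term. -/
theorem term_bound (D q : ℕ) [NeZero q] {β z : ℝ} (hβ : 0 < β) (h1 : 1 ≤ z) (hz : z ≤ zm q β)
    (hA : AA D q * rr D β ≤ 1 / 16) (n : ℤ) (N : ℕ) (hN : 3 ≤ N) (hn : 2 * n ≤ N) :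
    z ^ n * (1 + (N : ℝ) ^ 2) ≤ 512 * AA D q ^ 2 * rr D β ^ 2 * ((rr D β)⁻¹ ^ N * (1 / 2) ^ N) := by
  have hρ : 0 < rr D β := rr_pos β hβ
  have hA1 := AA_ge D q
  have hs0 : 0 ≤ Real.sqrt (AA D q * rr D β) := Real.sqrt_nonneg _
  have hs1 : Real.sqrt (AA D q * rr D β) ≤ 1 / 4 := by
    rw [Real.sqrt_le_left (by norm_num)]
    norm_num
    exact hA
  have h3 := omega_bound_aux D q β z hβ h1 hz (hA.trans (by norm_num)) n N hN hn
  have h4 := edges_bound hs0 hs1 N hN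
  have h5 : (z ^ n * rr D β ^ N) * (1 + (N : ℝ) ^ 2) ≤
      AA D q ^ 2 * rr D β ^ 2 * (512 * (1 / 2) ^ N) := by
    calc (z ^ n * rr D β ^ N) * (1 + (N : ℝ) ^ 2) ≤
          (AA D q ^ 2 * rr D β ^ 2 * (Real.sqrt (AA D q * rr D β)) ^ (N - 4)) *
            (1 + (N : ℝ) ^ 2) := mul_le_mul_of_nonneg_right h3 (by positivity)
      _ = AA D q ^ 2 * rr D β ^ 2 *
            ((1 + (N : ℝ) ^ 2) * (Real.sqrt (AA D q * rr D β)) ^ (N - 4)) := by ring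
      _ ≤ _ := mul_le_mul_of_nonneg_left h4 (by positivity)
  have h6 : rr D β ^ N * (rr D β)⁻¹ ^ N = 1 := by
    rw [← mul_pow, mul_inv_cancel₀ hρ.ne', one_pow]
  calc z ^ n * (1 + (N : ℝ) ^ 2) = ((z ^ n * rr D β ^ N) * (1 + (N : ℝ) ^ 2)) * (rr D β)⁻¹ ^ N := by
        rw [mul_right_comm (z ^ n), mul_assoc (z ^ n * (1 + (N : ℝ) ^ 2)), h6, mul_one]
    _ ≤ (AA D q ^ 2 * rr D β ^ 2 * (512 * (1 / 2) ^ N)) * (rr D β)⁻¹ ^ N :=
        mul_le_mul_of_nonneg_right h5 (by positivity)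
    _ = _ := by ring

/-- differences of powers -/
theorem zpow_diff {a z z' : ℝ} (ha : 0 < a) (h1 : a ≤ z) (h2 : z ≤ z') (n : ℤ) :
    |z' ^ n - z ^ n| ≤ n.natAbs * (z ^ n + z' ^ n) * (z' - z) / a := by
  have hz : 0 < z := ha.trans_le h1
  have hz' : 0 < z' := hz.trans_le h2
  have key : ∀ m : ℕ, z' * (z' ^ m - z ^ m) ≤ m * z' ^ m * (z' - z) := by
    intro m
    induction m with
    | zero => simp
    | succ m ih =>
      have h3 : z ^ m ≤ z' ^ m := pow_le_pow_left₀ hz.le h2 m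
      have h4 : 0 ≤ z' - z := sub_nonneg.2 h2
      have h5 : z' * (z' * (z' ^ m - z ^ m)) ≤ z' * (m * z' ^ m * (z' - z)) :=
        mul_le_mul_of_nonneg_left ih hz'.le
      have h6 : z' * z ^ m * (z' - z) ≤ z' * z' ^ m * (z' - z) := by gcongr
      calc z' * (z' ^ (m + 1) - z ^ (m + 1)) =
            z' * (z' * (z' ^ m - z ^ m)) + z' * z ^ m * (z' - z) := by ring
        _ ≤ z' * (m * z' ^ m * (z' - z)) + z' * z' ^ m * (z' - z) := add_le_add h5 h6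
        _ = ((m + 1 : ℕ) : ℝ) * z' ^ (m + 1) * (z' - z) := by
            push_cast
            ring
  have h4 : 0 ≤ z' - z := sub_nonneg.2 h2
  rw [le_div_iff₀ ha]
  rcases le_total 0 n with h | h
  · obtain ⟨m, rfl⟩ := Int.eq_ofNat_of_zero_le h
    simp only [Int.natAbs_natCast, zpow_natCast]
    have h3 : z ^ m ≤ z' ^ m := pow_le_pow_left₀ hz.le h2 m
    rw [abs_of_nonneg (sub_nonneg.2 h3)]
    have h5 := key m
    calc (z' ^ m - z ^ m) * a ≤ (z' ^ m - z ^ m) * z' :=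
          mul_le_mul_of_nonneg_left (h1.trans h2) (sub_nonneg.2 h3)
      _ = z' * (z' ^ m - z ^ m) := mul_comm _ _
      _ ≤ m * z' ^ m * (z' - z) := h5
      _ ≤ m * (z ^ m + z' ^ m) * (z' - z) := by
          have : z' ^ m ≤ z ^ m + z' ^ m := by
            have := pow_pos hz m
            linarith
          gcongr
  · obtain ⟨m, hm⟩ := Int.eq_ofNat_of_zero_le (neg_nonneg.2 h)
    have hn : n = -(m : ℤ) := by omega
    subst hn
    simp only [Int.natAbs_neg, Int.natAbs_natCast, zpow_neg, zpow_natCast]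
    have h3 : z ^ m ≤ z' ^ m := pow_le_pow_left₀ hz.le h2 m
    have hzm : 0 < z ^ m := pow_pos hz m
    have hzm' : 0 < z' ^ m := pow_pos hz' m
    have h5 : (z' ^ m)⁻¹ ≤ (z ^ m)⁻¹ := inv_anti₀ hzm h3
    rw [abs_sub_comm, abs_of_nonneg (sub_nonneg.2 h5)]
    have h6 := key m
    have h7 : ((z ^ m)⁻¹ - (z' ^ m)⁻¹) * z' ≤ m * (z ^ m)⁻¹ * (z' - z) := by
      have e1 : (z ^ m)⁻¹ - (z' ^ m)⁻¹ = (z' ^ m - z ^ m) * ((z ^ m)⁻¹ * (z' ^ m)⁻¹) := by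
        field_simp
      rw [e1]
      calc (z' ^ m - z ^ m) * ((z ^ m)⁻¹ * (z' ^ m)⁻¹) * z' =
            (z' * (z' ^ m - z ^ m)) * ((z ^ m)⁻¹ * (z' ^ m)⁻¹) := by ring
        _ ≤ (m * z' ^ m * (z' - z)) * ((z ^ m)⁻¹ * (z' ^ m)⁻¹) :=
            mul_le_mul_of_nonneg_right h6 (by positivity)
        _ = m * (z ^ m)⁻¹ * (z' - z) * (z' ^ m * (z' ^ m)⁻¹) := by ring
        _ = m * (z ^ m)⁻¹ * (z' - z) := by rw [mul_inv_cancel₀ hzm'.ne', mul_one]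
    calc ((z ^ m)⁻¹ - (z' ^ m)⁻¹) * a ≤ ((z ^ m)⁻¹ - (z' ^ m)⁻¹) * z' :=
          mul_le_mul_of_nonneg_left (h1.trans h2) (sub_nonneg.2 h5)
      _ ≤ m * (z ^ m)⁻¹ * (z' - z) := h7
      _ ≤ m * ((z ^ m)⁻¹ + (z' ^ m)⁻¹) * (z' - z) := by
          have : (z ^ m)⁻¹ ≤ (z ^ m)⁻¹ + (z' ^ m)⁻¹ := by
            have : 0 < (z' ^ m)⁻¹ := by positivity
            linarith
          gcongr

/-! ### The sums -/

section core
variable {ι : Type} {s : ι → ℤ × ℕ → ℝ} {D q : ℕ} [NeZero q] {β M : ℝ}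

/-- the data: weighted absolute convergence and the support condition -/
structure Lap (D : ℕ) (β M : ℝ) (s : ι → ℤ × ℕ → ℝ) : Prop where
  sum : Summable fun p : ι × (ℤ × ℕ) => |s p.1 p.2| * ((rr D β)⁻¹ ^ p.2.2 * (1 / 2) ^ p.2.2)
  le : ∑' p : ι × (ℤ × ℕ), |s p.1 p.2| * ((rr D β)⁻¹ ^ p.2.2 * (1 / 2) ^ p.2.2) ≤ M
  supp : ∀ i p, s i p ≠ 0 → 3 ≤ p.2 ∧ 2 * p.1 ≤ p.2 ∧ p.1.natAbs ≤ p.2

theorem Lap.term (h : Lap D β M s) (hβ : 0 < β) (hA : AA D q * rr D β ≤ 1 / 16) {z : ℝ}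
    (h1 : 1 ≤ z) (hz : z ≤ zm q β) (p : ι × (ℤ × ℕ)) :
    |z ^ p.2.1 * s p.1 p.2| * (1 + (p.2.2 : ℝ) ^ 2) ≤ 512 * AA D q ^ 2 * rr D β ^ 2 *
      (|s p.1 p.2| * ((rr D β)⁻¹ ^ p.2.2 * (1 / 2) ^ p.2.2)) := by
  by_cases h0 : s p.1 p.2 = 0
  · simp [h0]
  · obtain ⟨q1, q2, -⟩ := h.supp _ _ h0
    have h3 := term_bound D q hβ h1 hz hA p.2.1 p.2.2 q1 q2
    have hz0 : 0 < z := by linarith
    rw [abs_mul, abs_of_pos (zpow_pos hz0 _)]
    calc z ^ p.2.1 * |s p.1 p.2| * (1 + (p.2.2 : ℝ) ^ 2) =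
          (z ^ p.2.1 * (1 + (p.2.2 : ℝ) ^ 2)) * |s p.1 p.2| := by ring
      _ ≤ (512 * AA D q ^ 2 * rr D β ^ 2 * ((rr D β)⁻¹ ^ p.2.2 * (1 / 2) ^ p.2.2)) *
          |s p.1 p.2| := mul_le_mul_of_nonneg_right h3 (abs_nonneg _)
      _ = _ := by ring

theorem Lap.one (h : Lap D β M s) (hβ : 0 < β) (hA : AA D q * rr D β ≤ 1 / 16) {z : ℝ}
    (h1 : 1 ≤ z) (hz : z ≤ zm q β) :
    Summable (fun p : ι × (ℤ × ℕ) => |z ^ p.2.1 * s p.1 p.2| * (1 + (p.2.2 : ℝ) ^ 2)) ∧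
      ∑' p : ι × (ℤ × ℕ), |z ^ p.2.1 * s p.1 p.2| * (1 + (p.2.2 : ℝ) ^ 2) ≤
        512 * AA D q ^ 2 * rr D β ^ 2 * M := by
  have hs := Summable.of_nonneg_of_le (fun p => by positivity) (fun p => h.term hβ hA h1 hz p)
    (h.sum.mul_left (512 * AA D q ^ 2 * rr D β ^ 2))
  refine ⟨hs, ?_⟩
  have h3 : ∑' p : ι × (ℤ × ℕ), |z ^ p.2.1 * s p.1 p.2| * (1 + (p.2.2 : ℝ) ^ 2) ≤
      ∑' p : ι × (ℤ × ℕ), 512 * AA D q ^ 2 * rr D β ^ 2 *
        (|s p.1 p.2| * ((rr D β)⁻¹ ^ p.2.2 * (1 / 2) ^ p.2.2)) :=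
    hs.tsum_le_tsum (fun p => h.term hβ hA h1 hz p)
      (h.sum.mul_left (512 * AA D q ^ 2 * rr D β ^ 2))
  rw [tsum_mul_left] at h3
  exact h3.trans (mul_le_mul_of_nonneg_left h.le (by positivity))

theorem za_eq (D : ℕ) {β : ℝ} (hβ : 0 < β) : (za D β)⁻¹ = 4 * rr D β := by
  unfold za
  rw [one_div, inv_inv]

theorem Lap.two (h : Lap D β M s) (hβ : 0 < β) (hA : AA D q * rr D β ≤ 1 / 16) {z z' : ℝ}
    (h1 : za D β ≤ z) (hz : z ≤ z') (hz' : z' ≤ zm q β) :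
    Summable (fun p : ι × (ℤ × ℕ) => |z' ^ p.2.1 * s p.1 p.2 - z ^ p.2.1 * s p.1 p.2|) ∧
      ∑' p : ι × (ℤ × ℕ), |z' ^ p.2.1 * s p.1 p.2 - z ^ p.2.1 * s p.1 p.2| ≤
        4096 * AA D q ^ 2 * rr D β ^ 3 * M * (z' - z) := by
  have hρ : 0 < rr D β := rr_pos β hβ
  have hA1 := AA_ge D q
  have hρ1 : rr D β ≤ 1 / 4 := by nlinarith
  have hza : 1 ≤ za D β := by
    unfold za
    rw [le_div_iff₀ (by positivity)]
    linarith
  have hza0 : 0 < za D β := by linarith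
  have hz1 : 1 ≤ z := hza.trans h1
  have hz1' : 1 ≤ z' := hz1.trans hz
  have hz0 : 0 < z := by linarith
  have hz0' : 0 < z' := by linarith
  have hterm : ∀ p : ι × (ℤ × ℕ), |z' ^ p.2.1 * s p.1 p.2 - z ^ p.2.1 * s p.1 p.2| ≤
      4 * rr D β * (z' - z) * (|z ^ p.2.1 * s p.1 p.2| * (1 + (p.2.2 : ℝ) ^ 2) +
        |z' ^ p.2.1 * s p.1 p.2| * (1 + (p.2.2 : ℝ) ^ 2)) := by
    intro p
    by_cases h0 : s p.1 p.2 = 0
    · simp [h0]
    · obtain ⟨-, -, q3⟩ := h.supp _ _ h0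
      have h3 := zpow_diff hza0 h1 hz p.2.1
      have h4 : (p.2.1.natAbs : ℝ) ≤ 1 + (p.2.2 : ℝ) ^ 2 := by
        have h5 : (p.2.1.natAbs : ℝ) ≤ p.2.2 := by exact_mod_cast q3
        nlinarith [sq_nonneg ((p.2.2 : ℝ) - 1)]
      rw [← sub_mul, abs_mul, abs_mul, abs_mul, abs_of_pos (zpow_pos hz0 _),
        abs_of_pos (zpow_pos hz0' _)]
      rw [div_eq_mul_inv, za_eq D hβ] at h3
      have h6 : 0 ≤ z' - z := sub_nonneg.2 hz
      calc |z' ^ p.2.1 - z ^ p.2.1| * |s p.1 p.2| ≤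
            (p.2.1.natAbs * (z ^ p.2.1 + z' ^ p.2.1) * (z' - z) * (4 * rr D β)) * |s p.1 p.2| :=
            mul_le_mul_of_nonneg_right h3 (abs_nonneg _)
        _ ≤ ((1 + (p.2.2 : ℝ) ^ 2) * (z ^ p.2.1 + z' ^ p.2.1) * (z' - z) * (4 * rr D β)) *
            |s p.1 p.2| := by
            have := zpow_pos hz0 p.2.1
            have := zpow_pos hz0' p.2.1
            gcongr
        _ = _ := by ring
  obtain ⟨a1, a2⟩ := h.one hβ hA hz1 (hz.trans hz')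
  obtain ⟨b1, b2⟩ := h.one hβ hA hz1' hz'
  have hs := Summable.of_nonneg_of_le (fun p => abs_nonneg _) hterm
    ((a1.add b1).mul_left (4 * rr D β * (z' - z)))
  refine ⟨hs, ?_⟩
  refine (hs.tsum_le_tsum hterm ((a1.add b1).mul_left (4 * rr D β * (z' - z)))).trans ?_
  rw [tsum_mul_left, a1.tsum_add b1]
  have h6 : 0 ≤ z' - z := sub_nonneg.2 hz
  calc 4 * rr D β * (z' - z) * (_ + _) ≤ 4 * rr D β * (z' - z) *
        (512 * AA D q ^ 2 * rr D β ^ 2 * M + 512 * AA D q ^ 2 * rr D β ^ 2 * M) :=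
        mul_le_mul_of_nonneg_left (add_le_add a2 b2) (by positivity)
    _ = _ := by ring

/-- The sums over `n, N` with weights `g` on the index set. -/
theorem Lap.sums (h : Lap D β M s) (hβ : 0 < β) (hA : AA D q * rr D β ≤ 1 / 16) {z : ℝ}
    (h1 : 1 ≤ z) (hz : z ≤ zm q β) (g : ι → ℝ) (hg : ∀ i, 0 ≤ g i)
    (hgs : ∀ i p, s i p ≠ 0 → g i ≤ 1 + (p.2 : ℝ) ^ 2) :
    Summable (fun i => |∑' p : ℤ × ℕ, z ^ p.1 * s i p| * g i) ∧
      ∑' i, |∑' p : ℤ × ℕ, z ^ p.1 * s i p| * g i ≤ 512 * AA D q ^ 2 * rr D β ^ 2 * M := by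
  obtain ⟨a1, a2⟩ := h.one hβ hA h1 hz
  have hle : ∀ i, |∑' p : ℤ × ℕ, z ^ p.1 * s i p| * g i ≤
      ∑' p : ℤ × ℕ, |z ^ p.1 * s i p| * (1 + (p.2 : ℝ) ^ 2) := by
    intro i
    have a3 : Summable fun p : ℤ × ℕ => |z ^ p.1 * s i p| * (1 + (p.2 : ℝ) ^ 2) :=
      a1.prod_factor i
    have a4 : Summable fun p : ℤ × ℕ => |z ^ p.1 * s i p| :=
      Summable.of_nonneg_of_le (fun p => abs_nonneg _) (fun p => by
        nlinarith [abs_nonneg (z ^ p.1 * s i p), sq_nonneg (p.2 : ℝ)]) a3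
    have a5 : |∑' p : ℤ × ℕ, z ^ p.1 * s i p| ≤ ∑' p : ℤ × ℕ, |z ^ p.1 * s i p| := by
      have := norm_tsum_le_tsum_norm (f := fun p : ℤ × ℕ => z ^ p.1 * s i p) (by
        simpa only [Real.norm_eq_abs] using a4)
      simpa only [Real.norm_eq_abs] using this
    refine (mul_le_mul_of_nonneg_right a5 (hg i)).trans ?_
    rw [← tsum_mul_right]
    refine (a4.mul_right (g i)).tsum_le_tsum (fun p => ?_) a3
    by_cases h0 : s i p = 0
    · simp [h0]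
    · exact mul_le_mul_of_nonneg_left (hgs i p h0) (abs_nonneg _)
  have hS := a1.prod
  refine ⟨Summable.of_nonneg_of_le (fun i => mul_nonneg (abs_nonneg _) (hg i)) hle hS, ?_⟩
  refine ((Summable.of_nonneg_of_le (fun i => mul_nonneg (abs_nonneg _) (hg i)) hle hS).tsum_le_tsum
    hle hS).trans ?_
  rw [← a1.tsum_prod]
  exact a2

theorem Lap.summ (h : Lap D β M s) (hβ : 0 < β) (hA : AA D q * rr D β ≤ 1 / 16) {z : ℝ}
    (h1 : 1 ≤ z) (hz : z ≤ zm q β) (i : ι) : Summable fun p : ℤ × ℕ => z ^ p.1 * s i p := by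
  obtain ⟨a1, a2⟩ := h.one hβ hA h1 hz
  have a3 : Summable fun p : ℤ × ℕ => |z ^ p.1 * s i p| * (1 + (p.2 : ℝ) ^ 2) :=
    a1.prod_factor i
  refine Summable.of_abs (Summable.of_nonneg_of_le (fun p => abs_nonneg _) (fun p => ?_) a3)
  nlinarith [abs_nonneg (z ^ p.1 * s i p), sq_nonneg (p.2 : ℝ)]

theorem Lap.diffs (h : Lap D β M s) (hβ : 0 < β) (hA : AA D q * rr D β ≤ 1 / 16) {z z' : ℝ}
    (h1 : za D β ≤ z) (hz : z ≤ z') (hz' : z' ≤ zm q β) :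
    Summable (fun i => |∑' p : ℤ × ℕ, z' ^ p.1 * s i p - ∑' p : ℤ × ℕ, z ^ p.1 * s i p|) ∧
      ∑' i, |∑' p : ℤ × ℕ, z' ^ p.1 * s i p - ∑' p : ℤ × ℕ, z ^ p.1 * s i p| ≤
        4096 * AA D q ^ 2 * rr D β ^ 3 * M * (z' - z) := by
  have hρ : 0 < rr D β := rr_pos β hβ
  have hA1 := AA_ge D q
  have hρ1 : rr D β ≤ 1 / 4 := by nlinarith
  have hza : 1 ≤ za D β := by
    unfold za
    rw [le_div_iff₀ (by positivity)]
    linarith
  obtain ⟨a1, a2⟩ := h.two hβ hA h1 hz hz'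
  have hle : ∀ i, |∑' p : ℤ × ℕ, z' ^ p.1 * s i p - ∑' p : ℤ × ℕ, z ^ p.1 * s i p| ≤
      ∑' p : ℤ × ℕ, |z' ^ p.1 * s i p - z ^ p.1 * s i p| := by
    intro i
    have a3 : Summable fun p : ℤ × ℕ => |z' ^ p.1 * s i p - z ^ p.1 * s i p| :=
      a1.prod_factor i
    rw [← (h.summ hβ hA (hza.trans (h1.trans hz)) hz' i).tsum_sub
      (h.summ hβ hA (hza.trans h1) (hz.trans hz') i)]
    have := norm_tsum_le_tsum_norm
      (f := fun p : ℤ × ℕ => z' ^ p.1 * s i p - z ^ p.1 * s i p) (by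
        simpa only [Real.norm_eq_abs] using a3)
    simpa only [Real.norm_eq_abs] using this
  have hS := a1.prod
  refine ⟨Summable.of_nonneg_of_le (fun i => abs_nonneg _) hle hS, ?_⟩
  refine ((Summable.of_nonneg_of_le (fun i => abs_nonneg _) hle hS).tsum_le_tsum hle hS).trans ?_
  rw [← a1.tsum_prod]
  exact a2

end core

/-! ### The excursion kernels -/

/-- the index sets -/
def eqv (D : ℕ) : Gam D × (ℤ × ℕ) ≃ Site D × ℕ where
  toFun p := ((p.2.1, p.1), p.2.2)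
  invFun p := (p.1.2, (p.1.1, p.2))
  left_inv _ := rfl
  right_inv _ := rfl

theorem nt_le_dist {D : ℕ} (n : ℤ) (w : Gam D) : nt w ≤ dist1 ((n, w) : Site D) (0, 0) := by
  unfold nt dist1
  simp

theorem natAbs_le_dist {D : ℕ} (n : ℤ) (w w' : Gam D) :
    n.natAbs ≤ dist1 ((n, w) : Site D) (0, w') := by
  unfold dist1
  simp

theorem lap_x (D q : ℕ) [NeZero q] (hq : 2 ≤ q) {β : ℝ} (hβ : 0 < β) (hβ1 : β ≤ 1 / 4) {J : ℝ}
    (hJ : 0 ≤ J) (hJ2 : J ≤ 2) (x : Gam D) :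
    Lap D β 1 (fun (w : Gam D) (p : ℤ × ℕ) => SS D q β J (0, x) (p.1, w) p.2) := by
  have hρ : 0 < rr D β := rr_pos β hβ
  obtain ⟨h1, h2⟩ := SS_summable (D := D) hq β J hβ hβ1 hJ hJ2 (0, x)
  have h3 := (eqv D).summable_iff.2 h1
  have h4 := (eqv D).tsum_eq (fun p : Site D × ℕ => |SS D q β J (0, x) p.1 p.2| * ((rr D β)⁻¹) ^ p.2)
  have hle : ∀ p : Gam D × (ℤ × ℕ), |SS D q β J (0, x) (p.2.1, p.1) p.2.2| *
      ((rr D β)⁻¹ ^ p.2.2 * (1 / 2) ^ p.2.2) ≤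
      ((fun p : Site D × ℕ => |SS D q β J (0, x) p.1 p.2| * ((rr D β)⁻¹) ^ p.2) ∘ eqv D) p := by
    intro p
    refine mul_le_mul_of_nonneg_left ?_ (abs_nonneg _)
    have : (1 / 2 : ℝ) ^ p.2.2 ≤ 1 := pow_le_one₀ (by norm_num) (by norm_num)
    exact mul_le_of_le_one_right (by positivity) this
  have hs := Summable.of_nonneg_of_le (fun p => by positivity) hle h3
  refine ⟨hs, ?_, ?_⟩
  · refine (hs.tsum_le_tsum hle h3).trans ?_
    exact h4.le.trans h2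
  · intro w p hp
    obtain ⟨q1, q2, q3⟩ := SS_inv β J (0, x) (p.1, w) p.2 hp
    refine ⟨q1, ?_, (natAbs_le_dist p.1 w x).trans q3⟩
    simpa using q2

/-- The sum of `2 ^ (-|x|)`. -/
theorem summable_half_nt (D : ℕ) : Summable fun x : Gam D => (1 / 2 : ℝ) ^ nt x := by
  have h1 : Summable fun j : ℤ => (1 / 2 : ℝ) ^ j.natAbs := by
    rw [summable_int_iff_summable_nat_and_neg]
    simp only [Int.natAbs_natCast, Int.natAbs_neg]
    exact ⟨summable_geometric_of_lt_one (by norm_num) (by norm_num),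
      summable_geometric_of_lt_one (by norm_num) (by norm_num)⟩
  refine summable_of_sum_le (fun x => by positivity) (c := (∑' j : ℤ, (1 / 2 : ℝ) ^ j.natAbs) ^ D) ?_
  intro S
  classical
  have h2 : S ⊆ Fintype.piFinset fun i => S.image fun x => x i := by
    intro x hx
    rw [Fintype.mem_piFinset]
    exact fun i => mem_image_of_mem (fun x : Gam D => x i) hx
  refine (sum_le_sum_of_subset_of_nonneg h2 fun x _ _ => by positivity).trans ?_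
  have h3 : ∀ x : Gam D, (1 / 2 : ℝ) ^ nt x = ∏ i, (1 / 2 : ℝ) ^ (x i).natAbs := by
    intro x
    unfold nt
    rw [prod_pow_eq_pow_sum]
  rw [sum_congr rfl fun x _ => h3 x,
    ← prod_univ_sum (fun i => S.image fun x => x i) (fun _ (j : ℤ) => (1 / 2 : ℝ) ^ j.natAbs)]
  calc ∏ i : Fin D, ∑ j ∈ S.image (fun x => x i), (1 / 2 : ℝ) ^ j.natAbs ≤
        ∏ _i : Fin D, ∑' j : ℤ, (1 / 2 : ℝ) ^ j.natAbs :=
        prod_le_prod (fun i _ => sum_nonneg fun j _ => by positivity) fun i _ =>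
          h1.sum_le_tsum _ fun j _ => by positivity
    _ = _ := by rw [prod_const, card_univ, Fintype.card_fin]

theorem lap_diff (D q : ℕ) [NeZero q] (hq : 2 ≤ q) {β : ℝ} (hβ : 0 < β) (hβ1 : β ≤ 1 / 4)
    {J J' : ℝ} (hJ : 0 ≤ J) (hJ2 : J ≤ 2) (hJ' : 0 ≤ J') (hJ2' : J' ≤ 2) :
    Lap D β ((∑' x : Gam D, (1 / 2 : ℝ) ^ nt x) * (4 * |J - J'|))
      (fun (i : Gam D × Gam D) (p : ℤ × ℕ) =>
        SS D q β J (0, i.1) (p.1, i.2) p.2 - SS D q β J' (0, i.1) (p.1, i.2) p.2) := by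
  have hρ : 0 < rr D β := rr_pos β hβ
  -- one starting point
  have hx : ∀ x : Gam D, Summable (fun p : Gam D × (ℤ × ℕ) =>
      |SS D q β J (0, x) (p.2.1, p.1) p.2.2 - SS D q β J' (0, x) (p.2.1, p.1) p.2.2| *
        ((rr D β)⁻¹ ^ p.2.2 * (1 / 2) ^ p.2.2)) ∧
      ∑' p : Gam D × (ℤ × ℕ),
        |SS D q β J (0, x) (p.2.1, p.1) p.2.2 - SS D q β J' (0, x) (p.2.1, p.1) p.2.2| *
        ((rr D β)⁻¹ ^ p.2.2 * (1 / 2) ^ p.2.2) ≤ (1 / 2 : ℝ) ^ nt x * (4 * |J - J'|) := by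
    intro x
    have h1 := (SS_summable (D := D) hq β J hβ hβ1 hJ hJ2 (0, x)).1
    have h2 := (SS_summable (D := D) hq β J' hβ hβ1 hJ' hJ2' (0, x)).1
    have h3 : Summable fun p : Site D × ℕ =>
        |SS D q β J (0, x) p.1 p.2 - SS D q β J' (0, x) p.1 p.2| * ((rr D β)⁻¹) ^ p.2 := by
      refine Summable.of_nonneg_of_le (fun p => by positivity) (fun p => ?_) (h1.add h2)
      rw [← add_mul]
      exact mul_le_mul_of_nonneg_right (abs_sub _ _) (by positivity)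
    have h4 := SS_lip (D := D) hq β J J' hβ hβ1 hJ hJ2 hJ' hJ2' (0, x)
    have h5 := ((eqv D).summable_iff.2 h3).mul_left ((1 / 2 : ℝ) ^ nt x)
    have hle : ∀ p : Gam D × (ℤ × ℕ),
        |SS D q β J (0, x) (p.2.1, p.1) p.2.2 - SS D q β J' (0, x) (p.2.1, p.1) p.2.2| *
          ((rr D β)⁻¹ ^ p.2.2 * (1 / 2) ^ p.2.2) ≤
        (1 / 2 : ℝ) ^ nt x * ((fun p : Site D × ℕ =>
          |SS D q β J (0, x) p.1 p.2 - SS D q β J' (0, x) p.1 p.2| * ((rr D β)⁻¹) ^ p.2) ∘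
            eqv D) p := by
      intro p
      change _ ≤ (1 / 2 : ℝ) ^ nt x *
        (|SS D q β J (0, x) (p.2.1, p.1) p.2.2 - SS D q β J' (0, x) (p.2.1, p.1) p.2.2| *
          ((rr D β)⁻¹) ^ p.2.2)
      rcases le_or_gt p.2.2 (nt x) with h6 | h6
      · rw [SS_loc β J J' (0, x) (p.2.1, p.1) p.2.2 h6, sub_self, abs_zero, zero_mul, zero_mul,
          mul_zero]
      · have h7 : (1 / 2 : ℝ) ^ p.2.2 ≤ (1 / 2) ^ nt x :=
          pow_le_pow_of_le_one (by norm_num) (by norm_num) h6.le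
        calc _ ≤ |SS D q β J (0, x) (p.2.1, p.1) p.2.2 - SS D q β J' (0, x) (p.2.1, p.1) p.2.2| *
              ((rr D β)⁻¹ ^ p.2.2 * (1 / 2) ^ nt x) := by gcongr
          _ = _ := by ring
    have hs := Summable.of_nonneg_of_le (fun p => by positivity) hle h5
    refine ⟨hs, (hs.tsum_le_tsum hle h5).trans ?_⟩
    rw [tsum_mul_left]
    refine mul_le_mul_of_nonneg_left ?_ (by positivity)
    exact ((eqv D).tsum_eq (fun p : Site D × ℕ =>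
      |SS D q β J (0, x) p.1 p.2 - SS D q β J' (0, x) p.1 p.2| * ((rr D β)⁻¹) ^ p.2)).le.trans h4
  have hD := (summable_half_nt D).mul_right (4 * |J - J'|)
  have hS : Summable fun y : Gam D × (Gam D × (ℤ × ℕ)) =>
      |SS D q β J (0, y.1) (y.2.2.1, y.2.1) y.2.2.2 - SS D q β J' (0, y.1) (y.2.2.1, y.2.1) y.2.2.2| *
        ((rr D β)⁻¹ ^ y.2.2.2 * (1 / 2) ^ y.2.2.2) := by
    rw [summable_prod_of_nonneg (fun y => by positivity)]
    exact ⟨fun x => (hx x).1, Summable.of_nonneg_of_le (fun x => tsum_nonneg fun p => by positivity)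
      (fun x => (hx x).2) hD⟩
  have e1 := (Equiv.prodAssoc (Gam D) (Gam D) (ℤ × ℕ)).summable_iff.2 hS
  refine ⟨e1, ?_, ?_⟩
  · refine ((Equiv.prodAssoc (Gam D) (Gam D) (ℤ × ℕ)).tsum_eq
      (fun y : Gam D × (Gam D × (ℤ × ℕ)) =>
      |SS D q β J (0, y.1) (y.2.2.1, y.2.1) y.2.2.2 - SS D q β J' (0, y.1) (y.2.2.1, y.2.1) y.2.2.2| *
        ((rr D β)⁻¹ ^ y.2.2.2 * (1 / 2) ^ y.2.2.2))).le.trans ?_
    rw [hS.tsum_prod, ← tsum_mul_right]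
    exact (Summable.of_nonneg_of_le (fun x => tsum_nonneg fun p => by positivity)
      (fun x => (hx x).2) hD).tsum_le_tsum (fun x => (hx x).2) hD
  · intro i p hp
    have h6 : SS D q β J (0, i.1) (p.1, i.2) p.2 ≠ 0 ∨ SS D q β J' (0, i.1) (p.1, i.2) p.2 ≠ 0 := by
      by_contra hcon
      push Not at hcon
      rw [hcon.1, hcon.2, sub_self] at hp
      exact hp rfl
    rcases h6 with h6 | h6
    · obtain ⟨q1, q2, q3⟩ := SS_inv β J (0, i.1) (p.1, i.2) p.2 h6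
      exact ⟨q1, by simpa using q2, (natAbs_le_dist p.1 i.2 i.1).trans q3⟩
    · obtain ⟨q1, q2, q3⟩ := SS_inv β J' (0, i.1) (p.1, i.2) p.2 h6
      exact ⟨q1, by simpa using q2, (natAbs_le_dist p.1 i.2 i.1).trans q3⟩

/-- the small parameter -/
noncomputable def bet0 (D q : ℕ) [NeZero q] : ℝ := 1 / (16 * AA D q * (32 * ((D : ℝ) + 1)))

theorem bet0_pos (D q : ℕ) [NeZero q] : 0 < bet0 D q := by
  have := AA_ge D q
  unfold bet0
  positivity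

theorem bet0_spec (D q : ℕ) [NeZero q] {β : ℝ} (h : β < bet0 D q) :
    AA D q * rr D β ≤ 1 / 16 ∧ β ≤ 1 / 4 := by
  have h1 := AA_ge D q
  have hD : (0 : ℝ) ≤ D := Nat.cast_nonneg D
  have hpos : 0 < 16 * AA D q * (32 * ((D : ℝ) + 1)) := by positivity
  unfold bet0 at h
  rw [lt_div_iff₀ hpos] at h
  constructor
  · unfold rr
    nlinarith
  · have h2 : 4 ≤ 16 * AA D q * (32 * ((D : ℝ) + 1)) := by nlinarith
    rcases le_or_gt β 0 with h3 | h3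
    · linarith
    · nlinarith

/-- Absolute convergence, second moment, size, `z`-difference of `S_z (0, .)` for `J = 1`. -/
theorem Sz_one (D q : ℕ) [NeZero q] (hq : 2 ≤ q) : ∃ β₀ K : ℝ, 0 < β₀ ∧ 0 < K ∧
    ∀ β, 0 < β → β < β₀ →
      (∀ z, 1 ≤ z → z ≤ zm q β →
        Summable (fun w : Gam D => |Sz D q β 1 z 0 w| * (1 + (nt w : ℝ) ^ 2)) ∧
        ∑' w : Gam D, |Sz D q β 1 z 0 w| * (1 + (nt w : ℝ) ^ 2) ≤ K * β ^ 2) ∧
      (∀ z z', za D β ≤ z → z ≤ z' → z' ≤ zm q β →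
        ∑' w : Gam D, |Sz D q β 1 z' 0 w - Sz D q β 1 z 0 w| ≤ K * β ^ 3 * (z' - z)) ∧
      ∀ z w, Sz D q β 1 z 0 (-w) = Sz D q β 1 z 0 w := by
  have hA1 := AA_ge D q
  refine ⟨bet0 D q, 512 * AA D q ^ 2 * (32 * ((D : ℝ) + 1)) ^ 2 +
    4096 * AA D q ^ 2 * (32 * ((D : ℝ) + 1)) ^ 3, bet0_pos D q, by positivity, ?_⟩
  intro β hβ hβ0
  obtain ⟨hA, hβ1⟩ := bet0_spec D q hβ0
  have hL := lap_x D q hq hβ hβ1 zero_le_one one_le_two (0 : Gam D)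
  have hrr : rr D β = 32 * ((D : ℝ) + 1) * β := rfl
  refine ⟨fun z h1 hz => ?_, fun z z' h1 hz hz' => ?_, fun z w => ?_⟩
  · obtain ⟨a1, a2⟩ := hL.sums hβ hA h1 hz (fun w => 1 + (nt w : ℝ) ^ 2) (fun w => by positivity)
      (by
        intro w p hp
        obtain ⟨-, -, q3⟩ := SS_inv β 1 (0, 0) (p.1, w) p.2 hp
        have q4 : (nt w : ℝ) ≤ p.2 := by exact_mod_cast (nt_le_dist p.1 w).trans q3
        have : (0 : ℝ) ≤ nt w := Nat.cast_nonneg _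
        nlinarith)
    refine ⟨a1, a2.trans ?_⟩
    rw [hrr, mul_one]
    have : 0 ≤ 4096 * AA D q ^ 2 * (32 * ((D : ℝ) + 1)) ^ 3 * β ^ 2 := by positivity
    nlinarith
  · obtain ⟨-, a2⟩ := hL.diffs hβ hA h1 hz hz'
    refine a2.trans ?_
    rw [hrr, mul_one]
    have h6 : 0 ≤ z' - z := sub_nonneg.2 hz
    have : 0 ≤ 512 * AA D q ^ 2 * (32 * ((D : ℝ) + 1)) ^ 2 * β ^ 3 * (z' - z) := by positivity
    nlinarith
  · unfold Sz
    refine tsum_congr fun p => ?_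
    have h1 := SS_refl (q := q) β ((0, 0) : Site D) (p.1, w) p.2
    simp only [neg_zero] at h1
    rw [h1]

/-- The part of the perturbation that comes from excursions. -/
theorem Sz_diff (D q : ℕ) [NeZero q] (hq : 2 ≤ q) : ∃ β₀ K : ℝ, 0 < β₀ ∧ 0 < K ∧
    ∀ β, 0 < β → β < β₀ → ∀ J J', 0 ≤ J → J ≤ 2 → 0 ≤ J' → J' ≤ 2 →
      (∀ z, 1 ≤ z → z ≤ zm q β →
        Summable (fun p : Gam D × Gam D => |Sz D q β J z p.1 p.2 - Sz D q β J' z p.1 p.2|) ∧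
        ∑' p : Gam D × Gam D, |Sz D q β J z p.1 p.2 - Sz D q β J' z p.1 p.2| ≤
          K * β ^ 2 * |J - J'|) ∧
      (∀ z z', za D β ≤ z → z ≤ z' → z' ≤ zm q β →
        ∑' p : Gam D × Gam D, |(Sz D q β J z' p.1 p.2 - Sz D q β J' z' p.1 p.2) -
          (Sz D q β J z p.1 p.2 - Sz D q β J' z p.1 p.2)| ≤ K * β ^ 3 * (z' - z) * |J - J'|) := by
  have hA1 := AA_ge D q
  set C : ℝ := ∑' x : Gam D, (1 / 2 : ℝ) ^ nt x with hC
  have hC0 : 0 ≤ C := tsum_nonneg fun x => by positivity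
  refine ⟨bet0 D q, 512 * AA D q ^ 2 * (32 * ((D : ℝ) + 1)) ^ 2 * (C * 4 + 1) +
    4096 * AA D q ^ 2 * (32 * ((D : ℝ) + 1)) ^ 3 * (C * 4 + 1), bet0_pos D q, by positivity, ?_⟩
  intro β hβ hβ0 J J' hJ hJ2 hJ' hJ2'
  obtain ⟨hA, hβ1⟩ := bet0_spec D q hβ0
  have hL := lap_diff D q hq hβ hβ1 hJ hJ2 hJ' hJ2'
  have hrr : rr D β = 32 * ((D : ℝ) + 1) * β := rfl
  have hρ : 0 < rr D β := rr_pos β hβ
  have hρ1 : rr D β ≤ 1 / 4 := by nlinarith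
  have hza : 1 ≤ za D β := by
    unfold za
    rw [le_div_iff₀ (by positivity)]
    linarith
  have hJJ := abs_nonneg (J - J')
  have hsub : ∀ z, 1 ≤ z → z ≤ zm q β → ∀ i : Gam D × Gam D,
      Sz D q β J z i.1 i.2 - Sz D q β J' z i.1 i.2 = ∑' p : ℤ × ℕ, z ^ p.1 *
        (SS D q β J (0, i.1) (p.1, i.2) p.2 - SS D q β J' (0, i.1) (p.1, i.2) p.2) := by
    intro z h1 hz i
    have s1 := (lap_x D q hq hβ hβ1 hJ hJ2 i.1).summ hβ hA h1 hz i.2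
    have s2 := (lap_x D q hq hβ hβ1 hJ' hJ2' i.1).summ hβ hA h1 hz i.2
    unfold Sz
    rw [← s1.tsum_sub s2]
    exact tsum_congr fun p => by rw [mul_sub]
  refine ⟨fun z h1 hz => ?_, fun z z' h1 hz hz' => ?_⟩
  · obtain ⟨a1, a2⟩ := hL.sums hβ hA h1 hz (fun _ => 1) (fun _ => zero_le_one)
      (fun i p _ => by nlinarith [sq_nonneg (p.2 : ℝ)])
    simp only [mul_one] at a1 a2
    simp only [hsub z h1 hz]
    refine ⟨a1, a2.trans ?_⟩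
    rw [hrr]
    have e1 : 512 * AA D q ^ 2 * (32 * ((D : ℝ) + 1) * β) ^ 2 * (C * (4 * |J - J'|)) =
        (512 * AA D q ^ 2 * (32 * ((D : ℝ) + 1)) ^ 2 * (C * 4)) * β ^ 2 * |J - J'| := by ring
    rw [e1]
    gcongr
    have e2 : 0 ≤ 4096 * AA D q ^ 2 * (32 * ((D : ℝ) + 1)) ^ 3 * (C * 4 + 1) := by positivity
    have e3 : 0 ≤ 512 * AA D q ^ 2 * (32 * ((D : ℝ) + 1)) ^ 2 := by positivity
    linarith
  · obtain ⟨-, a2⟩ := hL.diffs hβ hA h1 hz hz'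
    have b1 : 1 ≤ z := hza.trans h1
    simp only [hsub z b1 (hz.trans hz'), hsub z' (b1.trans hz) hz']
    refine a2.trans ?_
    have h6 : 0 ≤ z' - z := sub_nonneg.2 hz
    rw [hrr]
    have e1 : 4096 * AA D q ^ 2 * (32 * ((D : ℝ) + 1) * β) ^ 3 * (C * (4 * |J - J'|)) * (z' - z) =
        (4096 * AA D q ^ 2 * (32 * ((D : ℝ) + 1)) ^ 3 * (C * 4)) * β ^ 3 * (z' - z) * |J - J'| := by
      ring
    rw [e1]
    gcongr
    have e2 : 0 ≤ 512 * AA D q ^ 2 * (32 * ((D : ℝ) + 1)) ^ 2 * (C * 4 + 1) := by positivity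
    have e3 : 0 ≤ 4096 * AA D q ^ 2 * (32 * ((D : ℝ) + 1)) ^ 3 := by positivity
    linarith

end Pool.Agent.SB
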