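import Pool.Agent.SB.Coe
import Pool.Agent.SB.Lap

/-!
# The symbol (row SYB)
-/

set_option autoImplicit false

namespace Pool.Agent.SB

open Finset Filter Topology

lemma abs_dot_le {D : ℕ} (k : Fin D → ℝ) (w : Gam D) : |∑ i, k i * w i| ≤ ‖k‖ * nt w := by
  have h : ∀ i, |k i * w i| ≤ ‖k‖ * |(w i : ℝ)| := fun i => by
    rw [abs_mul]
    gcongr
    exact norm_le_pi_norm k i
  calc |∑ i, k i * w i| ≤ ∑ i, |k i * w i| := abs_sum_le_sum_abs _ _
    _ ≤ ∑ i, ‖k‖ * |(w i : ℝ)| := sum_le_sum fun i _ => h i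
    _ = ‖k‖ * nt w := by
      rw [← mul_sum, nt]
      simp [Nat.cast_natAbs, Int.cast_abs]

lemma one_sub_cos_le (t : ℝ) : 1 - Real.cos t ≤ t ^ 2 / 2 := by
  have := Real.one_sub_sq_div_two_le_cos (x := t)
  linarith

lemma sum_cos_lower {D : ℕ} (k : Fin D → ℝ) (hk : k ∈ cube D) :
    2 / Real.pi ^ 2 * ‖k‖ ^ 2 ≤ ∑ i, (1 - Real.cos (k i)) := by
  have hn : ∀ i, 0 ≤ 1 - Real.cos (k i) := fun i => by have := Real.cos_le_one (k i); linarith
  rcases isEmpty_or_nonempty (Fin D) with h | h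
  · have : ‖k‖ = 0 := by rw [show k = 0 from Subsingleton.elim _ _, norm_zero]
    rw [this]
    simp
  · obtain ⟨i, hi⟩ : ∃ i, ‖k‖ = |k i| := by
      obtain ⟨i, -, hi⟩ := exists_max_image univ (fun i => |k i|) univ_nonempty
      refine ⟨i, le_antisymm ?_ (norm_le_pi_norm k i)⟩
      exact (pi_norm_le_iff_of_nonneg (abs_nonneg _)).mpr fun j => hi j (mem_univ j)
    have hki : |k i| ≤ Real.pi := by
      have := hk i (Set.mem_univ i)
      rw [abs_le]
      exact ⟨this.1, this.2⟩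
    have hki' : |k i| ≤ Real.pi := hki
    have h1 : 2 / Real.pi ^ 2 * |k i| ^ 2 ≤ 1 - Real.cos (k i) := by
      have := Real.cos_le_one_sub_mul_cos_sq hki'
      rw [sq_abs]
      linarith
    rw [hi]
    exact h1.trans (single_le_sum (f := fun i => 1 - Real.cos (k i)) (fun i _ => hn i) (mem_univ i))

lemma sum_cos_upper {D : ℕ} (k : Fin D → ℝ) :
    ∑ i, (1 - Real.cos (k i)) ≤ D * (‖k‖ ^ 2 / 2) := by
  calc ∑ i, (1 - Real.cos (k i)) ≤ ∑ _i : Fin D, ‖k‖ ^ 2 / 2 := by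
        refine sum_le_sum fun i _ => (one_sub_cos_le _).trans ?_
        have h := norm_le_pi_norm k i
        rw [Real.norm_eq_abs] at h
        have : (k i) ^ 2 ≤ ‖k‖ ^ 2 := by
          rw [← sq_abs]; gcongr
        linarith
    _ = D * (‖k‖ ^ 2 / 2) := by simp

section sym

variable {D q : ℕ} [NeZero q]

/-- The hypotheses on the kernel used below. -/
structure SymHyp (D q : ℕ) [NeZero q] (β K : ℝ) : Prop where
  s1 : ∀ z, 1 ≤ z → z ≤ zm q β →
        Summable (fun w : Gam D => |Sz D q β 1 z 0 w| * (1 + (nt w : ℝ) ^ 2))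
  s2 : ∀ z, 1 ≤ z → z ≤ zm q β →
        ∑' w : Gam D, |Sz D q β 1 z 0 w| * (1 + (nt w : ℝ) ^ 2) ≤ K * β ^ 2
  s3 : ∀ z z', za D β ≤ z → z ≤ z' → z' ≤ zm q β →
        ∑' w : Gam D, |Sz D q β 1 z' 0 w - Sz D q β 1 z 0 w| ≤ K * β ^ 3 * (z' - z)

lemma SymHyp.summ {β K : ℝ} (h : SymHyp D q β K) {z : ℝ} (h1 : 1 ≤ z) (h2 : z ≤ zm q β) :
    Summable fun w : Gam D => |Sz D q β 1 z 0 w| := by
  refine Summable.of_nonneg_of_le (fun _ => abs_nonneg _) (fun w => ?_) (h.s1 z h1 h2)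
  nlinarith [abs_nonneg (Sz D q β 1 z 0 w), sq_nonneg (nt w : ℝ),
    mul_nonneg (abs_nonneg (Sz D q β 1 z 0 w)) (sq_nonneg (nt w : ℝ))]

lemma SymHyp.summ_cos {β K : ℝ} (h : SymHyp D q β K) {z : ℝ} (h1 : 1 ≤ z) (h2 : z ≤ zm q β)
    (c : Gam D → ℝ) (hc : ∀ w, |c w| ≤ 1) :
    Summable fun w : Gam D => Sz D q β 1 z 0 w * c w := by
  refine Summable.of_norm_bounded (h.summ h1 h2) fun w => ?_
  rw [Real.norm_eq_abs, abs_mul]
  exact mul_le_of_le_one_right (abs_nonneg _) (hc w)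

lemma SymHyp.abs_le {β K : ℝ} (h : SymHyp D q β K) {z : ℝ} (h1 : 1 ≤ z) (h2 : z ≤ zm q β)
    (c : Gam D → ℝ) (hc : ∀ w, |c w| ≤ 1) :
    |∑' w : Gam D, Sz D q β 1 z 0 w * c w| ≤ K * β ^ 2 := by
  have h3 := h.summ_cos h1 h2 c hc
  have h4 := norm_tsum_le_tsum_norm h3.norm
  simp only [Real.norm_eq_abs] at h4
  refine h4.trans (le_trans ?_ (h.s2 z h1 h2))
  refine (h3.abs).tsum_le_tsum (fun w => ?_) (h.s1 z h1 h2)
  rw [abs_mul]
  calc |Sz D q β 1 z 0 w| * |c w| ≤ |Sz D q β 1 z 0 w| * 1 := by gcongr; exact hc w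
    _ ≤ |Sz D q β 1 z 0 w| * (1 + (nt w : ℝ) ^ 2) := by
      gcongr
      linarith [sq_nonneg (nt w : ℝ)]

lemma SymHyp.abs_sub_le {β K : ℝ} (h : SymHyp D q β K) {z z' : ℝ} (ha : za D β ≤ z)
    (ha1 : 1 ≤ za D β) (hzz : z ≤ z') (h2 : z' ≤ zm q β)
    (c : Gam D → ℝ) (hc : ∀ w, |c w| ≤ 1) :
    |∑' w : Gam D, Sz D q β 1 z' 0 w * c w - ∑' w : Gam D, Sz D q β 1 z 0 w * c w| ≤
      K * β ^ 3 * (z' - z) := by
  have h1 : 1 ≤ z := ha1.trans ha
  have h3 := h.summ_cos h1 (hzz.trans h2) c hc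
  have h3' := h.summ_cos (h1.trans hzz) h2 c hc
  rw [← h3'.tsum_sub h3]
  have h5 : Summable fun w : Gam D => |Sz D q β 1 z' 0 w - Sz D q β 1 z 0 w| := by
    refine Summable.of_nonneg_of_le (fun _ => abs_nonneg _) (fun w => abs_sub _ _)
      ((h.summ (h1.trans hzz) h2).add (h.summ h1 (hzz.trans h2)))
  have h4 := norm_tsum_le_tsum_norm (h3'.sub h3).norm
  simp only [Real.norm_eq_abs] at h4
  refine h4.trans (le_trans ?_ (h.s3 z z' ha hzz h2))
  refine ((h3'.sub h3).abs).tsum_le_tsum (fun w => ?_) h5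
  rw [← sub_mul, abs_mul]
  exact mul_le_of_le_one_right (abs_nonneg _) (hc w)

lemma SymHyp.abs_cos_sub_le {β K : ℝ} (h : SymHyp D q β K) {z : ℝ} (h1 : 1 ≤ z)
    (h2 : z ≤ zm q β) (k : Fin D → ℝ) :
    |∑' w : Gam D, Sz D q β 1 z 0 w * Real.cos (∑ i, k i * w i) -
      ∑' w : Gam D, Sz D q β 1 z 0 w * Real.cos (∑ i, (0 : Fin D → ℝ) i * w i)| ≤
      K * β ^ 2 * (‖k‖ ^ 2 / 2) := by
  have h3 := h.summ_cos h1 h2 (fun w => Real.cos (∑ i, k i * w i)) fun w => Real.abs_cos_le_one _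
  have h3' := h.summ_cos h1 h2 (fun w => Real.cos (∑ i, (0 : Fin D → ℝ) i * w i))
    fun w => Real.abs_cos_le_one _
  rw [← h3.tsum_sub h3']
  have h4 := norm_tsum_le_tsum_norm (h3.sub h3').norm
  simp only [Real.norm_eq_abs] at h4
  refine h4.trans ?_
  have h6 : (∑' w : Gam D, |Sz D q β 1 z 0 w| * (1 + (nt w : ℝ) ^ 2)) * (‖k‖ ^ 2 / 2) ≤
      K * β ^ 2 * (‖k‖ ^ 2 / 2) := by
    gcongr
    exact h.s2 z h1 h2
  refine le_trans ?_ h6
  rw [← tsum_mul_right]
  refine ((h3.sub h3').abs).tsum_le_tsum (fun w => ?_) ((h.s1 z h1 h2).mul_right _)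
  rw [← mul_sub, abs_mul, mul_assoc]
  refine mul_le_mul_of_nonneg_left ?_ (abs_nonneg _)
  have e0 : Real.cos (∑ i, (0 : Fin D → ℝ) i * w i) = 1 := by simp
  rw [e0, abs_sub_comm, abs_of_nonneg (by have := Real.cos_le_one (∑ i, k i * w i); linarith)]
  refine (one_sub_cos_le _).trans ?_
  have h7 := abs_dot_le k w
  have h8 : (∑ i, k i * w i) ^ 2 ≤ (‖k‖ * nt w) ^ 2 := by
    rw [← sq_abs]; gcongr
  nlinarith [sq_nonneg ‖k‖, sq_nonneg (nt w : ℝ)]

/-- The symbol at `k`, with the kernel sum isolated. -/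
lemma hh_sub (β z : ℝ) (k : Fin D → ℝ) :
    hh D q β z k - hh D q β z 0 = 2 * c0 D q β * ∑ i, (1 - Real.cos (k i)) -
      (∑' w : Gam D, Sz D q β 1 z 0 w * Real.cos (∑ i, k i * w i) -
      ∑' w : Gam D, Sz D q β 1 z 0 w * Real.cos (∑ i, (0 : Fin D → ℝ) i * w i)) := by
  unfold hh
  simp only [Pi.zero_apply, Real.cos_zero, sum_sub_distrib, sum_const, card_univ, Fintype.card_fin,
    nsmul_eq_mul, mul_one]
  ring

end sym

theorem symbol (D q : ℕ) [NeZero q] (hq : 2 ≤ q) : ∃ β₀ K : ℝ, 0 < β₀ ∧ 0 < K ∧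
    ∀ β, 0 < β → β < β₀ →
      2 ≤ za D β ∧
      (∀ z, 1 ≤ z → z ≤ zm q β → Continuous (hh D q β z)) ∧
      (∀ z z' k, za D β ≤ z → z ≤ z' → z' ≤ zm q β →
        c0 D q β / 2 * (z' - z) ≤ hh D q β z k - hh D q β z' k ∧
        hh D q β z k - hh D q β z' k ≤ 2 * c0 D q β * (z' - z)) ∧
      (∀ z k, 1 ≤ z → z ≤ zm q β → k ∈ cube D →
        c0 D q β / K * ‖k‖ ^ 2 ≤ hh D q β z k - hh D q β z 0 ∧
        hh D q β z k - hh D q β z 0 ≤ K * c0 D q β * ‖k‖ ^ 2) ∧
      (∀ k, 1 / 2 ≤ hh D q β (za D β) k ∧ hh D q β (za D β) k ≤ 2) ∧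
      ∃ z1, za D β + 2 ≤ z1 ∧ z1 ≤ zm q β ∧ hh D q β z1 0 = 0 := by
  obtain ⟨b1, K1, hb1, hK1, hS⟩ := Sz_one D q hq
  obtain ⟨b2, hb2, hc0⟩ := c0_bounds D q hq
  have hD : (0 : ℝ) < (D : ℝ) + 1 := by positivity
  have hq0 : (0 : ℝ) < q := by positivity
  have hq2 : (2 : ℝ) ≤ q := by exact_mod_cast hq
  refine ⟨min (min b1 b2) (min (1 / (256 * ((D : ℝ) + 1))) (1 / (8 * q * (K1 + 1)))),
    (D : ℝ) + 4, ?_, by positivity, fun β hβ hβlt => ?_⟩
  · have : (0 : ℝ) < 1 / (256 * ((D : ℝ) + 1)) := by positivity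
    have : (0 : ℝ) < 1 / (8 * q * (K1 + 1)) := by positivity
    positivity
  have hβ1 : β < b1 := hβlt.trans_le ((min_le_left _ _).trans (min_le_left _ _))
  have hβ2 : β < b2 := hβlt.trans_le ((min_le_left _ _).trans (min_le_right _ _))
  have hβ3 : β < 1 / (256 * ((D : ℝ) + 1)) := hβlt.trans_le ((min_le_right _ _).trans (min_le_left _ _))
  have hβ4 : β < 1 / (8 * q * (K1 + 1)) := hβlt.trans_le ((min_le_right _ _).trans (min_le_right _ _))
  obtain ⟨hSa, hSb, -⟩ := hS β hβ hβ1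
  obtain ⟨hcl, hcu, hk0, hku⟩ := hc0 β hβ hβ2
  have hH : SymHyp D q β K1 := ⟨fun z h1 h2 => (hSa z h1 h2).1, fun z h1 h2 => (hSa z h1 h2).2, hSb⟩
  -- elementary facts
  have hDβ : ((D : ℝ) + 1) * β < 1 / 256 := by
    rw [lt_div_iff₀ (by positivity)] at hβ3
    linarith
  have hKβ : K1 * β < 1 / (8 * q) := by
    rw [lt_div_iff₀ (by positivity)] at hβ4 ⊢
    nlinarith
  have hD0 : (0 : ℝ) ≤ D := Nat.cast_nonneg D
  have hβs : β < 1 / 256 := by nlinarith
  have hc : 0 < c0 D q β := lt_of_lt_of_le (by positivity) hcl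
  have hza : za D β = 1 / (128 * (((D : ℝ) + 1) * β)) := by
    unfold za rr; congr 1; ring
  have hza2 : 2 ≤ za D β := by
    rw [hza, le_div_iff₀ (by positivity)]
    linarith
  have hza1 : 1 ≤ za D β := by linarith
  have hcβ : c0 D q β ≤ β := by
    refine hcu.trans ?_
    rw [div_le_iff₀ hq0]
    nlinarith
  have hK2 : K1 * β ^ 2 ≤ c0 D q β / 8 := by
    have : K1 * β ^ 2 ≤ (β / q) / 8 := by
      calc K1 * β ^ 2 = (K1 * β) * β := by ring
        _ ≤ (1 / (8 * q)) * β := by gcongr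
        _ = (β / q) / 8 := by field_simp
    linarith
  have hK3 : K1 * β ^ 3 ≤ c0 D q β / 8 := by
    have : K1 * β ^ 3 ≤ K1 * β ^ 2 := by
      have : β ^ 3 ≤ β ^ 2 := by nlinarith [sq_nonneg β]
      gcongr
    linarith
  have hkap : kap0 D q β ≤ 1 / 128 := by
    refine hku.trans ?_
    rw [div_le_iff₀ hq0]
    nlinarith
  have hczm : 4 ≤ c0 D q β * zm q β := by
    unfold zm
    calc (4 : ℝ) = (β / q) * (4 * q / β) := by field_simp
      _ ≤ c0 D q β * (4 * q / β) := by gcongr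
  have hzazm : za D β + 2 ≤ zm q β := by
    unfold zm
    have h1 : za D β ≤ 1 / β := by
      rw [hza]
      gcongr
      nlinarith
    have h2 : (2 : ℝ) ≤ 1 / β := by
      rw [le_div_iff₀ hβ]; linarith
    have h3 : 2 * (1 / β) ≤ 4 * q / β := by
      rw [mul_one_div]
      gcongr
      linarith
    linarith
  -- part (c)
  have hC : ∀ z z' k, za D β ≤ z → z ≤ z' → z' ≤ zm q β →
        c0 D q β / 2 * (z' - z) ≤ hh D q β z k - hh D q β z' k ∧
        hh D q β z k - hh D q β z' k ≤ 2 * c0 D q β * (z' - z) := by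
    intro z z' k h1 h2 h3
    have hz : 0 < z := by linarith
    have hz' : 0 < z' := by linarith
    have hS' := hH.abs_sub_le h1 hza1 h2 h3 (fun w => Real.cos (∑ i, k i * w i))
      fun w => Real.abs_cos_le_one _
    have hd : 0 ≤ z' - z := by linarith
    have hS2 : K1 * β ^ 3 * (z' - z) ≤ c0 D q β / 8 * (z' - z) := by gcongr
    have e1 : hh D q β z k - hh D q β z' k = c0 D q β * ((z' - z) - (z⁻¹ - z'⁻¹)) +
        (∑' w : Gam D, Sz D q β 1 z' 0 w * Real.cos (∑ i, k i * w i) -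
          ∑' w : Gam D, Sz D q β 1 z 0 w * Real.cos (∑ i, k i * w i)) := by
      unfold hh; ring
    have e2 : z⁻¹ - z'⁻¹ = (z' - z) / (z * z') := by field_simp
    have e3 : 0 ≤ (z' - z) / (z * z') := by positivity
    have e4 : (z' - z) / (z * z') ≤ (z' - z) / 4 := by
      have h22 : (2 : ℝ) * 2 ≤ z * z' :=
        mul_le_mul (hza2.trans h1) (hza2.trans (h1.trans h2)) (by norm_num) hz.le
      have h44 : (4 : ℝ) ≤ z * z' := by linarith
      exact div_le_div_of_nonneg_left hd (by norm_num) h44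
    rw [e1, e2]
    have h7 := abs_le.mp hS'
    have e5 : c0 D q β * ((z' - z) - (z' - z) / 4) ≤
        c0 D q β * ((z' - z) - (z' - z) / (z * z')) :=
      mul_le_mul_of_nonneg_left (by linarith) hc.le
    have e6 : c0 D q β * ((z' - z) - (z' - z) / (z * z')) ≤ c0 D q β * (z' - z) :=
      mul_le_mul_of_nonneg_left (by linarith) hc.le
    have e7 : 0 ≤ c0 D q β * (z' - z) := by positivity
    constructor
    · linarith [h7.1]
    · linarith [h7.2]
  -- the value at `za`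
  have hE : ∀ k, 1 / 2 + 1 / 16 ≤ hh D q β (za D β) k ∧ hh D q β (za D β) k ≤ 2 := by
    intro k
    have hzm : za D β ≤ zm q β := by linarith
    have h1 := hH.abs_le hza1 hzm (fun w => Real.cos (∑ i, k i * w i))
      fun w => Real.abs_cos_le_one _
    have h2 : |∑ i, Real.cos (k i)| ≤ D := by
      calc |∑ i, Real.cos (k i)| ≤ ∑ i, |Real.cos (k i)| := abs_sum_le_sum_abs _ _
        _ ≤ ∑ _i : Fin D, (1 : ℝ) := sum_le_sum fun i _ => Real.abs_cos_le_one _
        _ = D := by simp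
    have h3 : c0 D q β * za D β ≤ 1 / 128 := by
      rw [hza]
      calc c0 D q β * (1 / (128 * (((D : ℝ) + 1) * β))) ≤ β * (1 / (128 * (((D : ℝ) + 1) * β))) := by
            gcongr
        _ = 1 / (128 * ((D : ℝ) + 1)) := by field_simp
        _ ≤ 1 / 128 := by
          gcongr
          linarith
    have h3' : 0 ≤ c0 D q β * za D β := by positivity
    have h4 : c0 D q β * (za D β)⁻¹ ≤ c0 D q β := by
      refine mul_le_of_le_one_right hc.le ?_
      exact inv_le_one_of_one_le₀ hza1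
    have h4' : 0 ≤ c0 D q β * (za D β)⁻¹ := by positivity
    have h5 : |2 * c0 D q β * ∑ i, Real.cos (k i)| ≤ 2 * c0 D q β * D := by
      rw [abs_mul, abs_of_pos (by positivity : 0 < 2 * c0 D q β)]
      gcongr
    have h6 : 2 * c0 D q β * D ≤ 1 / 128 := by
      calc 2 * c0 D q β * D ≤ 2 * β * ((D : ℝ) + 1) := by gcongr; linarith
        _ ≤ 1 / 128 := by linarith
    have e0 : hh D q β (za D β) k = 1 + kap0 D q β -
        (c0 D q β * za D β + c0 D q β * (za D β)⁻¹) - 2 * c0 D q β * ∑ i, Real.cos (k i) -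
        ∑' w : Gam D, Sz D q β 1 (za D β) 0 w * Real.cos (∑ i, k i * w i) := by
      unfold hh; ring
    rw [e0]
    have h7 := abs_le.mp h1
    have h8 := abs_le.mp h5
    constructor
    · linarith [h7.2, h8.2]
    · linarith [h7.1, h8.1]
  refine ⟨hza2, ?_, hC, ?_, fun k => ⟨by linarith [(hE k).1], (hE k).2⟩, ?_⟩
  · intro z h1 h2
    have hcont : Continuous fun k : Fin D → ℝ =>
        ∑' w : Gam D, Sz D q β 1 z 0 w * Real.cos (∑ i, k i * w i) := by
      refine continuous_tsum (fun w => by fun_prop) (hH.summ h1 h2) fun w k => ?_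
      rw [Real.norm_eq_abs, abs_mul]
      exact mul_le_of_le_one_right (abs_nonneg _) (Real.abs_cos_le_one _)
    unfold hh
    fun_prop
  · intro z k h1 h2 hk
    rw [hh_sub]
    have h3 := hH.abs_cos_sub_le h1 h2 k
    have h4 := sum_cos_lower k hk
    have h5 := sum_cos_upper k
    have h6 := abs_le.mp h3
    have hk2 : 0 ≤ ‖k‖ ^ 2 := by positivity
    have h7 : K1 * β ^ 2 * (‖k‖ ^ 2 / 2) ≤ c0 D q β / 8 * (‖k‖ ^ 2 / 2) := by gcongr
    have hpi : 1 / 5 ≤ 2 / Real.pi ^ 2 := by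
      rw [div_le_div_iff₀ (by positivity) (by positivity)]
      nlinarith [Real.pi_lt_d2, Real.pi_pos]
    have h8 : 1 / 5 * ‖k‖ ^ 2 ≤ ∑ i, (1 - Real.cos (k i)) := le_trans (by gcongr) h4
    have h9 : c0 D q β / ((D : ℝ) + 4) * ‖k‖ ^ 2 ≤ c0 D q β / 4 * ‖k‖ ^ 2 := by
      gcongr
      linarith
    have h10 : 2 * c0 D q β * (1 / 5 * ‖k‖ ^ 2) ≤ 2 * c0 D q β * ∑ i, (1 - Real.cos (k i)) := by
      gcongr
    have h11 : 2 * c0 D q β * ∑ i, (1 - Real.cos (k i)) ≤ 2 * c0 D q β * (D * (‖k‖ ^ 2 / 2)) := by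
      gcongr
    have hck : 0 ≤ c0 D q β * ‖k‖ ^ 2 := by positivity
    have hckD : 0 ≤ D * (c0 D q β * ‖k‖ ^ 2) := by positivity
    constructor
    · linarith [h6.2]
    · linarith [h6.1]
  · -- intermediate value theorem
    have hcont : ContinuousOn (fun z => hh D q β z 0) (Set.Icc (za D β + 2) (zm q β)) := by
      have hlip : LipschitzOnWith (Real.toNNReal (2 * c0 D q β)) (fun z => hh D q β z 0)
          (Set.Icc (za D β + 2) (zm q β)) := by
        refine LipschitzOnWith.of_dist_le_mul fun x hx y hy => ?_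
        rw [Real.coe_toNNReal _ (by positivity), Real.dist_eq, Real.dist_eq]
        rcases le_total x y with hxy | hxy
        · obtain ⟨e1, e2⟩ := hC x y 0 (by linarith [hx.1]) hxy hy.2
          rw [abs_sub_comm x y, abs_of_nonneg (by linarith : 0 ≤ y - x)]
          rw [abs_of_nonneg (le_trans (by have := sub_nonneg.mpr hxy; positivity) e1)]
          exact e2
        · obtain ⟨e1, e2⟩ := hC y x 0 (by linarith [hy.1]) hxy hx.2
          rw [abs_sub_comm (hh D q β x 0), abs_of_nonneg (by linarith : 0 ≤ x - y)]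
          rw [abs_of_nonneg (le_trans (by have := sub_nonneg.mpr hxy; positivity) e1)]
          exact e2
      exact hlip.continuousOn
    have hlow : hh D q β (zm q β) 0 ≤ 0 := by
      have h1 := hH.abs_le (hza1.trans (by linarith)) le_rfl
        (fun w => Real.cos (∑ i, (0 : Fin D → ℝ) i * w i)) fun w => Real.abs_cos_le_one _
      have h2 : 0 ≤ c0 D q β * (zm q β)⁻¹ := by
        have : 0 < zm q β := by linarith
        positivity
      have h7 := abs_le.mp h1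
      have h8 : hh D q β (zm q β) 0 = 1 + kap0 D q β - (c0 D q β * zm q β + c0 D q β * (zm q β)⁻¹) -
          2 * c0 D q β * D -
          ∑' w : Gam D, Sz D q β 1 (zm q β) 0 w * Real.cos (∑ i, (0 : Fin D → ℝ) i * w i) := by
        unfold hh
        simp only [Pi.zero_apply, Real.cos_zero, sum_const, card_univ, Fintype.card_fin,
          nsmul_eq_mul, mul_one]
        ring
      rw [h8]
      have h9 : 0 ≤ c0 D q β * D := by positivity
      linarith [h7.1]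
    have hhigh : 0 ≤ hh D q β (za D β + 2) 0 := by
      obtain ⟨-, e2⟩ := hC (za D β) (za D β + 2) 0 le_rfl (by linarith) hzazm
      have := (hE 0).1
      linarith
    obtain ⟨z1, hz1, h0⟩ := intermediate_value_Icc' hzazm hcont ⟨hlow, hhigh⟩
    exact ⟨z1, hz1.1, hz1.2, h0⟩

end Pool.Agent.SB
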