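import Pool.Agent.SB.ResAux
import Pool.Agent.SB.Syb
import Pool.Agent.SB.Lap

/-!
# The resolvent
-/

set_option autoImplicit false

namespace Pool.Agent.SB

open Finset Filter Topology

theorem resolvent (D q : ℕ) [NeZero q] (hq : 2 ≤ q) (hD : 3 ≤ D) : ∃ β₀ K : ℝ, 0 < β₀ ∧ 0 < K ∧
    ∀ β, 0 < β → β < β₀ → ∀ z1, za D β ≤ z1 → z1 ≤ zm q β → hh D q β z1 0 = 0 →
      (∀ z x, za D β ≤ z → z ≤ z1 → |Rz D q β z x| ≤ Rz D q β z 0) ∧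
      (∀ z, za D β ≤ z → z ≤ z1 → 1 / 2 ≤ Rz D q β z 0) ∧
      (∀ z z' x, za D β ≤ z → z ≤ z' → z' ≤ z1 →
        |Rz D q β z' x - Rz D q β z x| ≤ Rz D q β z' 0 - Rz D q β z 0) ∧
      Rz D q β z1 0 ≤ K / β ∧ Rz D q β (za D β) 0 ≤ 2 ∧
      (∀ z z', z1 - 1 ≤ z → za D β ≤ z → z ≤ z' → z' ≤ z1 →
        (z' - z) / (K * β) ≤ Rz D q β z' 0 - Rz D q β z 0) ∧
      (∃ c C : ℝ, 0 < c ∧ 0 < C ∧ ∀ δ, 0 < δ → δ ≤ 1 → za D β ≤ z1 - δ →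
        c * Phi D δ ≤ Rz D q β z1 0 - Rz D q β (z1 - δ) 0 ∧
        Rz D q β z1 0 - Rz D q β (z1 - δ) 0 ≤ C * Phi D δ) ∧
      ContinuousOn (fun z => Rz D q β z 0) (Set.Icc (za D β) z1) := by
  obtain ⟨β₀, K, h1, h2, h3⟩ := symbol D q hq
  refine resolvent_aux D q hq hD ⟨β₀, K, h1, h2, fun β hβ hβ0 => ?_⟩
  obtain ⟨s1, s2, s3, s4, s5, -⟩ := h3 β hβ hβ0
  exact ⟨s1, s2, s3, s4, s5⟩

/-- Inverse of the homogeneous operator. -/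
theorem resolvent_inv (D q : ℕ) [NeZero q] (hq : 2 ≤ q) : ∃ β₀ : ℝ, 0 < β₀ ∧
    ∀ β, 0 < β → β < β₀ → ∀ z1, za D β ≤ z1 → z1 ≤ zm q β → hh D q β z1 0 = 0 →
      ∀ z, za D β ≤ z → z < z1 → ∀ g : Gam D → ℝ, Summable g → ∀ x,
        g x = ∑' w, Rz D q β z (x - w) * Hz D q β z g w := by
  obtain ⟨β₀, K, h1, h2, h3⟩ := symbol D q hq
  refine resolvent_inv_aux D q hq ⟨β₀, K, h1, h2, fun β hβ hβ0 => ?_⟩ ?_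
  · obtain ⟨s1, s2, s3, s4, s5, -⟩ := h3 β hβ hβ0
    exact ⟨s1, s2, s3, s4, s5⟩
  · obtain ⟨β₁, K₁, h4, -, h5⟩ := Sz_one D q hq
    refine ⟨β₁, h4, fun β hβ hβ1 z hz1 hz => ?_⟩
    obtain ⟨t1, -, t3⟩ := h5 β hβ hβ1
    obtain ⟨t4, -⟩ := t1 z hz1 hz
    refine ⟨Summable.of_nonneg_of_le (fun _ => abs_nonneg _) (fun w => ?_) t4, t3 z⟩
    exact le_mul_of_one_le_right (abs_nonneg _) (by nlinarith [sq_nonneg (nt w : ℝ)])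

end Pool.Agent.SB
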