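import Pool.Agent.SB.Ana2
import Pool.Agent.SB.Syb
import Pool.Agent.SB.Res

/-!
# The resolvent kernel depends analytically on `z` (row ANA)
-/

set_option autoImplicit false

namespace Pool.Agent.SB

open Filter Topology MeasureTheory

/-- The measure on the cube, as a measure on the subtype. -/
noncomputable def muC (D : ℕ) : Measure (cube D) :=
  Measure.comap ((↑) : cube D → Fin D → ℝ) volume

lemma muC_univ (D : ℕ) : muC D Set.univ = volume (cube D) := by
  unfold muC
  rw [comap_subtype_coe_apply (measurableSet_cube D), Set.image_univ, Subtype.range_coe]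

instance instFiniteMuC (D : ℕ) : IsFiniteMeasure (muC D) :=
  ⟨by rw [muC_univ]; exact (volume_cube_ne_top D).lt_top⟩

lemma muC_real (D : ℕ) : (muC D).real Set.univ = (2 * Real.pi) ^ D := by
  rw [Measure.real, muC_univ]
  exact volume_cube D

lemma integrable_muC {D : ℕ} (f : C(cube D, ℝ)) : Integrable (fun k => f k) (muC D) :=
  Integrable.of_bound f.continuous.aestronglyMeasurable ‖f‖
    (ae_of_all _ fun k => f.norm_coe_le_norm k)

/-- The integral against a cosine. -/
noncomputable def intF {D : ℕ} (f : C(cube D, ℝ)) (x : Gam D) : ℝ :=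
  ((2 * Real.pi) ^ D)⁻¹ * ∫ k, cosC x k * f k ∂(muC D)

lemma intF_le {D : ℕ} (f : C(cube D, ℝ)) (x : Gam D) : |intF f x| ≤ ‖f‖ := by
  unfold intF
  have h1 : ‖∫ k, cosC x k * f k ∂(muC D)‖ ≤ ‖f‖ * (muC D).real Set.univ := by
    refine norm_integral_le_of_norm_le_const (ae_of_all _ fun k => ?_)
    rw [norm_mul, cosC_apply, Real.norm_eq_abs (Real.cos _)]
    calc |Real.cos _| * ‖f k‖ ≤ 1 * ‖f‖ :=
          mul_le_mul (Real.abs_cos_le_one _) (f.norm_coe_le_norm k) (norm_nonneg _) zero_le_one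
      _ = ‖f‖ := one_mul _
  rw [muC_real, Real.norm_eq_abs] at h1
  have hpi : 0 < (2 * Real.pi) ^ D := by positivity
  rw [abs_mul, abs_of_pos (inv_pos.mpr hpi)]
  calc ((2 * Real.pi) ^ D)⁻¹ * |∫ k, cosC x k * f k ∂(muC D)|
      ≤ ((2 * Real.pi) ^ D)⁻¹ * (‖f‖ * (2 * Real.pi) ^ D) := by gcongr
    _ = ‖f‖ := by field_simp

/-- The Fourier coefficients as a continuous linear map into `ℓ^∞`. -/
noncomputable def intL (D : ℕ) : C(cube D, ℝ) →L[ℝ] Li (Gam D) :=
  LinearMap.mkContinuous
    { toFun := fun f => mkLi (intF f) ‖f‖ (intF_le f)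
      map_add' := fun f g => by
        ext x
        rw [lp.coeFn_add, Pi.add_apply, mkLi_apply, mkLi_apply, mkLi_apply]
        unfold intF
        have e1 : Integrable (fun k => cosC x k * f k) (muC D) := integrable_muC (cosC x * f)
        have e2 : Integrable (fun k => cosC x k * g k) (muC D) := integrable_muC (cosC x * g)
        have e3 : ∫ k, cosC x k * (f + g) k ∂(muC D) =
            ∫ k, cosC x k * f k ∂(muC D) + ∫ k, cosC x k * g k ∂(muC D) := by
          rw [← integral_add e1 e2]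
          congr 1
          ext k
          simp only [ContinuousMap.add_apply]
          ring
        rw [e3, mul_add]
      map_smul' := fun c f => by
        ext x
        rw [lp.coeFn_smul, Pi.smul_apply, mkLi_apply, mkLi_apply]
        unfold intF
        simp only [ContinuousMap.smul_apply, smul_eq_mul, RingHom.id_apply]
        have h : ∀ k : cube D, cosC x k * (c * f k) = c * (cosC x k * f k) := fun k => by ring
        simp only [h]
        rw [integral_const_mul]
        ring } 1 fun f => by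
    rw [one_mul]
    change ‖mkLi (intF f) ‖f‖ (intF_le f)‖ ≤ ‖f‖
    exact norm_mkLi_le _ _ (norm_nonneg _) _

lemma intL_apply {D : ℕ} (f : C(cube D, ℝ)) (x : Gam D) : intL D f x = intF f x := rfl

/-- The resolvent kernel as an element of `ℓ^∞`, analytic in `z`. -/
theorem resolvent_analytic (D q : ℕ) [NeZero q] (hq : 2 ≤ q) (hD : 3 ≤ D) : ∃ β₀ : ℝ, 0 < β₀ ∧
    ∀ β, 0 < β → β < β₀ → ∀ z1, za D β ≤ z1 → z1 ≤ zm q β → hh D q β z1 0 = 0 →
      ∃ R : ℝ → Li (Gam D), (∀ z x, za D β ≤ z → z ≤ z1 → R z x = Rz D q β z x) ∧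
        (∀ z, za D β < z → z < z1 → AnalyticAt ℝ R z) := by
  classical
  obtain ⟨β₁, h1, hβ₁⟩ := hh_series D q hq
  obtain ⟨β₂, K₂, h2, hK₂, hβ₂⟩ := symbol D q hq
  obtain ⟨β₃, K₃, h3, hK₃, hβ₃⟩ := resolvent D q hq hD
  obtain ⟨β₄, h4, hβ₄⟩ := c0_bounds D q hq
  refine ⟨min (min β₁ β₂) (min β₃ β₄), by positivity, fun β hβ hlt z1 hz1 hz1' hh1 => ?_⟩
  have hlt1 : β < β₁ := hlt.trans_le ((min_le_left _ _).trans (min_le_left _ _))
  have hlt2 : β < β₂ := hlt.trans_le ((min_le_left _ _).trans (min_le_right _ _))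
  have hlt3 : β < β₃ := hlt.trans_le ((min_le_right _ _).trans (min_le_left _ _))
  have hlt4 : β < β₄ := hlt.trans_le ((min_le_right _ _).trans (min_le_right _ _))
  obtain ⟨hza, H, hH1, hH2⟩ := hβ₁ β hβ hlt1
  obtain ⟨-, -, hdz, hdk, -, -⟩ := hβ₂ β hβ hlt2
  obtain ⟨hle, -⟩ := hβ₃ β hβ hlt3 z1 hz1 hz1' hh1
  have hc0 : 0 < c0 D q β := by
    have := (hβ₄ β hβ hlt4).1
    have hq0 : (0 : ℝ) < q := by positivity
    have h5 : 0 < β / q := by positivity
    linarith
  -- positivity of the symbol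
  have hpos : ∀ z, za D β ≤ z → z < z1 → ∀ k : cube D, 0 < H z k := by
    intro z hz hz' k
    rw [hH1 z k (hza.trans hz) (hz'.le.trans hz1')]
    have e1 := (hdz z z1 k hz hz'.le hz1').1
    have e2 := (hdk z1 k (hza.trans hz1) hz1' k.2).1
    rw [hh1] at e2
    have e3 : 0 ≤ c0 D q β / K₂ * ‖(k : Fin D → ℝ)‖ ^ 2 := by positivity
    have e4 : 0 < c0 D q β / 2 * (z1 - z) := mul_pos (by linarith) (by linarith)
    linarith
  have hunit : ∀ z, za D β ≤ z → z < z1 → IsUnit (H z) := fun z hz hz' =>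
    (ContinuousMap.isUnit_iff_forall_ne_zero _).mpr fun k => (hpos z hz hz' k).ne'
  have hval : ∀ z, za D β ≤ z → z < z1 → ∀ x, intL D (Ring.inverse (H z)) x = Rz D q β z x := by
    intro z hz hz' x
    rw [intL_apply]
    unfold intF Rz
    congr 1
    have e1 : ∀ k : cube D, (Ring.inverse (H z)) k = (hh D q β z k)⁻¹ := by
      intro k
      have e2 := congrArg (fun f : C(cube D, ℝ) => f k) (Ring.mul_inverse_cancel _ (hunit z hz hz'))
      simp only [ContinuousMap.mul_apply, ContinuousMap.one_apply] at e2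
      rw [hH1 z k (hza.trans hz) (hz'.le.trans hz1')] at e2
      exact eq_inv_of_mul_eq_one_right e2
    have e3 : ∀ k : cube D, cosC x k * (Ring.inverse (H z)) k =
        Real.cos (∑ i, (k : Fin D → ℝ) i * x i) / hh D q β z k := by
      intro k
      rw [e1, cosC_apply, div_eq_mul_inv]
    simp only [e3]
    exact integral_subtype_comap (μ := volume) (measurableSet_cube D)
      (fun k : Fin D → ℝ => Real.cos (∑ i, k i * x i) / hh D q β z k)
  set R : ℝ → Li (Gam D) := fun z =>
    if h : za D β ≤ z ∧ z ≤ z1 then mkLi (Rz D q β z) (Rz D q β z 0)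
      (fun x => hle z x h.1 h.2) else 0 with hR
  have hRval : ∀ z x, za D β ≤ z → z ≤ z1 → R z x = Rz D q β z x := by
    intro z x hz hz'
    rw [hR]
    simp only [dif_pos (And.intro hz hz')]
    rfl
  refine ⟨R, hRval, fun z hz hz' => ?_⟩
  have hHan : AnalyticAt ℝ H z := hH2 z (by linarith) (by linarith)
  obtain ⟨u, hu⟩ := hunit z hz.le hz'
  have hinv : AnalyticAt ℝ (Ring.inverse : C(cube D, ℝ) → C(cube D, ℝ)) (H z) := by
    rw [← hu]
    exact analyticAt_inverse u
  have hcomp : AnalyticAt ℝ (fun z => intL D (Ring.inverse (H z))) z :=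
    ((intL D).analyticAt _).comp (hinv.comp hHan)
  refine hcomp.congr ?_
  filter_upwards [Ioo_mem_nhds hz hz'] with w hw
  ext x
  rw [hval w hw.1.le hw.2 x, hRval w x hw.1.le hw.2.le]

end Pool.Agent.SB
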