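import Pool.Agent.SB.Defs2

/-!
# The one-step coefficients (row COE)
-/

set_option autoImplicit false

namespace Pool.Agent.SB

open Finset

theorem cc_eq (D q : ℕ) [NeZero q] (β J : ℝ) (x y : Site D) (hy : y ∈ nb x) :
    cc q β J x y = vv β J x y / q * ∏ y' ∈ (nb x).erase y, (1 + vv β J x y' / q) := by
  classical
  unfold cc tB
  have h1 : (nb x).powerset.filter (fun B => y ∈ B) =
      ((nb x).erase y).powerset.image (insert y) := by
    ext B
    simp only [mem_filter, mem_powerset, mem_image]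
    constructor
    · rintro ⟨hB, hyB⟩
      exact ⟨B.erase y, erase_subset_erase y hB, insert_erase hyB⟩
    · rintro ⟨B', hB', rfl⟩
      exact ⟨insert_subset hy (hB'.trans (erase_subset _ _)), mem_insert_self _ _⟩
  rw [h1, sum_image]
  · have h2 : ∀ B' ∈ ((nb x).erase y).powerset,
        ∏ y' ∈ insert y B', vv β J x y' / q = vv β J x y / q * ∏ y' ∈ B', vv β J x y' / q := by
      intro B' hB'
      rw [mem_powerset] at hB'
      exact prod_insert fun h => by simpa using hB' h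
    rw [sum_congr rfl h2, ← mul_sum, prod_one_add]
  · intro B hB B' hB' h
    have hB1 := mem_powerset.mp (mem_coe.mp hB)
    have hB2 := mem_powerset.mp (mem_coe.mp hB')
    have e1 : y ∉ B := fun h => by simpa using hB1 h
    have e2 : y ∉ B' := fun h => by simpa using hB2 h
    rw [← erase_insert e1, ← erase_insert e2, h]

theorem kap_eq (D q : ℕ) [NeZero q] (β J : ℝ) (x : Site D) :
    kap q β J x = ∏ y ∈ nb x, (1 + vv β J x y / q) - 1 := by
  classical
  unfold kap tB
  rw [prod_one_add, ← add_sum_erase _ _ (empty_mem_powerset (nb x))]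
  simp

lemma vv_hom {D : ℕ} (β : ℝ) (x y : Site D) : vv β 1 x y = Real.exp β - 1 := by
  simp [vv, coup]

lemma card_nb {D : ℕ} (x : Site D) : (nb x).card = 2 * (D + 1) := by
  classical
  unfold nb
  rw [card_image_of_injective]
  · simp [Fintype.card_option, mul_comm]
  · intro d d' h
    have h' : dir d = (dir d' : Site D) := by simpa using h
    have hne : ∀ i : Fin D, ∀ c : ℤ, c ≠ 0 → (Pi.single i c : Fin D → ℤ) ≠ 0 := by
      intro i c hc h0
      have := congrFun h0 i
      simp [hc] at this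
    rcases d with ⟨_ | i, _ | _⟩ <;> rcases d' with ⟨_ | j, _ | _⟩ <;>
      simp only [dir, Prod.mk.injEq] at h' ⊢
    all_goals first
      | (exact ⟨rfl, rfl⟩)
      | (exfalso; omega)
      | skip
    all_goals
      obtain ⟨-, h2⟩ := h'
      have hij : i = j := by
        by_contra hij
        have := congrFun h2 i
        simp [hij] at this
      subst hij
      have := congrFun h2 i
      simp at this ⊢

lemma c_hom (D q : ℕ) [NeZero q] (β : ℝ) (x y : Site D) (hy : y ∈ nb x) :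
    cc q β 1 x y = (Real.exp β - 1) / q * (1 + (Real.exp β - 1) / q) ^ (2 * D + 1) := by
  rw [cc_eq D q β 1 x y hy]
  simp only [vv_hom, prod_const]
  rw [card_erase_of_mem hy, card_nb]
  rfl

lemma k_hom (D q : ℕ) [NeZero q] (β : ℝ) (x : Site D) :
    kap q β 1 x = (1 + (Real.exp β - 1) / q) ^ (2 * D + 2) - 1 := by
  rw [kap_eq D q β 1 x]
  simp only [vv_hom, prod_const]
  rw [card_nb]
  rfl

lemma e1_mem_nb (D : ℕ) : ((1, 0) : Site D) ∈ nb ((0, 0) : Site D) := by
  classical
  unfold nb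
  rw [mem_image]
  exact ⟨(none, true), mem_univ _, by simp [dir]⟩

theorem cc_hom (D q : ℕ) [NeZero q] (β : ℝ) (x y : Site D) (hy : y ∈ nb x) :
    cc q β 1 x y = c0 D q β := by
  unfold c0
  rw [c_hom D q β x y hy, c_hom D q β _ _ (e1_mem_nb D)]

theorem kap_hom (D q : ℕ) [NeZero q] (β : ℝ) (x : Site D) : kap q β 1 x = kap0 D q β := by
  unfold kap0
  rw [k_hom, k_hom]

theorem c0_bounds (D q : ℕ) [NeZero q] (hq : 2 ≤ q) : ∃ β₀ : ℝ, 0 < β₀ ∧
    ∀ β, 0 < β → β < β₀ → β / q ≤ c0 D q β ∧ c0 D q β ≤ 2 * β / q ∧ 0 ≤ kap0 D q β ∧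
      kap0 D q β ≤ 4 * (D + 1) * β / q := by
  have hD : (0 : ℝ) < (D : ℝ) + 1 := by positivity
  have hq0 : (0 : ℝ) < q := by positivity
  have hq2 : (2 : ℝ) ≤ q := by exact_mod_cast hq
  refine ⟨1 / (8 * ((D : ℝ) + 1)), by positivity, fun β hβ hβ1 => ?_⟩
  have hDβ : ((D : ℝ) + 1) * β < 1 / 8 := by
    rw [lt_div_iff₀ (by positivity)] at hβ1
    linarith
  have hβ8 : β < 1 / 8 := by nlinarith [show (0 : ℝ) ≤ D from Nat.cast_nonneg D]
  set u : ℝ := (Real.exp β - 1) / q with hu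
  have hexp1 : β ≤ Real.exp β - 1 := by have := Real.add_one_le_exp β; linarith
  have hexp2 : Real.exp β - 1 ≤ (9 / 8) * β := by
    have h := Real.abs_exp_sub_one_sub_id_le (x := β) (by rw [abs_of_pos hβ]; linarith)
    have := (abs_le.mp h).2
    nlinarith
  have hu1 : β / q ≤ u := by rw [hu]; gcongr
  have hu2 : u ≤ (9 / 8) * (β / q) := by
    rw [hu, ← mul_div_assoc]; gcongr
  have hu0 : 0 < u := lt_of_lt_of_le (by positivity) hu1
  have hbq : β / q ≤ β / 2 := by gcongr
  have hDu : ((D : ℝ) + 1) * (2 * u) ≤ 9 / 64 := by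
    have h3 : u ≤ (9 / 16) * β := by linarith
    nlinarith
  have hpow : ∀ n : ℕ, n ≤ 2 * D + 2 → (1 + u) ^ n ≤ 1 + (73 / 64) * (n * u) := by
    intro n hn
    have hnu : (n : ℝ) * u ≤ 9 / 64 := by
      have : (n : ℝ) ≤ 2 * D + 2 := by exact_mod_cast hn
      calc (n : ℝ) * u ≤ (2 * D + 2) * u := by gcongr
        _ = ((D : ℝ) + 1) * (2 * u) := by ring
        _ ≤ 9 / 64 := hDu
    have hnu0 : 0 ≤ (n : ℝ) * u := by positivity
    have h1 : (1 + u) ^ n ≤ Real.exp (n * u) := by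
      have h2 : 1 + u ≤ Real.exp u := by rw [add_comm]; exact Real.add_one_le_exp u
      calc (1 + u) ^ n ≤ (Real.exp u) ^ n := by gcongr
        _ = Real.exp (n * u) := by rw [← Real.exp_nat_mul]
    have h := Real.abs_exp_sub_one_sub_id_le (x := (n : ℝ) * u)
      (by rw [abs_of_nonneg hnu0]; linarith)
    have := (abs_le.mp h).2
    nlinarith
  have hc : c0 D q β = u * (1 + u) ^ (2 * D + 1) := by
    unfold c0
    rw [c_hom D q β _ _ (e1_mem_nb D)]
  have hk : kap0 D q β = (1 + u) ^ (2 * D + 2) - 1 := by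
    unfold kap0
    rw [k_hom]
  have hone : ∀ n : ℕ, 1 ≤ (1 + u) ^ n := fun n => one_le_pow₀ (by linarith)
  refine ⟨?_, ?_, ?_, ?_⟩
  · rw [hc]
    nlinarith [hone (2 * D + 1)]
  · rw [hc]
    have h1 := hpow (2 * D + 1) (by omega)
    have h2 : ((2 * D + 1 : ℕ) : ℝ) * u ≤ 9 / 64 := by
      push_cast
      nlinarith
    have h3 : (1 + u) ^ (2 * D + 1) ≤ 5 / 4 := by nlinarith
    have h4 : u * (1 + u) ^ (2 * D + 1) ≤ (9 / 8) * (β / q) * (5 / 4) := by
      gcongr
    have h5 : 0 ≤ β / q := by positivity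
    calc u * (1 + u) ^ (2 * D + 1) ≤ (9 / 8) * (β / q) * (5 / 4) := h4
      _ ≤ 2 * (β / q) := by nlinarith
      _ = 2 * β / q := by ring
  · rw [hk]
    have := hone (2 * D + 2)
    linarith
  · rw [hk]
    have h1 := hpow (2 * D + 2) le_rfl
    push_cast at h1
    have h5 : 0 ≤ β / q := by positivity
    calc (1 + u) ^ (2 * D + 2) - 1 ≤ (73 / 64) * ((2 * D + 2) * u) := by linarith
      _ ≤ (73 / 64) * ((2 * D + 2) * ((9 / 8) * (β / q))) := by gcongr
      _ ≤ 4 * (D + 1) * (β / q) := by nlinarith [mul_nonneg hD.le h5]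
      _ = 4 * (D + 1) * β / q := by ring

end Pool.Agent.SB
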