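import Pool.Agent.SB.Defs

/-!
# Norms of the operator and of the excursion kernel
-/

set_option autoImplicit false
set_option linter.unusedSectionVars false

namespace Pool.Agent.SB

open Finset Filter Topology

variable {D q : ℕ} [NeZero q]

lemma card_lab_le (B : Finset (Site D)) (hB : B.Nonempty) (c : ZMod q) :
    (lab B c : Finset (St D q)).card ≤ q ^ (B.card - 1) := by
  classical
  obtain ⟨y0, hy0⟩ := hB
  have hmem : ∀ b : St D q, b ∈ (lab B c : Finset (St D q)) →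
      b.support ⊆ B ∧ (b.sum fun _ k => k) = c := by
    intro b hb
    rw [lab, Finset.mem_filter, Finset.mem_finsupp_iff] at hb
    exact ⟨hb.1.1, hb.2⟩
  have h : (lab B c : Finset (St D q)).card ≤
      ((B.erase y0).finsupp fun _ => (Finset.univ : Finset (ZMod q))).card := by
    apply Finset.card_le_card_of_injOn fun b => b.erase y0
    · intro b hb
      rw [Finset.mem_coe] at hb ⊢
      rw [Finset.mem_finsupp_iff]
      refine ⟨?_, fun i _ => Finset.mem_univ _⟩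
      rw [Finsupp.support_erase]
      exact Finset.erase_subset_erase _ (hmem b hb).1
    · intro b hb b' hb' hbb
      rw [Finset.mem_coe] at hb hb'
      have h1 : ∀ b : St D q, (b.sum fun _ k => k) =
          b y0 + ((b.erase y0).sum fun _ k => k) := by
        intro b
        conv_lhs => rw [← Finsupp.single_add_erase y0 b]
        rw [Finsupp.sum_add_index' (fun _ => rfl) fun _ _ _ => rfl,
          Finsupp.sum_single_index rfl]
      have h2 : b y0 = b' y0 := by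
        have e1 := (hmem b hb).2
        have e2 := (hmem b' hb').2
        rw [h1] at e1 e2
        simp only at hbb
        rw [hbb] at e1
        exact add_right_cancel (e1.trans e2.symm)
      simp only at hbb
      rw [← Finsupp.single_add_erase y0 b, ← Finsupp.single_add_erase y0 b', h2, hbb]
  refine h.trans (le_of_eq ?_)
  rw [Finset.card_finsupp]
  simp [ZMod.card, Finset.card_erase_of_mem hy0]

/-! ### The weighted norm -/

lemma nrm_eq_sum (ρ : ℝ) (m : (St D q × ℕ) →₀ ℝ) (s : Finset (St D q × ℕ)) (hs : m.support ⊆ s) :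
    nrm ρ m = ∑ p ∈ s, |m p| * (ρ⁻¹) ^ p.2 := by
  rw [nrm, Finsupp.sum_of_support_subset _ hs]
  intro i _
  simp

lemma nrm_nonneg {ρ : ℝ} (hρ : 0 ≤ ρ) (m : (St D q × ℕ) →₀ ℝ) : 0 ≤ nrm ρ m := by
  rw [nrm_eq_sum ρ m _ subset_rfl]
  exact Finset.sum_nonneg fun p _ => by positivity

lemma nrm_zero (ρ : ℝ) : nrm ρ (0 : (St D q × ℕ) →₀ ℝ) = 0 := by
  simp [nrm]

lemma nrm_add {ρ : ℝ} (hρ : 0 ≤ ρ) (m m' : (St D q × ℕ) →₀ ℝ) :
    nrm ρ (m + m') ≤ nrm ρ m + nrm ρ m' := by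
  classical
  rw [nrm_eq_sum ρ (m + m') (m.support ∪ m'.support) Finsupp.support_add,
    nrm_eq_sum ρ m (m.support ∪ m'.support) subset_union_left,
    nrm_eq_sum ρ m' (m.support ∪ m'.support) subset_union_right, ← Finset.sum_add_distrib]
  refine Finset.sum_le_sum fun p _ => ?_
  rw [← add_mul, Finsupp.add_apply]
  exact mul_le_mul_of_nonneg_right (abs_add_le _ _) (by positivity)

lemma nrm_smul (ρ : ℝ) (c : ℝ) (m : (St D q × ℕ) →₀ ℝ) : nrm ρ (c • m) = |c| * nrm ρ m := by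
  rw [nrm_eq_sum ρ (c • m) m.support Finsupp.support_smul, nrm_eq_sum ρ m m.support subset_rfl,
    Finset.mul_sum]
  refine Finset.sum_congr rfl fun p _ => ?_
  rw [Finsupp.smul_apply, smul_eq_mul, abs_mul, mul_assoc]

lemma nrm_neg (ρ : ℝ) (m : (St D q × ℕ) →₀ ℝ) : nrm ρ (-m) = nrm ρ m := by
  rw [← neg_one_smul ℝ m, nrm_smul]
  simp

lemma nrm_sub {ρ : ℝ} (hρ : 0 ≤ ρ) (m m' : (St D q × ℕ) →₀ ℝ) :
    nrm ρ (m - m') ≤ nrm ρ m + nrm ρ m' := by
  rw [sub_eq_add_neg]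
  exact (nrm_add hρ _ _).trans_eq (by rw [nrm_neg])

lemma nrm_sub_comm (ρ : ℝ) (m m' : (St D q × ℕ) →₀ ℝ) : nrm ρ (m - m') = nrm ρ (m' - m) := by
  rw [← nrm_neg, neg_sub]

lemma nrm_single (ρ : ℝ) (p : St D q × ℕ) (c : ℝ) :
    nrm ρ (Finsupp.single p c) = |c| * (ρ⁻¹) ^ p.2 := by
  rw [nrm, Finsupp.sum_single_index (by simp)]

lemma nrm_sum {ρ : ℝ} (hρ : 0 ≤ ρ) {ι : Type*} (s : Finset ι) (f : ι → (St D q × ℕ) →₀ ℝ) :
    nrm ρ (∑ i ∈ s, f i) ≤ ∑ i ∈ s, nrm ρ (f i) := by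
  classical
  induction s using Finset.induction_on with
  | empty => simp [nrm_zero]
  | insert a s ha ih =>
    rw [Finset.sum_insert ha, Finset.sum_insert ha]
    exact (nrm_add hρ _ _).trans (by linarith)

lemma nrm_lin {ρ : ℝ} (hρ : 0 ≤ ρ) (m : (St D q × ℕ) →₀ ℝ)
    (f : St D q × ℕ → (St D q × ℕ) →₀ ℝ) (C : ℝ)
    (hf : ∀ p, nrm ρ (f p) ≤ C * (ρ⁻¹) ^ p.2) :
    nrm ρ (m.sum fun p c => c • f p) ≤ C * nrm ρ m := by
  rw [Finsupp.sum, nrm_eq_sum ρ m _ subset_rfl, Finset.mul_sum]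
  refine (nrm_sum hρ _ _).trans (Finset.sum_le_sum fun p _ => ?_)
  rw [nrm_smul]
  calc |m p| * nrm ρ (f p) ≤ |m p| * (C * (ρ⁻¹) ^ p.2) :=
        mul_le_mul_of_nonneg_left (hf p) (abs_nonneg _)
    _ = C * (|m p| * (ρ⁻¹) ^ p.2) := by ring

lemma nrm_mapDomain {ρ : ℝ} (hρ : 0 ≤ ρ) (n : ℕ) (m : (St D q × ℕ) →₀ ℝ) :
    nrm ρ (m.mapDomain fun r => (r.1, n + r.2)) ≤ (ρ⁻¹) ^ n * nrm ρ m := by
  rw [Finsupp.mapDomain, Finsupp.sum, nrm_eq_sum ρ m _ subset_rfl, Finset.mul_sum]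
  refine (nrm_sum hρ _ _).trans (Finset.sum_le_sum fun p _ => ?_)
  rw [nrm_single]
  apply le_of_eq
  simp only
  rw [pow_add]
  ring

lemma nrm_QQ {ρ : ℝ} (hρ : 0 ≤ ρ) (m : (St D q × ℕ) →₀ ℝ) : nrm ρ (QQ m) ≤ nrm ρ m := by
  classical
  rw [nrm_eq_sum ρ (QQ m) m.support (by
    rw [QQ, Finsupp.support_filter]; exact Finset.filter_subset _ _),
    nrm_eq_sum ρ m _ subset_rfl]
  refine Finset.sum_le_sum fun p _ => ?_
  refine mul_le_mul_of_nonneg_right ?_ (by positivity)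
  rw [QQ, Finsupp.filter_apply]
  split_ifs
  · exact le_rfl
  · rw [abs_zero]; exact abs_nonneg _

lemma QQ_sub (m m' : (St D q × ℕ) →₀ ℝ) : QQ (m - m') = QQ m - QQ m' := by
  rw [QQ, QQ, QQ]
  exact Finsupp.filter_sub _ _ _

/-- Finite sums of values at one-particle states. -/
lemma sum_le_nrm (hq : 2 ≤ q) {ρ : ℝ} (hρ : 0 ≤ ρ) (m : (St D q × ℕ) →₀ ℝ)
    (s : Finset (Site D × ℕ)) :
    ∑ p ∈ s, |m (Finsupp.single p.1 (1 : ZMod q), p.2)| * (ρ⁻¹) ^ p.2 ≤ nrm ρ m := by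
  classical
  have : Fact (1 < q) := ⟨hq⟩
  have hinj : Function.Injective fun p : Site D × ℕ =>
      ((Finsupp.single p.1 (1 : ZMod q) : St D q), p.2) := by
    intro p p' h
    simp only [Prod.mk.injEq] at h
    exact Prod.ext (Finsupp.single_left_injective one_ne_zero h.1) h.2
  have e : ∑ p ∈ s, |m (Finsupp.single p.1 (1 : ZMod q), p.2)| * (ρ⁻¹) ^ p.2 =
      ∑ r ∈ s.map ⟨_, hinj⟩, |m r| * (ρ⁻¹) ^ r.2 := by
    rw [Finset.sum_map]
    rfl
  rw [e, nrm_eq_sum ρ m (m.support ∪ s.map ⟨_, hinj⟩) subset_union_left]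
  exact Finset.sum_le_sum_of_subset_of_nonneg subset_union_right fun p _ _ => by positivity

/-! ### Parameters -/

theorem rr_pos (β : ℝ) (hβ : 0 < β) : 0 < rr D β := by
  unfold rr
  positivity

lemma coup_nonnegN (J : ℝ) (hJ : 0 ≤ J) (x y : Site D) : 0 ≤ coup J x y := by
  unfold coup
  split_ifs
  · exact hJ
  · exact zero_le_one

lemma coup_le_two (J : ℝ) (hJ : J ≤ 2) (x y : Site D) : coup J x y ≤ 2 := by
  unfold coup
  split_ifs
  · exact hJ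
  · norm_num

lemma exp_sub_one_le {t : ℝ} (h0 : 0 ≤ t) (h1 : t ≤ 1) : Real.exp t - 1 ≤ 2 * t := by
  have h := Real.abs_exp_sub_one_sub_id_le (x := t) (by rwa [abs_of_nonneg h0])
  have h2 := (abs_le.1 h).2
  nlinarith

theorem vv_le (β J : ℝ) (hβ : 0 < β) (hβ1 : β ≤ 1 / 4) (hJ : 0 ≤ J) (hJ2 : J ≤ 2)
    (x y : Site D) : 0 ≤ vv β J x y ∧ vv β J x y ≤ 4 * β := by
  have h1 := coup_nonnegN J hJ x y
  have h2 := coup_le_two J hJ2 x y
  have h3 : 0 ≤ β * coup J x y := by positivity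
  constructor
  · rw [vv, sub_nonneg]
    exact Real.one_le_exp h3
  · rw [vv]
    have h4 : β * coup J x y ≤ 2 * β := by nlinarith
    have := exp_sub_one_le h3 (by linarith)
    linarith

lemma vv_mono (β J J' : ℝ) (hβ : 0 < β) (h : J' ≤ J) (x y : Site D) :
    vv β J' x y ≤ vv β J x y := by
  unfold vv coup
  split_ifs
  · have : β * J' ≤ β * J := mul_le_mul_of_nonneg_left h hβ.le
    linarith [Real.exp_le_exp.2 this]
  · exact le_rfl

lemma vv_sub_le (β J J' : ℝ) (hβ : 0 < β) (hβ1 : β ≤ 1 / 4) (hJ2 : J ≤ 2) (h : J' ≤ J)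
    (x y : Site D) : vv β J x y - vv β J' x y ≤ 2 * β * (J - J') := by
  have hpos : 0 ≤ 2 * β * (J - J') := by
    have : 0 ≤ J - J' := by linarith
    positivity
  unfold vv coup
  split_ifs
  · -- exp b - exp a ≤ (b - a) exp b
    have h1 : Real.exp (β * J') ≥ Real.exp (β * J) * (1 - (β * J - β * J')) := by
      have e : Real.exp (β * J') = Real.exp (β * J) * Real.exp (β * J' - β * J) := by
        rw [← Real.exp_add]; congr 1; ring
      rw [e]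
      apply mul_le_mul_of_nonneg_left _ (Real.exp_pos _).le
      have := Real.add_one_le_exp (β * J' - β * J)
      linarith
    have h2 : Real.exp (β * J) ≤ 2 := by
      have h3 : β * J ≤ 1 / 2 := by nlinarith
      have h4 : Real.exp (β * J) ≤ Real.exp (1 / 2) := Real.exp_le_exp.2 h3
      have h5 := exp_sub_one_le (t := 1 / 2) (by norm_num) (by norm_num)
      linarith
    have h6 : 0 ≤ β * J - β * J' := by nlinarith
    nlinarith
  · linarith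

lemma card_nb_le (x : Site D) : (nb x).card ≤ 2 * D + 2 := by
  refine Finset.card_image_le.trans ?_
  simp
  omega

lemma prod_sub_prod_le {ι : Type*} (s : Finset ι) (a b : ι → ℝ) (ha : ∀ i, 0 ≤ a i)
    (hab : ∀ i, a i ≤ b i) :
    ∏ i ∈ s, (1 + b i) - ∏ i ∈ s, (1 + a i) ≤ (∏ i ∈ s, (1 + b i)) * ∑ i ∈ s, (b i - a i) := by
  classical
  induction s using Finset.induction_on with
  | empty => simp
  | insert i s hi ih =>
    rw [Finset.prod_insert hi, Finset.prod_insert hi, Finset.sum_insert hi]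
    have h1 : ∏ i ∈ s, (1 + a i) ≤ ∏ i ∈ s, (1 + b i) :=
      Finset.prod_le_prod (fun j _ => by linarith [ha j]) fun j _ => by linarith [hab j]
    have h0 : 0 ≤ ∏ i ∈ s, (1 + a i) := Finset.prod_nonneg fun j _ => by linarith [ha j]
    have h2 := ha i
    have h3 := hab i
    have h4 : (b i - a i) * ∏ i ∈ s, (1 + a i) ≤ (b i - a i) * ((1 + b i) * ∏ i ∈ s, (1 + b i)) := by
      apply mul_le_mul_of_nonneg_left _ (by linarith)
      nlinarith
    have h5 : (1 + b i) * (∏ i ∈ s, (1 + b i) - ∏ i ∈ s, (1 + a i)) ≤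
        (1 + b i) * ((∏ i ∈ s, (1 + b i)) * ∑ i ∈ s, (b i - a i)) :=
      mul_le_mul_of_nonneg_left ih (by linarith)
    nlinarith

lemma sum_powerset_erase (s : Finset (Site D)) (f : Site D → ℝ) :
    ∑ B ∈ s.powerset.erase ∅, ∏ y ∈ B, f y = ∏ y ∈ s, (1 + f y) - 1 := by
  classical
  rw [Finset.prod_one_add, ← Finset.sum_erase_add _ _ (Finset.empty_mem_powerset s)]
  simp

/-- The weight of `B` times the number of labellings. -/
lemma tB_weight (β J : ℝ) (ρ : ℝ) (x : Site D) (B : Finset (Site D)) (hB : B.Nonempty) :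
    tB q β J x B * (2 * (q : ℝ) ^ (B.card - 1) * (ρ⁻¹) ^ B.card) =
      2 / q * ∏ y ∈ B, (vv β J x y / ρ) := by
  have hq0 : (q : ℝ) ≠ 0 := by exact_mod_cast NeZero.ne q
  have hc : B.card - 1 + 1 = B.card := Nat.sub_add_cancel hB.card_pos
  have e1 : ∏ y ∈ B, (vv β J x y / ρ) = (∏ y ∈ B, vv β J x y) * (ρ⁻¹) ^ B.card := by
    rw [← Finset.prod_const, ← Finset.prod_mul_distrib]
    exact Finset.prod_congr rfl fun y _ => div_eq_mul_inv _ _
  have e2 : tB q β J x B = (∏ y ∈ B, vv β J x y) * ((q : ℝ)⁻¹) ^ B.card := by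
    rw [tB, ← Finset.prod_const, ← Finset.prod_mul_distrib]
    exact Finset.prod_congr rfl fun y _ => div_eq_mul_inv _ _
  rw [e1, e2]
  have e3 : ((q : ℝ)⁻¹) ^ B.card * (q : ℝ) ^ (B.card - 1) = (q : ℝ)⁻¹ := by
    rw [← hc, pow_succ, Nat.add_sub_cancel, mul_comm, ← mul_assoc, ← mul_pow,
      mul_inv_cancel₀ hq0, one_pow, one_mul]
  calc (∏ y ∈ B, vv β J x y) * ((q : ℝ)⁻¹) ^ B.card * (2 * (q : ℝ) ^ (B.card - 1) * (ρ⁻¹) ^ B.card)
      = 2 * (((q : ℝ)⁻¹) ^ B.card * (q : ℝ) ^ (B.card - 1)) *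
          ((∏ y ∈ B, vv β J x y) * (ρ⁻¹) ^ B.card) := by ring
    _ = 2 / q * ((∏ y ∈ B, vv β J x y) * (ρ⁻¹) ^ B.card) := by rw [e3]; ring

/-- The measure attached to a set `B` of neighbours. -/
noncomputable def WB (a : St D q) (x : Site D) (B : Finset (Site D)) : (St D q × ℕ) →₀ ℝ :=
  ∑ b ∈ lab B (a x), Finsupp.single (a - Finsupp.single x (a x) + b, B.card) (1 : ℝ) -
    ∑ b ∈ lab B (0 : ZMod q), Finsupp.single (a + b, B.card) (1 : ℝ)

lemma stepAt_eq (β J : ℝ) (a : St D q) (x : Site D) :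
    stepAt β J a x = ∑ B ∈ (nb x).powerset.erase ∅, tB q β J x B • WB a x B := rfl

lemma nrm_WB {ρ : ℝ} (hρ : 0 ≤ ρ) (a : St D q) (x : Site D) (B : Finset (Site D))
    (hB : B.Nonempty) : nrm ρ (WB a x B) ≤ 2 * (q : ℝ) ^ (B.card - 1) * (ρ⁻¹) ^ B.card := by
  have h : ∀ (c : ZMod q) (f : St D q → St D q),
      nrm ρ (∑ b ∈ lab B c, Finsupp.single (f b, B.card) (1 : ℝ)) ≤
        (q : ℝ) ^ (B.card - 1) * (ρ⁻¹) ^ B.card := by
    intro c f
    refine (nrm_sum hρ _ _).trans ?_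
    simp only [nrm_single, abs_one, one_mul, Finset.sum_const, nsmul_eq_mul]
    have h1 : ((lab B c : Finset (St D q)).card : ℝ) ≤ (q : ℝ) ^ (B.card - 1) := by
      exact_mod_cast card_lab_le B hB c
    exact mul_le_mul_of_nonneg_right h1 (by positivity)
  rw [WB]
  refine (nrm_sub hρ _ _).trans ?_
  have h1 := h (a x) fun b => a - Finsupp.single x (a x) + b
  have h2 := h 0 fun b => a + b
  linarith

lemma nrm_sum_smul_WB {ρ : ℝ} (hρ : 0 ≤ ρ) (a : St D q) (x : Site D)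
    (t : Finset (Site D) → ℝ) (ht : ∀ B, 0 ≤ t B) :
    nrm ρ (∑ B ∈ (nb x).powerset.erase ∅, t B • WB a x B) ≤
      ∑ B ∈ (nb x).powerset.erase ∅, t B * (2 * (q : ℝ) ^ (B.card - 1) * (ρ⁻¹) ^ B.card) := by
  refine (nrm_sum hρ _ _).trans (Finset.sum_le_sum fun B hB => ?_)
  rw [nrm_smul, abs_of_nonneg (ht B)]
  exact mul_le_mul_of_nonneg_left (nrm_WB hρ a x B
    (Finset.nonempty_iff_ne_empty.2 (Finset.ne_of_mem_erase hB))) (ht B)

lemma tB_nonneg (β J : ℝ) (hβ : 0 < β) (hJ : 0 ≤ J) (x : Site D) (B : Finset (Site D)) :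
    0 ≤ tB q β J x B := by
  refine Finset.prod_nonneg fun y _ => div_nonneg ?_ (by positivity)
  rw [vv, sub_nonneg]
  exact Real.one_le_exp (mul_nonneg hβ.le (coup_nonnegN J hJ x y))

lemma sum_vv_div_le (β J : ℝ) (hβ : 0 < β) (hβ1 : β ≤ 1 / 4) (hJ : 0 ≤ J) (hJ2 : J ≤ 2)
    (x : Site D) : ∑ y ∈ nb x, vv β J x y / rr D β ≤ 1 / 4 := by
  have h1 : ∀ y ∈ nb x, vv β J x y / rr D β ≤ 1 / (8 * ((D : ℝ) + 1)) := by
    intro y _
    rw [div_le_div_iff₀ (rr_pos β hβ) (by positivity)]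
    have := (vv_le β J hβ hβ1 hJ hJ2 x y).2
    have hD : (0 : ℝ) ≤ 8 * ((D : ℝ) + 1) := by positivity
    unfold rr
    nlinarith
  refine (Finset.sum_le_sum h1).trans ?_
  rw [Finset.sum_const, nsmul_eq_mul]
  have h2 : ((nb x).card : ℝ) ≤ 2 * D + 2 := by exact_mod_cast card_nb_le x
  have h3 : (0 : ℝ) < (D : ℝ) + 1 := by positivity
  calc ((nb x).card : ℝ) * (1 / (8 * ((D : ℝ) + 1))) ≤ (2 * D + 2) * (1 / (8 * ((D : ℝ) + 1))) :=
        mul_le_mul_of_nonneg_right h2 (by positivity)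
    _ = 1 / 4 := by field_simp; norm_num

lemma prod_vv_le (β J : ℝ) (hβ : 0 < β) (hβ1 : β ≤ 1 / 4) (hJ : 0 ≤ J) (hJ2 : J ≤ 2)
    (x : Site D) : ∏ y ∈ nb x, (1 + vv β J x y / rr D β) ≤ 3 / 2 := by
  have h1 : ∏ y ∈ nb x, (1 + vv β J x y / rr D β) ≤
      ∏ y ∈ nb x, Real.exp (vv β J x y / rr D β) := by
    refine Finset.prod_le_prod (fun y _ => ?_) fun y _ => ?_
    · have := div_nonneg (vv_le β J hβ hβ1 hJ hJ2 x y).1 (rr_pos (D := D) β hβ).le
      linarith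
    · have := Real.add_one_le_exp (vv β J x y / rr D β)
      linarith
  rw [← Real.exp_sum] at h1
  have h2 : Real.exp (∑ y ∈ nb x, vv β J x y / rr D β) ≤ Real.exp (1 / 4) :=
    Real.exp_le_exp.2 (sum_vv_div_le β J hβ hβ1 hJ hJ2 x)
  have h3 := exp_sub_one_le (t := 1 / 4) (by norm_num) (by norm_num)
  linarith

lemma nrm_stepAt (hq : 2 ≤ q) (β J : ℝ) (hβ : 0 < β) (hβ1 : β ≤ 1 / 4) (hJ : 0 ≤ J)
    (hJ2 : J ≤ 2) (a : St D q) (x : Site D) : nrm (rr D β) (stepAt β J a x) ≤ 1 / 2 := by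
  have hq2 : (2 : ℝ) ≤ q := by exact_mod_cast hq
  rw [stepAt_eq]
  refine (nrm_sum_smul_WB (rr_pos β hβ).le a x _ (tB_nonneg β J hβ hJ x)).trans ?_
  rw [Finset.sum_congr rfl fun B hB => tB_weight β J (rr D β) x B
    (Finset.nonempty_iff_ne_empty.2 (Finset.ne_of_mem_erase hB)), ← Finset.mul_sum,
    sum_powerset_erase]
  have h1 := prod_vv_le β J hβ hβ1 hJ hJ2 x
  have h2 : (2 : ℝ) / q ≤ 1 := by rw [div_le_one (by linarith)]; exact hq2
  have h3 : (0 : ℝ) ≤ 2 / q := by positivity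
  nlinarith

lemma nrm_stepAt_sub (hq : 2 ≤ q) (β J J' : ℝ) (hβ : 0 < β) (hβ1 : β ≤ 1 / 4) (hJ' : 0 ≤ J')
    (hJ2 : J ≤ 2) (h : J' ≤ J) (a : St D q) (x : Site D) :
    nrm (rr D β) (stepAt β J a x - stepAt β J' a x) ≤ J - J' := by
  have hq2 : (2 : ℝ) ≤ q := by exact_mod_cast hq
  have hJ : 0 ≤ J := hJ'.trans h
  have hJ2' : J' ≤ 2 := h.trans hJ2
  have hrr := rr_pos (D := D) β hβ
  rw [stepAt_eq, stepAt_eq, ← Finset.sum_sub_distrib]
  simp only [← sub_smul]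
  have ht : ∀ B, 0 ≤ tB q β J x B - tB q β J' x B := by
    intro B
    rw [sub_nonneg]
    refine Finset.prod_le_prod (fun y _ => div_nonneg (vv_le β J' hβ hβ1 hJ' hJ2' x y).1
      (by positivity)) fun y _ => ?_
    exact div_le_div_of_nonneg_right (vv_mono β J J' hβ h x y) (by positivity)
  refine (nrm_sum_smul_WB hrr.le a x _ ht).trans ?_
  simp only [sub_mul]
  rw [Finset.sum_sub_distrib, Finset.sum_congr rfl fun B hB => tB_weight β J (rr D β) x B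
    (Finset.nonempty_iff_ne_empty.2 (Finset.ne_of_mem_erase hB)),
    Finset.sum_congr rfl fun B hB => tB_weight β J' (rr D β) x B
    (Finset.nonempty_iff_ne_empty.2 (Finset.ne_of_mem_erase hB)), ← Finset.mul_sum,
    ← Finset.mul_sum, sum_powerset_erase, sum_powerset_erase]
  have h1 := prod_vv_le β J hβ hβ1 hJ hJ2 x
  have h2 : (2 : ℝ) / q ≤ 1 := by rw [div_le_one (by linarith)]; exact hq2
  have h3 : (0 : ℝ) ≤ 2 / q := by positivity
  have h4 := prod_sub_prod_le (nb x) (fun y => vv β J' x y / rr D β) (fun y => vv β J x y / rr D β)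
    (fun y => div_nonneg (vv_le β J' hβ hβ1 hJ' hJ2' x y).1 hrr.le)
    (fun y => div_le_div_of_nonneg_right (vv_mono β J J' hβ h x y) hrr.le)
  have h5 : ∑ y ∈ nb x, (vv β J x y / rr D β - vv β J' x y / rr D β) ≤ (J - J') / 8 := by
    have h6 : ∀ y ∈ nb x, vv β J x y / rr D β - vv β J' x y / rr D β ≤
        (J - J') / (16 * ((D : ℝ) + 1)) := by
      intro y _
      rw [← sub_div, div_le_div_iff₀ hrr (by positivity)]
      have := vv_sub_le β J J' hβ hβ1 hJ2 h x y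
      have hD : (0 : ℝ) ≤ 16 * ((D : ℝ) + 1) := by positivity
      unfold rr
      nlinarith
    refine (Finset.sum_le_sum h6).trans ?_
    rw [Finset.sum_const, nsmul_eq_mul]
    have h7 : ((nb x).card : ℝ) ≤ 2 * D + 2 := by exact_mod_cast card_nb_le x
    have h8 : 0 ≤ J - J' := by linarith
    calc ((nb x).card : ℝ) * ((J - J') / (16 * ((D : ℝ) + 1))) ≤
          (2 * D + 2) * ((J - J') / (16 * ((D : ℝ) + 1))) :=
          mul_le_mul_of_nonneg_right h7 (by positivity)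
      _ = (J - J') / 8 := by field_simp; ring
  have h9 : 0 ≤ ∏ y ∈ nb x, (1 + vv β J x y / rr D β) := Finset.prod_nonneg fun y _ => by
    have := div_nonneg (vv_le β J hβ hβ1 hJ hJ2 x y).1 hrr.le
    linarith
  have h10 : 0 ≤ J - J' := by linarith
  have h11 : (∏ y ∈ nb x, (1 + vv β J x y / rr D β)) *
      ∑ y ∈ nb x, (vv β J x y / rr D β - vv β J' x y / rr D β) ≤ 3 / 2 * ((J - J') / 8) :=
    (mul_le_mul_of_nonneg_left h5 h9).trans (mul_le_mul_of_nonneg_right h1 (by positivity))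
  have h12 : ∏ y ∈ nb x, (1 + vv β J x y / rr D β) - ∏ y ∈ nb x, (1 + vv β J' x y / rr D β) ≤
      J - J' := by linarith
  have h13 : 0 ≤ ∏ y ∈ nb x, (1 + vv β J x y / rr D β) -
      ∏ y ∈ nb x, (1 + vv β J' x y / rr D β) := by
    rw [sub_nonneg]
    refine Finset.prod_le_prod (fun y _ => ?_) fun y _ => ?_
    · have := div_nonneg (vv_le β J' hβ hβ1 hJ' hJ2' x y).1 hrr.le
      linarith
    · have := div_le_div_of_nonneg_right (vv_mono β J J' hβ h x y) hrr.le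
      linarith
  nlinarith

lemma nrm_avg {ρ : ℝ} (hρ : 0 ≤ ρ) (C : ℝ) (hC : 0 ≤ C) (a : St D q)
    (f : Site D → (St D q × ℕ) →₀ ℝ) (hf : ∀ x, nrm ρ (f x) ≤ C) :
    nrm ρ (∑ x ∈ lft a, ((lft a).card : ℝ)⁻¹ • f x) ≤ C := by
  refine (nrm_sum hρ _ _).trans ?_
  have h1 : ∀ x ∈ lft a, nrm ρ (((lft a).card : ℝ)⁻¹ • f x) ≤ ((lft a).card : ℝ)⁻¹ * C := by
    intro x _
    rw [nrm_smul, abs_of_nonneg (by positivity)]
    exact mul_le_mul_of_nonneg_left (hf x) (by positivity)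
  refine (Finset.sum_le_sum h1).trans ?_
  rw [Finset.sum_const, nsmul_eq_mul, ← mul_assoc]
  rcases Nat.eq_zero_or_pos (lft a).card with h0 | h0
  · rw [h0]; simpa using hC
  · rw [mul_inv_cancel₀ (by exact_mod_cast h0.ne'), one_mul]

lemma TT_eq (β J : ℝ) (m : (St D q × ℕ) →₀ ℝ) :
    TT β J m = m.sum fun p c => c •
      (stepL β J p.1).mapDomain fun r => (r.1, p.2 + r.2) := rfl

theorem nrm_TT (hq : 2 ≤ q) (β J : ℝ) (hβ : 0 < β) (hβ1 : β ≤ 1 / 4) (hJ : 0 ≤ J) (hJ2 : J ≤ 2)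
    (m : (St D q × ℕ) →₀ ℝ) : nrm (rr D β) (TT β J m) ≤ (1 / 2) * nrm (rr D β) m := by
  have hρ := (rr_pos (D := D) β hβ).le
  rw [TT_eq]
  refine nrm_lin hρ m _ (1 / 2) fun p => ?_
  refine (nrm_mapDomain hρ _ _).trans ?_
  rw [mul_comm]
  refine mul_le_mul_of_nonneg_right ?_ (by positivity)
  exact nrm_avg hρ (1 / 2) (by norm_num) p.1 _ fun x => nrm_stepAt hq β J hβ hβ1 hJ hJ2 p.1 x

lemma nrm_TT_sub_aux (hq : 2 ≤ q) (β J J' : ℝ) (hβ : 0 < β) (hβ1 : β ≤ 1 / 4)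
    (hJ2 : J ≤ 2) (hJ' : 0 ≤ J') (h : J' ≤ J) (m : (St D q × ℕ) →₀ ℝ) :
    nrm (rr D β) (TT β J m - TT β J' m) ≤ (J - J') * nrm (rr D β) m := by
  have hρ := (rr_pos (D := D) β hβ).le
  rw [TT_eq, TT_eq, ← Finsupp.sum_sub]
  simp only [← smul_sub]
  refine nrm_lin hρ m _ (J - J') fun p => ?_
  have e : ((stepL β J p.1).mapDomain fun r : St D q × ℕ => (r.1, p.2 + r.2)) -
      ((stepL β J' p.1).mapDomain fun r : St D q × ℕ => (r.1, p.2 + r.2)) =
      ((∑ x ∈ lft p.1, ((lft p.1).card : ℝ)⁻¹ • (stepAt β J p.1 x - stepAt β J' p.1 x)).mapDomain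
        fun r : St D q × ℕ => (r.1, p.2 + r.2)) := by
    have e1 : (∑ x ∈ lft p.1, ((lft p.1).card : ℝ)⁻¹ • (stepAt β J p.1 x - stepAt β J' p.1 x)) =
        stepL β J p.1 - stepL β J' p.1 := by
      rw [stepL, stepL, ← Finset.sum_sub_distrib]
      exact Finset.sum_congr rfl fun x _ => smul_sub _ _ _
    rw [e1]
    exact (map_sub (Finsupp.mapDomain.addMonoidHom
      (fun r : St D q × ℕ => (r.1, p.2 + r.2)) : _ →+ ((St D q × ℕ) →₀ ℝ)) _ _).symm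
  rw [e]
  refine (nrm_mapDomain hρ _ _).trans ?_
  rw [mul_comm]
  refine mul_le_mul_of_nonneg_right ?_ (by positivity)
  exact nrm_avg hρ (J - J') (by linarith) p.1 _ fun x =>
    nrm_stepAt_sub hq β J J' hβ hβ1 hJ' hJ2 h p.1 x

theorem nrm_TT_sub (hq : 2 ≤ q) (β J J' : ℝ) (hβ : 0 < β) (hβ1 : β ≤ 1 / 4) (hJ : 0 ≤ J)
    (hJ2 : J ≤ 2) (hJ' : 0 ≤ J') (hJ2' : J' ≤ 2) (m : (St D q × ℕ) →₀ ℝ) :
    nrm (rr D β) (TT β J m - TT β J' m) ≤ |J - J'| * nrm (rr D β) m := by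
  rcases le_total J' J with h | h
  · rw [abs_of_nonneg (by linarith)]
    exact nrm_TT_sub_aux hq β J J' hβ hβ1 hJ2 hJ' h m
  · rw [abs_of_nonpos (by linarith), nrm_sub_comm, neg_sub]
    exact nrm_TT_sub_aux hq β J' J hβ hβ1 hJ2' hJ h m

theorem nrm_mm (hq : 2 ≤ q) (β J : ℝ) (hβ : 0 < β) (hβ1 : β ≤ 1 / 4) (hJ : 0 ≤ J) (hJ2 : J ≤ 2)
    (x : Site D) (n : ℕ) : nrm (rr D β) (mm (q := q) β J x n) ≤ (1 / 2) ^ (n + 1) := by
  have hρ := (rr_pos (D := D) β hβ).le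
  induction n with
  | zero =>
    rw [mm]
    refine (nrm_QQ hρ _).trans ((nrm_TT hq β J hβ hβ1 hJ hJ2 _).trans ?_)
    rw [nrm_single]
    simp
  | succ n ih =>
    rw [mm]
    refine (nrm_QQ hρ _).trans ((nrm_TT hq β J hβ hβ1 hJ hJ2 _).trans ?_)
    rw [pow_succ (1 / 2 : ℝ) (n + 1)]
    linarith

lemma nrm_mm_sub (hq : 2 ≤ q) (β J J' : ℝ) (hβ : 0 < β) (hβ1 : β ≤ 1 / 4) (hJ : 0 ≤ J)
    (hJ2 : J ≤ 2) (hJ' : 0 ≤ J') (hJ2' : J' ≤ 2) (x : Site D) (n : ℕ) :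
    nrm (rr D β) (mm (q := q) β J x n - mm β J' x n) ≤ (n + 1) * (1 / 2) ^ n * |J - J'| := by
  have hρ := (rr_pos (D := D) β hβ).le
  induction n with
  | zero =>
    rw [mm, mm, ← QQ_sub]
    refine (nrm_QQ hρ _).trans ((nrm_TT_sub hq β J J' hβ hβ1 hJ hJ2 hJ' hJ2' _).trans ?_)
    rw [nrm_single]
    simp
  | succ n ih =>
    rw [mm, mm, ← QQ_sub]
    refine (nrm_QQ hρ _).trans ?_
    have e : TT β J (mm β J x n) - TT β J' (mm β J' x n) =
        TT β J (mm (q := q) β J x n - mm β J' x n) +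
          (TT β J (mm β J' x n) - TT β J' (mm β J' x n)) := by
      rw [map_sub]; abel
    rw [e]
    refine (nrm_add hρ _ _).trans ?_
    have h1 := nrm_TT hq β J hβ hβ1 hJ hJ2 (mm (q := q) β J x n - mm β J' x n)
    have h2 := nrm_TT_sub hq β J J' hβ hβ1 hJ hJ2 hJ' hJ2' (mm (q := q) β J' x n)
    have h3 := nrm_mm hq β J' hβ hβ1 hJ' hJ2' x n
    have h4 := mul_le_mul_of_nonneg_left h3 (abs_nonneg (J - J'))
    have e2 : ((1 : ℝ) / 2) ^ (n + 1) = (1 / 2) ^ n * (1 / 2) := pow_succ _ _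
    rw [e2] at h4 ⊢
    push_cast
    nlinarith

lemma nrm_TTmm_sub (hq : 2 ≤ q) (β J J' : ℝ) (hβ : 0 < β) (hβ1 : β ≤ 1 / 4) (hJ : 0 ≤ J)
    (hJ2 : J ≤ 2) (hJ' : 0 ≤ J') (hJ2' : J' ≤ 2) (x : Site D) (n : ℕ) :
    nrm (rr D β) (TT β J (mm (q := q) β J x n) - TT β J' (mm β J' x n)) ≤
      (n + 2) * (1 / 2) ^ (n + 1) * |J - J'| := by
  have hρ := (rr_pos (D := D) β hβ).le
  have e : TT β J (mm β J x n) - TT β J' (mm β J' x n) =
      TT β J (mm (q := q) β J x n - mm β J' x n) +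
        (TT β J (mm β J' x n) - TT β J' (mm β J' x n)) := by
    rw [map_sub]; abel
  rw [e]
  refine (nrm_add hρ _ _).trans ?_
  have h1 := nrm_TT hq β J hβ hβ1 hJ hJ2 (mm (q := q) β J x n - mm β J' x n)
  have h2 := nrm_TT_sub hq β J J' hβ hβ1 hJ hJ2 hJ' hJ2' (mm (q := q) β J' x n)
  have h3 := nrm_mm hq β J' hβ hβ1 hJ' hJ2' x n
  have h4 := mul_le_mul_of_nonneg_left h3 (abs_nonneg (J - J'))
  have h5 := nrm_mm_sub hq β J J' hβ hβ1 hJ hJ2 hJ' hJ2' x n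
  have e2 : ((1 : ℝ) / 2) ^ (n + 1) = (1 / 2) ^ n * (1 / 2) := pow_succ _ _
  rw [e2] at h4 ⊢
  nlinarith

/-- Sums over one-particle states of a sequence of measures. -/
lemma sum_SS_le (hq : 2 ≤ q) {ρ : ℝ} (hρ : 0 ≤ ρ) (f : ℕ → (St D q × ℕ) →₀ ℝ) (C : ℝ)
    (hC : ∀ M, ∑ n ∈ range M, nrm ρ (f n) ≤ C) (s : Finset (Site D × ℕ)) :
    ∑ p ∈ s, |∑ n ∈ range p.2, f n (Finsupp.single p.1 (1 : ZMod q), p.2)| * (ρ⁻¹) ^ p.2 ≤ C := by
  set M := s.sup fun p => p.2 with hM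
  have h1 : ∀ p ∈ s, |∑ n ∈ range p.2, f n (Finsupp.single p.1 (1 : ZMod q), p.2)| *
      (ρ⁻¹) ^ p.2 ≤ ∑ n ∈ range M, |f n (Finsupp.single p.1 (1 : ZMod q), p.2)| * (ρ⁻¹) ^ p.2 := by
    intro p hp
    rw [← Finset.sum_mul]
    refine mul_le_mul_of_nonneg_right ?_ (by positivity)
    refine (Finset.abs_sum_le_sum_abs _ _).trans ?_
    have hpM : p.2 ≤ M := Finset.le_sup (f := fun p : Site D × ℕ => p.2) hp
    exact Finset.sum_le_sum_of_subset_of_nonneg (Finset.range_mono hpM) fun _ _ _ => abs_nonneg _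
  refine (Finset.sum_le_sum h1).trans ?_
  rw [Finset.sum_comm]
  exact (Finset.sum_le_sum fun n _ => sum_le_nrm hq hρ (f n) s).trans (hC M)

lemma summable_and_tsum_le {ι : Type*} (f : ι → ℝ) (hf : ∀ i, 0 ≤ f i) (C : ℝ)
    (h : ∀ s : Finset ι, ∑ i ∈ s, f i ≤ C) : Summable f ∧ ∑' i, f i ≤ C := by
  have hs : Summable f := summable_of_sum_le hf h
  exact ⟨hs, hs.tsum_le_of_sum_le h⟩

lemma sum_half_le (M : ℕ) : ∑ n ∈ range M, ((1 : ℝ) / 2) ^ (n + 2) ≤ 1 / 2 := by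
  have h : ∀ M : ℕ, ∑ n ∈ range M, ((1 : ℝ) / 2) ^ (n + 2) = 1 / 2 - (1 / 2) ^ (M + 1) := by
    intro M
    induction M with
    | zero => norm_num
    | succ M ih => rw [Finset.sum_range_succ, ih]; ring
  rw [h]
  have : (0 : ℝ) < (1 / 2) ^ (M + 1) := by positivity
  linarith

lemma sum_lin_half_le (M : ℕ) : ∑ n ∈ range M, ((n : ℝ) + 2) * (1 / 2) ^ (n + 1) ≤ 3 := by
  have h : ∀ M : ℕ, ∑ n ∈ range M, ((n : ℝ) + 2) * (1 / 2) ^ (n + 1) =
      3 - (M + 3) * (1 / 2) ^ M := by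
    intro M
    induction M with
    | zero => norm_num
    | succ M ih => rw [Finset.sum_range_succ, ih]; push_cast; ring
  rw [h]
  have : (0 : ℝ) < (M + 3) * (1 / 2) ^ M := by positivity
  linarith

theorem SS_summable (hq : 2 ≤ q) (β J : ℝ) (hβ : 0 < β) (hβ1 : β ≤ 1 / 4) (hJ : 0 ≤ J)
    (hJ2 : J ≤ 2) (x : Site D) :
    Summable (fun p : Site D × ℕ => |SS D q β J x p.1 p.2| * ((rr D β)⁻¹) ^ p.2) ∧
      ∑' p : Site D × ℕ, |SS D q β J x p.1 p.2| * ((rr D β)⁻¹) ^ p.2 ≤ 1 := by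
  have hρ := (rr_pos (D := D) β hβ).le
  refine summable_and_tsum_le _ (fun p => by positivity) 1 fun s => ?_
  refine (sum_SS_le hq hρ (fun n => TT β J (mm (q := q) β J x n)) (1 / 2) (fun M => ?_) s).trans
    (by norm_num)
  refine le_trans (Finset.sum_le_sum fun n _ => ?_) (sum_half_le M)
  refine (nrm_TT hq β J hβ hβ1 hJ hJ2 _).trans ?_
  have := nrm_mm hq β J hβ hβ1 hJ hJ2 x n
  rw [pow_succ (1 / 2 : ℝ) (n + 1)]
  linarith

theorem SS_lip (hq : 2 ≤ q) (β J J' : ℝ) (hβ : 0 < β) (hβ1 : β ≤ 1 / 4) (hJ : 0 ≤ J)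
    (hJ2 : J ≤ 2) (hJ' : 0 ≤ J') (hJ2' : J' ≤ 2) (x : Site D) :
    ∑' p : Site D × ℕ, |SS D q β J x p.1 p.2 - SS D q β J' x p.1 p.2| * ((rr D β)⁻¹) ^ p.2 ≤
      4 * |J - J'| := by
  have hρ := (rr_pos (D := D) β hβ).le
  refine (summable_and_tsum_le _ (fun p => by positivity) (4 * |J - J'|) fun s => ?_).2
  refine le_trans (le_of_eq ?_) (sum_SS_le hq hρ
    (fun n => TT β J (mm (q := q) β J x n) - TT β J' (mm β J' x n)) (4 * |J - J'|)
    (fun M => ?_) s)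
  · refine Finset.sum_congr rfl fun p _ => ?_
    congr 2
    rw [SS, SS, ← Finset.sum_sub_distrib]
    rfl
  · refine (Finset.sum_le_sum fun n _ =>
      nrm_TTmm_sub hq β J J' hβ hβ1 hJ hJ2 hJ' hJ2' x n).trans ?_
    rw [← Finset.sum_mul]
    have := sum_lin_half_le M
    nlinarith [abs_nonneg (J - J')]

end Pool.Agent.SB
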