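import Pool.Agent.SB.Lau
import Pool.Agent.SB.Nrm
import Pool.Agent.SB.Inv
import Pool.Agent.SB.Sym
import Pool.Agent.SB.Coe

/-!
# Analyticity of the excursion kernel, of the perturbation and of the symbol (row ANA, part 1)
-/

set_option autoImplicit false

namespace Pool.Agent.SB

open Filter Topology

section rows

variable {D q : ℕ} [NeZero q]

lemma SS_row (hq : 2 ≤ q) (β J : ℝ) (hβ : 0 < β) (hβ1 : β ≤ 1 / 4) (hJ : 0 ≤ J)
    (hJ2 : J ≤ 2) (x w : Gam D) :
    Summable (fun p : ℤ × ℕ => |SS D q β J (0, x) (p.1, w) p.2| * ((rr D β)⁻¹) ^ p.2) ∧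
      ∑' p : ℤ × ℕ, |SS D q β J (0, x) (p.1, w) p.2| * ((rr D β)⁻¹) ^ p.2 ≤ 1 := by
  obtain ⟨h1, h2⟩ := SS_summable hq β J hβ hβ1 hJ hJ2 ((0, x) : Site D)
  have hρ : 0 < rr D β := by unfold rr; positivity
  generalize hf : (fun p : Site D × ℕ => |SS D q β J (0, x) p.1 p.2| * ((rr D β)⁻¹) ^ p.2) = f
    at h1
  have hf0 : ∀ p, 0 ≤ f p := fun p => by rw [← hf]; positivity
  have h2' : ∑' p, f p ≤ 1 := by rw [← hf]; exact h2
  have he : (fun p : ℤ × ℕ => |SS D q β J (0, x) (p.1, w) p.2| * ((rr D β)⁻¹) ^ p.2) =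
      fun p : ℤ × ℕ => f ((p.1, w), p.2) := by rw [← hf]
  have hi : Function.Injective (fun p : ℤ × ℕ => (((p.1, w), p.2) : Site D × ℕ)) := by
    intro p p' h
    simp only [Prod.mk.injEq] at h
    exact Prod.ext h.1.1 h.2
  rw [he]
  exact ⟨h1.comp_injective hi, le_trans (tsum_comp_le_tsum_of_inj h1 hf0 hi) h2'⟩

end rows

section setup

/-- The constants are small. -/
lemma ana_small (D q : ℕ) [NeZero q] : ∃ β₀ : ℝ, 0 < β₀ ∧ ∀ β, 0 < β → β < β₀ →
    β ≤ 1 / 4 ∧ 0 < rr D β ∧ zm q β = AA D q / rr D β ∧ 1 ≤ za D β ∧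
    ∃ θ : ℝ, 0 ≤ θ ∧ θ ≤ 1 / 8 ∧ AA D q * rr D β = θ ^ 2 := by
  obtain ⟨β₀, h0, hβ₀⟩ := lau_small D q 4 (by norm_num)
  refine ⟨min β₀ (1 / 4), by positivity, fun β hβ hβ1 => ?_⟩
  have hA := AA_ge_one D q
  have hρ : 0 < rr D β := by unfold rr; positivity
  have hsm := hβ₀ β hβ (hβ1.trans_le (min_le_left _ _))
  have hAρ : 0 < AA D q * rr D β := by positivity
  have hρ4 : rr D β ≤ AA D q * rr D β := by nlinarith
  refine ⟨(hβ1.trans_le (min_le_right _ _)).le, hρ, zm_eq_div D q β hβ, ?_,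
    Real.sqrt (AA D q * rr D β), Real.sqrt_nonneg _, ?_, (Real.sq_sqrt hAρ.le).symm⟩
  · unfold za
    rw [le_div_iff₀ (by positivity)]
    linarith
  · rw [Real.sqrt_le_left (by norm_num)]
    linarith

end setup

section series

/-- The Laurent series of the kernel from `0` for `J = 1`. -/
theorem S_series (D q : ℕ) [NeZero q] (hq : 2 ≤ q) : ∃ β₀ : ℝ, 0 < β₀ ∧
    ∀ β, 0 < β → β < β₀ → ∃ T : ℝ → L1 (Gam D),
      (∀ z w, 1 ≤ z → z ≤ zm q β → T z w = Sz D q β 1 z 0 w) ∧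
      ∀ z, 1 < z → z < zm q β → AnalyticAt ℝ T z := by
  obtain ⟨β₀, h0, hβ₀⟩ := ana_small D q
  refine ⟨β₀, h0, fun β hβ hβ1 => ?_⟩
  obtain ⟨hβ4, hρ, hzm, hza, θ, hθ0, hθ1, hθ2⟩ := hβ₀ β hβ hβ1
  have hA := AA_ge_one D q
  set F : Gam D → ℤ → ℕ → ℝ := fun w n N => SS D q β 1 (0, 0) (n, w) N with hF
  have hkey : ∀ z, 1 ≤ z → z ≤ zm q β → ∀ w n N,
      z ^ n * |F w n N| ≤ (1 / 2) ^ nt w * (|F w n N| * ((rr D β)⁻¹) ^ N) := by
    intro z h1 h2 w n N
    rcases eq_or_ne (F w n N) 0 with h | h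
    · simp [h]
    · obtain ⟨hN, hn, hd⟩ := SS_inv _ _ _ _ _ h
      have hn' : 2 * n ≤ N := by simpa using hn
      have hd' : nt w ≤ N := by
        have h3 : dist1 ((n, w) : Site D) (0, 0) = n.natAbs + nt w := by
          simp [dist1, nt]
        rw [h3] at hd
        omega
      have h3 := lau_key (a := F w n N) hρ hA hθ0 (by linarith) hθ2 h1 (hzm ▸ h2) n N hn'
      refine h3.trans ?_
      have h4 : θ ^ N ≤ (1 / 2) ^ nt w :=
        calc θ ^ N ≤ (1 / 2) ^ N := by gcongr; linarith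
          _ ≤ (1 / 2) ^ nt w := pow_le_pow_of_le_one (by norm_num) (by norm_num) hd'
      gcongr
  have hsum := fun z (h1 : 1 ≤ z) (h2 : z ≤ zm q β) =>
    lau_sum F (rr D β) z 1 (fun w => (1 / 2) ^ nt w) (by linarith)
      (lau_summable_nt D (by norm_num) (by norm_num)) (fun x => by positivity)
      (fun w => (SS_row hq β 1 hβ hβ4 (by norm_num) (by norm_num) 0 w).1)
      (fun w => (SS_row hq β 1 hβ hβ4 (by norm_num) (by norm_num) 0 w).2) (hkey z h1 h2)
  obtain ⟨s, hs1, hs2⟩ := laurent_L1 F 1 (zm q β) one_pos fun z h1 h2 => (hsum z h1 h2).1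
  exact ⟨s, fun z w h1 h2 => hs1 z w h1 h2, hs2⟩

/-- The Laurent series of the difference of the kernels. -/
theorem S_diff_series (D q : ℕ) [NeZero q] (hq : 2 ≤ q) : ∃ β₀ : ℝ, 0 < β₀ ∧
    ∀ β, 0 < β → β < β₀ → ∀ J, 0 ≤ J → J ≤ 2 → ∀ P : Gam D × Gam D → Prop,
      ∃ T : ℝ → L1 (Gam D × Gam D),
      (∀ z p, 1 ≤ z → z ≤ zm q β → (P p → T z p = 0) ∧
        (¬ P p → T z p = Sz D q β J z p.1 p.2 - Sz D q β 1 z p.1 p.2)) ∧
      ∀ z, 1 < z → z < zm q β → AnalyticAt ℝ T z := by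
  classical
  obtain ⟨β₀, h0, hβ₀⟩ := ana_small D q
  refine ⟨β₀, h0, fun β hβ hβ1 J hJ hJ2 P => ?_⟩
  obtain ⟨hβ4, hρ, hzm, hza, θ, hθ0, hθ1, hθ2⟩ := hβ₀ β hβ hβ1
  have hA := AA_ge_one D q
  set F : Gam D × Gam D → ℤ → ℕ → ℝ := fun p n N => if P p then 0 else
    SS D q β J (0, p.1) (n, p.2) N - SS D q β 1 (0, p.1) (n, p.2) N with hF
  have hkey : ∀ z, 1 ≤ z → z ≤ zm q β → ∀ p n N,
      z ^ n * |F p n N| ≤
        ((1 / 2) ^ nt p.1 * (1 / 2) ^ nt p.2) * (|F p n N| * ((rr D β)⁻¹) ^ N) := by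
    intro z h1 h2 p n N
    rcases eq_or_ne (F p n N) 0 with h | h
    · simp [h]
    · have hP : ¬ P p := fun hP => h (by simp [hF, hP])
      have h' : SS D q β J (0, p.1) (n, p.2) N - SS D q β 1 (0, p.1) (n, p.2) N ≠ 0 := by
        simpa [hF, hP] using h
      have hloc : nt p.1 < N := by
        by_contra hle
        exact h' (sub_eq_zero.mpr (SS_loc β J 1 ((0, p.1) : Site D) (n, p.2) N (not_lt.mp hle)))
      have hor : 2 * n ≤ N ∧ dist1 ((n, p.2) : Site D) (0, p.1) ≤ N := by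
        by_cases h3 : SS D q β J (0, p.1) (n, p.2) N = 0
        · have h4 : SS D q β 1 (0, p.1) (n, p.2) N ≠ 0 := fun h4 => h' (by rw [h3, h4, sub_zero])
          obtain ⟨-, hn, hd⟩ := SS_inv _ _ _ _ _ h4
          exact ⟨by simpa using hn, hd⟩
        · obtain ⟨-, hn, hd⟩ := SS_inv _ _ _ _ _ h3
          exact ⟨by simpa using hn, hd⟩
      obtain ⟨hn', hd⟩ := hor
      have hd' : nt p.2 ≤ N + nt p.1 := by
        have h5 : nt p.2 ≤ (∑ i, (p.2 i - p.1 i).natAbs) + nt p.1 := by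
          unfold nt
          rw [← Finset.sum_add_distrib]
          exact Finset.sum_le_sum fun i _ => by omega
        have h6 : (∑ i, (p.2 i - p.1 i).natAbs) ≤ N := by
          unfold dist1 at hd
          simp only at hd
          omega
        omega
      have h3 := lau_key (a := F p n N) hρ hA hθ0 (by linarith) hθ2 h1 (hzm ▸ h2) n N hn'
      refine h3.trans ?_
      have h4 : θ ^ N ≤ (1 / 2) ^ nt p.1 * (1 / 2) ^ nt p.2 :=
        calc θ ^ N ≤ (1 / 8) ^ N := by gcongr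
          _ = (1 / 2) ^ (3 * N) := by rw [pow_mul]; norm_num
          _ ≤ (1 / 2) ^ (nt p.1 + nt p.2) :=
            pow_le_pow_of_le_one (by norm_num) (by norm_num) (by omega)
          _ = _ := pow_add _ _ _
      gcongr
  have hw : Summable fun p : Gam D × Gam D => (1 / 2 : ℝ) ^ nt p.1 * (1 / 2) ^ nt p.2 :=
    (lau_summable_nt D (θ := 1 / 2) (by norm_num) (by norm_num)).mul_of_nonneg
      (lau_summable_nt D (θ := 1 / 2) (by norm_num) (by norm_num)) (fun _ => by positivity)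
      (fun _ => by positivity)
  have hb : ∀ (p : Gam D × Gam D) (r : ℤ × ℕ), |F p r.1 r.2| * ((rr D β)⁻¹) ^ r.2 ≤
      |SS D q β J (0, p.1) (r.1, p.2) r.2| * ((rr D β)⁻¹) ^ r.2 +
        |SS D q β 1 (0, p.1) (r.1, p.2) r.2| * ((rr D β)⁻¹) ^ r.2 := by
    intro p r
    rw [← add_mul]
    refine mul_le_mul_of_nonneg_right ?_ (by positivity)
    by_cases hP : P p
    · simp only [hF, hP, if_true, abs_zero]
      positivity
    · simp only [hF, hP, if_false]
      exact abs_sub _ _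
  have hs1 := fun p : Gam D × Gam D => SS_row hq β J hβ hβ4 hJ hJ2 p.1 p.2
  have hs2 := fun p : Gam D × Gam D =>
    SS_row hq β 1 hβ hβ4 (by norm_num) (by norm_num) p.1 p.2
  have hs3 : ∀ p : Gam D × Gam D,
      Summable fun r : ℤ × ℕ => |F p r.1 r.2| * ((rr D β)⁻¹) ^ r.2 := fun p =>
    Summable.of_nonneg_of_le (fun r => by positivity) (hb p) ((hs1 p).1.add (hs2 p).1)
  have hs4 : ∀ p : Gam D × Gam D,
      ∑' r : ℤ × ℕ, |F p r.1 r.2| * ((rr D β)⁻¹) ^ r.2 ≤ 2 := fun p => by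
    refine ((hs3 p).tsum_le_tsum (hb p) ((hs1 p).1.add (hs2 p).1)).trans ?_
    rw [(hs1 p).1.tsum_add (hs2 p).1]
    linarith [(hs1 p).2, (hs2 p).2]
  have hsum := fun z (h1 : 1 ≤ z) (h2 : z ≤ zm q β) =>
    lau_sum F (rr D β) z 2 (fun p => (1 / 2) ^ nt p.1 * (1 / 2) ^ nt p.2) (by linarith)
      hw (fun x => by positivity) hs3 hs4 (hkey z h1 h2)
  obtain ⟨s, hs1', hs2'⟩ := laurent_L1 F 1 (zm q β) one_pos fun z h1 h2 => (hsum z h1 h2).1
  refine ⟨s, fun z p h1 h2 => ⟨fun hP => ?_, fun hP => ?_⟩, hs2'⟩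
  · rw [hs1' z p h1 h2]
    simp [hF, hP]
  · rw [hs1' z p h1 h2]
    have hrow : ∀ J', 0 ≤ J' → J' ≤ 2 →
        Summable fun r : ℤ × ℕ => z ^ r.1 * SS D q β J' (0, p.1) (r.1, p.2) r.2 := by
      intro J' hJ' hJ2'
      refine Summable.of_norm (Summable.of_nonneg_of_le (fun _ => norm_nonneg _) (fun r => ?_)
        (SS_row hq β J' hβ hβ4 hJ' hJ2' p.1 p.2).1)
      rw [norm_mul, Real.norm_eq_abs, Real.norm_eq_abs, abs_of_pos (zpow_pos (by linarith) _)]
      rcases eq_or_ne (SS D q β J' (0, p.1) (r.1, p.2) r.2) 0 with h | h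
      · simp [h]
      · obtain ⟨-, hn, -⟩ := SS_inv _ _ _ _ _ h
        have h3 := lau_key (a := SS D q β J' (0, p.1) (r.1, p.2) r.2) hρ hA hθ0 (by linarith)
          hθ2 h1 (hzm ▸ h2) r.1 r.2 (by simpa using hn)
        refine h3.trans ?_
        have h4 : θ ^ r.2 ≤ 1 := pow_le_one₀ hθ0 (by linarith)
        exact mul_le_of_le_one_left (by positivity) h4
    unfold Sz
    rw [← (hrow J hJ hJ2).tsum_sub (hrow 1 (by norm_num) (by norm_num))]
    refine tsum_congr fun r => ?_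
    simp only [hF, hP, if_false]
    ring

end series

section pert

variable {D q : ℕ} [NeZero q]

omit [NeZero q] in
lemma tB_off (β J : ℝ) (x : Site D) (hx : x.2 ≠ 0) (B : Finset (Site D)) :
    tB q β J x B = tB q β 1 x B := by
  unfold tB vv coup
  simp [hx]

omit [NeZero q] in
lemma cc_off_line (β J : ℝ) (x y : Site D) (hx : x.2 ≠ 0) : cc q β J x y = cc q β 1 x y := by
  unfold cc
  exact Finset.sum_congr rfl fun B _ => tB_off β J x hx B

omit [NeZero q] in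
lemma kap_off (β J : ℝ) (x : Site D) (hx : x.2 ≠ 0) : kap q β J x = kap q β 1 x := by
  unfold kap
  exact Finset.sum_congr rfl fun B _ => tB_off β J x hx B

/-- The perturbation depends analytically on `z`. -/
theorem pert_analytic (D q : ℕ) [NeZero q] (hq : 2 ≤ q) : ∃ β₀ : ℝ, 0 < β₀ ∧
    ∀ β, 0 < β → β < β₀ → ∀ J, 0 ≤ J → J ≤ 2 →
      (∀ z, za D β < z → z < zm q β → AnalyticAt ℝ (vsc D q β J) z) ∧
      ∃ V : ℝ → L1 (Gam D × Gam D), (∀ z p, 1 ≤ z → z ≤ zm q β → V z p = Vf D q β J z p) ∧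
        (∀ z, za D β < z → z < zm q β → AnalyticAt ℝ V z) := by
  classical
  obtain ⟨β₁, h1, hβ₁⟩ := ana_small D q
  obtain ⟨β₂, h2, hβ₂⟩ := S_diff_series D q hq
  refine ⟨min β₁ β₂, lt_min h1 h2, fun β hβ hβ1 J hJ hJ2 => ?_⟩
  obtain ⟨hβ4, hρ, hzm, hza, -⟩ := hβ₁ β hβ (hβ1.trans_le (min_le_left _ _))
  have hS := hβ₂ β hβ (hβ1.trans_le (min_le_right _ _)) J hJ hJ2
  refine ⟨fun z hz hz1 => ?_, ?_⟩
  · obtain ⟨T, hT1, hT2⟩ := hS (fun _ => False)
    have hz0 : 1 < z := by linarith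
    have han : AnalyticAt ℝ (fun z : ℝ =>
        ((z * cc q β J ((0, 0) : Site D) (1, 0) + z⁻¹ * cc q β J ((0, 0) : Site D) (-1, 0) -
          kap q β J ((0, 0) : Site D)) -
        (z * cc q β 1 ((0, 0) : Site D) (1, 0) + z⁻¹ * cc q β 1 ((0, 0) : Site D) (-1, 0) -
          kap q β 1 ((0, 0) : Site D))) + evL1 ((0, 0) : Gam D × Gam D) (T z)) z := by
      have hinv : AnalyticAt ℝ (fun z : ℝ => z⁻¹) z := analyticAt_inv (by linarith)
      have hid : AnalyticAt ℝ (fun z : ℝ => z) z := analyticAt_id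
      refine ((((hid.mul analyticAt_const).add (hinv.mul analyticAt_const)).sub
        analyticAt_const).sub (((hid.mul analyticAt_const).add
          (hinv.mul analyticAt_const)).sub analyticAt_const)).add ?_
      exact ((evL1 ((0, 0) : Gam D × Gam D)).analyticAt _).comp (hT2 z hz0 hz1)
    refine han.congr ?_
    filter_upwards [Ioo_mem_nhds hz0 hz1] with w hw
    rw [evL1_apply, (hT1 w (0, 0) hw.1.le hw.2.le).2 not_false]
    unfold vsc Ez dz
    simp only [if_true]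
    ring
  · obtain ⟨T, hT1, hT2⟩ := hS (fun p => p = (0, 0))
    set k : Gam D × Gam D → ℝ := fun p =>
      if p.1 = 0 ∧ p.2 ≠ 0 ∧ (0, p.2) ∈ nb ((0, 0) : Site D) then
        cc q β J ((0, 0) : Site D) (0, p.2) - cc q β 1 ((0, 0) : Site D) (0, p.2) else 0 with hk
    have hks : Summable fun p => |k p| := by
      refine summable_of_ne_finset_zero
        (s := (nb ((0, 0) : Site D)).image fun y => ((0, y.2) : Gam D × Gam D)) fun p hp => ?_
      rw [abs_eq_zero, hk]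
      refine if_neg fun h => hp ?_
      rw [Finset.mem_image]
      exact ⟨(0, p.2), h.2.2, Prod.ext h.1.symm rfl⟩
    refine ⟨fun z => mkL1 k hks + T z, fun z p hz hz1 => ?_, fun z hz hz1 =>
      analyticAt_const.add (hT2 z (by linarith) hz1)⟩
    have h3 : (mkL1 k hks + T z) p = k p + T z p := rfl
    rw [h3]
    unfold Vf
    by_cases hp : p = (0, 0)
    · rw [if_pos hp, (hT1 z p hz hz1).1 hp, hk]
      simp [hp]
    · rw [if_neg hp, (hT1 z p hz hz1).2 hp]
      unfold Ez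
      have h4 : dz D q β J z p.1 p.2 - dz D q β 1 z p.1 p.2 = k p := by
        unfold dz
        by_cases hx : p.1 = 0
        · have hy : p.2 ≠ 0 := fun hy => hp (Prod.ext hx hy)
          have hyx : ¬ p.2 = p.1 := fun h => hy (h.trans hx)
          rw [if_neg hyx, if_neg hyx, hk]
          simp only [hx, true_and, ne_eq, hy, not_false_eq_true]
          by_cases hn : (0, p.2) ∈ nb ((0, 0) : Site D)
          · rw [if_pos hn, if_pos hn, if_pos hn]
          · rw [if_neg hn, if_neg hn, if_neg hn, sub_zero]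
        · have hk0 : k p = 0 := by
            rw [hk]
            exact if_neg fun h => hx h.1
          rw [hk0, sub_eq_zero]
          have hx' : ((0, p.1) : Site D).2 ≠ 0 := hx
          rw [cc_off_line β J (0, p.1) (1, p.1) hx', cc_off_line β J (0, p.1) (-1, p.1) hx',
            kap_off β J (0, p.1) hx', cc_off_line β J (0, p.1) (0, p.2) hx']
      linarith

end pert

end Pool.Agent.SB
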