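import Pool.Agent.SB.Ana1

/-!
# The symbol as an analytic function with values in the continuous functions on the cube
-/

set_option autoImplicit false

namespace Pool.Agent.SB

open Filter Topology

instance instCompactCube (D : ℕ) : CompactSpace (cube D) :=
  isCompact_iff_compactSpace.mp (isCompact_univ_pi fun _ => isCompact_Icc)

lemma zero_mem_cube (D : ℕ) : (0 : Fin D → ℝ) ∈ cube D := by
  intro i _
  simp [Real.pi_pos.le]

lemma cont_cosC {D : ℕ} (w : Gam D) :
    Continuous fun k : cube D => Real.cos (∑ i, (k : Fin D → ℝ) i * w i) :=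
  Real.continuous_cos.comp (continuous_finsetSum _ fun i _ =>
    ((continuous_apply i).comp continuous_subtype_val).mul continuous_const)

/-- The function `k ↦ cos (k·w)` on the cube. -/
noncomputable def cosC {D : ℕ} (w : Gam D) : C(cube D, ℝ) :=
  ⟨fun k => Real.cos (∑ i, (k : Fin D → ℝ) i * w i), cont_cosC w⟩

lemma cosC_apply {D : ℕ} (w : Gam D) (k : cube D) :
    cosC w k = Real.cos (∑ i, (k : Fin D → ℝ) i * w i) := rfl

/-- Sums against the cosines. -/
noncomputable def cosFun {D : ℕ} (g : L1 (Gam D)) : C(cube D, ℝ) :=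
  ⟨fun k => ∑' w, g w * Real.cos (∑ i, (k : Fin D → ℝ) i * w i), by
    refine continuous_tsum (fun w => continuous_const.mul (cont_cosC w)) (L1.summable g)
      fun w k => ?_
    rw [norm_mul, Real.norm_eq_abs, Real.norm_eq_abs]
    exact mul_le_of_le_one_right (abs_nonneg _) (Real.abs_cos_le_one _)⟩

lemma cosFun_apply {D : ℕ} (g : L1 (Gam D)) (k : cube D) :
    cosFun g k = ∑' w, g w * Real.cos (∑ i, (k : Fin D → ℝ) i * w i) := rfl

lemma cos_summable {D : ℕ} (g : L1 (Gam D)) (k : cube D) :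
    Summable fun w => ‖g w * Real.cos (∑ i, (k : Fin D → ℝ) i * w i)‖ := by
  refine Summable.of_nonneg_of_le (fun _ => norm_nonneg _) (fun w => ?_) (L1.summable g)
  rw [norm_mul, Real.norm_eq_abs, Real.norm_eq_abs]
  exact mul_le_of_le_one_right (abs_nonneg _) (Real.abs_cos_le_one _)

/-- Sums against the cosines, as a continuous linear map. -/
noncomputable def cosL (D : ℕ) : L1 (Gam D) →L[ℝ] C(cube D, ℝ) :=
  LinearMap.mkContinuous
    { toFun := cosFun
      map_add' := fun g g' => by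
        ext k
        rw [ContinuousMap.add_apply, cosFun_apply, cosFun_apply, cosFun_apply,
          ← (cos_summable g k).of_norm.tsum_add (cos_summable g' k).of_norm]
        exact tsum_congr fun w => by
          rw [lp.coeFn_add, Pi.add_apply, add_mul]
      map_smul' := fun c g => by
        ext k
        rw [ContinuousMap.smul_apply, cosFun_apply, cosFun_apply, smul_eq_mul, ← tsum_mul_left]
        exact tsum_congr fun w => by
          rw [lp.coeFn_smul, Pi.smul_apply, smul_eq_mul, mul_assoc]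
          rfl } 1 fun g => by
    rw [one_mul, ContinuousMap.norm_le _ (norm_nonneg _)]
    intro k
    change ‖∑' w, g w * Real.cos (∑ i, (k : Fin D → ℝ) i * w i)‖ ≤ ‖g‖
    refine (norm_tsum_le_tsum_norm (cos_summable g k)).trans ?_
    rw [L1.norm_eq]
    refine (cos_summable g k).tsum_le_tsum (fun w => ?_) (L1.summable g)
    rw [norm_mul, Real.norm_eq_abs, Real.norm_eq_abs]
    exact mul_le_of_le_one_right (abs_nonneg _) (Real.abs_cos_le_one _)

lemma cosL_apply {D : ℕ} (g : L1 (Gam D)) (k : cube D) :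
    cosL D g k = ∑' w, g w * Real.cos (∑ i, (k : Fin D → ℝ) i * w i) := rfl

/-- The symbol on the cube is an analytic function of `z`. -/
theorem hh_series (D q : ℕ) [NeZero q] (hq : 2 ≤ q) : ∃ β₀ : ℝ, 0 < β₀ ∧
    ∀ β, 0 < β → β < β₀ → 1 ≤ za D β ∧ ∃ H : ℝ → C(cube D, ℝ),
      (∀ z k, 1 ≤ z → z ≤ zm q β → H z k = hh D q β z k) ∧
      ∀ z, 1 < z → z < zm q β → AnalyticAt ℝ H z := by
  obtain ⟨β₁, h1, hβ₁⟩ := ana_small D q
  obtain ⟨β₂, h2, hβ₂⟩ := S_series D q hq
  refine ⟨min β₁ β₂, lt_min h1 h2, fun β hβ hβ1 => ?_⟩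
  obtain ⟨hβ4, hρ, hzm, hza, -⟩ := hβ₁ β hβ (hβ1.trans_le (min_le_left _ _))
  obtain ⟨T, hT1, hT2⟩ := hβ₂ β hβ (hβ1.trans_le (min_le_right _ _))
  refine ⟨hza, fun z => (1 + kap0 D q β - c0 D q β * (z + z⁻¹)) • (1 : C(cube D, ℝ)) -
      (2 * c0 D q β) • ∑ i, cosC (Pi.single i 1 : Gam D) - cosL D (T z), ?_, ?_⟩
  · intro z k hz hz1
    rw [ContinuousMap.sub_apply, ContinuousMap.sub_apply, ContinuousMap.smul_apply,
      ContinuousMap.smul_apply, cosL_apply, ContinuousMap.sum_apply]
    unfold hh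
    congr 1
    · congr 1
      · simp
      · rw [smul_eq_mul]
        congr 1
        refine Finset.sum_congr rfl fun i _ => ?_
        rw [cosC_apply]
        congr 1
        rw [Finset.sum_eq_single i]
        · simp
        · intro j _ hj
          simp [Pi.single_eq_of_ne hj]
        · simp
    · exact tsum_congr fun w => by rw [hT1 z w hz hz1]
  · intro z hz hz1
    have hinv : AnalyticAt ℝ (fun z : ℝ => z⁻¹) z := analyticAt_inv (by linarith)
    have hid : AnalyticAt ℝ (fun z : ℝ => z) z := analyticAt_id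
    have h3 : AnalyticAt ℝ (fun z : ℝ => 1 + kap0 D q β - c0 D q β * (z + z⁻¹)) z :=
      analyticAt_const.sub (analyticAt_const.mul (hid.add hinv))
    refine ((h3.smul analyticAt_const).sub analyticAt_const).sub ?_
    exact ((cosL D).analyticAt _).comp (hT2 z hz hz1)

/-- The symbol at `0` is an analytic function of `z`. -/
theorem hh_analytic (D q : ℕ) [NeZero q] (hq : 2 ≤ q) : ∃ β₀ : ℝ, 0 < β₀ ∧
    ∀ β, 0 < β → β < β₀ → ∀ z, za D β < z → z < zm q β →
      AnalyticAt ℝ (fun z => hh D q β z 0) z := by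
  obtain ⟨β₀, h0, hβ₀⟩ := hh_series D q hq
  refine ⟨β₀, h0, fun β hβ hβ1 z hz hz1 => ?_⟩
  obtain ⟨hza, H, hH1, hH2⟩ := hβ₀ β hβ hβ1
  let L : C(cube D, ℝ) →L[ℝ] ℝ := ContinuousMap.evalCLM ℝ (⟨0, zero_mem_cube D⟩ : cube D)
  have h1 : AnalyticAt ℝ (fun z => L (H z)) z :=
    (L.analyticAt _).comp (hH2 z (by linarith) hz1)
  refine h1.congr ?_
  filter_upwards [Ioo_mem_nhds (lt_of_le_of_lt hza hz) hz1] with w hw
  exact hH1 w ⟨0, zero_mem_cube D⟩ hw.1.le hw.2.le

end Pool.Agent.SB
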