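import Mathlib

/-!
# The Potts model with a defect line: definitions

Sites are the points of `ℤ × ℤ^D`; the defect line is the set of the sites with second coordinate
`0`.
-/

set_option autoImplicit false
set_option linter.unusedSectionVars false

namespace Pool.Agent.SB

open Finset

/-- The lattice `ℤ^(D+1)`: first coordinate and transverse coordinates. -/
abbrev Site (D : ℕ) := ℤ × (Fin D → ℤ)

/-- The `ℓ¹` distance. -/
def dist1 {D : ℕ} (x y : Site D) : ℕ := (x.1 - y.1).natAbs + ∑ i, (x.2 i - y.2 i).natAbs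

/-- The `ℓ¹` norm in the transverse lattice. -/
def nt {D : ℕ} (x : Fin D → ℤ) : ℕ := ∑ i, (x i).natAbs

/-- The coupling: `J` between two sites of the line, `1` otherwise. -/
noncomputable def coup {D : ℕ} (J : ℝ) (x y : Site D) : ℝ := if x.2 = 0 ∧ y.2 = 0 then J else 1

/-- The box `[-L, L]^(D+1)`. -/
noncomputable def box (D L : ℕ) : Finset (Site D) :=
  Finset.Icc (-(L : ℤ)) (L : ℤ) ×ˢ Finset.Icc (fun _ => -(L : ℤ)) (fun _ => (L : ℤ))

/-- The value of the configuration at a site (`0` outside the volume). -/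
def ext {D q : ℕ} [NeZero q] {Λ : Finset (Site D)} (s : Λ → ZMod q) (x : Site D) : ZMod q :=
  if h : x ∈ Λ then s ⟨x, h⟩ else 0

/-- The sum of `J_{ij} δ(s_i, s_j)` over the nearest neighbour pairs `{i, j}` in `Λ` (each
unordered pair counts twice in the double sum). -/
noncomputable def energy {D q : ℕ} [NeZero q] (J : ℝ) (Λ : Finset (Site D)) (s : Λ → ZMod q) : ℝ :=
  (1 / 2) * ∑ x ∈ Λ, ∑ y ∈ Λ, if dist1 x y = 1 ∧ ext s x = ext s y then coup J x y else 0

/-- The probability that `x` and `y` have the same colour (free boundary condition). -/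
noncomputable def same (D q : ℕ) [NeZero q] (β J : ℝ) (Λ : Finset (Site D)) (x y : Site D) : ℝ :=
  (∑ s : Λ → ZMod q, if ext s x = ext s y then Real.exp (β * energy J Λ s) else 0) /
    ∑ s : Λ → ZMod q, Real.exp (β * energy J Λ s)

/-- The real part of the additive character of `ZMod q`. -/
noncomputable def cosq {q : ℕ} (k : ZMod q) : ℝ := Real.cos (2 * Real.pi * (k.val : ℝ) / q)

/-- States: labelled finite sets of sites. -/
abbrev St (D q : ℕ) := Site D →₀ ZMod q

/-- The finite volume expectation of the real part of the character `a`. -/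
noncomputable def uL {D q : ℕ} [NeZero q] (β J : ℝ) (Λ : Finset (Site D)) (a : St D q) : ℝ :=
  (∑ s : Λ → ZMod q, cosq (a.sum fun x k => k * ext s x) * Real.exp (β * energy J Λ s)) /
    ∑ s : Λ → ZMod q, Real.exp (β * energy J Λ s)

/-- The finite volume two-point function, `0` if one of the points is not in the volume. -/
noncomputable def gL (D q : ℕ) [NeZero q] (β J : ℝ) (Λ : Finset (Site D)) (x y : Site D) : ℝ :=
  if x ∈ Λ ∧ y ∈ Λ then uL β J Λ (Finsupp.single x (1 : ZMod q) - Finsupp.single y 1) else 0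

/-- The two-point function in infinite volume. -/
noncomputable def G (D q : ℕ) [NeZero q] (β J : ℝ) (x y : Site D) : ℝ :=
  ⨆ Λ : Finset (Site D), gL D q β J Λ x y

/-- The unit vectors. -/
def dir {D : ℕ} : Option (Fin D) × Bool → Site D
  | (none, true) => (1, 0)
  | (none, false) => (-1, 0)
  | (some i, true) => (0, Pi.single i 1)
  | (some i, false) => (0, Pi.single i (-1))

/-- The nearest neighbours of `x`. -/
def nb {D : ℕ} (x : Site D) : Finset (Site D) := Finset.univ.image fun d => x + dir d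

/-- The edge weight `exp (β J_{xy}) - 1`. -/
noncomputable def vv {D : ℕ} (β J : ℝ) (x y : Site D) : ℝ := Real.exp (β * coup J x y) - 1

/-- The weight of a set `B` of neighbours of `x`. -/
noncomputable def tB {D : ℕ} (q : ℕ) (β J : ℝ) (x : Site D) (B : Finset (Site D)) : ℝ :=
  ∏ y ∈ B, vv β J x y / q

/-- The labellings of `B` with total charge `c`. -/
noncomputable def lab {D q : ℕ} [NeZero q] (B : Finset (Site D)) (c : ZMod q) :
    Finset (St D q) :=
  (B.finsupp fun _ => Finset.univ).filter fun b => (b.sum fun _ k => k) = c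

/-- The sites of the state with least first coordinate. -/
noncomputable def lft {D q : ℕ} (a : St D q) : Finset (Site D) :=
  a.support.filter fun x => ∀ y ∈ a.support, x.1 ≤ y.1

/-- The one-site operator at `x`, as a measure on states and numbers of edges. -/
noncomputable def stepAt {D q : ℕ} [NeZero q] (β J : ℝ) (a : St D q) (x : Site D) :
    (St D q × ℕ) →₀ ℝ :=
  ∑ B ∈ (nb x).powerset.erase ∅, tB q β J x B •
    (∑ b ∈ lab B (a x), Finsupp.single (a - Finsupp.single x (a x) + b, B.card) (1 : ℝ) -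
      ∑ b ∈ lab B (0 : ZMod q), Finsupp.single (a + b, B.card) (1 : ℝ))

/-- The operator averaged over the left plane of the state. -/
noncomputable def stepL {D q : ℕ} [NeZero q] (β J : ℝ) (a : St D q) : (St D q × ℕ) →₀ ℝ :=
  ∑ x ∈ lft a, ((lft a).card : ℝ)⁻¹ • stepAt β J a x

/-- The operator on finitely supported signed measures. -/
noncomputable def TT {D q : ℕ} [NeZero q] (β J : ℝ) :
    ((St D q × ℕ) →₀ ℝ) →ₗ[ℝ] ((St D q × ℕ) →₀ ℝ) :=
  Finsupp.linearCombination ℝ fun p => (stepL β J p.1).mapDomain fun r => (r.1, p.2 + r.2)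

/-- The weighted norm. -/
noncomputable def nrm {D q : ℕ} (ρ : ℝ) (m : (St D q × ℕ) →₀ ℝ) : ℝ :=
  m.sum fun p c => |c| * (ρ⁻¹) ^ p.2

/-- The pairing of a measure with a function on states. -/
noncomputable def pr {D q : ℕ} (m : (St D q × ℕ) →₀ ℝ) (w : St D q → ℝ) : ℝ :=
  m.sum fun p c => c * w p.1

/-- The part on states with at least two particles. -/
noncomputable def QQ {D q : ℕ} (m : (St D q × ℕ) →₀ ℝ) : (St D q × ℕ) →₀ ℝ :=
  m.filter fun p => 2 ≤ p.1.support.card

/-- The excursion measures. -/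
noncomputable def mm {D q : ℕ} [NeZero q] (β J : ℝ) (x : Site D) : ℕ → ((St D q × ℕ) →₀ ℝ)
  | 0 => QQ (TT β J (Finsupp.single (Finsupp.single x (1 : ZMod q), 0) (1 : ℝ)))
  | n + 1 => QQ (TT β J (mm β J x n))

/-- The excursion kernel: starts at `x`, ends at `y`, uses `N` edges. -/
noncomputable def SS (D q : ℕ) [NeZero q] (β J : ℝ) (x y : Site D) (N : ℕ) : ℝ :=
  ∑ n ∈ Finset.range N, TT β J (mm (q := q) β J x n) (Finsupp.single y (1 : ZMod q), N)

/-- The one-particle coefficients. -/
noncomputable def cc {D : ℕ} (q : ℕ) (β J : ℝ) (x y : Site D) : ℝ :=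
  ∑ B ∈ (nb x).powerset.filter (fun B => y ∈ B), tB q β J x B

noncomputable def kap {D : ℕ} (q : ℕ) (β J : ℝ) (x : Site D) : ℝ :=
  ∑ B ∈ (nb x).powerset.erase ∅, tB q β J x B

/-- The small parameter. -/
noncomputable def rr (D : ℕ) (β : ℝ) : ℝ := 32 * ((D : ℝ) + 1) * β

end Pool.Agent.SB
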