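import Pool.Agent.SB.Ult
import Pool.Agent.SB.Nrm
import Pool.Agent.SB.Inv

/-!
# The equation for the two-point function
-/

set_option autoImplicit false
set_option linter.unusedSectionVars false

namespace Pool.Agent.SB

open Finset Filter Topology

variable {D q : ℕ} [NeZero q]

/-! ### The pairing -/

theorem pr_eq (m : (St D q × ℕ) →₀ ℝ) (w : St D q → ℝ) :
    pr m w = Finsupp.linearCombination ℝ (fun p : St D q × ℕ => w p.1) m := by
  unfold pr
  rw [Finsupp.linearCombination_apply]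
  rfl

theorem pr_zero (w : St D q → ℝ) : pr (0 : (St D q × ℕ) →₀ ℝ) w = 0 := by
  rw [pr_eq, map_zero]

theorem pr_add (m m' : (St D q × ℕ) →₀ ℝ) (w : St D q → ℝ) :
    pr (m + m') w = pr m w + pr m' w := by
  rw [pr_eq, pr_eq, pr_eq, map_add]

theorem pr_sub (m m' : (St D q × ℕ) →₀ ℝ) (w : St D q → ℝ) :
    pr (m - m') w = pr m w - pr m' w := by
  rw [pr_eq, pr_eq, pr_eq, map_sub]

theorem pr_smul (c : ℝ) (m : (St D q × ℕ) →₀ ℝ) (w : St D q → ℝ) :
    pr (c • m) w = c * pr m w := by
  rw [pr_eq, pr_eq, map_smul, smul_eq_mul]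

theorem pr_sum {ι : Type*} (s : Finset ι) (m : ι → (St D q × ℕ) →₀ ℝ) (w : St D q → ℝ) :
    pr (∑ i ∈ s, m i) w = ∑ i ∈ s, pr (m i) w := by
  rw [pr_eq, map_sum]
  exact sum_congr rfl fun i _ => (pr_eq _ _).symm

theorem pr_single (p : St D q × ℕ) (c : ℝ) (w : St D q → ℝ) :
    pr (Finsupp.single p c) w = c * w p.1 := by
  rw [pr_eq, Finsupp.linearCombination_single, smul_eq_mul]

theorem pr_shift (m : (St D q × ℕ) →₀ ℝ) (w : St D q → ℝ) (k : ℕ) :
    pr (m.mapDomain fun r => (r.1, k + r.2)) w = pr m w := by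
  unfold pr
  rw [Finsupp.sum_mapDomain_index]
  · intro p
    exact zero_mul _
  · intro p a b
    exact add_mul _ _ _

/-- The defect of a function with respect to the averaged one-site identity. -/
noncomputable def res (β J : ℝ) (w : St D q → ℝ) (a : St D q) : ℝ := w a - pr (stepL β J a) w

theorem pr_TT (β J : ℝ) (m : (St D q × ℕ) →₀ ℝ) (w : St D q → ℝ) :
    pr (TT β J m) w = pr m w - pr m (res β J w) := by
  have h1 : TT β J m = ∑ p ∈ m.support, m p • (stepL β J p.1).mapDomain fun r =>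
      (r.1, p.2 + r.2) := by
    unfold TT
    rw [Finsupp.linearCombination_apply]
    rfl
  rw [h1, pr_sum]
  unfold pr Finsupp.sum
  rw [← sum_sub_distrib]
  refine sum_congr rfl fun p _ => ?_
  have h2 := pr_smul (m p) ((stepL β J p.1).mapDomain fun r => (r.1, p.2 + r.2)) w
  rw [pr_shift] at h2
  unfold pr Finsupp.sum at h2
  rw [h2]
  unfold res pr Finsupp.sum
  ring

theorem pr_TT_single (β J : ℝ) (a : St D q) (w : St D q → ℝ) :
    pr (TT β J (Finsupp.single (a, 0) (1 : ℝ))) w = pr (stepL β J a) w := by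
  rw [pr_TT, pr_single, pr_single]
  unfold res
  ring

theorem nrm_single_one (ρ : ℝ) (a : St D q) : nrm ρ (Finsupp.single (a, 0) (1 : ℝ)) = 1 := by
  unfold nrm
  rw [Finsupp.sum_single_index (by rw [abs_zero, zero_mul])]
  rw [abs_one, pow_zero, mul_one]

theorem nrm_nonneg' {ρ : ℝ} (hρ : 0 < ρ) (m : (St D q × ℕ) →₀ ℝ) : 0 ≤ nrm ρ m :=
  sum_nonneg fun _ _ => mul_nonneg (abs_nonneg _) (pow_nonneg (inv_pos.2 hρ).le _)

theorem abs_pr_le {ρ : ℝ} (hρ : 0 < ρ) (hρ1 : ρ ≤ 1) {C : ℝ} (hC : 0 ≤ C) (k : ℕ)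
    (m : (St D q × ℕ) →₀ ℝ) (w : St D q → ℝ)
    (hw : ∀ p ∈ m.support, w p.1 ≠ 0 → k ≤ p.2 ∧ |w p.1| ≤ C) :
    |pr m w| ≤ C * ρ ^ k * nrm ρ m := by
  unfold pr nrm Finsupp.sum
  refine (abs_sum_le_sum_abs _ _).trans ?_
  rw [mul_sum]
  refine sum_le_sum fun p hp => ?_
  rw [abs_mul]
  have h0 : 0 ≤ |m p| := abs_nonneg _
  by_cases h : w p.1 = 0
  · rw [h, abs_zero, mul_zero]
    exact mul_nonneg (mul_nonneg hC (pow_nonneg hρ.le _))
      (mul_nonneg h0 (pow_nonneg (inv_pos.2 hρ).le _))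
  · obtain ⟨h1, h2⟩ := hw p hp h
    have h3 : 1 ≤ ρ ^ k * ρ⁻¹ ^ p.2 := by
      have h4 : ρ ^ k * ρ⁻¹ ^ p.2 = ρ⁻¹ ^ (p.2 - k) := by
        obtain ⟨j, hj⟩ := Nat.exists_eq_add_of_le h1
        rw [hj, Nat.add_sub_cancel_left, pow_add, ← mul_assoc, ← mul_pow,
          mul_inv_cancel₀ hρ.ne', one_pow, one_mul]
      rw [h4]
      exact one_le_pow₀ ((one_le_inv₀ hρ).2 hρ1)
    calc |m p| * |w p.1| ≤ |m p| * C := mul_le_mul_of_nonneg_left h2 h0
      _ = |m p| * C * 1 := (mul_one _).symm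
      _ ≤ |m p| * C * (ρ ^ k * ρ⁻¹ ^ p.2) := mul_le_mul_of_nonneg_left h3 (mul_nonneg h0 hC)
      _ = C * ρ ^ k * (|m p| * ρ⁻¹ ^ p.2) := by ring

/-! ### The functional with a target -/

/-- The properties of the infinite volume functional used here. -/
structure IsU (D q : ℕ) [NeZero q] (β J : ℝ) (u : St D q → ℝ) : Prop where
  le : ∀ a, |u a| ≤ 1
  zero : u 0 = 1
  two : ∀ x y, u (Finsupp.single x 1 - Finsupp.single y 1) = G D q β J x y
  step : ∀ a x, x ∈ a.support → u a = ∑ B ∈ (nb x).powerset.erase ∅, tB q β J x B *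
    (∑ b ∈ lab B (a x), u (a - Finsupp.single x (a x) + b) -
      ∑ b ∈ lab B (0 : ZMod q), u (a + b))

/-- The functional with target `y`. -/
noncomputable def wf (u : St D q → ℝ) (y : Site D) (a : St D q) : ℝ :=
  u (a - Finsupp.single y 1)

theorem wf_single {β J : ℝ} {u : St D q → ℝ} (hu : IsU D q β J u) (x y : Site D) :
    wf u y (Finsupp.single x 1) = G D q β J x y := hu.two x y

theorem one_ne_zero_q (hq : 2 ≤ q) : (1 : ZMod q) ≠ 0 := by
  haveI : Fact (1 < q) := ⟨hq⟩
  exact one_ne_zero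

theorem pr_stepAt {β J : ℝ} {u : St D q → ℝ} (hu : IsU D q β J u) (y : Site D) (a : St D q)
    (x : Site D) (hx : x ∈ a.support) (hxy : x ≠ y) :
    pr (stepAt β J a x) (wf u y) = wf u y a := by
  have h1 : (a - Finsupp.single y (1 : ZMod q)) x = a x := by
    rw [Finsupp.sub_apply, Finsupp.single_eq_of_ne hxy, sub_zero]
  have h2 : x ∈ (a - Finsupp.single y (1 : ZMod q)).support := by
    rw [Finsupp.mem_support_iff, h1]
    exact Finsupp.mem_support_iff.1 hx
  have h3 := hu.step _ x h2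
  rw [h1] at h3
  unfold wf
  rw [h3]
  unfold stepAt
  rw [pr_sum]
  refine sum_congr rfl fun B _ => ?_
  rw [pr_smul, pr_sub, pr_sum, pr_sum]
  congr 2
  · refine sum_congr rfl fun b _ => ?_
    rw [pr_single, one_mul]
    change u (a - Finsupp.single x (a x) + b - Finsupp.single y 1) = _
    congr 1
    abel
  · refine sum_congr rfl fun b _ => ?_
    rw [pr_single, one_mul]
    change u (a + b - Finsupp.single y 1) = _
    congr 1
    abel

theorem lft_nonempty {a : St D q} (h : a ≠ 0) : (lft a).Nonempty := by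
  obtain ⟨x, hx, h2⟩ := exists_min_image a.support (fun x => x.1) (Finsupp.support_nonempty_iff.2 h)
  exact ⟨x, mem_filter.2 ⟨hx, h2⟩⟩

theorem res_eq_zero {β J : ℝ} {u : St D q → ℝ} (hu : IsU D q β J u) (y : Site D) {a : St D q}
    (ha : a ≠ 0) (hy : y ∉ lft a) : res β J (wf u y) a = 0 := by
  unfold res stepL
  rw [pr_sum]
  have h1 : ∀ x ∈ lft a, pr (((lft a).card : ℝ)⁻¹ • stepAt β J a x) (wf u y) =
      ((lft a).card : ℝ)⁻¹ * wf u y a := by
    intro x hx
    rw [pr_smul, pr_stepAt hu y a x (mem_filter.1 hx).1 (fun h => hy (h ▸ hx))]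
  rw [sum_congr rfl h1, sum_const, nsmul_eq_mul, ← mul_assoc, mul_inv_cancel₀, one_mul, sub_self]
  exact_mod_cast (lft_nonempty ha).card_pos.ne'

section bounds
variable (hq : 2 ≤ q) (β J : ℝ) (hβ : 0 < β) (hβ1 : β ≤ 1 / 4) (hβ2 : rr D β ≤ 1)
  (hJ : 0 ≤ J) (hJ2 : J ≤ 2)
include hq hβ hβ1 hβ2 hJ hJ2

theorem abs_pr_stepL {w : St D q → ℝ} (hw : ∀ a, |w a| ≤ 1) (a : St D q) :
    |pr (stepL β J a) w| ≤ 1 / 2 * rr D β := by
  rw [← pr_TT_single]
  have h1 := abs_pr_le (rr_pos β hβ) hβ2 zero_le_one 1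
    (TT β J (Finsupp.single (a, 0) (1 : ℝ))) w (by
      intro p hp _
      obtain ⟨p0, h0, z, B, hs, hN⟩ := mem_TT hp
      have hB : 1 ≤ B.card := hs.2.2.1.card_pos
      exact ⟨by omega, hw _⟩)
  have h2 := nrm_TT hq β J hβ hβ1 hJ hJ2 (Finsupp.single (a, 0) (1 : ℝ) : (St D q × ℕ) →₀ ℝ)
  rw [nrm_single_one, mul_one] at h2
  rw [one_mul, pow_one] at h1
  calc _ ≤ _ := h1
    _ ≤ rr D β * (1 / 2) := mul_le_mul_of_nonneg_left h2 (rr_pos β hβ).le
    _ = 1 / 2 * rr D β := mul_comm _ _

theorem abs_res_le {w : St D q → ℝ} (hw : ∀ a, |w a| ≤ 1) (a : St D q) :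
    |res β J w a| ≤ 2 := by
  unfold res
  have h1 := abs_pr_stepL hq β J hβ hβ1 hβ2 hJ hJ2 hw a
  have h2 := abs_sub (w a) (pr (stepL β J a) w)
  have h3 := hw a
  linarith

theorem nrm_pow (m : (St D q × ℕ) →₀ ℝ) (n : ℕ) :
    nrm (rr D β) ((TT β J ^ n) m) ≤ (1 / 2) ^ n * nrm (rr D β) m := by
  induction n with
  | zero => simp
  | succ n ih =>
    rw [pow_succ', Module.End.mul_apply]
    refine (nrm_TT hq β J hβ hβ1 hJ hJ2 _).trans ?_
    rw [pow_succ', mul_assoc]
    exact mul_le_mul_of_nonneg_left ih (by norm_num)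

end bounds

theorem charge_TT (β J : ℝ) (x : Site D) (n : ℕ) (p : St D q × ℕ)
    (hp : p ∈ (((TT β J) ^ n) (Finsupp.single (Finsupp.single x (1 : ZMod q), 0) (1 : ℝ))).support) :
    (p.1.sum fun _ k => k) = 1 := by
  induction n generalizing p with
  | zero =>
    rw [pow_zero, Module.End.one_apply] at hp
    have h7 := mem_singleton.1 (Finsupp.support_single_subset hp)
    rw [h7]
    exact Finsupp.sum_single_index rfl
  | succ n ih =>
    rw [pow_succ', Module.End.mul_apply] at hp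
    obtain ⟨p0, h0, z, B, hs, -⟩ := mem_TT hp
    rw [hs.charge]
    exact ih p0 h0

theorem ne_zero_of_charge (hq : 2 ≤ q) {a : St D q} (h : (a.sum fun _ k => k) = 1) : a ≠ 0 := by
  intro h0
  rw [h0, Finsupp.sum_zero_index] at h
  exact one_ne_zero_q hq h.symm

theorem G_decay (hq : 2 ≤ q) (β J : ℝ) (hβ : 0 < β) (hβ1 : β ≤ 1 / 4) (hβ2 : rr D β ≤ 1)
    (hJ : 0 ≤ J) (hJ2 : J ≤ 2) (x y : Site D) :
    G D q β J x y ≤ 4 * (rr D β) ^ dist1 x y := by
  obtain ⟨u, u1, u2, u3, u4⟩ := exists_u (D := D) hq β J hβ.le hJ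
  have hu : IsU D q β J u := ⟨u1, u2, u3, u4⟩
  have hρ := rr_pos (D := D) β hβ
  set e : (St D q × ℕ) →₀ ℝ := Finsupp.single (Finsupp.single x (1 : ZMod q), 0) (1 : ℝ) with he
  have hw : ∀ a, |wf u y a| ≤ 1 := fun a => u1 _
  have hne : nrm (rr D β) e = 1 := nrm_single_one _ _
  have hpow : ∀ n, nrm (rr D β) ((TT β J ^ n) e) ≤ (1 / 2) ^ n := by
    intro n
    have := nrm_pow hq β J hβ hβ1 hβ2 hJ hJ2 e n
    rwa [hne, mul_one] at this
  -- the iteration
  have hit : ∀ n, G D q β J x y = pr ((TT β J ^ n) e) (wf u y) +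
      ∑ k ∈ range n, pr ((TT β J ^ k) e) (res β J (wf u y)) := by
    intro n
    induction n with
    | zero =>
      rw [pow_zero, Module.End.one_apply, sum_range_zero, add_zero, he, pr_single, one_mul]
      exact (wf_single hu x y).symm
    | succ n ih =>
      rw [ih, sum_range_succ, pow_succ', Module.End.mul_apply, pr_TT]
      ring
  have hdc : dist1 y x = dist1 x y := by
    unfold dist1
    congr 1
    · omega
    · exact sum_congr rfl fun i _ => by omega
  have hk : ∀ k, |pr ((TT β J ^ k) e) (res β J (wf u y))| ≤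
      2 * (rr D β) ^ dist1 x y * (1 / 2) ^ k := by
    intro k
    refine (abs_pr_le hρ hβ2 zero_le_two (dist1 x y) _ _ ?_).trans
      (mul_le_mul_of_nonneg_left (hpow k) (mul_nonneg zero_le_two (pow_nonneg hρ.le _)))
    intro p hp hr
    refine ⟨?_, abs_res_le hq β J hβ hβ1 hβ2 hJ hJ2 hw _⟩
    have h0 : p.1 ≠ 0 := ne_zero_of_charge hq (charge_TT β J x k p hp)
    have hy : y ∈ lft p.1 := by
      by_contra hy
      exact hr (res_eq_zero hu y h0 hy)
    rw [← hdc]
    exact TT_inv β J x k p hp y (mem_filter.1 hy).1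
  have hsum : ∀ n, ∑ k ∈ range n, pr ((TT β J ^ k) e) (res β J (wf u y)) ≤
      4 * (rr D β) ^ dist1 x y := by
    intro n
    calc _ ≤ ∑ k ∈ range n, 2 * (rr D β) ^ dist1 x y * (1 / 2) ^ k :=
          sum_le_sum fun k _ => (le_abs_self _).trans (hk k)
      _ = 2 * (rr D β) ^ dist1 x y * ∑ k ∈ range n, (1 / 2 : ℝ) ^ k := by rw [mul_sum]
      _ ≤ 2 * (rr D β) ^ dist1 x y * 2 :=
          mul_le_mul_of_nonneg_left (by
            have h1 := geom_sum_eq (x := (1 / 2 : ℝ)) (by norm_num) n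
            rw [h1]
            have h2 : (0 : ℝ) ≤ (1 / 2) ^ n := by positivity
            rw [show (1 / 2 : ℝ) - 1 = -(1 / 2) by norm_num, div_neg, ← neg_div]
            linarith) (mul_nonneg zero_le_two (pow_nonneg hρ.le _))
      _ = _ := by ring
  have hlim : Tendsto (fun n : ℕ => (1 / 2 : ℝ) ^ n + 4 * (rr D β) ^ dist1 x y) atTop
      (𝓝 (0 + 4 * (rr D β) ^ dist1 x y)) :=
    (tendsto_pow_atTop_nhds_zero_of_lt_one (by norm_num) (by norm_num)).add tendsto_const_nhds
  rw [zero_add] at hlim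
  refine ge_of_tendsto' hlim fun n => ?_
  rw [hit n]
  refine add_le_add ((le_abs_self _).trans ?_) (hsum n)
  have h1 := abs_pr_le hρ hβ2 zero_le_one 0 ((TT β J ^ n) e) (wf u y)
    (fun p _ _ => ⟨Nat.zero_le _, hw _⟩)
  rw [pow_zero, mul_one, one_mul] at h1
  exact h1.trans (hpow n)

/-! ### Exchange of sums -/

theorem exch {ι : Type*} (N : ι → ℕ) (f : ℕ → ι → ℝ) (C : ℝ)
    (hf0 : ∀ n i, N i ≤ n → f n i = 0)
    (hC : ∀ (M : ℕ) (s : Finset ι), ∑ n ∈ range M, ∑ i ∈ s, |f n i| ≤ C) :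
    Tendsto (fun M => ∑ n ∈ range M, ∑' i, f n i) atTop
      (𝓝 (∑' i, ∑ n ∈ range (N i), f n i)) := by
  have hs : Summable (fun p : ℕ × ι => |f p.1 p.2|) := by
    refine summable_of_sum_le (c := C) (fun p => abs_nonneg _) fun t => ?_
    classical
    set M := (t.image Prod.fst).sup id + 1 with hM
    have h1 : t ⊆ range M ×ˢ t.image Prod.snd := by
      intro p hp
      rw [mem_product, mem_range]
      refine ⟨?_, mem_image_of_mem _ hp⟩
      have := Finset.le_sup (f := id) (mem_image_of_mem Prod.fst hp)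
      simp only [id] at this
      omega
    calc ∑ p ∈ t, |f p.1 p.2| ≤ ∑ p ∈ range M ×ˢ t.image Prod.snd, |f p.1 p.2| :=
          sum_le_sum_of_subset_of_nonneg h1 fun _ _ _ => abs_nonneg _
      _ = ∑ n ∈ range M, ∑ i ∈ t.image Prod.snd, |f n i| := sum_product _ _ _
      _ ≤ C := hC _ _
  have hs' : Summable (fun p : ℕ × ι => f p.1 p.2) := hs.of_abs
  have h1 : ∑' i, ∑ n ∈ range (N i), f n i = ∑' i, ∑' n, f n i := by
    refine tsum_congr fun i => ?_
    refine (tsum_eq_sum fun n hn => hf0 n i ?_).symm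
    rw [mem_range, not_lt] at hn
    exact hn
  have h2 : ∑' i, ∑' n, f n i = ∑' n, ∑' i, f n i := Summable.tsum_comm (f := f) hs'
  rw [h1, h2]
  exact (hs'.prod).hasSum.tendsto_sum_nat

/-! ### The one-particle part -/

theorem single_of_card_lt {a : St D q} (hc : (a.sum fun _ k => k) = 1) (h : a.support.card < 2)
    (hq : 2 ≤ q) : ∃ z, a = Finsupp.single z 1 := by
  have h0 : a ≠ 0 := ne_zero_of_charge hq hc
  have h1 : a.support.card = 1 := by
    have := card_pos.2 (Finsupp.support_nonempty_iff.2 h0)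
    omega
  obtain ⟨z, b, hb, rfl⟩ := Finsupp.card_support_eq_one'.1 h1
  rw [Finsupp.sum_single_index rfl] at hc
  exact ⟨z, by rw [hc]⟩

theorem pr_split (m : (St D q × ℕ) →₀ ℝ) (w : St D q → ℝ) :
    pr m w = pr (QQ m) w + pr (m.filter fun p => ¬ 2 ≤ p.1.support.card) w := by
  rw [← pr_add]
  congr 1
  exact (Finsupp.filter_add_filter_not m _).symm

theorem pr_one (hq : 2 ≤ q) (m : (St D q × ℕ) →₀ ℝ) (w : St D q → ℝ)
    (hm : ∀ p ∈ m.support, (p.1.sum fun _ k => k) = 1) :
    pr (m.filter fun p => ¬ 2 ≤ p.1.support.card) w =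
      ∑' p : Site D × ℕ, m (Finsupp.single p.1 1, p.2) * w (Finsupp.single p.1 1) := by
  have : Fact (1 < q) := ⟨hq⟩
  set m' := m.filter fun p => ¬ 2 ≤ p.1.support.card with hm'
  have hinj : Function.Injective fun p : Site D × ℕ =>
      ((Finsupp.single p.1 (1 : ZMod q) : St D q), p.2) := by
    intro p p' h
    simp only [Prod.mk.injEq] at h
    exact Prod.ext (Finsupp.single_left_injective one_ne_zero h.1) h.2
  have h1 : ∀ p : Site D × ℕ, m (Finsupp.single p.1 1, p.2) * w (Finsupp.single p.1 1) =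
      (fun r : St D q × ℕ => m' r * w r.1) (Finsupp.single p.1 1, p.2) := by
    intro p
    simp only
    congr 1
    rw [hm', Finsupp.filter_apply_pos]
    simp only
    rw [Finsupp.support_single_ne_zero _ one_ne_zero, card_singleton]
    norm_num
  rw [tsum_congr h1, hinj.tsum_eq (f := fun r : St D q × ℕ => m' r * w r.1)]
  · rw [tsum_eq_sum (s := m'.support)]
    · rfl
    · intro r hr
      rw [Finsupp.notMem_support_iff.1 hr, zero_mul]
  · intro r hr
    rw [Function.mem_support] at hr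
    have h2 : r ∈ m'.support := by
      rw [Finsupp.mem_support_iff]
      exact left_ne_zero_of_mul hr
    rw [hm', Finsupp.support_filter, mem_filter] at h2
    obtain ⟨z, hz⟩ := single_of_card_lt (hm r h2.1) (not_le.1 h2.2) hq
    exact ⟨(z, r.2), Prod.ext hz.symm rfl⟩

/-! ### The first step -/

theorem nmem_nb (x : Site D) : x ∉ nb x := fun h => (nb_cases h).2.2 rfl

theorem pr_filter_single (a : St D q) (k : ℕ) (w : St D q → ℝ) :
    pr ((Finsupp.single (a, k) (1 : ℝ)).filter fun p : St D q × ℕ => ¬ 2 ≤ p.1.support.card) w =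
      if 2 ≤ a.support.card then 0 else w a := by
  split_ifs with h
  · rw [Finsupp.filter_single_of_neg (fun p : St D q × ℕ => ¬ 2 ≤ p.1.support.card)
      (fun h2 => h2 h), pr_zero]
  · rw [Finsupp.filter_single_of_pos (fun p : St D q × ℕ => ¬ 2 ≤ p.1.support.card) h,
      pr_single, one_mul]

theorem pr_first (hq : 2 ≤ q) (β J : ℝ) (x : Site D) (w : St D q → ℝ) :
    pr ((TT β J (Finsupp.single (Finsupp.single x (1 : ZMod q), 0) (1 : ℝ))).filter
        fun p => ¬ 2 ≤ p.1.support.card) w =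
      ∑ y' ∈ nb x, cc q β J x y' * w (Finsupp.single y' 1) -
        kap q β J x * w (Finsupp.single x 1) := by
  classical
  have : Fact (1 < q) := ⟨hq⟩
  have h1 : TT β J (Finsupp.single (Finsupp.single x (1 : ZMod q), 0) (1 : ℝ)) =
      stepAt β J (Finsupp.single x (1 : ZMod q)) x := by
    unfold TT
    rw [Finsupp.linearCombination_single, one_smul]
    have h2 : lft (Finsupp.single x (1 : ZMod q) : St D q) = {x} := by
      ext z
      unfold lft
      rw [Finsupp.support_single_ne_zero _ one_ne_zero, mem_filter, mem_singleton]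
      constructor
      · exact fun h => h.1
      · rintro rfl
        exact ⟨rfl, fun y hy => by rw [mem_singleton.1 hy]⟩
    unfold stepL
    rw [h2, sum_singleton, card_singleton, Nat.cast_one, inv_one, one_smul]
    simp only [zero_add]
    exact Finsupp.mapDomain_id
  set F : ((St D q × ℕ) →₀ ℝ) →+ ((St D q × ℕ) →₀ ℝ) :=
    Finsupp.filterAddHom (fun p : St D q × ℕ => ¬ 2 ≤ p.1.support.card) with hF
  have h3 : ∀ m : (St D q × ℕ) →₀ ℝ, m.filter (fun p => ¬ 2 ≤ p.1.support.card) = F m :=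
    fun m => rfl
  have hFs : ∀ (c : ℝ) (m : (St D q × ℕ) →₀ ℝ), F (c • m) = c • F m := by
    intro c m
    rw [← h3, ← h3]
    exact Finsupp.filter_smul
  rw [h1]
  unfold stepAt
  rw [h3, map_sum, pr_sum]
  have h4 : ∀ B ∈ (nb x).powerset.erase ∅,
      pr (F (tB q β J x B • (∑ b ∈ lab B ((Finsupp.single x (1 : ZMod q) : St D q) x),
          Finsupp.single ((Finsupp.single x (1 : ZMod q) : St D q) -
            Finsupp.single x ((Finsupp.single x (1 : ZMod q) : St D q) x) + b, B.card) (1 : ℝ) -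
        ∑ b ∈ lab B (0 : ZMod q),
          Finsupp.single ((Finsupp.single x (1 : ZMod q) : St D q) + b, B.card) (1 : ℝ)))) w =
      tB q β J x B * (∑ y' ∈ B, w (Finsupp.single y' 1) - w (Finsupp.single x 1)) := by
    intro B hB
    have hBx : x ∉ B := fun h => nmem_nb x (mem_powerset.1 (mem_erase.1 hB).2 h)
    rw [hFs, map_sub, map_sum, map_sum, pr_smul, pr_sub, pr_sum, pr_sum]
    congr 2
    · rw [Finsupp.single_eq_same, sub_self]
      have h5 : ∀ b ∈ (lab B (1 : ZMod q) : Finset (St D q)),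
          pr (F (Finsupp.single (0 + b, B.card) (1 : ℝ))) w =
            if 2 ≤ b.support.card then 0 else w b := by
        intro b _
        rw [zero_add]
        exact pr_filter_single b _ w
      rw [sum_congr rfl h5]
      have h6 : (B.image fun y' => (Finsupp.single y' (1 : ZMod q) : St D q)) ⊆
          lab B (1 : ZMod q) := by
        intro b hb
        obtain ⟨y', hy', rfl⟩ := mem_image.1 hb
        rw [lab, mem_filter, Finset.mem_finsupp_iff]
        refine ⟨⟨?_, fun _ _ => mem_univ _⟩, Finsupp.sum_single_index rfl⟩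
        rw [Finsupp.support_single_ne_zero _ one_ne_zero]
        exact singleton_subset_iff.2 hy'
      rw [← sum_subset h6]
      · rw [sum_image]
        · refine sum_congr rfl fun y' _ => ?_
          rw [if_neg]
          rw [Finsupp.support_single_ne_zero _ one_ne_zero, card_singleton]
          norm_num
        · intro y _ y' _ h
          exact Finsupp.single_left_injective one_ne_zero h
      · intro b hb hnb
        split_ifs with h7
        · rfl
        · exfalso
          obtain ⟨b1, b2⟩ := lab_sub hb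
          obtain ⟨z, rfl⟩ := single_of_card_lt b2 (not_le.1 h7) hq
          apply hnb
          refine mem_image_of_mem _ (b1 ?_)
          rw [Finsupp.support_single_ne_zero _ one_ne_zero]
          exact mem_singleton_self z
    · have h5 : ∀ b ∈ (lab B (0 : ZMod q) : Finset (St D q)),
          pr (F (Finsupp.single (Finsupp.single x (1 : ZMod q) + b, B.card) (1 : ℝ))) w =
            if b = 0 then w (Finsupp.single x 1) else 0 := by
        intro b hb
        refine (pr_filter_single _ _ w).trans ?_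
        obtain ⟨b1, b2⟩ := lab_sub hb
        have h6 : (Finsupp.single x (1 : ZMod q) + b).support = insert x b.support := by
          rw [Finsupp.support_add_eq]
          · rw [Finsupp.support_single_ne_zero _ one_ne_zero]
            rfl
          · rw [Finsupp.support_single_ne_zero _ one_ne_zero, disjoint_singleton_left]
            exact fun h => hBx (b1 h)
        by_cases hb0 : b = 0
        · subst hb0
          rw [if_pos rfl, if_neg, add_zero]
          rw [add_zero, Finsupp.support_single_ne_zero _ one_ne_zero, card_singleton]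
          norm_num
        · rw [if_neg hb0, if_pos]
          rw [h6, card_insert_of_notMem fun h => hBx (b1 h)]
          have := card_pos.2 (Finsupp.support_nonempty_iff.2 hb0)
          omega
      rw [sum_congr rfl h5, sum_ite_eq', if_pos]
      rw [lab, mem_filter, Finset.mem_finsupp_iff]
      exact ⟨⟨by rw [Finsupp.support_zero]; exact empty_subset _, fun _ _ => mem_univ _⟩,
        Finsupp.sum_zero_index⟩
  rw [sum_congr rfl h4]
  simp only [mul_sub]
  rw [sum_sub_distrib, ← sum_mul]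
  congr 1
  unfold cc
  have h7 : ∀ y' ∈ nb x, (∑ B ∈ (nb x).powerset.filter (fun B => y' ∈ B), tB q β J x B) *
      w (Finsupp.single y' 1) =
      ∑ B ∈ (nb x).powerset.erase ∅, if y' ∈ B then tB q β J x B * w (Finsupp.single y' 1)
        else 0 := by
    intro y' _
    rw [sum_mul, ← sum_filter]
    refine sum_congr ?_ fun _ _ => rfl
    ext B
    rw [mem_filter, mem_filter, mem_erase]
    constructor
    · rintro ⟨h8, h9⟩
      exact ⟨⟨fun h => by rw [h] at h9; exact notMem_empty _ h9, h8⟩, h9⟩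
    · rintro ⟨⟨-, h8⟩, h9⟩
      exact ⟨h8, h9⟩
  rw [sum_congr rfl h7, sum_comm]
  refine sum_congr rfl fun B hB => ?_
  rw [mul_sum, ← sum_filter]
  refine sum_congr ?_ fun _ _ => rfl
  ext y'
  rw [mem_filter]
  exact ⟨fun h => ⟨mem_powerset.1 (mem_erase.1 hB).2 h, h⟩, fun h => h.2⟩

/-! ### The defects -/

theorem res_bound (hq : 2 ≤ q) (β J : ℝ) (hβ : 0 < β) (hβ1 : β ≤ 1 / 4) (hβ2 : rr D β ≤ 1)
    (hJ : 0 ≤ J) (hJ2 : J ≤ 2) {u : St D q → ℝ} (hu : IsU D q β J u)
    (m : (St D q × ℕ) →₀ ℝ) (hm : ∀ p ∈ m.support, p.1 ≠ 0) (w : Fin D → ℤ)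
    (s : Finset (ℤ × ℕ)) :
    ∑ i ∈ s, |pr (m.filter fun p => p.2 = i.2) (res β J (wf u (i.1, w)))| * (rr D β)⁻¹ ^ i.2 ≤
      2 * nrm (rr D β) m := by
  classical
  have hρ := rr_pos (D := D) β hβ
  have hc : ∀ p : St D q × ℕ, 0 ≤ 2 * (|m p| * (rr D β)⁻¹ ^ p.2) := fun p =>
    mul_nonneg zero_le_two (mul_nonneg (abs_nonneg _) (pow_nonneg (inv_pos.2 hρ).le _))
  have h1 : ∀ i ∈ s, |pr (m.filter fun p => p.2 = i.2) (res β J (wf u (i.1, w)))| *
      (rr D β)⁻¹ ^ i.2 ≤ ∑ p ∈ m.support, if p.2 = i.2 ∧ ((i.1, w) : Site D) ∈ lft p.1 then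
        2 * (|m p| * (rr D β)⁻¹ ^ p.2) else 0 := by
    intro i _
    have h2 : pr (m.filter fun p => p.2 = i.2) (res β J (wf u (i.1, w))) =
        ∑ p ∈ m.support, if p.2 = i.2 then m p * res β J (wf u (i.1, w)) p.1 else 0 := by
      unfold pr Finsupp.sum
      rw [Finsupp.support_filter, sum_filter]
      refine sum_congr rfl fun p _ => ?_
      split_ifs with h3
      · rw [Finsupp.filter_apply_pos (fun p : St D q × ℕ => p.2 = i.2) m h3]
      · rfl
    rw [h2]
    refine (mul_le_mul_of_nonneg_right (abs_sum_le_sum_abs _ _)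
      (pow_nonneg (inv_pos.2 hρ).le _)).trans ?_
    rw [sum_mul]
    refine sum_le_sum fun p hp => ?_
    by_cases h3 : p.2 = i.2
    · by_cases h4 : ((i.1, w) : Site D) ∈ lft p.1
      · rw [if_pos h3, if_pos ⟨h3, h4⟩, abs_mul, ← h3]
        have h5 := abs_res_le hq β J hβ hβ1 hβ2 hJ hJ2 (w := wf u (i.1, w)) (fun a => hu.le _) p.1
        have h6 : 0 ≤ |m p| * (rr D β)⁻¹ ^ p.2 :=
          mul_nonneg (abs_nonneg _) (pow_nonneg (inv_pos.2 hρ).le _)
        calc |m p| * |res β J (wf u (i.1, w)) p.1| * (rr D β)⁻¹ ^ p.2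
            = |res β J (wf u (i.1, w)) p.1| * (|m p| * (rr D β)⁻¹ ^ p.2) := by ring
          _ ≤ 2 * (|m p| * (rr D β)⁻¹ ^ p.2) := mul_le_mul_of_nonneg_right h5 h6
      · rw [if_pos h3, if_neg fun h => h4 h.2, res_eq_zero hu _ (hm p hp) h4, mul_zero, abs_zero,
          zero_mul]
    · rw [if_neg h3, if_neg fun h => h3 h.1, abs_zero, zero_mul]
  refine (sum_le_sum h1).trans ?_
  rw [sum_comm, nrm_eq_sum _ m _ subset_rfl, mul_sum]
  refine sum_le_sum fun p _ => ?_
  rw [← sum_filter, sum_const, nsmul_eq_mul]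
  have h7 : (s.filter fun i => p.2 = i.2 ∧ ((i.1, w) : Site D) ∈ lft p.1).card ≤ 1 := by
    rw [card_le_one]
    intro i hi j hj
    obtain ⟨-, i1, i2⟩ := mem_filter.1 hi
    obtain ⟨-, j1, j2⟩ := mem_filter.1 hj
    refine Prod.ext ?_ (i1.symm.trans j1)
    have a1 := (mem_filter.1 i2).2 _ (mem_filter.1 j2).1
    have a2 := (mem_filter.1 j2).2 _ (mem_filter.1 i2).1
    exact le_antisymm a1 a2
  have h8 : ((s.filter fun i => p.2 = i.2 ∧ ((i.1, w) : Site D) ∈ lft p.1).card : ℝ) ≤ 1 := by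
    exact_mod_cast h7
  calc _ ≤ 1 * (2 * (|m p| * (rr D β)⁻¹ ^ p.2)) := mul_le_mul_of_nonneg_right h8 (hc p)
    _ = _ := one_mul _

theorem pr_fiber (m : (St D q × ℕ) →₀ ℝ) (r : St D q → ℝ) :
    pr m r = ∑' N : ℕ, pr (m.filter fun p => p.2 = N) r := by
  classical
  rw [tsum_eq_sum (s := m.support.image Prod.snd)]
  · unfold pr Finsupp.sum
    have h1 : ∀ N ∈ m.support.image Prod.snd,
        ∑ p ∈ (m.filter fun p => p.2 = N).support, (m.filter fun p => p.2 = N) p * r p.1 =
          ∑ p ∈ m.support.filter (fun p => p.2 = N), m p * r p.1 := by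
      intro N _
      rw [Finsupp.support_filter]
      refine sum_congr rfl fun p hp => ?_
      rw [Finsupp.filter_apply_pos (fun p : St D q × ℕ => p.2 = N) m (mem_filter.1 hp).2]
    rw [sum_congr rfl h1]
    exact (sum_fiberwise_of_maps_to (fun p hp => mem_image_of_mem _ hp) _).symm
  · intro N hN
    have h1 : m.filter (fun p => p.2 = N) = 0 := by
      ext p
      rw [Finsupp.filter_apply]
      split_ifs with h
      · by_contra h2
        exact hN (mem_image.2 ⟨p, Finsupp.mem_support_iff.2 h2, h⟩)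
      · rfl
    rw [h1, pr_zero]

/-! ### The equation -/

theorem lft_single {x y : Site D}
    (h : y ∈ lft (Finsupp.single x (1 : ZMod q) : St D q)) : y = x :=
  mem_singleton.1 (Finsupp.support_single_subset (mem_filter.1 h).1)

theorem sum_half_le' (M : ℕ) : ∑ n ∈ range M, 2 * ((1 : ℝ) / 2) ^ (n + 1) ≤ 2 := by
  have h : ∀ M : ℕ, ∑ n ∈ range M, 2 * ((1 : ℝ) / 2) ^ (n + 1) = 2 - 2 * (1 / 2) ^ M := by
    intro M
    induction M with
    | zero => norm_num
    | succ M ih => rw [Finset.sum_range_succ, ih]; ring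
  rw [h]
  have : (0 : ℝ) < (1 / 2) ^ M := by positivity
  linarith

theorem G_eqn (hq : 2 ≤ q) (β J : ℝ) (hβ : 0 < β) (hβ1 : β ≤ 1 / 4) (hβ2 : rr D β ≤ 1)
    (hJ : 0 ≤ J) (hJ2 : J ≤ 2) :
    ∃ (τ : Site D → ℝ) (σ : Site D → Site D → ℕ → ℝ),
      (∀ x, |τ x| ≤ rr D β) ∧
      (∀ x y N, σ x y N ≠ 0 → 2 ≤ N ∧ 2 * (y.1 - x.1) ≤ N ∧ dist1 y x ≤ N) ∧
      (∀ (x : Site D) (w : Fin D → ℤ),
        Summable (fun p : ℤ × ℕ => |σ x (p.1, w) p.2| * ((rr D β)⁻¹) ^ p.2) ∧
        ∑' p : ℤ × ℕ, |σ x (p.1, w) p.2| * ((rr D β)⁻¹) ^ p.2 ≤ 2) ∧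
      ∀ x y, G D q β J x y = ∑ y' ∈ nb x, cc q β J x y' * G D q β J y' y -
        kap q β J x * G D q β J x y +
        ∑' p : Site D × ℕ, SS D q β J x p.1 p.2 * G D q β J p.1 y +
        (if x = y then 1 - τ x else 0) + ∑' N, σ x y N := by
  classical
  obtain ⟨u, u1, u2, u3, u4⟩ := exists_u (D := D) hq β J hβ.le hJ
  have hu : IsU D q β J u := ⟨u1, u2, u3, u4⟩
  have hρ := rr_pos (D := D) β hβ
  have hwle : ∀ y a, |wf u y a| ≤ 1 := fun y a => u1 _
  have hmm0 : ∀ (x : Site D) (n : ℕ), ∀ p ∈ (mm (q := q) β J x n).support, p.1 ≠ 0 := fun x n p hp =>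
    ne_zero_of_charge hq (mm_inv β J x n p hp).2.1
  -- properties of the residual pairing
  have hres : ∀ (x y : Site D) (n N : ℕ),
      pr ((mm β J x n).filter fun p => p.2 = N) (res β J (wf u y)) ≠ 0 →
      n + 2 ≤ N ∧ 2 * (y.1 - x.1) ≤ N ∧ dist1 y x ≤ N := by
    intro x y n N h
    unfold pr Finsupp.sum at h
    obtain ⟨p, hp, h1⟩ := exists_ne_zero_of_sum_ne_zero h
    rw [Finsupp.support_filter, mem_filter] at hp
    have hI := mm_Inv β J x n p hp.1
    have hy : y ∈ lft p.1 := by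
      by_contra hy
      refine h1 ?_
      simp only
      rw [res_eq_zero hu y (hmm0 x n p hp.1) hy, mul_zero]
    have h2 := hI.low hy
    have h3 := hI.r3 y (mem_filter.1 hy).1
    have h4 := hI.edges
    have h5 := hp.2
    refine ⟨by omega, by omega, by omega⟩
  refine ⟨fun x => pr (stepL β J (Finsupp.single x (1 : ZMod q))) (wf u x),
    fun x y N => ∑ n ∈ range N, pr ((mm β J x n).filter fun p => p.2 = N) (res β J (wf u y)),
    ?_, ?_, ?_, ?_⟩
  · intro x
    have := abs_pr_stepL hq β J hβ hβ1 hβ2 hJ hJ2 (hwle x) (Finsupp.single x (1 : ZMod q))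
    linarith
  · intro x y N h
    obtain ⟨n, -, h1⟩ := exists_ne_zero_of_sum_ne_zero h
    obtain ⟨h2, h3, h4⟩ := hres x y n N h1
    exact ⟨by omega, h3, h4⟩
  · intro x w
    refine summable_and_tsum_le _ (fun p => mul_nonneg (abs_nonneg _)
      (pow_nonneg (inv_pos.2 hρ).le _)) 2 fun s => ?_
    set M := s.sup fun p => p.2 with hM
    have h1 : ∀ i ∈ s, |∑ n ∈ range i.2, pr ((mm β J x n).filter fun p => p.2 = i.2)
        (res β J (wf u (i.1, w)))| * (rr D β)⁻¹ ^ i.2 ≤
        ∑ n ∈ range M, |pr ((mm β J x n).filter fun p => p.2 = i.2)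
          (res β J (wf u (i.1, w)))| * (rr D β)⁻¹ ^ i.2 := by
      intro i hi
      rw [← sum_mul]
      refine mul_le_mul_of_nonneg_right ?_ (pow_nonneg (inv_pos.2 hρ).le _)
      refine (abs_sum_le_sum_abs _ _).trans ?_
      have hpM : i.2 ≤ M := Finset.le_sup (f := fun p : ℤ × ℕ => p.2) hi
      exact sum_le_sum_of_subset_of_nonneg (range_mono hpM) fun _ _ _ => abs_nonneg _
    refine (sum_le_sum h1).trans ?_
    rw [sum_comm]
    refine (sum_le_sum fun n _ => (res_bound hq β J hβ hβ1 hβ2 hJ hJ2 hu _ (hmm0 x n) w s).trans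
      (mul_le_mul_of_nonneg_left (nrm_mm hq β J hβ hβ1 hJ hJ2 x n) zero_le_two)).trans ?_
    exact sum_half_le' M
  · intro x y
    set w := wf u y with hw
    set e : (St D q × ℕ) →₀ ℝ := Finsupp.single (Finsupp.single x (1 : ZMod q), 0) (1 : ℝ) with he
    -- the first step
    have hfirst : G D q β J x y = ∑ y' ∈ nb x, cc q β J x y' * G D q β J y' y -
        kap q β J x * G D q β J x y +
        (if x = y then 1 - pr (stepL β J (Finsupp.single x (1 : ZMod q))) (wf u x) else 0) +
        pr (mm β J x 0) w := by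
      have h1 : pr (TT β J e) w = pr e w - pr e (res β J w) := pr_TT β J e w
      have h2 : pr e w = G D q β J x y := by
        rw [he, pr_single, one_mul]
        exact wf_single hu x y
      have h3 : pr e (res β J w) =
          if x = y then 1 - pr (stepL β J (Finsupp.single x (1 : ZMod q))) (wf u x) else 0 := by
        rw [he, pr_single, one_mul]
        split_ifs with hxy
        · subst hxy
          unfold res
          congr 1
          change u (Finsupp.single x 1 - Finsupp.single x 1) = 1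
          rw [sub_self, u2]
        · refine res_eq_zero hu y ?_ fun h => hxy (lft_single h).symm
          exact Finsupp.single_ne_zero.2 (one_ne_zero_q hq)
      have h4 := pr_split (TT β J e) w
      have h5 := pr_first hq β J x w
      have h6 : pr (QQ (TT β J e)) w = pr (mm β J x 0) w := rfl
      have h7 : ∀ z : Site D, w (Finsupp.single z 1) = G D q β J z y := fun z => wf_single hu z y
      simp only [h7] at h5
      rw [h4, h6, h2, h3] at h1
      rw [← he] at h5
      rw [h5] at h1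
      linarith
    -- the iteration
    have hit : ∀ M, pr (mm β J x 0) w =
        ∑ n ∈ range M, ∑' p : Site D × ℕ,
          TT β J (mm β J x n) (Finsupp.single p.1 (1 : ZMod q), p.2) * G D q β J p.1 y +
        ∑ n ∈ range M, ∑' N : ℕ, pr ((mm β J x n).filter fun p => p.2 = N) (res β J w) +
        pr (mm β J x M) w := by
      intro M
      induction M with
      | zero => rw [sum_range_zero, sum_range_zero, zero_add, zero_add]
      | succ M ih =>
        rw [ih, sum_range_succ, sum_range_succ]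
        have h1 : pr (TT β J (mm β J x M)) w = pr (mm β J x M) w - pr (mm β J x M) (res β J w) :=
          pr_TT β J _ w
        have h4 := pr_split (TT β J (mm β J x M)) w
        have h5 := pr_one hq (TT β J (mm β J x M)) w (by
          intro p hp
          obtain ⟨p0, h0, z, B, hs, -⟩ := mem_TT hp
          rw [hs.charge]
          exact (mm_inv β J x M p0 h0).2.1)
        have h6 : pr (QQ (TT β J (mm β J x M))) w = pr (mm β J x (M + 1)) w := rfl
        have h7 : ∀ z : Site D, w (Finsupp.single z 1) = G D q β J z y :=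
          fun z => wf_single hu z y
        simp only [h7] at h5
        have h8 := pr_fiber (mm β J x M) (res β J w)
        rw [h4, h6, h5] at h1
        rw [← h8]
        linarith
    -- limits
    have hA : Tendsto (fun M => ∑ n ∈ range M, ∑' p : Site D × ℕ,
          TT β J (mm β J x n) (Finsupp.single p.1 (1 : ZMod q), p.2) * G D q β J p.1 y) atTop
        (𝓝 (∑' p : Site D × ℕ, SS D q β J x p.1 p.2 * G D q β J p.1 y)) := by
      have h1 : ∀ p : Site D × ℕ, SS D q β J x p.1 p.2 * G D q β J p.1 y =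
          ∑ n ∈ range p.2, TT β J (mm β J x n) (Finsupp.single p.1 (1 : ZMod q), p.2) *
            G D q β J p.1 y := by
        intro p
        rw [SS, sum_mul]
      rw [tsum_congr h1]
      refine exch (fun p : Site D × ℕ => p.2) (fun n (p : Site D × ℕ) =>
        TT β J (mm β J x n) (Finsupp.single p.1 (1 : ZMod q), p.2) * G D q β J p.1 y)
        (1 / 2) ?_ ?_
      · intro n p hn
        have h2 : TT β J (mm β J x n) (Finsupp.single p.1 (1 : ZMod q), p.2) = 0 := by
          by_contra h3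
          obtain ⟨p0, h0, z, B, hs, hN⟩ := mem_TT (Finsupp.mem_support_iff.2 h3)
          have h4 := (mm_inv β J x n p0 h0).2.2.1
          simp only at hN
          omega
        rw [h2, zero_mul]
      · intro M s
        refine (sum_le_sum fun n _ => ?_).trans (sum_half_le M)
        have h2 : ∀ p ∈ s, |TT β J (mm β J x n) (Finsupp.single p.1 (1 : ZMod q), p.2) *
            G D q β J p.1 y| ≤
            |TT β J (mm β J x n) (Finsupp.single p.1 (1 : ZMod q), p.2)| * (rr D β)⁻¹ ^ p.2 := by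
          intro p _
          rw [abs_mul]
          refine mul_le_mul_of_nonneg_left ?_ (abs_nonneg _)
          have h3 : |G D q β J p.1 y| ≤ 1 := by
            rw [← wf_single hu]
            exact hwle _ _
          exact h3.trans (one_le_pow₀ ((one_le_inv₀ hρ).2 hβ2))
        refine (sum_le_sum h2).trans ((sum_le_nrm hq hρ.le _ s).trans ?_)
        refine (nrm_TT hq β J hβ hβ1 hJ hJ2 _).trans ?_
        have := nrm_mm hq β J hβ hβ1 hJ hJ2 x n
        rw [pow_succ (1 / 2 : ℝ) (n + 1)]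
        linarith
    have hB : Tendsto (fun M => ∑ n ∈ range M, ∑' N : ℕ,
          pr ((mm β J x n).filter fun p => p.2 = N) (res β J w)) atTop
        (𝓝 (∑' N : ℕ, ∑ n ∈ range N,
          pr ((mm β J x n).filter fun p => p.2 = N) (res β J w))) := by
      refine exch (fun N : ℕ => N) (fun n N =>
        pr ((mm β J x n).filter fun p => p.2 = N) (res β J w)) 2 ?_ ?_
      · intro n N hn
        by_contra h
        have := (hres x y n N h).1
        omega
      · intro M s
        refine (sum_le_sum fun n _ => ?_).trans (sum_half_le' M)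
        have h1 := res_bound hq β J hβ hβ1 hβ2 hJ hJ2 hu _ (hmm0 x n) y.2 ({y.1} ×ˢ s)
        rw [sum_product, sum_singleton] at h1
        refine (sum_le_sum fun N _ => ?_).trans (h1.trans (mul_le_mul_of_nonneg_left
          (nrm_mm hq β J hβ hβ1 hJ hJ2 x n) zero_le_two))
        exact le_mul_of_one_le_right (abs_nonneg _) (one_le_pow₀ ((one_le_inv₀ hρ).2 hβ2))
    have hC : Tendsto (fun M => pr (mm β J x M) w) atTop (𝓝 0) := by
      refine squeeze_zero_norm (a := fun n : ℕ => ((1 : ℝ) / 2) ^ (n + 1)) (fun n => ?_) ?_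
      · rw [Real.norm_eq_abs]
        have h1 := abs_pr_le hρ hβ2 zero_le_one 0 (mm β J x n) w
          (fun p _ _ => ⟨Nat.zero_le _, hwle y _⟩)
        rw [pow_zero, mul_one, one_mul] at h1
        exact h1.trans (nrm_mm hq β J hβ hβ1 hJ hJ2 x n)
      · exact (tendsto_pow_atTop_nhds_zero_of_lt_one (by norm_num) (by norm_num)).comp
          (tendsto_add_atTop_nat 1)
    have hlim := (hA.add hB).add hC
    have hconst : Tendsto (fun _ : ℕ => pr (mm β J x 0) w) atTop (𝓝 (pr (mm β J x 0) w)) :=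
      tendsto_const_nhds
    have hlim2 := tendsto_nhds_unique (hconst.congr hit) hlim
    rw [hlim2] at hfirst
    refine hfirst.trans ?_
    beta_reduce
    rw [← hw]
    ring

end Pool.Agent.SB
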