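import Pool.Agent.SB.Defs

/-! Row FK1: the Fortuin-Kasteleyn expansion without graphs. -/

set_option autoImplicit false
set_option linter.unusedSectionVars false

namespace Pool.Agent.SB

open Finset

section FK

variable {W : Type*} [Fintype W] [DecidableEq W] {q : ℕ} [NeZero q]

/-- The weight of a configuration. -/
noncomputable def wt (v : W × W → ℝ) (s : W → ZMod q) : ℝ :=
  ∏ p : W × W, (1 + if s p.1 = s p.2 then v p else 0)

/-- The two-point function. -/
noncomputable def g2 (q : ℕ) [NeZero q] (v : W × W → ℝ) (x y : W) : ℝ :=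
  (∑ s : W → ZMod q, cosq (s x - s y) * wt v s) / ∑ s : W → ZMod q, wt v s

/-- The group of the configurations which are constant along the open edges. -/
def Col (q : ℕ) (ω : Finset (W × W)) : AddSubgroup (W → ZMod q) where
  carrier := {s | ∀ p ∈ ω, s p.1 = s p.2}
  zero_mem' := fun _ _ => rfl
  add_mem' := fun {a b} ha hb p hp => by
    simp only [Pi.add_apply]
    rw [ha p hp, hb p hp]
  neg_mem' := fun {a} ha p hp => by
    simp only [Pi.neg_apply]
    rw [ha p hp]

theorem mem_Col (ω : Finset (W × W)) (s : W → ZMod q) :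
    s ∈ Col q ω ↔ ∀ p ∈ ω, s p.1 = s p.2 := Iff.rfl

theorem Col_mono {a b : Finset (W × W)} (h : a ⊆ b) : Col q b ≤ Col q a :=
  fun _ hs p hp => hs p (h hp)

theorem Col_union (a b : Finset (W × W)) : Col q (a ∪ b) = Col q a ⊓ Col q b := by
  ext s
  simp only [AddSubgroup.mem_inf, mem_Col, Finset.mem_union]
  constructor
  · intro h
    exact ⟨fun p hp => h p (Or.inl hp), fun p hp => h p (Or.inr hp)⟩
  · rintro ⟨h1, h2⟩ p (hp | hp)
    · exact h1 p hp
    · exact h2 p hp

/-- All the configurations in `Col` agree at `x` and `y`. -/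
def Conn (q : ℕ) (ω : Finset (W × W)) (x y : W) : Prop := ∀ s ∈ Col q ω, s x = s y

theorem Conn_mono {a b : Finset (W × W)} (h : a ⊆ b) (x y : W) (hc : Conn q a x y) :
    Conn q b x y := fun s hs => hc s (Col_mono h hs)

theorem Conn_trans {a : Finset (W × W)} {x y z : W} (h1 : Conn q a x y) (h2 : Conn q a y z) :
    Conn q a x z := fun s hs => (h1 s hs).trans (h2 s hs)

/-- The number of configurations in `Col`. -/
noncomputable def ncol (q : ℕ) (ω : Finset (W × W)) : ℝ := (Nat.card (Col q ω) : ℝ)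

theorem ncol_pos (ω : Finset (W × W)) : 0 < ncol q ω := by
  unfold ncol
  have : 0 < Nat.card (Col q ω) := Nat.card_pos
  exact_mod_cast this

/-- The product of the weights of the open edges. -/
noncomputable def wo (v : W × W → ℝ) (ω : Finset (W × W)) : ℝ := ∏ p ∈ ω, v p

theorem wo_nonneg {v : W × W → ℝ} (hv : ∀ p, 0 ≤ v p) (ω : Finset (W × W)) : 0 ≤ wo v ω :=
  Finset.prod_nonneg fun p _ => hv p

open Classical in
theorem wt_eq (v : W × W → ℝ) (s : W → ZMod q) :
    wt v s = ∑ ω : Finset (W × W), wo v ω * (if s ∈ Col q ω then 1 else 0) := by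
  unfold wt
  rw [Finset.prod_one_add, Finset.powerset_univ]
  refine Finset.sum_congr rfl fun ω _ => ?_
  unfold wo
  by_cases h : s ∈ Col q ω
  · rw [if_pos h, mul_one]
    exact Finset.prod_congr rfl fun p hp => if_pos (h p hp)
  · rw [if_neg h, mul_zero]
    rw [mem_Col] at h
    push Not at h
    obtain ⟨p, hp, hne⟩ := h
    exact Finset.prod_eq_zero hp (if_neg hne)

open Classical in
theorem sum_wt (v : W × W → ℝ) (f : (W → ZMod q) → ℝ) :
    ∑ s : W → ZMod q, f s * wt v s =
      ∑ ω : Finset (W × W), wo v ω * ∑ s : Col q ω, f s := by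
  simp only [wt_eq, Finset.mul_sum]
  rw [Finset.sum_comm]
  refine Finset.sum_congr rfl fun ω _ => ?_
  have h1 : ∑ s : W → ZMod q, f s * (wo v ω * (if s ∈ Col q ω then 1 else 0)) =
      ∑ s ∈ Finset.univ.filter (fun s : W → ZMod q => s ∈ Col q ω), wo v ω * f s := by
    rw [Finset.sum_filter]
    refine Finset.sum_congr rfl fun s _ => ?_
    split_ifs <;> ring
  rw [h1]
  refine Finset.sum_subtype _ (fun s => ?_) _
  simp

theorem sum_wt_one (v : W × W → ℝ) :
    ∑ s : W → ZMod q, wt v s = ∑ ω : Finset (W × W), wo v ω * ncol q ω := by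
  classical
  have h := sum_wt (q := q) v (fun _ => 1)
  simp only [one_mul] at h
  rw [h]
  refine Finset.sum_congr rfl fun ω _ => ?_
  rw [ncol, Nat.card_eq_fintype_card]
  simp

theorem sum_wt_pos {v : W × W → ℝ} (hv : ∀ p, 0 ≤ v p) : 0 < ∑ s : W → ZMod q, wt v s := by
  rw [sum_wt_one]
  refine Finset.sum_pos' (fun ω _ => mul_nonneg (wo_nonneg hv ω) (ncol_pos ω).le)
    ⟨∅, Finset.mem_univ _, ?_⟩
  simp only [wo, Finset.prod_empty, one_mul]
  exact ncol_pos _

theorem wt_nonneg {v : W × W → ℝ} (hv : ∀ p, 0 ≤ v p) (s : W → ZMod q) : 0 ≤ wt v s := by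
  refine Finset.prod_nonneg fun p _ => ?_
  have := hv p
  split_ifs <;> linarith

theorem cosq_eq_re (k : ZMod q) : cosq k = (ZMod.stdAddChar k : ℂ).re := by
  rw [ZMod.stdAddChar_apply, ZMod.toCircle_apply, cosq]
  have h : (2 * (Real.pi : ℂ) * Complex.I * (k.val : ℂ) / (q : ℂ)) =
      ((2 * Real.pi * (k.val : ℝ) / q : ℝ) : ℂ) * Complex.I := by
    push_cast
    ring
  rw [h, Complex.exp_ofReal_mul_I_re]

theorem cosq_zero : cosq (0 : ZMod q) = 1 := by
  simp [cosq]

theorem abs_cosq_le (k : ZMod q) : |cosq k| ≤ 1 := Real.abs_cos_le_one _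

/-- The difference of the values at `x` and `y`, on `Col`. -/
def dif (ω : Finset (W × W)) (x y : W) : Col q ω →+ ZMod q where
  toFun s := s.1 x - s.1 y
  map_zero' := by simp
  map_add' a b := by
    simp only [AddSubgroup.coe_add, Pi.add_apply]
    ring

/-- If `x` and `y` are not connected then some configuration has difference one. -/
theorem exists_one {ω : Finset (W × W)} {x y : W} (h : ¬ Conn q ω x y) :
    ∃ s : Col q ω, dif ω x y s = 1 := by
  classical
  unfold Conn at h
  push Not at h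
  obtain ⟨s, hs, hne⟩ := h
  refine ⟨⟨fun z => if s z = s x then 1 else 0, fun p hp => ?_⟩, ?_⟩
  · simp only [hs p hp]
  · simp [dif, Ne.symm hne]

theorem dif_surjective {ω : Finset (W × W)} {x y : W} (h : ¬ Conn q ω x y) :
    Function.Surjective (dif (q := q) ω x y) := by
  obtain ⟨s, hs⟩ := exists_one h
  intro k
  refine ⟨k.val • s, ?_⟩
  rw [map_nsmul, hs, nsmul_eq_mul, mul_one, ZMod.natCast_zmod_val]

open Classical in
theorem sum_cosq (hq : 2 ≤ q) (ω : Finset (W × W)) (x y : W) :
    ∑ s : Col q ω, cosq (s.1 x - s.1 y) = if Conn q ω x y then ncol q ω else 0 := by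
  by_cases h : Conn q ω x y
  · rw [if_pos h, ncol, Nat.card_eq_fintype_card]
    have h1 : ∀ s : Col q ω, cosq (s.1 x - s.1 y) = 1 := by
      intro s
      rw [h s.1 s.2, sub_self, cosq_zero]
    simp [h1]
  · rw [if_neg h]
    set χ : AddChar (Col q ω) ℂ := ZMod.stdAddChar.compAddMonoidHom (dif ω x y) with hχ
    have hne : χ ≠ 0 := by
      obtain ⟨s, hs⟩ := exists_one h
      intro h0
      have h1 : χ s = 1 := by
        rw [h0]
        rfl
      rw [hχ, AddChar.compAddMonoidHom_apply, hs] at h1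
      have h2 : (ZMod.stdAddChar (1 : ZMod q) : ℂ) = ZMod.stdAddChar (0 : ZMod q) := by
        rw [h1, AddChar.map_zero_eq_one]
      have h3 := ZMod.injective_stdAddChar h2
      have : Fact (1 < q) := ⟨hq⟩
      exact one_ne_zero h3
    have h1 : ∑ s, χ s = 0 := by
      rw [AddChar.sum_eq_ite, if_neg hne]
    have h2 : ∑ s : Col q ω, cosq (s.1 x - s.1 y) = (∑ s, χ s).re := by
      rw [Complex.re_sum]
      refine Finset.sum_congr rfl fun s _ => ?_
      rw [cosq_eq_re]
      rfl
    rw [h2, h1]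
    simp

open Classical in
theorem sum_same (ω : Finset (W × W)) (x y : W) :
    ∑ s : Col q ω, (if s.1 x = s.1 y then (1 : ℝ) else 0) =
      if Conn q ω x y then ncol q ω else ncol q ω / q := by
  by_cases h : Conn q ω x y
  · rw [if_pos h, ncol, Nat.card_eq_fintype_card]
    have h1 : ∀ s : Col q ω, (if s.1 x = s.1 y then (1 : ℝ) else 0) = 1 := by
      intro s
      rw [if_pos (h s.1 s.2)]
    simp [h1]
  · rw [if_neg h]
    have hsur := dif_surjective h
    have hcard : Nat.card (Col q ω) = q * Nat.card (dif (q := q) ω x y).ker := by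
      rw [AddSubgroup.card_eq_card_quotient_mul_card_addSubgroup (dif (q := q) ω x y).ker,
        Nat.card_congr (QuotientAddGroup.quotientKerEquivOfSurjective _ hsur).toEquiv,
        Nat.card_zmod]
    have hq0 : (q : ℝ) ≠ 0 := Nat.cast_ne_zero.2 (NeZero.ne q)
    have h2 : ∑ s : Col q ω, (if s.1 x = s.1 y then (1 : ℝ) else 0) =
        (Nat.card (dif (q := q) ω x y).ker : ℝ) := by
      rw [Finset.sum_boole, Nat.card_eq_fintype_card, Fintype.card_subtype]
      congr 2
      ext s
      simp only [Finset.mem_filter, Finset.mem_univ, true_and, AddMonoidHom.mem_ker]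
      change s.1 x = s.1 y ↔ s.1 x - s.1 y = 0
      rw [sub_eq_zero]
    rw [h2, ncol, hcard]
    push_cast
    field_simp

open Classical in
theorem sum_cosq_wt (hq : 2 ≤ q) (v : W × W → ℝ) (x y : W) :
    ∑ s : W → ZMod q, cosq (s x - s y) * wt v s =
      ∑ ω : Finset (W × W), wo v ω * ncol q ω * (if Conn q ω x y then 1 else 0) := by
  rw [sum_wt v (fun s => cosq (s x - s y))]
  refine Finset.sum_congr rfl fun ω _ => ?_
  rw [sum_cosq hq]
  split_ifs <;> ring

open Classical in
/-- The two-point function is a connection probability. -/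
theorem g2_eq (hq : 2 ≤ q) (v : W × W → ℝ) (x y : W) :
    g2 q v x y = (∑ ω : Finset (W × W), wo v ω * ncol q ω * (if Conn q ω x y then 1 else 0)) /
      ∑ ω : Finset (W × W), wo v ω * ncol q ω := by
  rw [g2, sum_cosq_wt hq, sum_wt_one]

theorem g2_nonneg (hq : 2 ≤ q) (v : W × W → ℝ) (hv : ∀ p, 0 ≤ v p) (x y : W) :
    0 ≤ g2 q v x y := by
  classical
  rw [g2_eq hq]
  refine div_nonneg (Finset.sum_nonneg fun ω _ => ?_) (Finset.sum_nonneg fun ω _ => ?_)
  · refine mul_nonneg (mul_nonneg (wo_nonneg hv ω) (ncol_pos ω).le) ?_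
    split_ifs <;> norm_num
  · exact mul_nonneg (wo_nonneg hv ω) (ncol_pos ω).le

theorem g2_le_one (v : W × W → ℝ) (hv : ∀ p, 0 ≤ v p) (x y : W) : g2 q v x y ≤ 1 := by
  rw [g2, div_le_one (sum_wt_pos hv)]
  refine Finset.sum_le_sum fun s _ => ?_
  have h1 := (abs_le.1 (abs_cosq_le (s x - s y))).2
  have h2 := wt_nonneg hv s
  nlinarith

theorem g2_self (v : W × W → ℝ) (hv : ∀ p, 0 ≤ v p) (x : W) : g2 q v x x = 1 := by
  rw [g2, div_eq_one_iff_eq (sum_wt_pos hv).ne']
  refine Finset.sum_congr rfl fun s _ => ?_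
  rw [sub_self, cosq_zero, one_mul]

theorem same_eq_g2 (hq : 2 ≤ q) (v : W × W → ℝ) (hv : ∀ p, 0 ≤ v p) (x y : W) :
    (∑ s : W → ZMod q, if s x = s y then wt v s else 0) / ∑ s : W → ZMod q, wt v s =
      1 / q + (1 - 1 / q) * g2 q v x y := by
  classical
  have hZ := sum_wt_pos (q := q) hv
  have hq0 : (q : ℝ) ≠ 0 := Nat.cast_ne_zero.2 (NeZero.ne q)
  have h1 : ∑ s : W → ZMod q, (if s x = s y then wt v s else 0) =
      ∑ ω : Finset (W × W), wo v ω * (if Conn q ω x y then ncol q ω else ncol q ω / q) := by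
    have h := sum_wt (q := q) v (fun s => if s x = s y then 1 else 0)
    have h2 : ∀ s : W → ZMod q, (if s x = s y then wt v s else 0) =
        (if s x = s y then (1 : ℝ) else 0) * wt v s := by
      intro s
      split_ifs <;> ring
    rw [Finset.sum_congr rfl fun s _ => h2 s, h]
    refine Finset.sum_congr rfl fun ω _ => ?_
    rw [sum_same]
  have h2 : ∑ ω : Finset (W × W), wo v ω * (if Conn q ω x y then ncol q ω else ncol q ω / q) =
      (1 / q) * (∑ ω : Finset (W × W), wo v ω * ncol q ω) + (1 - 1 / q) *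
      ∑ ω : Finset (W × W), wo v ω * ncol q ω * (if Conn q ω x y then 1 else 0) := by
    rw [Finset.mul_sum, Finset.mul_sum, ← Finset.sum_add_distrib]
    refine Finset.sum_congr rfl fun ω _ => ?_
    split_ifs
    · ring
    · ring
  rw [h1, h2, g2_eq hq, sum_wt_one]
  rw [sum_wt_one] at hZ
  field_simp

end FK

end Pool.Agent.SB
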