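import Pool.Agent.SB.FK

/-! Row FK2: the inequality of Fortuin, Kasteleyn and Ginibre and its consequences. -/

set_option autoImplicit false
set_option linter.unusedSectionVars false

namespace Pool.Agent.SB

open Finset

section FK

variable {W : Type*} [Fintype W] [DecidableEq W] {q : ℕ} [NeZero q]

/-- The sum map on a product of two subgroups. -/
def addMap (A B : AddSubgroup (W → ZMod q)) : A × B →+ (W → ZMod q) where
  toFun p := p.1.1 + p.2.1
  map_zero' := by simp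
  map_add' a b := by
    simp only [Prod.fst_add, Prod.snd_add, AddSubgroup.coe_add]
    abel

/-- The kernel of the sum map is the intersection. -/
def kerEquiv (A B : AddSubgroup (W → ZMod q)) : (addMap A B).ker ≃ (A ⊓ B : AddSubgroup _) where
  toFun p := ⟨p.1.1.1, p.1.1.2, by
    have h : p.1.1.1 + p.1.2.1 = 0 := p.2
    rw [eq_neg_of_add_eq_zero_left h]
    exact B.neg_mem p.1.2.2⟩
  invFun c := ⟨(⟨c.1, c.2.1⟩, ⟨-c.1, B.neg_mem c.2.2⟩), by
    change c.1 + -c.1 = 0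
    exact add_neg_cancel _⟩
  left_inv := by
    rintro ⟨⟨⟨a, ha⟩, ⟨b, hb⟩⟩, h⟩
    have h1 : a + b = 0 := h
    simp only [Subtype.mk.injEq, Prod.mk.injEq, true_and]
    exact neg_eq_of_add_eq_zero_right h1
  right_inv := by
    rintro ⟨c, hc⟩
    rfl

theorem card_mul_le (A B C : AddSubgroup (W → ZMod q)) (hA : A ≤ C) (hB : B ≤ C) :
    Nat.card A * Nat.card B ≤ Nat.card C * Nat.card (A ⊓ B : AddSubgroup _) := by
  have h1 : Nat.card A * Nat.card B = Nat.card (addMap A B).range * Nat.card (addMap A B).ker := by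
    rw [← Nat.card_prod, AddSubgroup.card_eq_card_quotient_mul_card_addSubgroup (addMap A B).ker,
      Nat.card_congr (QuotientAddGroup.quotientKerEquivRange (addMap A B)).toEquiv]
  have h2 : Nat.card (addMap A B).range ≤ Nat.card C := by
    have h3 : (addMap A B).range ≤ C := by
      rintro _ ⟨p, rfl⟩
      exact C.add_mem (hA p.1.2) (hB p.2.2)
    exact Nat.card_le_card_of_injective (AddSubgroup.inclusion h3)
      (AddSubgroup.inclusion_injective h3)
  rw [h1, Nat.card_congr (kerEquiv A B)]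
  exact Nat.mul_le_mul_right _ h2

theorem ncol_mul_le (a b : Finset (W × W)) :
    ncol q a * ncol q b ≤ ncol q (a ∩ b) * ncol q (a ∪ b) := by
  have h := card_mul_le (Col q a) (Col q b) (Col q (a ∩ b))
    (Col_mono Finset.inter_subset_left) (Col_mono Finset.inter_subset_right)
  rw [← Col_union] at h
  unfold ncol
  exact_mod_cast h

theorem wo_mul_le {v v' : W × W → ℝ} (hv : ∀ p, 0 ≤ v p) (h : ∀ p, v p ≤ v' p)
    (a b : Finset (W × W)) : wo v a * wo v' b ≤ wo v (a ∩ b) * wo v' (a ∪ b) := by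
  have hv' : ∀ p, 0 ≤ v' p := fun p => (hv p).trans (h p)
  have h1 : wo v a = wo v (a ∩ b) * wo v (a \ b) := by
    unfold wo
    rw [mul_comm, ← Finset.prod_sdiff (Finset.inter_subset_left : a ∩ b ⊆ a),
      Finset.sdiff_inter_self_left]
  have h2 : wo v' (a ∪ b) = wo v' (a \ b) * wo v' b := by
    unfold wo
    rw [← Finset.prod_union (Finset.sdiff_disjoint), Finset.sdiff_union_self_eq_union]
  have h3 : wo v (a \ b) ≤ wo v' (a \ b) :=
    Finset.prod_le_prod (fun p _ => hv p) (fun p _ => h p)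
  rw [h1, h2, mul_assoc]
  refine mul_le_mul_of_nonneg_left ?_ (wo_nonneg hv _)
  exact mul_le_mul_of_nonneg_right h3 (wo_nonneg hv' _)

/-- The weight of a set of open edges. -/
noncomputable def mu (q : ℕ) (v : W × W → ℝ) (ω : Finset (W × W)) : ℝ := wo v ω * ncol q ω

theorem mu_nonneg {v : W × W → ℝ} (hv : ∀ p, 0 ≤ v p) (ω : Finset (W × W)) : 0 ≤ mu q v ω :=
  mul_nonneg (wo_nonneg hv ω) (ncol_pos ω).le

theorem mu_mul_le {v v' : W × W → ℝ} (hv : ∀ p, 0 ≤ v p) (h : ∀ p, v p ≤ v' p)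
    (a b : Finset (W × W)) : mu q v a * mu q v' b ≤ mu q v (a ∩ b) * mu q v' (a ∪ b) := by
  have hv' : ∀ p, 0 ≤ v' p := fun p => (hv p).trans (h p)
  unfold mu
  have h1 := wo_mul_le hv h a b
  have h2 := ncol_mul_le (q := q) a b
  have h3 : 0 ≤ ncol q a * ncol q b := mul_nonneg (ncol_pos a).le (ncol_pos b).le
  have h4 : 0 ≤ wo v (a ∩ b) * wo v' (a ∪ b) := mul_nonneg (wo_nonneg hv _) (wo_nonneg hv' _)
  calc wo v a * ncol q a * (wo v' b * ncol q b)
      = (wo v a * wo v' b) * (ncol q a * ncol q b) := by ring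
    _ ≤ (wo v (a ∩ b) * wo v' (a ∪ b)) * (ncol q (a ∩ b) * ncol q (a ∪ b)) :=
        mul_le_mul h1 h2 h3 h4
    _ = _ := by ring

open Classical in
/-- The indicator of the connection event. -/
noncomputable def ic (q : ℕ) (x y : W) (ω : Finset (W × W)) : ℝ := if Conn q ω x y then 1 else 0

theorem ic_nonneg (x y : W) (ω : Finset (W × W)) : 0 ≤ ic q x y ω := by
  unfold ic
  split_ifs <;> norm_num

theorem ic_mono (x y : W) {a b : Finset (W × W)} (h : a ⊆ b) : ic q x y a ≤ ic q x y b := by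
  unfold ic
  by_cases h1 : Conn q a x y
  · rw [if_pos h1, if_pos (Conn_mono h x y h1)]
  · rw [if_neg h1]
    split_ifs <;> norm_num

theorem ic_mul_le (x y z : W) (ω : Finset (W × W)) :
    ic q x y ω * ic q y z ω ≤ ic q x z ω := by
  unfold ic
  by_cases h1 : Conn q ω x y
  · by_cases h2 : Conn q ω y z
    · rw [if_pos h1, if_pos h2, if_pos (Conn_trans h1 h2), one_mul]
    · rw [if_neg h2, mul_zero]
      split_ifs <;> norm_num
  · rw [if_neg h1, zero_mul]
    split_ifs <;> norm_num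

theorem g2_eq' (hq : 2 ≤ q) (v : W × W → ℝ) (x y : W) :
    g2 q v x y = (∑ ω, mu q v ω * ic q x y ω) / ∑ ω, mu q v ω := by
  rw [g2_eq hq]
  rfl

theorem sum_mu_pos {v : W × W → ℝ} (hv : ∀ p, 0 ≤ v p) : 0 < ∑ ω, mu q v ω := by
  have h := sum_wt_pos (q := q) hv
  rw [sum_wt_one] at h
  exact h

theorem g2_mul (hq : 2 ≤ q) (v : W × W → ℝ) (hv : ∀ p, 0 ≤ v p) (x y z : W) :
    g2 q v x y * g2 q v y z ≤ g2 q v x z := by
  have hZ := sum_mu_pos (q := q) hv
  have h := fkg (ic q x y) (ic q y z) (mu q v) (fun ω => mu_nonneg hv ω) (fun ω => ic_nonneg x y ω)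
    (fun ω => ic_nonneg y z ω) (fun a b hab => ic_mono x y hab) (fun a b hab => ic_mono y z hab)
    (fun a b => mu_mul_le hv (fun _ => le_rfl) a b)
  have h2 : ∑ ω, mu q v ω * (ic q x y ω * ic q y z ω) ≤ ∑ ω, mu q v ω * ic q x z ω :=
    Finset.sum_le_sum fun ω _ => mul_le_mul_of_nonneg_left (ic_mul_le x y z ω) (mu_nonneg hv ω)
  rw [g2_eq' hq, g2_eq' hq, g2_eq' hq, div_mul_div_comm, div_le_div_iff₀ (mul_pos hZ hZ) hZ]
  calc (∑ ω, mu q v ω * ic q x y ω) * (∑ ω, mu q v ω * ic q y z ω) * ∑ ω, mu q v ω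
      ≤ ((∑ ω, mu q v ω) * ∑ ω, mu q v ω * (ic q x y ω * ic q y z ω)) * ∑ ω, mu q v ω :=
        mul_le_mul_of_nonneg_right h hZ.le
    _ ≤ ((∑ ω, mu q v ω) * ∑ ω, mu q v ω * ic q x z ω) * ∑ ω, mu q v ω :=
        mul_le_mul_of_nonneg_right (mul_le_mul_of_nonneg_left h2 hZ.le) hZ.le
    _ = _ := by ring

theorem g2_mono (hq : 2 ≤ q) (v v' : W × W → ℝ) (hv : ∀ p, 0 ≤ v p) (h : ∀ p, v p ≤ v' p)
    (x y : W) : g2 q v x y ≤ g2 q v' x y := by
  have hv' : ∀ p, 0 ≤ v' p := fun p => (hv p).trans (h p)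
  have hZ := sum_mu_pos (q := q) hv
  have hZ' := sum_mu_pos (q := q) hv'
  rw [g2_eq' hq, g2_eq' hq, div_le_div_iff₀ hZ hZ']
  have h1 := four_functions_theorem_univ (fun ω => mu q v ω * ic q x y ω) (mu q v') (mu q v)
    (fun ω => mu q v' ω * ic q x y ω) (fun ω => mul_nonneg (mu_nonneg hv ω) (ic_nonneg x y ω))
    (fun ω => mu_nonneg hv' ω) (fun ω => mu_nonneg hv ω)
    (fun ω => mul_nonneg (mu_nonneg hv' ω) (ic_nonneg x y ω)) (fun a b => by
      have h2 := mu_mul_le (q := q) hv h a b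
      have h3 : ic q x y a ≤ ic q x y (a ∪ b) := ic_mono x y Finset.subset_union_left
      calc mu q v a * ic q x y a * mu q v' b = (mu q v a * mu q v' b) * ic q x y a := by ring
        _ ≤ (mu q v (a ∩ b) * mu q v' (a ∪ b)) * ic q x y (a ∪ b) :=
            mul_le_mul h2 h3 (ic_nonneg x y a) (mul_nonneg (mu_nonneg hv _) (mu_nonneg hv' _))
        _ = mu q v (a ⊓ b) * (mu q v' (a ⊔ b) * ic q x y (a ⊔ b)) := by
            rw [Finset.inf_eq_inter, Finset.sup_eq_union]
            ring)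
  linarith

theorem g2_pos (hq : 2 ≤ q) (v : W × W → ℝ) (hv : ∀ p, 0 ≤ v p) (x y : W) (h : 0 < v (x, y)) :
    0 < g2 q v x y := by
  rw [g2_eq' hq]
  refine div_pos (Finset.sum_pos' (fun ω _ => mul_nonneg (mu_nonneg hv ω) (ic_nonneg x y ω))
    ⟨{(x, y)}, Finset.mem_univ _, ?_⟩) (sum_mu_pos hv)
  have h1 : ic q x y {(x, y)} = 1 := by
    unfold ic
    rw [if_pos]
    intro s hs
    exact hs (x, y) (Finset.mem_singleton_self _)
  rw [h1, mul_one, mu, wo, Finset.prod_singleton]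
  exact mul_pos h (ncol_pos _)

/-- The two-point function is symmetric. -/
theorem g2_comm (hq : 2 ≤ q) (v : W × W → ℝ) (x y : W) : g2 q v x y = g2 q v y x := by
  rw [g2_eq' hq, g2_eq' hq]
  have h : ic q x y = ic q y x := by
    funext ω
    unfold ic
    have h1 : Conn q ω x y ↔ Conn q ω y x :=
      ⟨fun h s hs => (h s hs).symm, fun h s hs => (h s hs).symm⟩
    by_cases h2 : Conn q ω x y
    · rw [if_pos h2, if_pos (h1.1 h2)]
    · rw [if_neg h2, if_neg fun h3 => h2 (h1.2 h3)]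
  rw [h]

end FK

end Pool.Agent.SB
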