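import Pool.Agent.SB.Fek
import Pool.Agent.SB.Eqn

/-! Row FEK, second part: the rate of the homogeneous model. -/

set_option autoImplicit false

namespace Pool.Agent.SB

open Finset Filter Topology

theorem xi_one_le (D q : ℕ) [NeZero q] (hq : 2 ≤ q) (hD : 1 ≤ D) : ∃ β₀ : ℝ, 0 < β₀ ∧
    ∀ β, 0 < β → β < β₀ → ∀ z1 ξ : ℝ, 1 ≤ z1 → z1 ≤ zm q β →
      Tendsto (fun n : ℕ => -(1 / (n : ℝ)) * Real.log (G D q β 1 (0, 0) (n, 0))) atTop (𝓝 ξ) →
      ¬ Summable (fun p : Gam D × ℤ => z1 ^ p.2 * G D q β 1 (0, p.1) (p.2, 0)) →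
      ξ ≤ Real.log z1 := by
  have hq2 : (2 : ℝ) ≤ q := by exact_mod_cast hq
  have hD0 : (0 : ℝ) ≤ D := Nat.cast_nonneg D
  have hA1 : 1 ≤ AA D q := by
    unfold AA
    nlinarith
  have hA0 : 0 < AA D q := by linarith
  refine ⟨1 / (128 * AA D q * (D + 1)), by positivity, ?_⟩
  intro β hβ hβ0 z1 ξ hz1 hz1m hξ hns
  rw [lt_div_iff₀ (by positivity)] at hβ0
  have hAρ : AA D q * rr D β ≤ 1 / 4 := by
    unfold rr
    nlinarith
  have hρ0 : 0 < rr D β := by
    unfold rr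
    positivity
  have hρ1 : rr D β ≤ 1 := by nlinarith
  have hβ1 : β ≤ 1 / 4 := by
    have h1 : rr D β ≤ 1 / 4 := by nlinarith
    have h2 : β ≤ rr D β := by
      unfold rr
      nlinarith
    linarith
  by_contra hlt
  push Not at hlt
  refine hns ?_
  have hz0 : 0 < z1 := by linarith
  have ht1 : z1 * Real.exp (-ξ) < 1 := by
    have : z1 = Real.exp (Real.log z1) := (Real.exp_log hz0).symm
    rw [this, ← Real.exp_add]
    exact Real.exp_lt_one_iff.2 (by linarith)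
  have ht0 : 0 < z1 * Real.exp (-ξ) := by positivity
  have hs1 : Real.sqrt (z1 * Real.exp (-ξ)) < 1 := by
    rw [Real.sqrt_lt' one_pos]
    linarith
  have hzA : z1 * rr D β ≤ AA D q := by
    have h1 : zm q β * rr D β = AA D q := by
      unfold zm rr AA
      field_simp
      ring
    calc z1 * rr D β ≤ zm q β * rr D β := mul_le_mul_of_nonneg_right hz1m hρ0.le
      _ = AA D q := h1
  refine summable_full hq hD β z1 ξ (max (1 / 2) (Real.sqrt (z1 * Real.exp (-ξ)))) (AA D q) hβ hz1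
    (lt_max_of_lt_left (by norm_num)) (max_lt (by norm_num) hs1) hρ0.le
    (fun x y => G_decay hq β 1 hβ hβ1 hρ1 zero_le_one one_le_two x y) hA1 hzA ?_ ?_ hξ
  · have h1 : (1 / 2 : ℝ) ≤ max (1 / 2) (Real.sqrt (z1 * Real.exp (-ξ))) := le_max_left _ _
    nlinarith
  · have h1 : Real.sqrt (z1 * Real.exp (-ξ)) ≤ max (1 / 2) (Real.sqrt (z1 * Real.exp (-ξ))) :=
      le_max_right _ _
    calc z1 * Real.exp (-ξ) = Real.sqrt (z1 * Real.exp (-ξ)) ^ 2 := (Real.sq_sqrt ht0.le).symm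
      _ ≤ _ := pow_le_pow_left₀ (Real.sqrt_nonneg _) h1 2

end Pool.Agent.SB
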