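import Pool.Agent.SB.FinA

/-!
# Assembly, part B: the main theorem
-/

set_option autoImplicit false
set_option linter.unusedSectionVars false

namespace Pool.Agent.SB

open Finset Filter Topology

/-- The on-axis series converges if the full series does. -/
lemma axis_of_full {D : ℕ} (g : Gam D → ℤ → ℝ) (z : ℝ)
    (h : Summable fun p : Gam D × ℤ => z ^ p.2 * g p.1 p.2) :
    Summable fun n : ℕ => z ^ n * g 0 n := by
  have h1 : Summable ((fun p : Gam D × ℤ => z ^ p.2 * g p.1 p.2) ∘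
      fun n : ℕ => ((0 : Gam D), (n : ℤ))) := by
    apply h.comp_injective
    intro a b hab
    have := (Prod.mk.inj hab).2
    exact_mod_cast this
  refine h1.congr fun n => ?_
  simp

lemma log_ratio (a b : ℝ) (ha : 2 ≤ a) (hab : a < b) (hb : b - a ≤ 1) :
    (b - a) / b ≤ Real.log b - Real.log a ∧ Real.log b - Real.log a ≤ b - a := by
  have ha0 : 0 < a := by linarith
  have hb0 : 0 < b := by linarith
  constructor
  · have h := Real.add_one_le_exp (Real.log a - Real.log b)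
    rw [Real.exp_sub, Real.exp_log ha0, Real.exp_log hb0] at h
    have h2 : (b - a) / b = 1 - a / b := by field_simp
    rw [h2]
    linarith
  · have h := Real.add_one_le_exp (Real.log b - Real.log a)
    rw [Real.exp_sub, Real.exp_log hb0, Real.exp_log ha0] at h
    have h2 : b / a ≤ 1 + (b - a) := by
      rw [div_le_iff₀ ha0]
      nlinarith
    linarith

theorem main (D q : ℕ) [NeZero q] (hD : 3 ≤ D) (hq : 2 ≤ q) : ∃ β₀ : ℝ, 0 < β₀ ∧
    ∀ β, 0 < β → β < β₀ → ∃ (μ : ℝ → ℕ → ℝ) (ξ : ℝ → ℝ) (Jc : ℝ),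
      (∀ J, 0 ≤ J → ∀ n : ℕ, Tendsto (fun L : ℕ => same D q β J (box D L) (0, 0) ((n : ℤ), 0))
        atTop (𝓝 (μ J n))) ∧
      (∀ J, 0 ≤ J → Tendsto (fun n : ℕ => -(1 / (n : ℝ)) * Real.log (μ J n - 1 / q)) atTop
        (𝓝 (ξ J))) ∧
      IsLUB {J : ℝ | 0 ≤ J ∧ ξ J = ξ 1} Jc ∧ 1 < Jc ∧ Jc < 2 ∧
      ∃ c C ε : ℝ, 0 < c ∧ 0 < C ∧ 0 < ε ∧ ∀ J, Jc < J → J < Jc + ε →
        (D = 3 → c * (J - Jc) ^ 2 ≤ ξ Jc - ξ J ∧ ξ Jc - ξ J ≤ C * (J - Jc) ^ 2) ∧
        (D = 4 → c * ((J - Jc) / |Real.log (J - Jc)|) ≤ ξ Jc - ξ J ∧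
          ξ Jc - ξ J ≤ C * ((J - Jc) / |Real.log (J - Jc)|)) ∧
        (5 ≤ D → c * (J - Jc) ≤ ξ Jc - ξ J ∧ ξ Jc - ξ J ≤ C * (J - Jc)) := by
  classical
  obtain ⟨β1, hβ1, pack⟩ := package D q hq hD
  obtain ⟨β2, hβ2, xi1⟩ := xi_one_le D q hq (by omega)
  obtain ⟨β3, K3, hβ3, hK3, reso⟩ := resolvent D q hq hD
  refine ⟨min β1 (min β2 β3), by positivity, ?_⟩
  intro β hβ hβm
  simp only [lt_min_iff] at hβm
  obtain ⟨b1, b2, b3⟩ := hβm
  obtain ⟨z1, Jc, η, c, C, hza, hz1, hz1m, hz10, hJc1, hJc2, hη, hη2, hc, hC, hfull, hJ, hnot⟩ :=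
    pack β hβ b1
  obtain ⟨r1, r2, r3, r4, r5, r6, ⟨cP, CP, hcP, hCP, r7⟩, r8⟩ :=
    reso β hβ b3 z1 (by linarith) hz1m hz10
  have hz1pos : 0 < z1 := by linarith
  have hq0 : (0 : ℝ) < q := by exact_mod_cast (by omega : 0 < q)
  have hq1 : (0 : ℝ) < 1 - 1 / q := by
    have : (2 : ℝ) ≤ q := by exact_mod_cast hq
    have h1 : 1 / (q : ℝ) ≤ 1 / 2 := one_div_le_one_div_of_le (by norm_num) this
    linarith
  -- the inverse correlation lengths
  have hxex : ∀ J : ℝ, ∃ ξ : ℝ, 0 ≤ J →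
      Tendsto (fun n : ℕ => -(1 / (n : ℝ)) * Real.log (G D q β J (0, 0) (n, 0))) atTop (𝓝 ξ) ∧
      (∀ z, 0 < z → Summable (fun n : ℕ => z ^ n * G D q β J (0, 0) (n, 0)) → Real.log z ≤ ξ) ∧
      (∀ z, 0 < z → Real.log z < ξ → Summable (fun n : ℕ => z ^ n * G D q β J (0, 0) (n, 0))) := by
    intro J
    by_cases hJ0 : 0 ≤ J
    · obtain ⟨ξ, h⟩ := exists_xi D q hq (by omega) β J hβ hJ0
      exact ⟨ξ, fun _ => h⟩
    · exact ⟨0, fun h => absurd h hJ0⟩
  choose ξ hξ using hxex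
  have hmono : ∀ J J', 0 ≤ J → J ≤ J' → ξ J' ≤ ξ J := by
    intro J J' h0 h1
    apply le_of_tendsto_of_tendsto' (hξ J' (h0.trans h1)).1 (hξ J h0).1
    intro n
    have h2 := G_mono (D := D) hq β J J' hβ.le h0 h1 (0, 0) ((n : ℤ), 0)
    have h3 := G_pos (D := D) hq (by omega) β J hβ h0 (0, 0) ((n : ℤ), 0)
    have h4 : Real.log (G D q β J (0, 0) ((n : ℤ), 0)) ≤
        Real.log (G D q β J' (0, 0) ((n : ℤ), 0)) := Real.log_le_log h3 h2
    have h5 : (0 : ℝ) ≤ 1 / (n : ℝ) := by positivity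
    nlinarith
  -- lower bounds from convergence below a point
  have hlow : ∀ J z', 0 ≤ J → za D β < z' → (∀ z, za D β ≤ z → z < z' →
      Summable (fun p : Gam D × ℤ => z ^ p.2 * G D q β J (0, p.1) (p.2, 0))) →
      Real.log z' ≤ ξ J := by
    intro J z' hJ0 hz' hs
    have h1 : Tendsto Real.log (𝓝[<] z') (𝓝 (Real.log z')) :=
      ((Real.continuousAt_log (by linarith : z' ≠ 0)).tendsto).mono_left nhdsWithin_le_nhds
    apply le_of_tendsto h1
    have h2 : ∀ᶠ z in 𝓝[<] z', za D β < z :=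
      (lt_mem_nhds hz').filter_mono nhdsWithin_le_nhds
    filter_upwards [h2, self_mem_nhdsWithin] with z hz hz2
    apply (hξ J hJ0).2.1 z (by linarith)
    have h3 := axis_of_full (fun x n => G D q β J (0, x) (n, 0)) z (hs z hz.le hz2)
    simpa using h3
  have hξ1 : ξ 1 ≤ Real.log z1 :=
    xi1 β hβ b2 z1 (ξ 1) (by linarith) hz1m (hξ 1 (by norm_num)).1 hnot
  have hξc : Real.log z1 ≤ ξ Jc := hlow Jc z1 (by linarith) (by linarith) hfull
  have hξ1c : ξ Jc ≤ ξ 1 := hmono 1 Jc (by norm_num) hJc1.le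
  have hξceq : ξ Jc = Real.log z1 := by linarith
  have hξ1eq : ξ 1 = Real.log z1 := by linarith
  -- above the critical coupling
  have hxiJ : ∀ J, Jc < J → J < Jc + η → ∃ zJ, z1 - 1 < zJ ∧ zJ < z1 ∧ ξ J = Real.log zJ ∧
      c * (Rz D q β z1 0 - Rz D q β zJ 0) ≤ J - Jc ∧
      J - Jc ≤ C * (Rz D q β z1 0 - Rz D q β zJ 0) := by
    intro J h1 h2
    obtain ⟨zJ, h3, h4, h5, h6, h7, h8⟩ := hJ J h1 h2
    refine ⟨zJ, h3, h4, le_antisymm ?_ (hlow J zJ (by linarith) (by linarith) h5), h7, h8⟩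
    by_contra hcon
    push Not at hcon
    have hzJ0 : 0 < zJ := by linarith
    have h9 : ∃ z2, zJ < z2 ∧ Real.log z2 < ξ J := by
      have h10 : ∀ᶠ z in 𝓝 zJ, Real.log z < ξ J :=
        (Real.continuousAt_log hzJ0.ne').eventually_lt_const hcon
      have h11 : ∀ᶠ z in 𝓝[>] zJ, Real.log z < ξ J := h10.filter_mono nhdsWithin_le_nhds
      obtain ⟨z2, h12, h13⟩ := (h11.and self_mem_nhdsWithin).exists
      exact ⟨z2, h13, h12⟩
    obtain ⟨z2, h10, h11⟩ := h9
    exact h6 z2 h10 ((hξ J (by linarith)).2.2 z2 (by linarith) h11)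
  have hlt : ∀ J, Jc < J → ξ J < Real.log z1 := by
    intro J h1
    set J' := min J (Jc + η / 2) with hJ'
    have h2 : Jc < J' := lt_min h1 (by linarith)
    have h3 : J' < Jc + η := lt_of_le_of_lt (min_le_right _ _) (by linarith)
    obtain ⟨zJ, h4, h5, h6, _, _⟩ := hxiJ J' h2 h3
    have h7 : ξ J ≤ ξ J' := hmono J' J (by linarith) (min_le_left _ _)
    have h8 : Real.log zJ < Real.log z1 := Real.log_lt_log (by linarith) h5
    linarith
  refine ⟨fun J n => 1 / q + (1 - 1 / q) * G D q β J (0, 0) ((n : ℤ), 0), ξ, Jc, ?_, ?_, ?_, hJc1,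
    hJc2, ?_⟩
  · intro J hJ0 n
    exact tendsto_same hq β J hβ.le hJ0 (0, 0) ((n : ℤ), 0)
  · intro J hJ0
    have h1 : ∀ n : ℕ, -(1 / (n : ℝ)) * Real.log (1 / q + (1 - 1 / q) *
        G D q β J (0, 0) ((n : ℤ), 0) - 1 / q) =
        -(1 / (n : ℝ)) * Real.log (1 - 1 / q) +
          -(1 / (n : ℝ)) * Real.log (G D q β J (0, 0) ((n : ℤ), 0)) := by
      intro n
      have h3 := G_pos (D := D) hq (by omega) β J hβ hJ0 (0, 0) ((n : ℤ), 0)
      rw [add_sub_cancel_left, Real.log_mul hq1.ne' h3.ne']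
      ring
    have h2 : Tendsto (fun n : ℕ => -(1 / (n : ℝ)) * Real.log (1 - 1 / q)) atTop (𝓝 0) := by
      have h3 : Tendsto (fun n : ℕ => 1 / (n : ℝ)) atTop (𝓝 0) := tendsto_one_div_atTop_nhds_zero_nat
      have h4 := (h3.neg).mul_const (Real.log (1 - 1 / q))
      simpa using h4
    have h3 := h2.add (hξ J hJ0).1
    rw [zero_add] at h3
    exact h3.congr fun n => (h1 n).symm
  · constructor
    · rintro J ⟨hJ0, hJe⟩
      by_contra hcon
      push Not at hcon
      have := hlt J hcon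
      linarith
    · intro b hb
      exact hb ⟨by linarith, by linarith⟩
  · -- the asymptotic behaviour
    -- closeness
    have hclose : ∀ J, Jc < J → J < Jc + η → ∀ zJ, z1 - 1 < zJ → zJ < z1 →
        c * (Rz D q β z1 0 - Rz D q β zJ 0) ≤ J - Jc → z1 - zJ ≤ (K3 * β / c) * (J - Jc) := by
      intro J h1 h2 zJ h3 h4 h5
      have h6 := r6 zJ z1 h3.le (by linarith) h4.le le_rfl
      have h7 : c * ((z1 - zJ) / (K3 * β)) ≤ J - Jc :=
        (mul_le_mul_of_nonneg_left h6 hc.le).trans h5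
      have h8 : 0 < K3 * β := by positivity
      have h9 : z1 - zJ = (K3 * β / c) * (c * ((z1 - zJ) / (K3 * β))) := by
        field_simp
      rw [h9]
      exact mul_le_mul_of_nonneg_left h7 (by positivity)
    have hPhi : ∀ J, Jc < J → J < Jc + η → ∀ zJ, z1 - 1 < zJ → zJ < z1 →
        c * (Rz D q β z1 0 - Rz D q β zJ 0) ≤ J - Jc →
        J - Jc ≤ C * (Rz D q β z1 0 - Rz D q β zJ 0) →
        c * cP * Phi D (z1 - zJ) ≤ J - Jc ∧ J - Jc ≤ C * CP * Phi D (z1 - zJ) := by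
      intro J h1 h2 zJ h3 h4 h5 h6
      obtain ⟨h7, h8⟩ := r7 (z1 - zJ) (by linarith) (by linarith) (by linarith)
      rw [sub_sub_cancel] at h7 h8
      constructor
      · calc c * cP * Phi D (z1 - zJ) = c * (cP * Phi D (z1 - zJ)) := by ring
          _ ≤ c * (Rz D q β z1 0 - Rz D q β zJ 0) := mul_le_mul_of_nonneg_left h7 hc.le
          _ ≤ _ := h5
      · calc J - Jc ≤ C * (Rz D q β z1 0 - Rz D q β zJ 0) := h6
          _ ≤ C * (CP * Phi D (z1 - zJ)) := mul_le_mul_of_nonneg_left h8 hC.le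
          _ = _ := by ring
    have hlogb : ∀ zJ, z1 - 1 < zJ → zJ < z1 →
        (z1 - zJ) / z1 ≤ Real.log z1 - Real.log zJ ∧ Real.log z1 - Real.log zJ ≤ z1 - zJ :=
      fun zJ h3 h4 => log_ratio zJ z1 (by linarith) h4 (by linarith)
    by_cases hD3 : D = 3
    · subst hD3
      obtain ⟨cS, CS, hcS, hCS, hS⟩ := Phi_three
      refine ⟨(C * CP * CS)⁻¹ ^ 2 / z1, (c * cP * cS)⁻¹ ^ 2, η, by positivity, by positivity, hη, ?_⟩
      intro J h1 h2
      refine ⟨fun _ => ?_, fun h => absurd h (by norm_num), fun h => absurd h (by norm_num)⟩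
      obtain ⟨zJ, h3, h4, h5, h6, h7⟩ := hxiJ J h1 h2
      obtain ⟨h8, h9⟩ := hPhi J h1 h2 zJ h3 h4 h6 h7
      obtain ⟨h10, h11⟩ := hS (z1 - zJ) (by linarith) (by linarith)
      obtain ⟨h12, h13⟩ := hlogb zJ h3 h4
      have hδ : 0 < z1 - zJ := by linarith
      have hsq : Real.sqrt (z1 - zJ) ^ 2 = z1 - zJ := Real.sq_sqrt hδ.le
      have hJp : 0 < J - Jc := by linarith
      rw [hξceq, h5]
      constructor
      · have h14 : (C * CP * CS)⁻¹ * (J - Jc) ≤ Real.sqrt (z1 - zJ) := by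
          rw [inv_mul_le_iff₀ (by positivity)]
          calc J - Jc ≤ C * CP * Phi 3 (z1 - zJ) := h9
            _ ≤ C * CP * (CS * Real.sqrt (z1 - zJ)) :=
                mul_le_mul_of_nonneg_left h11 (by positivity)
            _ = _ := by ring
        have h15 : ((C * CP * CS)⁻¹ * (J - Jc)) ^ 2 ≤ z1 - zJ := by
          rw [← hsq]
          exact pow_le_pow_left₀ (by positivity) h14 2
        calc (C * CP * CS)⁻¹ ^ 2 / z1 * (J - Jc) ^ 2 = ((C * CP * CS)⁻¹ * (J - Jc)) ^ 2 / z1 := by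
              ring
          _ ≤ (z1 - zJ) / z1 := div_le_div_of_nonneg_right h15 hz1pos.le
          _ ≤ _ := h12
      · have h14 : Real.sqrt (z1 - zJ) ≤ (c * cP * cS)⁻¹ * (J - Jc) := by
          rw [le_inv_mul_iff₀ (by positivity)]
          calc c * cP * cS * Real.sqrt (z1 - zJ) = c * cP * (cS * Real.sqrt (z1 - zJ)) := by ring
            _ ≤ c * cP * Phi 3 (z1 - zJ) := mul_le_mul_of_nonneg_left h10 (by positivity)
            _ ≤ _ := h8
        calc Real.log z1 - Real.log zJ ≤ z1 - zJ := h13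
          _ = Real.sqrt (z1 - zJ) ^ 2 := hsq.symm
          _ ≤ ((c * cP * cS)⁻¹ * (J - Jc)) ^ 2 := pow_le_pow_left₀ (Real.sqrt_nonneg _) h14 2
          _ = _ := by ring
    · by_cases hD4 : D = 4
      · subst hD4
        obtain ⟨cS, CS, hcS, hCS, hS⟩ := Phi_four
        obtain ⟨ε, c', C', hε, hc', hC', hinv⟩ := invert_log (c * cP * cS) (C * CP * CS)
          (by positivity) (by positivity)
        refine ⟨c' / z1, C', min η (min ε (min ε (1 / 2) / (K3 * β / c))), by positivity, hC',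
          by positivity, ?_⟩
        intro J h1 h2
        have h2' : J - Jc < min η (min ε (min ε (1 / 2) / (K3 * β / c))) := by linarith
        simp only [lt_min_iff] at h2'
        obtain ⟨k1, k2, k3⟩ := h2'
        refine ⟨fun h => absurd h (by norm_num), fun _ => ?_, fun h => absurd h (by norm_num)⟩
        obtain ⟨zJ, h3, h4, h5, h6, h7⟩ := hxiJ J h1 (by linarith)
        obtain ⟨h8, h9⟩ := hPhi J h1 (by linarith) zJ h3 h4 h6 h7
        have hcl := hclose J h1 (by linarith) zJ h3 h4 h6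
        have hδ : 0 < z1 - zJ := by linarith
        have hKc : 0 < K3 * β / c := by positivity
        have hsmall : z1 - zJ ≤ min ε (1 / 2) := by
          rw [lt_div_iff₀ hKc] at k3
          linarith
        obtain ⟨h10, h11⟩ := hS (z1 - zJ) hδ (hsmall.trans (min_le_right _ _))
        obtain ⟨h12, h13⟩ := hlogb zJ h3 h4
        obtain ⟨h14, h15⟩ := hinv (z1 - zJ) (J - Jc) hδ (hsmall.trans (min_le_left _ _))
          (by linarith) k2.le
          (by
            calc c * cP * cS * ((z1 - zJ) * Real.log (1 / (z1 - zJ))) =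
                c * cP * (cS * ((z1 - zJ) * Real.log (1 / (z1 - zJ)))) := by ring
              _ ≤ c * cP * Phi 4 (z1 - zJ) := mul_le_mul_of_nonneg_left h10 (by positivity)
              _ ≤ _ := h8)
          (by
            calc J - Jc ≤ C * CP * Phi 4 (z1 - zJ) := h9
              _ ≤ C * CP * (CS * ((z1 - zJ) * Real.log (1 / (z1 - zJ)))) :=
                mul_le_mul_of_nonneg_left h11 (by positivity)
              _ = _ := by ring)
        rw [hξceq, h5]
        constructor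
        · calc c' / z1 * ((J - Jc) / |Real.log (J - Jc)|) =
              (c' * ((J - Jc) / |Real.log (J - Jc)|)) / z1 := by ring
            _ ≤ (z1 - zJ) / z1 := div_le_div_of_nonneg_right h14 hz1pos.le
            _ ≤ _ := h12
        · exact h13.trans h15
      · have hD5 : 5 ≤ D := by omega
        obtain ⟨cS, CS, hcS, hCS, hS⟩ := Phi_ge_five D hD5
        refine ⟨(C * CP * CS)⁻¹ / z1, (c * cP * cS)⁻¹, η, by positivity, by positivity, hη, ?_⟩
        intro J h1 h2
        refine ⟨fun h => absurd h hD3, fun h => absurd h hD4, fun _ => ?_⟩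
        obtain ⟨zJ, h3, h4, h5, h6, h7⟩ := hxiJ J h1 h2
        obtain ⟨h8, h9⟩ := hPhi J h1 h2 zJ h3 h4 h6 h7
        have hδ : 0 < z1 - zJ := by linarith
        obtain ⟨h10, h11⟩ := hS (z1 - zJ) hδ (by linarith)
        obtain ⟨h12, h13⟩ := hlogb zJ h3 h4
        rw [hξceq, h5]
        constructor
        · have h14 : (C * CP * CS)⁻¹ * (J - Jc) ≤ z1 - zJ := by
            rw [inv_mul_le_iff₀ (by positivity)]
            calc J - Jc ≤ C * CP * Phi D (z1 - zJ) := h9
              _ ≤ C * CP * (CS * (z1 - zJ)) := mul_le_mul_of_nonneg_left h11 (by positivity)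
              _ = _ := by ring
          calc (C * CP * CS)⁻¹ / z1 * (J - Jc) = ((C * CP * CS)⁻¹ * (J - Jc)) / z1 := by ring
            _ ≤ (z1 - zJ) / z1 := div_le_div_of_nonneg_right h14 hz1pos.le
            _ ≤ _ := h12
        · have h14 : z1 - zJ ≤ (c * cP * cS)⁻¹ * (J - Jc) := by
            rw [le_inv_mul_iff₀ (by positivity)]
            calc c * cP * cS * (z1 - zJ) = c * cP * (cS * (z1 - zJ)) := by ring
              _ ≤ c * cP * Phi D (z1 - zJ) := mul_le_mul_of_nonneg_left h10 (by positivity)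
              _ ≤ _ := h8
          exact h13.trans h14

end Pool.Agent.SB
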