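import Pool.Agent.SB.KSa

/-!
# The one-site identity in finite volume
-/

set_option autoImplicit false
set_option linter.unusedSectionVars false

namespace Pool.Agent.SB

open Finset

variable {D q : ℕ} [NeZero q]

/-! ### Characters -/

theorem cosq_eq_char (k : ZMod q) : cosq k = (ZMod.stdAddChar (N := q) k).re := by
  rw [ZMod.stdAddChar_apply, ZMod.toCircle_apply, cosq]
  have h : (2 * (Real.pi : ℂ) * Complex.I * (k.val : ℂ) / (q : ℂ)) =
      ((2 * Real.pi * (k.val : ℝ) / q : ℝ) : ℂ) * Complex.I := by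
    push_cast
    ring
  rw [h, Complex.exp_ofReal_mul_I_re]

/-- The value of a state on a configuration. -/
noncomputable def dot (a : St D q) (σ : Site D → ZMod q) : ZMod q := a.sum fun x k => k * σ x

theorem dot_add (a b : St D q) (σ : Site D → ZMod q) : dot (a + b) σ = dot a σ + dot b σ := by
  classical
  unfold dot
  exact Finsupp.sum_add_index' (fun _ => zero_mul _) (fun _ _ _ => add_mul _ _ _)

theorem dot_eq_sum {B : Finset (Site D)} {b : St D q} (hb : b.support ⊆ B)
    (σ : Site D → ZMod q) : dot b σ = ∑ y ∈ B, b y * σ y :=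
  Finsupp.sum_of_support_subset b hb _ fun _ _ => zero_mul _

theorem total_eq_sum {B : Finset (Site D)} {b : St D q} (hb : b.support ⊆ B) :
    (b.sum fun _ k => k) = ∑ y ∈ B, b y :=
  Finsupp.sum_of_support_subset b hb _ fun _ _ => rfl

theorem dot_single (x : Site D) (k : ZMod q) (σ : Site D → ZMod q) :
    dot (Finsupp.single x k) σ = k * σ x := by
  unfold dot
  exact Finsupp.sum_single_index (zero_mul _)

theorem dot_split (a : St D q) (x : Site D) (σ : Site D → ZMod q) :
    dot a σ = dot (a - Finsupp.single x (a x)) σ + a x * σ x := by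
  rw [← dot_single, ← dot_add, sub_add_cancel]

theorem dot_congr {a : St D q} {σ σ' : Site D → ZMod q} (h : ∀ y ∈ a.support, σ y = σ' y) :
    dot a σ = dot a σ' := by
  unfold dot Finsupp.sum
  exact Finset.sum_congr rfl fun y hy => congrArg (a y * ·) (h y hy)

theorem sum_finsupp_prod {ι : Type*} (B : Finset ι) (g : ι → ZMod q → ℂ) :
    ∑ b ∈ B.finsupp (fun _ => (Finset.univ : Finset (ZMod q))), ∏ y ∈ B, g y (b y) =
      ∏ y ∈ B, ∑ k, g y k := by
  classical
  rw [Finset.prod_sum, Finset.finsupp, Finset.sum_map]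
  refine Finset.sum_congr rfl fun p _ => ?_
  rw [← Finset.prod_attach B]
  refine Finset.prod_congr rfl fun y _ => ?_
  congr 1
  exact Finsupp.indicator_of_mem y.2 p

theorem prod_stdChar {ι : Type*} (B : Finset ι) (g : ι → ZMod q) :
    ∏ y ∈ B, ZMod.stdAddChar (N := q) (g y) = ZMod.stdAddChar (N := q) (∑ y ∈ B, g y) := by
  classical
  induction B using Finset.induction_on with
  | empty => simp
  | insert y B hy ih => rw [Finset.prod_insert hy, Finset.sum_insert hy, AddChar.map_add_eq_mul, ih]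

theorem sum_stdChar (k : ZMod q) : ∑ t, ZMod.stdAddChar (N := q) (t * k) = if k = 0 then (q : ℂ) else 0 := by
  have h := AddChar.sum_mulShift k (ZMod.isPrimitive_stdAddChar q)
  rw [h, ZMod.card]
  split_ifs <;> simp

/-- The sum of the characters of the labellings of `B` with total charge `c`. -/
theorem sum_lab (B : Finset (Site D)) (c : ZMod q) (σ : Site D → ZMod q) :
    (q : ℂ) * ∑ b ∈ lab B c, ZMod.stdAddChar (N := q) (dot b σ) =
      (q : ℂ) ^ B.card * ∑ t, ZMod.stdAddChar (N := q) (c * t) *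
        ∏ y ∈ B, if t = σ y then (1 : ℂ) else 0 := by
  classical
  set E := ZMod.stdAddChar (N := q) with hE
  -- the condition on the total charge as a sum of characters
  have h1 : (q : ℂ) * ∑ b ∈ lab B c, E (dot b σ) =
      ∑ b ∈ B.finsupp (fun _ => (Finset.univ : Finset (ZMod q))),
        ∑ t, E (t * (c - ∑ y ∈ B, b y)) * E (dot b σ) := by
    unfold lab
    rw [Finset.mul_sum, Finset.sum_filter]
    refine Finset.sum_congr rfl fun b hb => ?_
    have hb' : b.support ⊆ B := (Finset.mem_finsupp_iff.mp hb).1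
    rw [← Finset.sum_mul, hE, sum_stdChar, total_eq_sum hb']
    by_cases h : ∑ y ∈ B, b y = c
    · rw [if_pos h, if_pos (by rw [h, sub_self])]
    · rw [if_neg h, if_neg (by rw [sub_eq_zero]; exact fun h' => h h'.symm), zero_mul]
  have h2 : ∀ t : ZMod q, ∀ b ∈ B.finsupp (fun _ => (Finset.univ : Finset (ZMod q))),
      E (t * (c - ∑ y ∈ B, b y)) * E (dot b σ) = E (c * t) * ∏ y ∈ B, E (b y * (σ y - t)) := by
    intro t b hb
    have hb' : b.support ⊆ B := (Finset.mem_finsupp_iff.mp hb).1
    have h3 : ∀ g : Site D → ZMod q, ∏ y ∈ B, E (g y) = E (∑ y ∈ B, g y) := by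
      exact fun g => (prod_stdChar B g)
    rw [h3, ← AddChar.map_add_eq_mul, ← AddChar.map_add_eq_mul, dot_eq_sum hb']
    congr 1
    simp only [mul_sub, Finset.sum_sub_distrib, ← Finset.sum_mul]
    ring
  rw [h1, Finset.sum_comm]
  rw [Finset.mul_sum]
  refine Finset.sum_congr rfl fun t _ => ?_
  rw [Finset.sum_congr rfl (h2 t), ← Finset.mul_sum,
    sum_finsupp_prod B fun y k => E (k * (σ y - t))]
  simp only [hE, sum_stdChar]
  rw [← mul_assoc, mul_comm ((q : ℂ) ^ B.card), mul_assoc]
  congr 1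
  rw [← Finset.prod_const, ← Finset.prod_mul_distrib]
  refine Finset.prod_congr rfl fun y _ => ?_
  by_cases h : t = σ y
  · rw [if_pos h, if_pos (by rw [h, sub_self]), mul_one]
  · rw [if_neg h, if_neg (by rw [sub_eq_zero]; exact fun h' => h h'.symm), mul_zero]

theorem card_lab (B : Finset (Site D)) (hB : B.Nonempty) (c : ZMod q) :
    (lab B c : Finset (St D q)).card = q ^ (B.card - 1) := by
  have h := sum_lab B c (fun _ => (0 : ZMod q))
  have h0 : ∀ b : St D q, dot b (fun _ => (0 : ZMod q)) = 0 := by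
    intro b
    unfold dot
    simp [Finsupp.sum]
  simp only [h0, AddChar.map_zero_eq_one, Finset.sum_const, nsmul_eq_mul, mul_one] at h
  rw [Finset.sum_eq_single (0 : ZMod q)] at h
  · simp only [mul_zero, AddChar.map_zero_eq_one, if_true, Finset.prod_const_one, mul_one] at h
    have h1 : q * (lab B c : Finset (St D q)).card = q ^ B.card := by exact_mod_cast h
    have h2 : q ^ B.card = q * q ^ (B.card - 1) := by
      rw [← pow_succ']
      congr 1
      have := hB.card_pos
      omega
    rw [h2] at h1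
    exact Nat.eq_of_mul_eq_mul_left (Nat.pos_of_ne_zero (NeZero.ne q)) h1
  · intro t _ ht
    obtain ⟨y, hy⟩ := hB
    rw [Finset.prod_eq_zero hy (if_neg ht), mul_zero]
  · intro h'
    exact absurd (Finset.mem_univ _) h'

/-- The sum over one spin. -/
theorem sum_spin (v : Site D → ℝ) (N : Finset (Site D)) (σ : Site D → ZMod q) (c : ZMod q) :
    ∑ t, ZMod.stdAddChar (N := q) (c * t) *
        (((∏ y ∈ N, (1 + if t = σ y then v y else 0) : ℝ)) : ℂ) =
      q * ∑ B ∈ N.powerset, ((∏ y ∈ B, v y / q : ℝ) : ℂ) *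
        ∑ b ∈ lab B c, ZMod.stdAddChar (N := q) (dot b σ) := by
  have hq : (q : ℂ) ≠ 0 := by exact_mod_cast NeZero.ne q
  simp only [Finset.prod_one_add]
  push_cast
  simp only [Finset.mul_sum]
  rw [Finset.sum_comm]
  refine Finset.sum_congr rfl fun B _ => ?_
  have h := sum_lab B c σ
  have h1 : ∀ t : ZMod q, ∏ y ∈ B, ((if t = σ y then v y else 0 : ℝ) : ℂ) =
      (∏ y ∈ B, (v y : ℂ)) * ∏ y ∈ B, if t = σ y then (1 : ℂ) else 0 := by
    intro t
    rw [← Finset.prod_mul_distrib]
    refine Finset.prod_congr rfl fun y _ => ?_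
    split_ifs <;> simp
  simp only [h1]
  have h2 : ∏ y ∈ B, ((v y : ℂ) / q) = (∏ y ∈ B, (v y : ℂ)) / (q : ℂ) ^ B.card := by
    rw [Finset.prod_div_distrib, Finset.prod_const]
  rw [h2]
  calc ∑ t, ZMod.stdAddChar (N := q) (c * t) *
        ((∏ y ∈ B, (v y : ℂ)) * ∏ y ∈ B, if t = σ y then (1 : ℂ) else 0)
      = (∏ y ∈ B, (v y : ℂ)) * ∑ t, ZMod.stdAddChar (N := q) (c * t) *
        ∏ y ∈ B, (if t = σ y then (1 : ℂ) else 0) := by
        rw [Finset.mul_sum]
        refine Finset.sum_congr rfl fun t _ => ?_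
        ring
    _ = (∏ y ∈ B, (v y : ℂ)) / (q : ℂ) ^ B.card *
        ((q : ℂ) * ∑ b ∈ lab B c, ZMod.stdAddChar (N := q) (dot b σ)) := by
        rw [h]
        field_simp
    _ = _ := by
        rw [Finset.mul_sum, Finset.mul_sum]
        refine Finset.sum_congr rfl fun b _ => ?_
        ring

/-- The one-spin identity. -/
theorem spin_identity (v : Site D → ℝ) (N : Finset (Site D)) (σ : Site D → ZMod q) (c : ZMod q)
    (hc : c ≠ 0) :
    ∑ t, ZMod.stdAddChar (N := q) (c * t) *
        (((∏ y ∈ N, (1 + if t = σ y then v y else 0) : ℝ)) : ℂ) =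
      ∑ B ∈ N.powerset.erase ∅, ((∏ y ∈ B, v y / q : ℝ) : ℂ) *
        ((∑ b ∈ lab B c, ZMod.stdAddChar (N := q) (dot b σ)) *
            ((∑ t : ZMod q, ∏ y ∈ N, (1 + if t = σ y then v y else 0) : ℝ) : ℂ) -
          (∑ b ∈ lab B (0 : ZMod q), ZMod.stdAddChar (N := q) (dot b σ)) *
            ∑ t, ZMod.stdAddChar (N := q) (c * t) *
              (((∏ y ∈ N, (1 + if t = σ y then v y else 0) : ℝ)) : ℂ)) := by
  have hq : (q : ℂ) ≠ 0 := by exact_mod_cast NeZero.ne q
  have h1 := sum_spin v N σ c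
  have h0 := sum_spin v N σ 0
  simp only [zero_mul, AddChar.map_zero_eq_one, one_mul] at h0
  rw [← Complex.ofReal_sum] at h0
  have hmem : ∅ ∈ N.powerset := by simp
  have e1 : lab (∅ : Finset (Site D)) c = ∅ := by
    refine Finset.eq_empty_of_forall_notMem fun b hb => ?_
    rw [mem_lab] at hb
    have hb1 : b = 0 := by
      rw [← Finsupp.support_eq_empty]
      exact Finset.subset_empty.mp hb.1
    rw [hb1] at hb
    exact hc (by simpa using hb.2.symm)
  have e0 : lab (∅ : Finset (Site D)) (0 : ZMod q) = {0} := by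
    ext b
    rw [mem_lab, Finset.mem_singleton]
    constructor
    · intro hb
      rw [← Finsupp.support_eq_empty]
      exact Finset.subset_empty.mp hb.1
    · rintro rfl
      simp
  rw [← Finset.add_sum_erase _ _ hmem] at h1 h0
  rw [e1] at h1
  rw [e0] at h0
  simp only [Finset.sum_empty, mul_zero, zero_add, Finset.prod_empty, Finset.sum_singleton] at h1 h0
  have hd : dot (0 : St D q) σ = 0 := by simp [dot]
  rw [hd, AddChar.map_zero_eq_one] at h0
  set Num := ∑ t, ZMod.stdAddChar (N := q) (c * t) *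
    (((∏ y ∈ N, (1 + if t = σ y then v y else 0) : ℝ)) : ℂ) with hNum
  set Den := ((∑ t : ZMod q, ∏ y ∈ N, (1 + if t = σ y then v y else 0) : ℝ) : ℂ) with hDen
  set X := ∑ B ∈ N.powerset.erase ∅, ((∏ y ∈ B, v y / q : ℝ) : ℂ) *
    ∑ b ∈ lab B c, ZMod.stdAddChar (N := q) (dot b σ) with hX
  set Y := ∑ B ∈ N.powerset.erase ∅, ((∏ y ∈ B, v y / q : ℝ) : ℂ) *
    ∑ b ∈ lab B (0 : ZMod q), ZMod.stdAddChar (N := q) (dot b σ) with hY
  have h2 : ∑ B ∈ N.powerset.erase ∅, ((∏ y ∈ B, v y / q : ℝ) : ℂ) *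
        ((∑ b ∈ lab B c, ZMod.stdAddChar (N := q) (dot b σ)) * Den -
          (∑ b ∈ lab B (0 : ZMod q), ZMod.stdAddChar (N := q) (dot b σ)) * Num) =
      X * Den - Y * Num := by
    rw [hX, hY, Finset.sum_mul, Finset.sum_mul, ← Finset.sum_sub_distrib]
    refine Finset.sum_congr rfl fun B _ => ?_
    ring
  rw [h2]
  have h3 : X * Den = Num * (Den / q) := by
    rw [h1]
    field_simp
  rw [h3, h0]
  field_simp
  push_cast
  ring

/-- The one-spin identity, real part. -/
theorem spin_identity_re (v : Site D → ℝ) (N : Finset (Site D)) (σ : Site D → ZMod q)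
    (c : ZMod q) (hc : c ≠ 0) (A : ZMod q) :
    ∑ t, cosq (A + c * t) * ∏ y ∈ N, (1 + if t = σ y then v y else 0) =
      ∑ B ∈ N.powerset.erase ∅, (∏ y ∈ B, v y / q) *
        ((∑ b ∈ lab B c, ∑ t : ZMod q, cosq (A + dot b σ) *
            ∏ y ∈ N, (1 + if t = σ y then v y else 0)) -
          ∑ b ∈ lab B (0 : ZMod q), ∑ t, cosq (A + dot b σ + c * t) *
            ∏ y ∈ N, (1 + if t = σ y then v y else 0)) := by
  set F : ZMod q → ℝ := fun t => ∏ y ∈ N, (1 + if t = σ y then v y else 0) with hF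
  have h := congrArg (fun z => (ZMod.stdAddChar (N := q) A * z).re) (spin_identity v N σ c hc)
  have e1 : (ZMod.stdAddChar (N := q) A * ∑ t, ZMod.stdAddChar (N := q) (c * t) *
      ((F t : ℝ) : ℂ)).re = ∑ t, cosq (A + c * t) * F t := by
    rw [Finset.mul_sum, Complex.re_sum]
    refine Finset.sum_congr rfl fun t _ => ?_
    rw [← mul_assoc, ← AddChar.map_add_eq_mul, Complex.re_mul_ofReal, cosq_eq_char]
  have e2 : ∀ B : Finset (Site D), (ZMod.stdAddChar (N := q) A *
      (((∏ y ∈ B, v y / q : ℝ) : ℂ) *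
        ((∑ b ∈ lab B c, ZMod.stdAddChar (N := q) (dot b σ)) * ((∑ t : ZMod q, F t : ℝ) : ℂ) -
          (∑ b ∈ lab B (0 : ZMod q), ZMod.stdAddChar (N := q) (dot b σ)) *
            ∑ t, ZMod.stdAddChar (N := q) (c * t) * ((F t : ℝ) : ℂ)))).re =
      (∏ y ∈ B, v y / q) *
        ((∑ b ∈ lab B c, ∑ t : ZMod q, cosq (A + dot b σ) * F t) -
          ∑ b ∈ lab B (0 : ZMod q), ∑ t, cosq (A + dot b σ + c * t) * F t) := by
    intro B
    have r1 : ZMod.stdAddChar (N := q) A *
      (((∏ y ∈ B, v y / q : ℝ) : ℂ) *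
        ((∑ b ∈ lab B c, ZMod.stdAddChar (N := q) (dot b σ)) * ((∑ t : ZMod q, F t : ℝ) : ℂ) -
          (∑ b ∈ lab B (0 : ZMod q), ZMod.stdAddChar (N := q) (dot b σ)) *
            ∑ t, ZMod.stdAddChar (N := q) (c * t) * ((F t : ℝ) : ℂ))) =
      ((∏ y ∈ B, v y / q : ℝ) : ℂ) *
        ((∑ b ∈ lab B c, ∑ t : ZMod q, ZMod.stdAddChar (N := q) (A + dot b σ) * ((F t : ℝ) : ℂ)) -
          ∑ b ∈ lab B (0 : ZMod q), ∑ t, ZMod.stdAddChar (N := q) (A + dot b σ + c * t) *
            ((F t : ℝ) : ℂ)) := by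
      simp only [AddChar.map_add_eq_mul]
      have s1 : ∑ b ∈ lab B c, ∑ t : ZMod q, ZMod.stdAddChar (N := q) A *
          ZMod.stdAddChar (N := q) (dot b σ) * ((F t : ℝ) : ℂ) =
          ZMod.stdAddChar (N := q) A * ((∑ b ∈ lab B c, ZMod.stdAddChar (N := q) (dot b σ)) *
            ((∑ t : ZMod q, F t : ℝ) : ℂ)) := by
        rw [Finset.sum_mul, Finset.mul_sum]
        refine Finset.sum_congr rfl fun b _ => ?_
        rw [← Finset.mul_sum]
        push_cast
        ring
      have s2 : ∑ b ∈ lab B (0 : ZMod q), ∑ t : ZMod q, ZMod.stdAddChar (N := q) A *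
          ZMod.stdAddChar (N := q) (dot b σ) * ZMod.stdAddChar (N := q) (c * t) *
            ((F t : ℝ) : ℂ) =
          ZMod.stdAddChar (N := q) A *
            ((∑ b ∈ lab B (0 : ZMod q), ZMod.stdAddChar (N := q) (dot b σ)) *
            ∑ t, ZMod.stdAddChar (N := q) (c * t) * ((F t : ℝ) : ℂ)) := by
        rw [Finset.sum_mul, Finset.mul_sum]
        refine Finset.sum_congr rfl fun b _ => ?_
        rw [Finset.mul_sum, Finset.mul_sum]
        refine Finset.sum_congr rfl fun t _ => ?_
        ring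
      rw [s1, s2]
      ring
    rw [r1, Complex.re_ofReal_mul, Complex.sub_re, Complex.re_sum, Complex.re_sum]
    congr 2
    · refine Finset.sum_congr rfl fun b _ => ?_
      rw [Complex.re_sum]
      refine Finset.sum_congr rfl fun t _ => ?_
      rw [Complex.re_mul_ofReal, cosq_eq_char]
    · refine Finset.sum_congr rfl fun b _ => ?_
      rw [Complex.re_sum]
      refine Finset.sum_congr rfl fun t _ => ?_
      rw [Complex.re_mul_ofReal, cosq_eq_char]
  rw [← e1]
  refine h.trans ?_
  rw [Finset.mul_sum, Complex.re_sum]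
  exact Finset.sum_congr rfl fun B _ => e2 B

/-! ### Finite volume -/

section

variable {Λ : Finset (Site D)}

theorem ext_update (s : Λ → ZMod q) (x : Site D) (hx : x ∈ Λ) (t : ZMod q) (y : Site D) :
    ext (Function.update s ⟨x, hx⟩ t) y = if y = x then t else ext s y := by
  unfold ext
  by_cases hy : y ∈ Λ
  · rw [dif_pos hy, dif_pos hy]
    by_cases h : y = x
    · subst h
      rw [if_pos rfl, Function.update_self]
    · rw [if_neg h, Function.update_of_ne]
      intro h'
      exact h (congrArg Subtype.val h')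
  · rw [dif_neg hy, dif_neg hy, if_neg]
    rintro rfl
    exact hy hx

/-- Summation over one spin. -/
theorem sum_update (x : Λ) (g : (Λ → ZMod q) → ℝ) :
    ∑ s : Λ → ZMod q, ∑ t, g (Function.update s x t) = q * ∑ s, g s := by
  have h1 : ∀ s : Λ → ZMod q, ∑ t, g (Function.update s x t) =
      ∑ k : ZMod q, g (Function.update s x (s x + k)) := by
    intro s
    exact (Equiv.sum_comp (Equiv.addLeft (s x)) fun t => g (Function.update s x t)).symm
  simp only [h1]
  rw [Finset.sum_comm]
  have h2 : ∀ k : ZMod q, ∑ s : Λ → ZMod q, g (Function.update s x (s x + k)) = ∑ s, g s := by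
    intro k
    refine Fintype.sum_bijective (fun s : Λ → ZMod q => Function.update s x (s x + k)) ?_ _ _
      fun _ => rfl
    refine Function.bijective_iff_has_inverse.mpr
      ⟨fun s => Function.update s x (s x - k), fun s => ?_, fun s => ?_⟩
    · simp
    · simp
  rw [Finset.sum_congr rfl fun k _ => h2 k, Finset.sum_const, Finset.card_univ, ZMod.card,
    nsmul_eq_mul]

/-- The energy away from `x`. -/
noncomputable def rest (J : ℝ) (Λ : Finset (Site D)) (x : Site D) (s : Λ → ZMod q) : ℝ :=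
  (1 / 2) * ∑ x' ∈ Λ.erase x, ∑ y ∈ Λ.erase x,
    if dist1 x' y = 1 ∧ ext s x' = ext s y then coup J x' y else 0

theorem energy_update (J : ℝ) (s : Λ → ZMod q) (x : Site D) (hx : x ∈ Λ) (hn : nb x ⊆ Λ)
    (t : ZMod q) : energy J Λ (Function.update s ⟨x, hx⟩ t) =
      rest J Λ x s + ∑ y ∈ nb x, if t = ext s y then coup J x y else 0 := by
  classical
  unfold energy rest
  simp only [ext_update]
  rw [← Finset.add_sum_erase _ _ hx]
  have h1 : ∑ y ∈ Λ, (if dist1 x y = 1 ∧ (if x = x then t else ext s x) =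
      (if y = x then t else ext s y) then coup J x y else 0) =
      ∑ y ∈ nb x, if t = ext s y then coup J x y else 0 := by
    have hsub : nb x = Λ.filter fun y => dist1 x y = 1 := by
      ext y
      rw [mem_nb, Finset.mem_filter, dist1_comm]
      refine ⟨fun h => ⟨hn ((mem_nb x y).mpr (by rwa [dist1_comm])), h⟩, fun h => h.2⟩
    rw [hsub, Finset.sum_filter]
    refine Finset.sum_congr rfl fun y _ => ?_
    by_cases h : dist1 x y = 1
    · have hyx : y ≠ x := by
        rintro rfl
        simp [dist1] at h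
      simp [h, hyx]
    · simp [h]
  have h2 : ∑ x' ∈ Λ.erase x, ∑ y ∈ Λ, (if dist1 x' y = 1 ∧ (if x' = x then t else ext s x') =
      (if y = x then t else ext s y) then coup J x' y else 0) =
      (∑ y ∈ nb x, if t = ext s y then coup J x y else 0) +
      ∑ x' ∈ Λ.erase x, ∑ y ∈ Λ.erase x,
        if dist1 x' y = 1 ∧ ext s x' = ext s y then coup J x' y else 0 := by
    have h3 : ∀ x' ∈ Λ.erase x, ∑ y ∈ Λ, (if dist1 x' y = 1 ∧ (if x' = x then t else ext s x') =
        (if y = x then t else ext s y) then coup J x' y else 0) =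
        (if dist1 x x' = 1 ∧ t = ext s x' then coup J x x' else 0) +
        ∑ y ∈ Λ.erase x, if dist1 x' y = 1 ∧ ext s x' = ext s y then coup J x' y else 0 := by
      intro x' hx'
      have hne : x' ≠ x := (Finset.mem_erase.mp hx').1
      rw [← Finset.add_sum_erase _ _ hx]
      congr 1
      · rw [if_neg hne, if_pos rfl, dist1_comm, coup_comm]
        simp only [eq_comm]
      · refine Finset.sum_congr rfl fun y hy => ?_
        rw [if_neg hne, if_neg (Finset.mem_erase.mp hy).1]
    rw [Finset.sum_congr rfl h3, Finset.sum_add_distrib]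
    congr 1
    have hsub : nb x = (Λ.erase x).filter fun y => dist1 x y = 1 := by
      ext y
      rw [mem_nb, Finset.mem_filter, dist1_comm, Finset.mem_erase]
      constructor
      · intro h
        refine ⟨⟨?_, hn ((mem_nb x y).mpr (by rwa [dist1_comm]))⟩, h⟩
        rintro rfl
        simp [dist1] at h
      · exact fun h => h.2
    rw [hsub, Finset.sum_filter]
    refine Finset.sum_congr rfl fun y _ => ?_
    by_cases h : dist1 x y = 1
    · simp [h]
    · simp [h]
  rw [h1, h2]
  ring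

theorem weight_update (β J : ℝ) (s : Λ → ZMod q) (x : Site D) (hx : x ∈ Λ) (hn : nb x ⊆ Λ)
    (t : ZMod q) : Real.exp (β * energy J Λ (Function.update s ⟨x, hx⟩ t)) =
      Real.exp (β * rest J Λ x s) *
        ∏ y ∈ nb x, (1 + if t = ext s y then vv β J x y else 0) := by
  rw [energy_update J s x hx hn t, mul_add, Real.exp_add, Finset.mul_sum, Real.exp_sum]
  congr 1
  refine Finset.prod_congr rfl fun y _ => ?_
  unfold vv
  split_ifs
  · ring
  · simp

/-- The numerator of the expectation. -/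
noncomputable def num (β J : ℝ) (Λ : Finset (Site D)) (a : St D q) : ℝ :=
  ∑ s : Λ → ZMod q, cosq (dot a (ext s)) * Real.exp (β * energy J Λ s)

theorem uL_eq (β J : ℝ) (a : St D q) :
    uL β J Λ a = num β J Λ a / ∑ s : Λ → ZMod q, Real.exp (β * energy J Λ s) := rfl

theorem num_update (β J : ℝ) (a : St D q) (x : Site D) (hx : x ∈ Λ) (hn : nb x ⊆ Λ) :
    q * num β J Λ a = ∑ s : Λ → ZMod q, Real.exp (β * rest J Λ x s) *
      ∑ t, cosq (dot (a - Finsupp.single x (a x)) (ext s) + a x * t) *
        ∏ y ∈ nb x, (1 + if t = ext s y then vv β J x y else 0) := by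
  unfold num
  rw [← sum_update ⟨x, hx⟩]
  refine Finset.sum_congr rfl fun s _ => ?_
  rw [Finset.mul_sum]
  refine Finset.sum_congr rfl fun t _ => ?_
  rw [weight_update β J s x hx hn t, dot_split a x, ext_update s x hx t x, if_pos rfl]
  have h : dot (a - Finsupp.single x (a x)) (ext (Function.update s ⟨x, hx⟩ t)) =
      dot (a - Finsupp.single x (a x)) (ext s) := by
    refine dot_congr fun y hy => ?_
    rw [ext_update, if_neg]
    rintro rfl
    rw [Finsupp.mem_support_iff] at hy
    exact hy (by simp)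
  rw [h]
  ring

theorem num_step (β J : ℝ) (a : St D q) (x : Site D)
    (hx : x ∈ a.support) (hxΛ : x ∈ Λ) (hn : nb x ⊆ Λ) :
    num β J Λ a = ∑ B ∈ (nb x).powerset.erase ∅, tB q β J x B *
      (∑ b ∈ lab B (a x), num β J Λ (a - Finsupp.single x (a x) + b) -
        ∑ b ∈ lab B (0 : ZMod q), num β J Λ (a + b)) := by
  have hq : (q : ℝ) ≠ 0 := by exact_mod_cast NeZero.ne q
  have hc : a x ≠ 0 := Finsupp.mem_support_iff.mp hx
  refine mul_left_cancel₀ hq ?_
  -- values of the labellings at `x`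
  have hb0 : ∀ B ∈ (nb x).powerset.erase ∅, ∀ c : ZMod q, ∀ b ∈ lab B c, b x = 0 := by
    intro B hB c b hb
    rw [Finset.mem_erase, Finset.mem_powerset] at hB
    by_contra h
    exact not_mem_nb_self x (hB.2 (((mem_lab B c b).mp hb).1 (Finsupp.mem_support_iff.mpr h)))
  have h1 : ∀ B ∈ (nb x).powerset.erase ∅, ∀ b ∈ lab B (a x),
      q * num β J Λ (a - Finsupp.single x (a x) + b) =
      ∑ s : Λ → ZMod q, Real.exp (β * rest J Λ x s) *
        ∑ t : ZMod q, cosq (dot (a - Finsupp.single x (a x)) (ext s) + dot b (ext s)) *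
          ∏ y ∈ nb x, (1 + if t = ext s y then vv β J x y else 0) := by
    intro B hB b hb
    rw [num_update β J _ x hxΛ hn]
    have hv : (a - Finsupp.single x (a x) + b) x = 0 := by
      rw [Finsupp.add_apply, Finsupp.sub_apply, Finsupp.single_eq_same, sub_self, zero_add,
        hb0 B hB _ b hb]
    rw [hv]
    simp only [Finsupp.single_zero, sub_zero, zero_mul, add_zero, dot_add]
  have h2 : ∀ B ∈ (nb x).powerset.erase ∅, ∀ b ∈ lab B (0 : ZMod q),
      q * num β J Λ (a + b) =
      ∑ s : Λ → ZMod q, Real.exp (β * rest J Λ x s) *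
        ∑ t, cosq (dot (a - Finsupp.single x (a x)) (ext s) + dot b (ext s) + a x * t) *
          ∏ y ∈ nb x, (1 + if t = ext s y then vv β J x y else 0) := by
    intro B hB b hb
    rw [num_update β J _ x hxΛ hn]
    have hv : (a + b) x = a x := by
      rw [Finsupp.add_apply, hb0 B hB _ b hb, add_zero]
    rw [hv, add_sub_right_comm]
    simp only [dot_add]
  have h3 : (q : ℝ) * ∑ B ∈ (nb x).powerset.erase ∅, tB q β J x B *
      (∑ b ∈ lab B (a x), num β J Λ (a - Finsupp.single x (a x) + b) -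
        ∑ b ∈ lab B (0 : ZMod q), num β J Λ (a + b)) =
      ∑ B ∈ (nb x).powerset.erase ∅, tB q β J x B *
      (∑ b ∈ lab B (a x), q * num β J Λ (a - Finsupp.single x (a x) + b) -
        ∑ b ∈ lab B (0 : ZMod q), q * num β J Λ (a + b)) := by
    rw [Finset.mul_sum]
    refine Finset.sum_congr rfl fun B _ => ?_
    rw [← Finset.mul_sum, ← Finset.mul_sum]
    ring
  rw [h3, num_update β J a x hxΛ hn]
  have h4 : ∀ B ∈ (nb x).powerset.erase ∅, tB q β J x B *
      (∑ b ∈ lab B (a x), q * num β J Λ (a - Finsupp.single x (a x) + b) -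
        ∑ b ∈ lab B (0 : ZMod q), q * num β J Λ (a + b)) =
      ∑ s : Λ → ZMod q, Real.exp (β * rest J Λ x s) * (tB q β J x B *
        ((∑ b ∈ lab B (a x), ∑ t : ZMod q,
          cosq (dot (a - Finsupp.single x (a x)) (ext s) + dot b (ext s)) *
          ∏ y ∈ nb x, (1 + if t = ext s y then vv β J x y else 0)) -
        ∑ b ∈ lab B (0 : ZMod q),
          ∑ t, cosq (dot (a - Finsupp.single x (a x)) (ext s) + dot b (ext s) + a x * t) *
          ∏ y ∈ nb x, (1 + if t = ext s y then vv β J x y else 0))) := by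
    intro B hB
    rw [Finset.sum_congr rfl (h1 B hB), Finset.sum_congr rfl (h2 B hB), Finset.sum_comm,
      Finset.sum_comm (s := lab B (0 : ZMod q)), ← Finset.sum_sub_distrib, Finset.mul_sum]
    refine Finset.sum_congr rfl fun s _ => ?_
    rw [← Finset.mul_sum, ← Finset.mul_sum]
    ring
  rw [Finset.sum_congr rfl h4, Finset.sum_comm]
  refine Finset.sum_congr rfl fun s _ => ?_
  rw [← Finset.mul_sum]
  congr 1
  exact spin_identity_re (vv β J x) (nb x) (ext s) (a x) hc _

end

/-- **The one-site identity** in finite volume. -/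
theorem uL_step (hq : 2 ≤ q) (β J : ℝ) (Λ : Finset (Site D)) (a : St D q) (x : Site D)
    (hx : x ∈ a.support) (hxΛ : x ∈ Λ) (hn : nb x ⊆ Λ) :
    uL β J Λ a = ∑ B ∈ (nb x).powerset.erase ∅, tB q β J x B *
      (∑ b ∈ lab B (a x), uL β J Λ (a - Finsupp.single x (a x) + b) -
        ∑ b ∈ lab B (0 : ZMod q), uL β J Λ (a + b)) := by
  simp only [uL_eq]
  rw [num_step β J a x hx hxΛ hn, Finset.sum_div]
  refine Finset.sum_congr rfl fun B _ => ?_
  rw [mul_div_assoc, sub_div, Finset.sum_div, Finset.sum_div]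

end Pool.Agent.SB
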