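import Pool.Agent.SB.Defs2
import Pool.Agent.SB.Nrm
import Pool.Agent.SB.Inv
import Pool.Agent.SB.Sym
import Pool.Agent.SB.Vol
import Pool.Agent.SB.KS
import Pool.Agent.SB.Coe
import Pool.Agent.SB.Eqn

/-!
# The Laplace transformed equation
-/

set_option autoImplicit false
set_option linter.unusedSectionVars false

namespace Pool.Agent.SB

open Finset Filter Topology

namespace Leq

variable {D q : ℕ} [NeZero q]

lemma zpow_le_rr {ρ z : ℝ} (hρ : 0 < ρ) (hρ1 : ρ ≤ 1) (h1 : 1 ≤ z) (hz : z * ρ ^ 2 ≤ 1)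
    (n : ℤ) (N : ℕ) (hn : 2 * n ≤ N) : z ^ n ≤ (ρ⁻¹) ^ N := by
  have hinv : 1 ≤ ρ⁻¹ := (one_le_inv₀ hρ).2 hρ1
  rcases le_or_gt 0 n with h | h
  · obtain ⟨k, rfl⟩ := Int.eq_ofNat_of_zero_le h
    have hk : 2 * k ≤ N := by exact_mod_cast hn
    rw [zpow_natCast]
    have h2 : z ≤ (ρ⁻¹) ^ 2 := by
      rw [inv_pow, le_inv_comm₀ (by linarith) (by positivity)]
      rw [le_inv_comm₀ (by positivity) (by linarith)]
      rw [← one_div, le_div_iff₀ (by positivity)]
      exact hz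
    calc z ^ k ≤ ((ρ⁻¹) ^ 2) ^ k := pow_le_pow_left₀ (by linarith) h2 k
      _ = (ρ⁻¹) ^ (2 * k) := by rw [pow_mul]
      _ ≤ (ρ⁻¹) ^ N := pow_le_pow_right₀ hinv hk
  · calc z ^ n ≤ 1 := zpow_le_one_of_nonpos₀ h1 h.le
      _ ≤ (ρ⁻¹) ^ N := one_le_pow₀ hinv

/-- The conditions on the parameters. -/
structure Par (D q : ℕ) (β J z : ℝ) : Prop where
  hq : 2 ≤ q
  hβ : 0 < β
  hβ1 : β ≤ 1 / 4
  hρ1 : rr D β ≤ 1
  hJ : 0 ≤ J
  hJ2 : J ≤ 2
  h1 : 1 ≤ z
  hz : z * rr D β ^ 2 ≤ 1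

variable {β J z : ℝ}

lemma Par.one (h : Par D q β J z) : Par D q β 1 z :=
  ⟨h.hq, h.hβ, h.hβ1, h.hρ1, zero_le_one, one_le_two, h.h1, h.hz⟩

lemma Par.z0 (h : Par D q β J z) : 0 < z := lt_of_lt_of_le one_pos h.h1

lemma Par.summable_SS (h : Par D q β J z) (x : Gam D) :
    Summable fun p : Site D × ℕ => z ^ p.1.1 * |SS D q β J (0, x) p.1 p.2| := by
  have hz := h.z0
  refine Summable.of_nonneg_of_le (fun p => by positivity) (fun p => ?_)
    (SS_summable h.hq β J h.hβ h.hβ1 h.hJ h.hJ2 (0, x)).1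
  by_cases hS : SS D q β J (0, x) p.1 p.2 = 0
  · simp [hS]
  · have h2 := (SS_inv β J (0, x) p.1 p.2 hS).2.1
    simp only [sub_zero] at h2
    rw [mul_comm]
    exact mul_le_mul_of_nonneg_left (zpow_le_rr (rr_pos β h.hβ) h.hρ1 h.h1 h.hz _ _ h2)
      (abs_nonneg _)

/-- Regrouping of the sites. -/
def eqv (D : ℕ) : Gam D × (ℤ × ℕ) ≃ Site D × ℕ where
  toFun t := ((t.2.1, t.1), t.2.2)
  invFun p := (p.1.2, (p.1.1, p.2))
  left_inv _ := rfl
  right_inv _ := rfl

lemma Par.summable_H (h : Par D q β J z) (x : Gam D) :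
    Summable fun t : Gam D × (ℤ × ℕ) => |z ^ t.2.1 * SS D q β J (0, x) (t.2.1, t.1) t.2.2| := by
  have hz := h.z0
  have h1 := (eqv D).summable_iff.2 (h.summable_SS x)
  refine h1.congr fun t => ?_
  rw [abs_mul, abs_of_pos (zpow_pos hz _)]
  rfl

lemma Par.summable_Sz (h : Par D q β J z) (x : Gam D) :
    Summable fun y : Gam D => |Sz D q β J z x y| := by
  have h1 := (h.summable_H x).prod
  refine Summable.of_nonneg_of_le (fun y => abs_nonneg _) (fun y => ?_) h1
  rw [Sz]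
  exact norm_tsum_le_tsum_norm (f := fun p : ℤ × ℕ => z ^ p.1 * SS D q β J (0, x) (p.1, y) p.2)
    ((h.summable_H x).prod_factor y)

lemma Par.tsum_SS (h : Par D q β J z) (x : Gam D) (g : Gam D → ℝ) (C : ℝ) (hg : ∀ y, |g y| ≤ C) :
    ∑' p : Site D × ℕ, z ^ p.1.1 * SS D q β J (0, x) p.1 p.2 * g p.1.2 =
      ∑' y, Sz D q β J z x y * g y := by
  rw [← (eqv D).tsum_eq]
  have hs : Summable fun t : Gam D × (ℤ × ℕ) =>
      z ^ t.2.1 * SS D q β J (0, x) (t.2.1, t.1) t.2.2 * g t.1 := by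
    refine Summable.of_norm_bounded ((h.summable_H x).mul_right C) fun t => ?_
    rw [Real.norm_eq_abs, abs_mul]
    exact mul_le_mul_of_nonneg_left (hg _) (abs_nonneg _)
  have e : ∑' t : Gam D × (ℤ × ℕ), z ^ ((eqv D) t).1.1 *
      SS D q β J (0, x) ((eqv D) t).1 ((eqv D) t).2 * g ((eqv D) t).1.2 =
      ∑' t : Gam D × (ℤ × ℕ), z ^ t.2.1 * SS D q β J (0, x) (t.2.1, t.1) t.2.2 * g t.1 := rfl
  rw [e, hs.tsum_prod]
  refine tsum_congr fun y => ?_
  rw [Sz, ← tsum_mul_right]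

/-- The transform of `G`. -/
noncomputable def gz (D q : ℕ) [NeZero q] (β J z : ℝ) (y : Gam D) : ℝ :=
  ∑' n : ℤ, z ^ n * G D q β J (0, y) (n, 0)

lemma Par.G_shift0 (h : Par D q β J z) (y : Site D) (n : ℤ) :
    G D q β J y (n, 0) = G D q β J (0, y.2) (n - y.1, 0) := by
  have := G_shift h.hq β J h.hβ.le h.hJ (0, y.2) (n - y.1, 0) y.1
  simpa using this

lemma Par.G_nonneg' (h : Par D q β J z) (x y : Site D) : 0 ≤ G D q β J x y :=
  G_nonneg h.hq β J h.hβ.le h.hJ x y

section main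

variable (h : Par D q β J z)
  (hS : Summable (fun p : Gam D × ℤ => z ^ p.2 * G D q β J (0, p.1) (p.2, 0)))

include h hS

lemma gz_nonneg (y : Gam D) : 0 ≤ gz D q β J z y :=
  tsum_nonneg fun n => mul_nonneg (zpow_pos h.z0 n).le (h.G_nonneg' _ _)

lemma summable_row (y : Gam D) : Summable fun n : ℤ => z ^ n * G D q β J (0, y) (n, 0) :=
  hS.prod_factor y

lemma summable_gz : Summable (gz D q β J z) := hS.prod

lemma gz_le (y : Gam D) : |gz D q β J z y| ≤ ∑' y, gz D q β J z y := by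
  rw [abs_of_nonneg (gz_nonneg h hS y)]
  exact (summable_gz h hS).le_tsum y fun j _ => gz_nonneg h hS j

lemma shift_row (y : Site D) (n : ℤ) : z ^ n * G D q β J y (n, 0) =
    z ^ y.1 * (z ^ (n - y.1) * G D q β J (0, y.2) (n - y.1, 0)) := by
  rw [h.G_shift0 y n, ← mul_assoc, ← zpow_add₀ h.z0.ne']
  congr 2
  ring

lemma summable_shift (y : Site D) : Summable fun n : ℤ => z ^ n * G D q β J y (n, 0) := by
  have h1 : Summable fun n : ℤ => z ^ (n - y.1) * G D q β J (0, y.2) (n - y.1, 0) :=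
    ((Equiv.subRight y.1).summable_iff (f := fun n : ℤ => z ^ n * G D q β J (0, y.2) (n, 0))).2
      (summable_row h hS y.2)
  exact (h1.mul_left (z ^ y.1)).congr fun n => (shift_row h hS y n).symm

lemma tsum_shift (y : Site D) : ∑' n : ℤ, z ^ n * G D q β J y (n, 0) =
    z ^ y.1 * gz D q β J z y.2 := by
  have h1 : ∑' n : ℤ, z ^ (n - y.1) * G D q β J (0, y.2) (n - y.1, 0) = gz D q β J z y.2 :=
    (Equiv.subRight y.1).tsum_eq fun n : ℤ => z ^ n * G D q β J (0, y.2) (n, 0)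
  rw [← h1, ← tsum_mul_left]
  exact tsum_congr fun n => shift_row h hS y n

lemma excursion (x : Gam D) :
    Summable (fun n : ℤ => z ^ n * ∑' p : Site D × ℕ,
      SS D q β J (0, x) p.1 p.2 * G D q β J p.1 (n, 0)) ∧
    ∑' n : ℤ, z ^ n * ∑' p : Site D × ℕ, SS D q β J (0, x) p.1 p.2 * G D q β J p.1 (n, 0) =
      ∑' y, Sz D q β J z x y * gz D q β J z y := by
  have hz := h.z0
  set A : (Site D × ℕ) × ℤ → ℝ := fun t =>
    z ^ t.2 * (SS D q β J (0, x) t.1.1 t.1.2 * G D q β J t.1.1 (t.2, 0)) with hA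
  have hAn : ∀ t, |A t| = |SS D q β J (0, x) t.1.1 t.1.2| * (z ^ t.2 * G D q β J t.1.1 (t.2, 0)) := by
    intro t
    rw [hA]
    simp only
    rw [abs_mul, abs_mul, abs_of_pos (zpow_pos hz _), abs_of_nonneg (h.G_nonneg' _ _)]
    ring
  have hs : Summable fun t => |A t| := by
    rw [summable_prod_of_nonneg fun t => abs_nonneg _]
    constructor
    · intro p
      simp only [hAn]
      exact (summable_shift h hS p.1).mul_left _
    · have e : (fun p : Site D × ℕ => ∑' n : ℤ, |A (p, n)|) = fun p =>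
          z ^ p.1.1 * |SS D q β J (0, x) p.1 p.2| * gz D q β J z p.1.2 := by
        funext p
        simp only [hAn]
        rw [tsum_mul_left, tsum_shift h hS p.1]
        ring
      rw [e]
      refine Summable.of_norm_bounded ((h.summable_SS x).mul_right (∑' y, gz D q β J z y))
        fun p => ?_
      rw [Real.norm_eq_abs, abs_mul, abs_of_nonneg (by positivity :
        0 ≤ z ^ p.1.1 * |SS D q β J (0, x) p.1 p.2|)]
      exact mul_le_mul_of_nonneg_left (gz_le h hS _) (by positivity)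
  have hsA : Summable A := hs.of_abs
  have hsw : Summable fun t : ℤ × (Site D × ℕ) => A (t.2, t.1) :=
    ((Equiv.prodComm ℤ (Site D × ℕ)).summable_iff (f := A)).2 hsA
  have e1 : ∀ n : ℤ, z ^ n * ∑' p : Site D × ℕ,
      SS D q β J (0, x) p.1 p.2 * G D q β J p.1 (n, 0) = ∑' p : Site D × ℕ, A (p, n) := by
    intro n
    rw [← tsum_mul_left]
  simp only [e1]
  refine ⟨hsw.prod, ?_⟩
  rw [← hsw.tsum_prod]
  have e2 : ∑' t : ℤ × (Site D × ℕ), A (t.2, t.1) = ∑' t, A t :=
    (Equiv.prodComm ℤ (Site D × ℕ)).tsum_eq A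
  rw [e2, hsA.tsum_prod, ← h.tsum_SS x _ _ (gz_le h hS)]
  refine tsum_congr fun p => ?_
  have e3 : ∀ n : ℤ, A (p, n) =
      SS D q β J (0, x) p.1 p.2 * (z ^ n * G D q β J p.1 (n, 0)) := by
    intro n
    rw [hA]
    simp only
    ring
  simp only [e3]
  rw [tsum_mul_left, tsum_shift h hS p.1]
  ring

end main

/-- The nearest neighbours, transversally. -/
lemma sum_nb_split (x : Gam D) (F : Site D → ℝ) :
    ∑ y ∈ nb ((0, x) : Site D), F y = F (1, x) + F (-1, x) +
      ∑ i, (F (0, x + Pi.single i 1) + F (0, x - Pi.single i 1)) := by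
  rw [sum_nb, Fintype.sum_prod_type, Fintype.sum_option]
  simp only [Fintype.sum_bool, dir]
  congr 1
  · congr 1 <;> congr 1 <;> ext <;> simp
  · refine Finset.sum_congr rfl fun i _ => ?_
    congr 2
    · refine Prod.ext (by simp) (funext fun j => ?_)
      simp only [Prod.mk_add_mk, Pi.add_apply, Pi.sub_apply, Pi.single_apply]
      split_ifs <;> ring

lemma ne_add_single (x : Gam D) (i : Fin D) : x + Pi.single i 1 ≠ x := by
  intro h
  have := congrFun h i
  simp at this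

lemma ne_sub_single (x : Gam D) (i : Fin D) : x - Pi.single i 1 ≠ x := by
  intro h
  have := congrFun h i
  simp at this

/-- The one-step kernel, summed. -/
lemma tsum_dz (β J z : ℝ) (x : Gam D) (g : Gam D → ℝ) :
    Summable (fun y => dz D q β J z x y * g y) ∧
    ∑' y, dz D q β J z x y * g y = (∑ y ∈ nb ((0, x) : Site D),
      cc q β J (0, x) y * (z ^ y.1 * g y.2)) - kap q β J (0, x) * g x := by
  classical
  set T : Finset (Gam D) := (nb ((0, x) : Site D)).image fun y => y.2 with hT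
  have hx : x ∈ T := by
    rw [hT, Finset.mem_image]
    exact ⟨(1, x), by rw [mem_nb]; simp [dist1], rfl⟩
  have hsupp : ∀ y, y ∉ T → dz D q β J z x y * g y = 0 := by
    intro y hy
    have hyx : y ≠ x := by
      rintro rfl
      exact hy hx
    rw [dz, if_neg hyx, if_neg, zero_mul]
    intro h
    exact hy (Finset.mem_image.2 ⟨(0, y), h, rfl⟩)
  refine ⟨summable_of_ne_finset_zero hsupp, ?_⟩
  rw [tsum_eq_sum hsupp, ← Finset.add_sum_erase _ _ hx]
  -- the part off the diagonal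
  have hoff : ∑ y ∈ T.erase x, dz D q β J z x y * g y =
      ∑ y ∈ nb ((0, x) : Site D), if y.2 = x then 0 else cc q β J (0, x) y * (z ^ y.1 * g y.2) := by
    symm
    rw [← Finset.sum_filter_add_sum_filter_not (nb ((0, x) : Site D)) (fun y => y.2 = x)]
    rw [Finset.sum_eq_zero (s := (nb ((0, x) : Site D)).filter fun y => y.2 = x)
      (fun y hy => if_pos (Finset.mem_filter.1 hy).2), zero_add]
    refine Finset.sum_bij (fun y _ => y.2) ?_ ?_ ?_ ?_
    · intro y hy
      rw [Finset.mem_filter] at hy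
      exact Finset.mem_erase.2 ⟨hy.2, Finset.mem_image.2 ⟨y, hy.1, rfl⟩⟩
    · intro y hy y' hy' hyy
      rw [Finset.mem_filter] at hy hy'
      have key : ∀ y : Site D, y ∈ nb ((0, x) : Site D) → y.2 ≠ x → y.1 = 0 := by
        intro y hy hne
        rw [mem_nb, dist1] at hy
        by_contra h0
        have h1 : 1 ≤ (y.1 - 0).natAbs := by
          simp only [sub_zero]
          exact Nat.one_le_iff_ne_zero.2 (Int.natAbs_ne_zero.2 h0)
        have h2 : ∑ i, (y.2 i - x i).natAbs = 0 := by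
          simp only at hy
          omega
        apply hne
        funext i
        have h3 := (Finset.sum_eq_zero_iff.1 h2) i (Finset.mem_univ _)
        have := Int.natAbs_eq_zero.1 h3
        omega
      exact Prod.ext ((key y hy.1 hy.2).trans (key y' hy'.1 hy'.2).symm) hyy
    · intro w hw
      rw [Finset.mem_erase, hT, Finset.mem_image] at hw
      obtain ⟨y, hy, rfl⟩ := hw.2
      exact ⟨y, Finset.mem_filter.2 ⟨hy, hw.1⟩, rfl⟩
    · intro y hy
      rw [Finset.mem_filter] at hy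
      have h0 : y.1 = 0 := by
        have hy1 := hy.1
        rw [mem_nb, dist1] at hy1
        by_contra h0
        have h1 : 1 ≤ (y.1 - 0).natAbs := by
          simp only [sub_zero]
          exact Nat.one_le_iff_ne_zero.2 (Int.natAbs_ne_zero.2 h0)
        have h2 : ∑ i, (y.2 i - x i).natAbs = 0 := by
          simp only at hy1
          omega
        apply hy.2
        funext i
        have h3 := (Finset.sum_eq_zero_iff.1 h2) i (Finset.mem_univ _)
        have := Int.natAbs_eq_zero.1 h3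
        omega
      have e : y = ((0, y.2) : Site D) := Prod.ext h0 rfl
      rw [if_neg hy.2, dz, if_neg hy.2, if_pos (e ▸ hy.1), ← e, h0, zpow_zero, one_mul]
  rw [hoff]
  have hdiag : dz D q β J z x x * g x = z * cc q β J (0, x) (1, x) * g x +
      z⁻¹ * cc q β J (0, x) (-1, x) * g x - kap q β J (0, x) * g x := by
    rw [dz, if_pos rfl]
    ring
  rw [hdiag, sum_nb_split, sum_nb_split]
  simp only [if_true, if_neg (ne_add_single x _), if_neg (ne_sub_single x _), zpow_one, zpow_neg,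
    zpow_zero]
  ring

lemma Par.summable_Ez (h : Par D q β J z) (x : Gam D) (g : Gam D → ℝ) (C : ℝ)
    (hg : ∀ y, |g y| ≤ C) : Summable (fun y => Ez D q β J z x y * g y) ∧
    ∑' y, Ez D q β J z x y * g y = ∑' y, dz D q β J z x y * g y +
      ∑' y, Sz D q β J z x y * g y := by
  have h1 := (tsum_dz (q := q) β J z x g).1
  have h2 : Summable fun y => Sz D q β J z x y * g y := by
    refine Summable.of_norm_bounded ((h.summable_Sz x).mul_right C) fun y => ?_
    rw [Real.norm_eq_abs, abs_mul]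
    exact mul_le_mul_of_nonneg_left (hg _) (abs_nonneg _)
  have e : (fun y => Ez D q β J z x y * g y) = fun y =>
      dz D q β J z x y * g y + Sz D q β J z x y * g y := by
    funext y
    rw [Ez, add_mul]
  rw [e]
  exact ⟨h1.add h2, h1.tsum_add h2⟩

lemma Sz_one_shift (β z : ℝ) (x u : Gam D) : Sz D q β 1 z x (x + u) = Sz D q β 1 z 0 u := by
  rw [Sz, Sz]
  refine tsum_congr fun p => ?_
  have := SS_shift_one (q := q) β ((0, 0) : Site D) (p.1, u) p.2 x
  simp only [zero_add] at this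
  rw [add_comm x u, this]

/-- The homogeneous operator. -/
lemma Hz_eq (h : Par D q β J z) (x : Gam D) (g : Gam D → ℝ) (C : ℝ) (hg : ∀ y, |g y| ≤ C) :
    Hz D q β z g x = g x - ∑' y, Ez D q β 1 z x y * g y := by
  rw [(h.one.summable_Ez x g C hg).2, (tsum_dz (q := q) β 1 z x g).2, Hz]
  have e1 : ∑' y, Sz D q β 1 z x y * g y = ∑' u, Sz D q β 1 z 0 u * g (x + u) := by
    rw [← (Equiv.addLeft x).tsum_eq]
    refine tsum_congr fun u => ?_
    rw [Equiv.coe_addLeft, Sz_one_shift]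
  have e2 : ∑ y ∈ nb ((0, x) : Site D), cc q β 1 (0, x) y * (z ^ y.1 * g y.2) =
      ∑ y ∈ nb ((0, x) : Site D), c0 D q β * (z ^ y.1 * g y.2) :=
    Finset.sum_congr rfl fun y hy => by rw [cc_hom D q β _ _ hy]
  rw [e1, e2, sum_nb_split, kap_hom, Finset.mul_sum]
  simp only [zpow_one, zpow_neg, zpow_zero, one_mul, mul_add]
  ring

lemma laplace_core (h : Par D q β J z)
    (hS : Summable (fun p : Gam D × ℤ => z ^ p.2 * G D q β J (0, p.1) (p.2, 0)))
    (τ : Site D → ℝ) (σ : Site D → Site D → ℕ → ℝ)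
    (hσ : ∀ x y N, σ x y N ≠ 0 → 2 ≤ N ∧ 2 * (y.1 - x.1) ≤ N ∧ dist1 y x ≤ N)
    (hσs : ∀ (x : Site D) (w : Fin D → ℤ),
        Summable (fun p : ℤ × ℕ => |σ x (p.1, w) p.2| * ((rr D β)⁻¹) ^ p.2) ∧
        ∑' p : ℤ × ℕ, |σ x (p.1, w) p.2| * ((rr D β)⁻¹) ^ p.2 ≤ 2)
    (hG : ∀ x y, G D q β J x y = ∑ y' ∈ nb x, cc q β J x y' * G D q β J y' y -
        kap q β J x * G D q β J x y +
        ∑' p : Site D × ℕ, SS D q β J x p.1 p.2 * G D q β J p.1 y +
        (if x = y then 1 - τ x else 0) + ∑' N, σ x y N) (x : Gam D) :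
    gz D q β J z x = ∑' y, Ez D q β J z x y * gz D q β J z y + src τ σ z x := by
  have hz := h.z0
  rw [(h.summable_Ez x _ _ (gz_le h hS)).2, (tsum_dz (q := q) β J z x _).2]
  -- the five parts
  have s1 : Summable fun n : ℤ => ∑ y ∈ nb ((0, x) : Site D),
      cc q β J (0, x) y * (z ^ n * G D q β J y (n, 0)) :=
    summable_sum fun y _ => (summable_shift h hS y).mul_left _
  have t1 : ∑' n : ℤ, ∑ y ∈ nb ((0, x) : Site D),
      cc q β J (0, x) y * (z ^ n * G D q β J y (n, 0)) =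
      ∑ y ∈ nb ((0, x) : Site D), cc q β J (0, x) y * (z ^ y.1 * gz D q β J z y.2) := by
    rw [Summable.tsum_finsetSum fun y _ => (summable_shift h hS y).mul_left _]
    exact Finset.sum_congr rfl fun y _ => by rw [tsum_mul_left, tsum_shift h hS y]
  have s2 : Summable fun n : ℤ => kap q β J (0, x) * (z ^ n * G D q β J (0, x) (n, 0)) :=
    (summable_row h hS x).mul_left _
  have t2 : ∑' n : ℤ, kap q β J (0, x) * (z ^ n * G D q β J (0, x) (n, 0)) =
      kap q β J (0, x) * gz D q β J z x := tsum_mul_left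
  obtain ⟨s3, t3⟩ := excursion h hS x
  have s4 : Summable fun n : ℤ => z ^ n * (if ((0, x) : Site D) = (n, 0) then 1 - τ (0, x) else 0) := by
    refine summable_of_ne_finset_zero (s := {0}) fun n hn => ?_
    rw [if_neg, mul_zero]
    intro h0
    exact hn (Finset.mem_singleton.2 (Prod.ext_iff.1 h0).1.symm)
  have t4 : ∑' n : ℤ, z ^ n * (if ((0, x) : Site D) = (n, 0) then 1 - τ (0, x) else 0) =
      if x = 0 then 1 - τ (0, 0) else 0 := by
    rw [tsum_eq_single 0]
    · rw [zpow_zero, one_mul]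
      by_cases hx : x = 0
      · subst hx
        rw [if_pos rfl, if_pos rfl]
      · rw [if_neg hx, if_neg]
        intro h0
        exact hx (Prod.ext_iff.1 h0).2
    · intro n hn
      rw [if_neg, mul_zero]
      intro h0
      exact hn (Prod.ext_iff.1 h0).1.symm
  have s5 : Summable fun p : ℤ × ℕ => z ^ p.1 * σ (0, x) (p.1, 0) p.2 := by
    refine Summable.of_norm_bounded (hσs (0, x) 0).1 fun p => ?_
    rw [Real.norm_eq_abs, abs_mul, abs_of_pos (zpow_pos hz _)]
    by_cases h0 : σ (0, x) (p.1, 0) p.2 = 0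
    · simp [h0]
    · have h2 := (hσ _ _ _ h0).2.1
      simp only [sub_zero] at h2
      rw [mul_comm]
      exact mul_le_mul_of_nonneg_left (zpow_le_rr (rr_pos β h.hβ) h.hρ1 h.h1 h.hz _ _ h2)
        (abs_nonneg _)
  have t5 : ∑' p : ℤ × ℕ, z ^ p.1 * σ (0, x) (p.1, 0) p.2 =
      ∑' n : ℤ, z ^ n * ∑' N, σ (0, x) (n, 0) N := by
    rw [s5.tsum_prod]
    exact tsum_congr fun n => by rw [← tsum_mul_left]
  have s6 : Summable fun n : ℤ => z ^ n * ∑' N, σ (0, x) (n, 0) N := by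
    refine s5.prod.congr fun n => ?_
    rw [← tsum_mul_left]
  rw [src, t5, ← t1, ← t2, ← t3, ← t4, gz]
  rw [← s1.tsum_sub s2, ← (s1.sub s2).tsum_add s3, ← s4.tsum_add s6,
    ← ((s1.sub s2).add s3).tsum_add (s4.add s6)]
  refine tsum_congr fun n => ?_
  have e0 := hG (0, x) (n, 0)
  have e1 : ∑ y ∈ nb ((0, x) : Site D), cc q β J (0, x) y * (z ^ n * G D q β J y (n, 0)) =
      z ^ n * ∑ y ∈ nb ((0, x) : Site D), cc q β J (0, x) y * G D q β J y (n, 0) := by
    rw [Finset.mul_sum]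
    exact Finset.sum_congr rfl fun y _ => by ring
  rw [e1]
  generalize ∑ y ∈ nb ((0, x) : Site D), cc q β J (0, x) y * G D q β J y (n, 0) = a1 at e0 ⊢
  generalize ∑' p : Site D × ℕ, SS D q β J (0, x) p.1 p.2 * G D q β J p.1 (n, 0) = a2 at e0 ⊢
  generalize ∑' N, σ (0, x) (n, 0) N = a3 at e0 ⊢
  generalize (if ((0, x) : Site D) = (n, 0) then 1 - τ (0, x) else 0) = a4 at e0 ⊢
  generalize kap q β J (0, x) = a5 at e0 ⊢
  have e3 : z ^ n * G D q β J (0, x) (n, 0) = z ^ n * (a1 - a5 * G D q β J (0, x) (n, 0) + a2 +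
    a4 + a3) := congrArg (fun t => z ^ n * t) e0
  linarith

lemma laplace_final (h : Par D q β J z)
    (hS : Summable (fun p : Gam D × ℤ => z ^ p.2 * G D q β J (0, p.1) (p.2, 0)))
    (τ : Site D → ℝ) (σ : Site D → Site D → ℕ → ℝ)
    (hσ : ∀ x y N, σ x y N ≠ 0 → 2 ≤ N ∧ 2 * (y.1 - x.1) ≤ N ∧ dist1 y x ≤ N)
    (hσs : ∀ (x : Site D) (w : Fin D → ℤ),
        Summable (fun p : ℤ × ℕ => |σ x (p.1, w) p.2| * ((rr D β)⁻¹) ^ p.2) ∧
        ∑' p : ℤ × ℕ, |σ x (p.1, w) p.2| * ((rr D β)⁻¹) ^ p.2 ≤ 2)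
    (hG : ∀ x y, G D q β J x y = ∑ y' ∈ nb x, cc q β J x y' * G D q β J y' y -
        kap q β J x * G D q β J x y +
        ∑' p : Site D × ℕ, SS D q β J x p.1 p.2 * G D q β J p.1 y +
        (if x = y then 1 - τ x else 0) + ∑' N, σ x y N) (x : Gam D) :
    Hz D q β z (gz D q β J z) x =
      vsc D q β J z * (if x = 0 then gz D q β J z 0 else 0) +
        ∑' y, Vf D q β J z (x, y) * gz D q β J z y + src τ σ z x := by
  classical
  have hg := gz_le h hS
  obtain ⟨sJ, -⟩ := h.summable_Ez x _ _ hg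
  obtain ⟨s1, -⟩ := h.one.summable_Ez x _ _ hg
  rw [Hz_eq h x _ _ hg, laplace_core h hS τ σ hσ hσs hG x]
  have e1 : ∑' y, Ez D q β J z x y * gz D q β J z y - ∑' y, Ez D q β 1 z x y * gz D q β J z y =
      vsc D q β J z * (if x = 0 then gz D q β J z 0 else 0) +
        ∑' y, Vf D q β J z (x, y) * gz D q β J z y := by
    rw [← sJ.tsum_sub s1]
    have e2 : ∀ y, Ez D q β J z x y * gz D q β J z y - Ez D q β 1 z x y * gz D q β J z y =
        (if y = 0 then (if x = 0 then vsc D q β J z * gz D q β J z 0 else 0) else 0) +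
          Vf D q β J z (x, y) * gz D q β J z y := by
      intro y
      rw [Vf]
      by_cases hy : y = 0
      · by_cases hx : x = 0
        · subst hx hy
          simp only [if_true, vsc]
          ring
        · simp only [Prod.mk.injEq, hx, hy, false_and, if_false, if_true]
          ring
      · simp only [Prod.mk.injEq, hy, and_false, if_false]
        ring
    simp only [e2]
    have sd : Summable fun y : Gam D =>
        (if y = 0 then (if x = 0 then vsc D q β J z * gz D q β J z 0 else 0) else 0) :=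
      summable_of_ne_finset_zero (s := {0}) fun y hy => if_neg fun h0 =>
        hy (Finset.mem_singleton.2 h0)
    have sV : Summable fun y => Vf D q β J z (x, y) * gz D q β J z y := by
      have := (sJ.sub s1).sub sd
      refine this.congr fun y => ?_
      rw [e2 y]
      ring
    rw [sd.tsum_add sV, tsum_ite_eq]
    congr 1
    split_ifs <;> simp
  linarith

end Leq

theorem laplace_eq (D q : ℕ) [NeZero q] (hq : 2 ≤ q) : ∃ β₀ : ℝ, 0 < β₀ ∧
    ∀ β, 0 < β → β < β₀ → ∀ J, 0 ≤ J → J ≤ 2 →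
      ∀ (τ : Site D → ℝ) (σ : Site D → Site D → ℕ → ℝ),
      (∀ x, |τ x| ≤ rr D β) →
      (∀ x y N, σ x y N ≠ 0 → 2 ≤ N ∧ 2 * (y.1 - x.1) ≤ N ∧ dist1 y x ≤ N) →
      (∀ (x : Site D) (w : Fin D → ℤ),
        Summable (fun p : ℤ × ℕ => |σ x (p.1, w) p.2| * ((rr D β)⁻¹) ^ p.2) ∧
        ∑' p : ℤ × ℕ, |σ x (p.1, w) p.2| * ((rr D β)⁻¹) ^ p.2 ≤ 2) →
      (∀ x y, G D q β J x y = ∑ y' ∈ nb x, cc q β J x y' * G D q β J y' y -
        kap q β J x * G D q β J x y +
        ∑' p : Site D × ℕ, SS D q β J x p.1 p.2 * G D q β J p.1 y +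
        (if x = y then 1 - τ x else 0) + ∑' N, σ x y N) →
      ∀ z, 1 ≤ z → z ≤ zm q β →
        Summable (fun p : Gam D × ℤ => z ^ p.2 * G D q β J (0, p.1) (p.2, 0)) →
        ∀ x, Hz D q β z (fun y => ∑' n : ℤ, z ^ n * G D q β J (0, y) (n, 0)) x =
          vsc D q β J z * (if x = 0 then ∑' n : ℤ, z ^ n * G D q β J (0, 0) (n, 0) else 0) +
          ∑' y, Vf D q β J z (x, y) * ∑' n : ℤ, z ^ n * G D q β J (0, y) (n, 0) +
          src τ σ z x := by
  have hq0 : (0 : ℝ) < q := by exact_mod_cast (by omega : 0 < q)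
  refine ⟨min (1 / 4) (min (1 / (32 * ((D : ℝ) + 1))) (1 / (4 * q * (32 * ((D : ℝ) + 1)) ^ 2))),
    by positivity, ?_⟩
  intro β hβ hβ0 J hJ hJ2 τ σ _ hσ hσs hG z h1 hzm hS x
  have hb1 : β < 1 / 4 := lt_of_lt_of_le hβ0 (min_le_left _ _)
  have hb2 : β < 1 / (32 * ((D : ℝ) + 1)) :=
    lt_of_lt_of_le hβ0 ((min_le_right _ _).trans (min_le_left _ _))
  have hb3 : β < 1 / (4 * q * (32 * ((D : ℝ) + 1)) ^ 2) :=
    lt_of_lt_of_le hβ0 ((min_le_right _ _).trans (min_le_right _ _))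
  have hρ1 : rr D β ≤ 1 := by
    rw [lt_div_iff₀ (by positivity)] at hb2
    unfold rr
    linarith
  have hz : z * rr D β ^ 2 ≤ 1 := by
    rw [lt_div_iff₀ (by positivity)] at hb3
    have h2 : z * rr D β ^ 2 ≤ zm q β * rr D β ^ 2 := mul_le_mul_of_nonneg_right hzm (sq_nonneg _)
    have h3 : zm q β * rr D β ^ 2 = β * (4 * q * (32 * ((D : ℝ) + 1)) ^ 2) := by
      unfold zm rr
      field_simp
    linarith
  exact Leq.laplace_final ⟨hq, hβ, hb1.le, hρ1, hJ, hJ2, h1, hz⟩ hS τ σ hσ hσs hG x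

/-! ### The initial domain of convergence -/

namespace Leq

lemma summable_geom_int {r : ℝ} (h0 : 0 ≤ r) (h1 : r < 1) :
    Summable fun n : ℤ => r ^ n.natAbs := by
  apply Summable.of_nat_of_neg
  · simpa using summable_geometric_of_lt_one h0 h1
  · simpa using summable_geometric_of_lt_one h0 h1

lemma summable_geom_nt (D : ℕ) {r : ℝ} (h0 : 0 ≤ r) (h1 : r < 1) :
    Summable fun x : Gam D => r ^ nt x := by
  classical
  have hs := summable_geom_int h0 h1
  refine summable_of_sum_le (c := ∏ _i : Fin D, ∑' n : ℤ, r ^ n.natAbs) (fun x => by positivity)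
    fun s => ?_
  have h2 : s ⊆ Fintype.piFinset fun i => s.image fun x => x i := by
    intro x hx
    rw [Fintype.mem_piFinset]
    exact fun i => Finset.mem_image_of_mem _ hx
  refine (Finset.sum_le_sum_of_subset_of_nonneg h2 fun x _ _ => by positivity).trans ?_
  have e : ∀ x : Gam D, r ^ nt x = ∏ i, r ^ (x i).natAbs := by
    intro x
    rw [nt, Finset.prod_pow_eq_pow_sum]
  simp only [e]
  rw [← Finset.prod_univ_sum (fun i => s.image fun x => x i) (fun _ (n : ℤ) => r ^ n.natAbs)]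
  exact Finset.prod_le_prod (fun i _ => Finset.sum_nonneg fun _ _ => by positivity) fun i _ =>
    hs.sum_le_tsum _ fun _ _ => by positivity

end Leq

/-- The initial domain of convergence. -/
theorem summable_initial (D q : ℕ) [NeZero q] (hq : 2 ≤ q) : ∃ β₀ : ℝ, 0 < β₀ ∧
    ∀ β, 0 < β → β < β₀ → ∀ J, 0 ≤ J → J ≤ 2 → ∀ z, 1 ≤ z → z ≤ 1 / (2 * rr D β) →
      Summable (fun p : Gam D × ℤ => z ^ p.2 * G D q β J (0, p.1) (p.2, 0)) := by
  refine ⟨min (1 / 4) (1 / (64 * ((D : ℝ) + 1))), by positivity, ?_⟩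
  intro β hβ hβ0 J hJ hJ2 z h1 hz
  have hz0 : 0 < z := lt_of_lt_of_le one_pos h1
  have hb1 : β < 1 / 4 := lt_of_lt_of_le hβ0 (min_le_left _ _)
  have hb2 : β < 1 / (64 * ((D : ℝ) + 1)) := lt_of_lt_of_le hβ0 (min_le_right _ _)
  have hρ : 0 < rr D β := rr_pos β hβ
  have hρ2 : rr D β ≤ 1 / 2 := by
    rw [lt_div_iff₀ (by positivity)] at hb2
    unfold rr
    linarith
  have hzρ : z * rr D β ≤ 1 / 2 := by
    rw [le_div_iff₀ (by positivity)] at hz
    linarith
  have s1 := Leq.summable_geom_nt D (r := 1 / 2) (by norm_num) (by norm_num)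
  have s2 := Leq.summable_geom_int (r := 1 / 2) (by norm_num) (by norm_num)
  have s3 : Summable fun p : Gam D × ℤ => (1 / 2 : ℝ) ^ nt p.1 * (1 / 2 : ℝ) ^ p.2.natAbs :=
    s1.mul_of_nonneg s2 (fun _ => by positivity) fun _ => by positivity
  have s4 : Summable fun p : Gam D × ℤ =>
      4 * ((1 / 2 : ℝ) ^ nt p.1 * (1 / 2 : ℝ) ^ p.2.natAbs) := s3.mul_left 4
  have n0 : ∀ p : Gam D × ℤ, 0 ≤ z ^ p.2 * G D q β J (0, p.1) (p.2, 0) := fun p =>
    mul_nonneg (zpow_pos hz0 _).le (G_nonneg hq β J hβ.le hJ _ _)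
  refine Summable.of_nonneg_of_le n0 (fun p => ?_) s4
  have h2 := G_decay hq β J hβ hb1.le (by linarith) hJ hJ2 ((0, p.1) : Site D) (p.2, 0)
  have h3 : dist1 ((0, p.1) : Site D) (p.2, 0) = p.2.natAbs + nt p.1 := by
    simp [dist1, nt]
  rw [h3, pow_add] at h2
  have h4 : z ^ p.2 * rr D β ^ p.2.natAbs ≤ (1 / 2) ^ p.2.natAbs := by
    rcases Int.natAbs_eq p.2 with h | h
    · have e : z ^ p.2 = z ^ p.2.natAbs := by
        conv_lhs => rw [h]
        rw [zpow_natCast]
      rw [e, ← mul_pow]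
      exact pow_le_pow_left₀ (by positivity) hzρ _
    · have hle : z ^ p.2 ≤ 1 := zpow_le_one_of_nonpos₀ h1 (by omega)
      calc z ^ p.2 * rr D β ^ p.2.natAbs ≤ 1 * rr D β ^ p.2.natAbs :=
            mul_le_mul_of_nonneg_right hle (by positivity)
        _ ≤ (1 / 2) ^ p.2.natAbs := by
            rw [one_mul]; exact pow_le_pow_left₀ hρ.le hρ2 _
  have h5 : rr D β ^ nt p.1 ≤ (1 / 2) ^ nt p.1 := pow_le_pow_left₀ hρ.le hρ2 _
  calc z ^ p.2 * G D q β J (0, p.1) (p.2, 0) ≤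
        z ^ p.2 * (4 * (rr D β ^ p.2.natAbs * rr D β ^ nt p.1)) :=
        mul_le_mul_of_nonneg_left h2 (zpow_pos hz0 _).le
    _ = 4 * (rr D β ^ nt p.1 * (z ^ p.2 * rr D β ^ p.2.natAbs)) := by ring
    _ ≤ 4 * ((1 / 2) ^ nt p.1 * (1 / 2) ^ p.2.natAbs) := by
        apply mul_le_mul_of_nonneg_left _ (by norm_num)
        exact mul_le_mul h5 h4 (mul_nonneg (zpow_pos hz0 _).le (by positivity)) (by positivity)

end Pool.Agent.SB
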