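import Pool.Agent.SB.Lau

/-!
# The source term (row SRC)
-/

set_option autoImplicit false

namespace Pool.Agent.SB

open Filter Topology

theorem src_bounds (D q : ℕ) [NeZero q] : ∃ β₀ : ℝ, 0 < β₀ ∧
    ∀ β, 0 < β → β < β₀ → ∀ (τ : Site D → ℝ) (σ : Site D → Site D → ℕ → ℝ),
      (∀ x, |τ x| ≤ rr D β) →
      (∀ x y N, σ x y N ≠ 0 → 2 ≤ N ∧ 2 * (y.1 - x.1) ≤ N ∧ dist1 y x ≤ N) →
      (∀ (x : Site D) (w : Fin D → ℤ),
        Summable (fun p : ℤ × ℕ => |σ x (p.1, w) p.2| * ((rr D β)⁻¹) ^ p.2) ∧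
        ∑' p : ℤ × ℕ, |σ x (p.1, w) p.2| * ((rr D β)⁻¹) ^ p.2 ≤ 2) →
      ∃ s : ℝ → L1 (Gam D), (∀ z x, 1 ≤ z → z ≤ zm q β → s z x = src τ σ z x) ∧
        (∀ z, za D β < z → z < zm q β → AnalyticAt ℝ s z) ∧
        ∀ z, 1 ≤ z → z ≤ zm q β → ∑' x, |s z x - if x = 0 then 1 else 0| ≤ 1 / 16 := by
  classical
  set C : ℝ := ∑' x : Gam D, (1 / 2 : ℝ) ^ nt x with hC
  have hCs : Summable fun x : Gam D => (1 / 2 : ℝ) ^ nt x :=
    lau_summable_nt D (by norm_num) (by norm_num)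
  have hC0 : 0 ≤ C := tsum_nonneg fun x => by positivity
  obtain ⟨β₀, h0, hβ₀⟩ := lau_small D q (8 * C + 1) (by linarith)
  refine ⟨β₀, h0, fun β hβ hβ1 τ σ hτ hσ hσs => ?_⟩
  have hA := AA_ge_one D q
  have hsm := hβ₀ β hβ hβ1
  have hρ : 0 < rr D β := by unfold rr; positivity
  have hzm : zm q β = AA D q / rr D β := zm_eq_div D q β hβ
  have hAρ : 0 < AA D q * rr D β := by positivity
  set θ := Real.sqrt (AA D q * rr D β) with hθdef
  have hθ2 : AA D q * rr D β = θ ^ 2 := (Real.sq_sqrt hAρ.le).symm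
  have hθ0 : 0 ≤ θ := Real.sqrt_nonneg _
  have hθ2' : θ ^ 2 ≤ 1 / 16 := by rw [← hθ2]; nlinarith
  have hθ1 : θ ≤ 1 / 4 := by nlinarith
  have hρθ : rr D β ≤ θ ^ 2 := by rw [← hθ2]; nlinarith
  have hza : 1 ≤ za D β := by
    unfold za
    rw [le_div_iff₀ (by positivity)]
    linarith
  set F : Gam D → ℤ → ℕ → ℝ := fun x n N => σ (0, x) (n, 0) N with hF
  have hkey : ∀ z, 1 ≤ z → z ≤ zm q β → ∀ x n N,
      z ^ n * |F x n N| ≤ 4 * θ ^ 2 * (1 / 2) ^ nt x * (|F x n N| * ((rr D β)⁻¹) ^ N) := by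
    intro z h1 h2 x n N
    rcases eq_or_ne (F x n N) 0 with h | h
    · simp [h]
    · obtain ⟨hN, hn, hd⟩ := hσ _ _ _ h
      have hn' : 2 * n ≤ N := by simpa using hn
      have hd' : nt x ≤ N := by
        have h3 : dist1 ((n, 0) : Site D) (0, x) = n.natAbs + nt x := by
          simp [dist1, nt]
        omega
      have h3 := lau_key (a := F x n N) hρ hA hθ0 (by linarith) hθ2 h1 (hzm ▸ h2) n N hn'
      refine h3.trans ?_
      have h4 : θ ^ N ≤ 4 * θ ^ 2 * (1 / 2) ^ nt x := by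
        obtain ⟨k, rfl⟩ := Nat.exists_eq_add_of_le hN
        calc θ ^ (2 + k) = θ ^ 2 * θ ^ k := pow_add _ _ _
          _ ≤ θ ^ 2 * (1 / 2) ^ k := by
            gcongr
            linarith
          _ = 4 * θ ^ 2 * (1 / 2) ^ (2 + k) := by rw [pow_add]; ring
          _ ≤ 4 * θ ^ 2 * (1 / 2) ^ nt x :=
            mul_le_mul_of_nonneg_left
              (pow_le_pow_of_le_one (by norm_num) (by norm_num) hd') (by positivity)
      gcongr
  have hsum : ∀ z, 1 ≤ z → z ≤ zm q β → _ := fun z h1 h2 =>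
    lau_sum F (rr D β) z 2 (fun x => 4 * θ ^ 2 * (1 / 2) ^ nt x) (by linarith)
      (hCs.mul_left _) (fun x => by positivity) (fun x => (hσs (0, x) 0).1)
      (fun x => (hσs (0, x) 0).2) (hkey z h1 h2)
  obtain ⟨s, hs1, hs2⟩ := laurent_L1 F 1 (zm q β) one_pos fun z h1 h2 => (hsum z h1 h2).1
  have hconst : Summable fun x : Gam D => |if x = 0 then 1 - τ (0, 0) else 0| := by
    refine summable_of_ne_finset_zero (s := {0}) fun x hx => ?_
    rw [if_neg (by simpa using hx), abs_zero]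
  set k0 : L1 (Gam D) := mkL1 (fun x => if x = 0 then 1 - τ (0, 0) else 0) hconst with hk0
  have hval : ∀ z x, 1 ≤ z → z ≤ zm q β → (k0 + s z) x = src τ σ z x := by
    intro z x h1 h2
    have h3 : (k0 + s z) x = k0 x + s z x := rfl
    rw [h3, hs1 z x h1 h2]
    rfl
  refine ⟨fun z => k0 + s z, hval, fun z h1 h2 => ?_, fun z h1 h2 => ?_⟩
  · exact analyticAt_const.add (hs2 z (by linarith) h2)
  · have hb : ∀ x : Gam D, |(k0 + s z) x - if x = 0 then 1 else 0| ≤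
        (if x = 0 then rr D β else 0) + 2 * (4 * θ ^ 2 * (1 / 2) ^ nt x) := by
      intro x
      rw [hval z x h1 h2]
      unfold src
      have h4 := (hsum z h1 h2).2.2 x
      by_cases hx : x = 0
      · simp only [hx, if_true]
        have h5 := hτ ((0, 0) : Site D)
        rw [hx] at h4
        calc |1 - τ (0, 0) + ∑' p : ℤ × ℕ, z ^ p.1 * σ (0, 0) (p.1, 0) p.2 - 1|
            = |-τ (0, 0) + ∑' p : ℤ × ℕ, z ^ p.1 * σ (0, 0) (p.1, 0) p.2| := by ring_nf
          _ ≤ |-τ (0, 0)| + |∑' p : ℤ × ℕ, z ^ p.1 * σ (0, 0) (p.1, 0) p.2| := abs_add_le _ _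
          _ ≤ rr D β + 2 * (4 * θ ^ 2 * (1 / 2) ^ nt (0 : Gam D)) := by
            rw [abs_neg]
            exact add_le_add h5 h4
      · simp only [hx, if_false, zero_add, sub_zero]
        exact h4
    have hr : Summable fun x : Gam D => if x = 0 then rr D β else 0 := by
      refine summable_of_ne_finset_zero (s := {0}) fun x hx => ?_
      rw [if_neg (by simpa using hx)]
    have hr2 : Summable fun x : Gam D => 2 * (4 * θ ^ 2 * (1 / 2 : ℝ) ^ nt x) :=
      (hCs.mul_left _).mul_left _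
    have hr3 := hr.add hr2
    have h5 : Summable fun x : Gam D => |(k0 + s z) x - if x = 0 then 1 else 0| :=
      Summable.of_nonneg_of_le (fun _ => abs_nonneg _) hb hr3
    calc ∑' x : Gam D, |(k0 + s z) x - if x = 0 then 1 else 0|
        ≤ ∑' x : Gam D, ((if x = 0 then rr D β else 0) + 2 * (4 * θ ^ 2 * (1 / 2) ^ nt x)) :=
          h5.tsum_le_tsum hb hr3
      _ = rr D β + 2 * (4 * θ ^ 2 * C) := by
          rw [hr.tsum_add hr2, tsum_ite_eq, tsum_mul_left, tsum_mul_left]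
      _ ≤ 1 / 16 := by
          rw [hθ2] at hsm
          nlinarith

end Pool.Agent.SB
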