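import Pool.Agent.SB.IdnA
import Pool.Agent.SB.Eqn
import Pool.Agent.SB.Src
import Pool.Agent.SB.Syb
import Pool.Agent.SB.Res
import Pool.Agent.SB.Leq
import Pool.Agent.SB.Ana1
import Pool.Agent.SB.Ana2

/-!
# Identification of the radius (row IDN)
-/

set_option autoImplicit false

namespace Pool.Agent.SB

open Filter Topology

/-- Statements for all small `β`. -/
lemma small_iff {P : ℝ → Prop} : (∃ β₀ : ℝ, 0 < β₀ ∧ ∀ β, 0 < β → β < β₀ → P β) ↔
    ∀ᶠ β in 𝓝[>] (0 : ℝ), P β := by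
  constructor
  · rintro ⟨β₀, h0, h⟩
    filter_upwards [Ioo_mem_nhdsGT h0] with β hβ
    exact h β hβ.1 hβ.2
  · intro h
    obtain ⟨u, hu, hsub⟩ := (mem_nhdsGT_iff_exists_Ioo_subset).mp h
    exact ⟨u, hu, fun β h1 h2 => hsub ⟨h1, h2⟩⟩

section core

variable {D q : ℕ} [NeZero q]

/-- The equation for `g_z` in operator form. -/
lemma core_eq {β J z : ℝ} (hsum : SumAt D q β J z) (hz : 0 ≤ z)
    (hG : ∀ x y, 0 ≤ G D q β J x y) (hs : Summable fun w => |Sz D q β 1 z 0 w|) (S : L1 (Gam D))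
    (hlap : ∀ x, Hz D q β z (gz D q β J z) x =
      vsc D q β J z * (if x = 0 then gz D q β J z 0 else 0) +
        ∑' y, Vf D q β J z (x, y) * gz D q β J z y + S x)
    {e : L1 (Gam D)} {ε : Li (Gam D) →L[ℝ] ℝ} {R : L1 (Gam D) →L[ℝ] Li (Gam D)}
    {V : Li (Gam D) →L[ℝ] L1 (Gam D)}
    (he : ∀ x, e x = if x = 0 then 1 else 0) (hε : ∀ g, ε g = g 0)
    (hR : ∀ p x, (R p : Gam D → ℝ) x = ∑' w, Rz D q β z (x - w) * p w)
    (hV : ∀ g x, (V g : Gam D → ℝ) x = ∑' y, Vf D q β J z (x, y) * g y) :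
    ∃ (g : Li (Gam D)) (p : L1 (Gam D)), (∀ y, g y = gz D q β J z y) ∧
      p = (vsc D q β J z * ε g) • e + V g + S ∧
      hh D q β z 0 * ∑' y, gz D q β J z y = ∑' x, p x ∧
      ((∀ f : Gam D → ℝ, Summable f → ∀ x,
        f x = ∑' w, Rz D q β z (x - w) * Hz D q β z f w) → g = R p) := by
  have hg := hsum.gz_summable
  have hg0 : ∀ y, 0 ≤ gz D q β J z y := gz_nonneg hz hG
  have hB : ∀ x, |gz D q β J z x| ≤ ∑' x, gz D q β J z x := fun x => by
    rw [abs_of_nonneg (hg0 x)]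
    exact hg.le_tsum x fun _ _ => hg0 _
  set g : Li (Gam D) := mkLi (gz D q β J z) _ hB with hgdef
  have hgy : ∀ y, g y = gz D q β J z y := fun y => rfl
  set p : L1 (Gam D) := (vsc D q β J z * ε g) • e + V g + S with hp
  have hpx : ∀ x, p x = Hz D q β z (gz D q β J z) x := by
    intro x
    rw [hlap x, hp]
    simp only [lp.coeFn_add, lp.coeFn_smul, Pi.add_apply, Pi.smul_apply, smul_eq_mul, he, hV, hε,
      hgy]
    congr 2
    by_cases hx : x = 0 <;> simp [hx]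
  refine ⟨g, p, hgy, rfl, ?_, fun hinv => ?_⟩
  · rw [← Hz_sum β z hs _ hg hg0]
    exact tsum_congr fun x => (hpx x).symm
  · ext x
    rw [hR p x, hgy, hinv _ hg x]
    exact tsum_congr fun w => by rw [hpx]

end core

lemma norm_L1_le {α : Type} (u : L1 α) {C : ℝ} (h : ∑' x, |u x| ≤ C) : ‖u‖ ≤ C := by
  rw [L1.norm_eq]; exact h

theorem identify (D q : ℕ) [NeZero q] (hq : 2 ≤ q) (hD : 3 ≤ D) : ∃ β₀ : ℝ, 0 < β₀ ∧
    ∀ β, 0 < β → β < β₀ → ∀ z1, za D β + 2 ≤ z1 → z1 ≤ zm q β → hh D q β z1 0 = 0 →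
    ∀ (e : L1 (Gam D)) (ε : Li (Gam D) →L[ℝ] ℝ) (R : ℝ → L1 (Gam D) →L[ℝ] Li (Gam D))
      (V : ℝ → ℝ → Li (Gam D) →L[ℝ] L1 (Gam D)),
      (∀ x, e x = if x = 0 then 1 else 0) → (∀ g, ε g = g 0) →
      (∀ z p x, za D β ≤ z → z ≤ z1 → (R z p : Gam D → ℝ) x = ∑' w, Rz D q β z (x - w) * p w) →
      (∀ z, za D β < z → z < z1 → AnalyticAt ℝ R z) →
      (∀ J z g x, 0 ≤ J → J ≤ 2 → za D β ≤ z → z ≤ z1 →
        (V J z g : Gam D → ℝ) x = ∑' y, Vf D q β J z (x, y) * g y) →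
      (∀ J z, 0 ≤ J → J ≤ 2 → za D β < z → z < z1 → AnalyticAt ℝ (V J) z) →
      (∀ J z, 1 ≤ J → J ≤ 2 → za D β ≤ z → z ≤ z1 → ‖(V J z).comp (R z)‖ ≤ 1 / 16) →
      (∀ J z', 1 ≤ J → J ≤ 2 → za D β < z' → z' ≤ z1 →
        (∀ z, za D β ≤ z → z < z' → 0 < DD e ε (R z) (V J z) (vsc D q β J z)) →
        ∀ z, za D β ≤ z → z < z' →
          Summable (fun p : Gam D × ℤ => z ^ p.2 * G D q β J (0, p.1) (p.2, 0))) ∧
      (∀ J z, 1 ≤ J → J ≤ 2 → za D β ≤ z → z < z1 →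
        Summable (fun p : Gam D × ℤ => z ^ p.2 * G D q β J (0, p.1) (p.2, 0)) →
        1 / 4 ≤ DD e ε (R z) (V J z) (vsc D q β J z) *
          ∑' n : ℤ, z ^ n * G D q β J (0, 0) (n, 0)) ∧
      (∀ J z, 1 ≤ J → J ≤ 2 → za D β < z → z < z1 →
        ContinuousAt (fun z => DD e ε (R z) (V J z) (vsc D q β J z)) z) ∧
      ¬ Summable (fun p : Gam D × ℤ => z1 ^ p.2 * G D q β 1 (0, p.1) (p.2, 0)) := by
  rw [small_iff]
  obtain ⟨b1, K1, hb1, -, hres⟩ := resolvent D q hq hD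
  have E1 := small_iff.mp ⟨b1, hb1, hres⟩
  have E2 := small_iff.mp (resolvent_inv D q hq)
  have E3 := small_iff.mp (pert_analytic D q hq)
  have E4 := small_iff.mp (hh_analytic D q hq)
  have E5 := small_iff.mp (src_bounds D q)
  have E6 := small_iff.mp (laplace_eq D q hq)
  have E7 := small_iff.mp (summable_initial D q hq)
  obtain ⟨b8, K8, hb8, -, hsz⟩ := Sz_one D q hq
  have E8 := small_iff.mp ⟨b8, hb8, hsz⟩
  obtain ⟨b9, K9, hb9, -, hsy⟩ := symbol D q hq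
  have E9 := small_iff.mp ⟨b9, hb9, hsy⟩
  have E10 := small_iff.mp (c0_bounds D q hq)
  have E11 : ∀ᶠ β in 𝓝[>] (0 : ℝ), β ≤ 1 / 4 ∧ rr D β ≤ 1 := by
    rw [← small_iff]
    refine ⟨min (1 / 4) (1 / (32 * ((D : ℝ) + 1))), by positivity, fun β hβ hlt => ⟨?_, ?_⟩⟩
    · exact (hlt.trans_le (min_le_left _ _)).le
    · have := hlt.trans_le (min_le_right _ _)
      rw [lt_div_iff₀ (by positivity)] at this
      unfold rr
      linarith
  filter_upwards [E1, E2, E3, E4, E5, E6, E7, E8, E9, E10, E11, self_mem_nhdsWithin] with β H1 H2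
    H3 H4 H5 H6 H7 H8 H9 H10 H11 hβ
  have hβ0 : 0 < β := hβ
  intro z1 hz1 hz1m h0 e ε R V he hε hR hRan hV hVan hVR
  obtain ⟨hza2, hcont, hdz, -, -, -⟩ := H9
  obtain ⟨hc1, -, -, -⟩ := H10
  have hq0 : (0 : ℝ) < q := by exact_mod_cast (by omega : 0 < q)
  have hc : 0 < c0 D q β := lt_of_lt_of_le (by positivity) hc1
  have hzaz1 : za D β ≤ z1 := by linarith
  obtain ⟨r1, r2, -⟩ := H1 z1 hzaz1 hz1m h0
  have hρ : 0 < rr D β := rr_pos β hβ0
  have hG : ∀ J, 0 ≤ J → ∀ x y, 0 ≤ G D q β J x y := fun J hJ x y =>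
    G_nonneg hq β J hβ0.le hJ x y
  -- the sources
  have hsrc : ∀ J, 0 ≤ J → J ≤ 2 → ∃ s : ℝ → L1 (Gam D),
      (∀ z, za D β < z → z < zm q β → AnalyticAt ℝ s z) ∧
      (∀ z, 1 ≤ z → z ≤ zm q β → ‖s z - e‖ ≤ 1 / 16) ∧
      ∀ z, 1 ≤ z → z ≤ zm q β → SumAt D q β J z → ∀ x, Hz D q β z (gz D q β J z) x =
        vsc D q β J z * (if x = 0 then gz D q β J z 0 else 0) +
          ∑' y, Vf D q β J z (x, y) * gz D q β J z y + s z x := by
    intro J hJ hJ2
    obtain ⟨τ, σ, hτ, hσ, hσs, heq⟩ := G_eqn (D := D) hq β J hβ0 H11.1 H11.2 hJ hJ2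
    obtain ⟨s, hs1, hs2, hs3⟩ := H5 τ σ hτ hσ hσs
    refine ⟨s, hs2, fun z h1 h2 => ?_, fun z h1 h2 hsum x => ?_⟩
    · refine norm_L1_le _ ?_
      simpa only [lp.coeFn_sub, Pi.sub_apply, he] using hs3 z h1 h2
    · rw [hs1 z x h1 h2]
      exact H6 J hJ hJ2 τ σ hτ hσ hσs heq z h1 h2 hsum x
  -- convergence at `1` and at `2 * za`
  have h2za : 1 / (2 * rr D β) = 2 * za D β := by
    unfold za; field_simp; norm_num
  have hinit : ∀ J, 0 ≤ J → J ≤ 2 → ∀ z, 1 ≤ z → z ≤ 2 * za D β → SumAt D q β J z := by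
    intro J hJ hJ2 z h1 h2
    exact H7 J hJ hJ2 z h1 (by rw [h2za]; exact h2)
  have he1 : ‖e‖ ≤ 1 := by
    refine norm_L1_le _ (le_of_eq ?_)
    rw [tsum_eq_single 0 fun x hx => by simp [he, hx]]
    simp [he]
  have hεe : ∀ z, za D β ≤ z → z ≤ z1 → ε (R z e) = Rz D q β z 0 := by
    intro z h1 h2
    rw [hε, hR z e 0 h1 h2, tsum_eq_single 0 fun x hx => by simp [he, hx]]
    simp [he]
  have hεu : ∀ z, za D β ≤ z → z ≤ z1 → ∀ u, |ε (R z u)| ≤ ε (R z e) * ‖u‖ := by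
    intro z h1 h2 u
    rw [hεe z h1 h2, hε, hR z u 0 h1 h2, L1.norm_eq]
    have hb : ∀ w, |Rz D q β z (0 - w) * u w| ≤ Rz D q β z 0 * |u w| := fun w => by
      rw [abs_mul]
      gcongr
      exact r1 z _ h1 h2
    have hs1 : Summable fun w => |Rz D q β z (0 - w) * u w| :=
      Summable.of_nonneg_of_le (fun _ => abs_nonneg _) hb ((L1.summable u).mul_left _)
    have h3 := norm_tsum_le_tsum_norm (f := fun w => Rz D q β z (0 - w) * u w)
      (by simpa only [Real.norm_eq_abs] using hs1)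
    simp only [Real.norm_eq_abs] at h3
    refine h3.trans ?_
    rw [← tsum_mul_left]
    exact hs1.tsum_le_tsum hb ((L1.summable u).mul_left _)
  have hszs : ∀ z, 1 ≤ z → z ≤ zm q β → Summable fun w => |Sz D q β 1 z 0 w| := by
    intro z h1 h2
    have := (H8.1 z h1 h2).1
    refine Summable.of_nonneg_of_le (fun _ => abs_nonneg _) (fun w => ?_) this
    exact le_mul_of_one_le_right (abs_nonneg _) (by linarith [sq_nonneg (nt w : ℝ)])
  have hhpos : ∀ z, za D β ≤ z → z < z1 → 0 < hh D q β z 0 := by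
    intro z h1 h2
    have := (hdz z z1 0 h1 h2.le hz1m).1
    rw [h0] at this
    have h3 : 0 < c0 D q β / 2 * (z1 - z) := by
      have : 0 < z1 - z := by linarith
      positivity
    linarith
  obtain ⟨sumL, -, hsumL⟩ := exists_sumL D
  -- analyticity of the numerator and of the denominator
  have hinvan : ∀ J z, 1 ≤ J → J ≤ 2 → za D β < z → z < z1 → AnalyticAt ℝ
      (fun z => (Ring.inverse (1 - (V J z).comp (R z)) : L1 (Gam D) →L[ℝ] L1 (Gam D))) z :=
    fun J z h1 h2 h3 h4 => analyticAt_inv_comp (hRan z h3 h4) (hVan J z (by linarith) h2 h3 h4)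
      (hVR J z h1 h2 h3.le h4.le)
  have hvan : ∀ J z, 1 ≤ J → J ≤ 2 → za D β < z → z < z1 →
      AnalyticAt ℝ (vsc D q β J) z := fun J z h1 h2 h3 h4 =>
    (H3 J (by linarith) h2).1 z h3 (by linarith)
  have hεan : ∀ (w : ℝ → L1 (Gam D)) z, za D β < z → z < z1 → AnalyticAt ℝ w z →
      AnalyticAt ℝ (fun z => ε (R z (w z))) z := fun w z h3 h4 hw =>
    (ε.analyticAt _).fun_comp (analyticAt_clm_apply (hRan z h3 h4) hw)
  have hDDan : ∀ J z, 1 ≤ J → J ≤ 2 → za D β < z → z < z1 →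
      AnalyticAt ℝ (fun z => DD e ε (R z) (V J z) (vsc D q β J z)) z := by
    intro J z h1 h2 h3 h4
    unfold DD
    exact analyticAt_const.sub ((hvan J z h1 h2 h3 h4).mul (hεan _ z h3 h4
      (analyticAt_clm_apply (hinvan J z h1 h2 h3 h4) analyticAt_const)))
  refine ⟨?_, ?_, fun J z h1 h2 h3 h4 => (hDDan J z h1 h2 h3 h4).continuousAt, ?_⟩
  · intro J z' hJ hJ2 hz' hz'1 hDD z hz hzz'
    obtain ⟨s, hsan, -, hseq⟩ := hsrc J (by linarith) hJ2
    have hGJ := hG J (by linarith)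
    set N : ℝ → ℝ := fun z =>
      ε (R z ((Ring.inverse (1 - (V J z).comp (R z)) : L1 (Gam D) →L[ℝ] L1 (Gam D)) (s z))) with hN
    set P : ℝ → L1 (Gam D) := fun z =>
      (Ring.inverse (1 - (V J z).comp (R z)) : L1 (Gam D) →L[ℝ] L1 (Gam D))
        ((vsc D q β J z * (N z / DD e ε (R z) (V J z) (vsc D q β J z))) • e + s z) with hP
    refine sumAt_of_analytic (D := D) (q := q) (β := β) (J := J) (x0 := za D β) (x1 := z')
      (hinit J (by linarith) hJ2 1 le_rfl (by linarith)) (by linarith) (y0 := 2 * za D β)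
      (by linarith) (hinit J (by linarith) hJ2 _ (by linarith) le_rfl) hGJ
      (fun z => sumL (P z) / hh D q β z 0) ?_ ?_ z (by linarith) hzz'
    · intro w hw hw'
      have hwz1 : w < z1 := hw'.trans_le hz'1
      have hwzm : w < zm q β := hwz1.trans_le hz1m
      have hs := hsan w hw hwzm
      have hinv := hinvan J w hJ hJ2 hw hwz1
      have hNan : AnalyticAt ℝ N w := hεan _ w hw hwz1 (analyticAt_clm_apply hinv hs)
      have hDDw := hDDan J w hJ hJ2 hw hwz1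
      have hq1 : AnalyticAt ℝ
          (fun z => N z / DD e ε (R z) (V J z) (vsc D q β J z)) w :=
        hNan.fun_div hDDw (hDD w hw.le hw').ne'
      have hPan : AnalyticAt ℝ P w := analyticAt_clm_apply hinv
        ((((hvan J w hJ hJ2 hw hwz1).mul hq1).smul analyticAt_const).add hs)
      exact ((sumL.analyticAt _).fun_comp hPan).fun_div (H4 w hw hwzm) (hhpos w hw.le hwz1).ne'
    · intro w hw hw' hsum
      have hwz1 : w < z1 := hw'.trans_le hz'1
      have hwzm : w ≤ zm q β := (hwz1.trans_le hz1m).le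
      have hw1 : 1 ≤ w := by linarith
      obtain ⟨g, p, hg1, hp1, hp2, hgp⟩ := core_eq hsum (by linarith) hGJ (hszs w hw1 hwzm) (s w)
        (hseq w hw1 hwzm hsum) he hε (fun p x => hR w p x hw.le hwz1.le)
        (fun g x => hV J w g x (by linarith) hJ2 hw.le hwz1.le)
      have hgR := hgp (H2 z1 hzaz1 hz1m h0 w hw.le hwz1)
      have hvr := hVR J w hJ hJ2 hw.le hwz1.le
      have hkey := key_identity hvr hgR hp1
      have hsol := key_solution hvr hgR hp1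
      have hDw := hDD w hw.le hw'
      have hεg : ε g = N w / DD e ε (R w) (V J w) (vsc D q β J w) := by
        rw [eq_div_iff hDw.ne']
        exact hkey
      have hpP : P w = p := by
        rw [hsol, hP]
        simp only
        rw [hεg]
      rw [hpP, hsumL, ← hp2, mul_div_cancel_left₀ _ (hhpos w hw.le hwz1).ne']
  · intro J z hJ hJ2 hz hzz1 hsum
    obtain ⟨s, -, hs2, hseq⟩ := hsrc J (by linarith) hJ2
    have hGJ := hG J (by linarith)
    have hzzm : z ≤ zm q β := (hzz1.trans_le hz1m).le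
    have hz1' : 1 ≤ z := by linarith
    obtain ⟨g, p, hg1, hp1, hp2, hgp⟩ := core_eq hsum (by linarith) hGJ (hszs z hz1' hzzm) (s z)
      (hseq z hz1' hzzm hsum) he hε (fun p x => hR z p x hz hzz1.le)
      (fun g x => hV J z g x (by linarith) hJ2 hz hzz1.le)
    have hgR := hgp (H2 z1 hzaz1 hz1m h0 z hz hzz1)
    have hvr := hVR J z hJ hJ2 hz hzz1.le
    have hkey := key_identity hvr hgR hp1
    have hnum := numerator_ge hvr he1 (hs2 z hz1' hzzm)
      (by rw [hεe z hz hzz1.le]; exact r2 z hz hzz1.le) (hεu z hz hzz1.le)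
    have hε0 : ε g = ∑' n : ℤ, z ^ n * G D q β J (0, 0) (n, 0) := by
      rw [hε, hg1]; rfl
    rw [← hε0, mul_comm, hkey]
    exact hnum
  · intro hsum
    obtain ⟨s, -, hs2, hseq⟩ := hsrc 1 (by norm_num) (by norm_num)
    have h1 : 1 ≤ z1 := by linarith
    obtain ⟨g, p, hg1, hp1, hp2, -⟩ := core_eq (J := 1) hsum (by linarith) (hG 1 (by norm_num))
      (hszs z1 h1 hz1m) (s z1) (hseq z1 h1 hz1m hsum) he hε (fun p x => hR z1 p x hzaz1 le_rfl)
      (fun g x => hV 1 z1 g x (by norm_num) (by norm_num) hzaz1 le_rfl)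
    have hv0 : vsc D q β 1 z1 = 0 := by unfold vsc; ring
    have hV0 : V 1 z1 g = 0 := by
      ext x
      rw [hV 1 z1 g x (by norm_num) (by norm_num) hzaz1 le_rfl]
      have : ∀ y, Vf D q β 1 z1 (x, y) * g y = 0 := fun y => by
        unfold Vf
        split_ifs <;> simp
      simp [this]
    have hps : p = s z1 := by rw [hp1, hv0, hV0]; simp
    rw [h0, zero_mul, hps, ← hsumL] at hp2
    have h3 : sumL e = 1 := by
      rw [hsumL, tsum_eq_single 0 fun x hx => by simp [he, hx]]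
      simp [he]
    have h4 : sumL (s z1 - e) = -1 := by rw [map_sub, ← hp2, h3]; ring
    have h5 : |sumL (s z1 - e)| ≤ ‖s z1 - e‖ := by
      rw [hsumL, L1.norm_eq]
      have := norm_tsum_le_tsum_norm (f := fun x => (s z1 - e) x)
        (by simpa only [Real.norm_eq_abs] using L1.summable (s z1 - e))
      simpa only [Real.norm_eq_abs] using this
    rw [h4] at h5
    have := hs2 z1 h1 hz1m
    norm_num at h5
    linarith

end Pool.Agent.SB
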