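import Pool.Agent.SB.Int

/-! Row INT2: orthogonality of the characters of the cube, inversion of `δ log (1 / δ)`. -/

set_option autoImplicit false

namespace Pool.Agent.SB

open MeasureTheory Set Real

theorem integral_exp_one (m : ℤ) :
    ∫ t in Set.Icc (-Real.pi) Real.pi, Complex.exp ((t : ℂ) * m * Complex.I) =
      if m = 0 then ((2 * Real.pi : ℝ) : ℂ) else 0 := by
  rw [integral_Icc_eq_integral_Ioc, ← intervalIntegral.integral_of_le (by linarith [Real.pi_pos])]
  by_cases hm : m = 0
  · rw [if_pos hm]
    simp only [hm, Int.cast_zero, mul_zero, zero_mul, Complex.exp_zero,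
      intervalIntegral.integral_const]
    rw [Complex.real_smul]
    push_cast
    ring
  · rw [if_neg hm]
    have hc : (m : ℂ) * Complex.I ≠ 0 := mul_ne_zero (Int.cast_ne_zero.2 hm) Complex.I_ne_zero
    have h1 : ∀ t : ℝ, Complex.exp ((t : ℂ) * m * Complex.I) =
        Complex.exp ((m : ℂ) * Complex.I * t) := fun t => by
      congr 1
      ring
    simp only [h1]
    rw [integral_exp_mul_complex hc]
    have h2 : Complex.exp ((m : ℂ) * Complex.I * (Real.pi : ℝ)) =
        Complex.exp ((m : ℂ) * Complex.I * ((-Real.pi : ℝ) : ℂ)) := by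
      rw [Complex.exp_eq_exp_iff_exists_int]
      refine ⟨m, ?_⟩
      push_cast
      ring
    rw [h2, sub_self, zero_div]

theorem integral_cos (D : ℕ) (x : Fin D → ℤ) :
    ∫ k in cube D, Real.cos (∑ i, k i * x i) = if x = 0 then (2 * Real.pi) ^ D else 0 := by
  have hre : ∫ k in cube D, Real.cos (∑ i, k i * x i) =
      (∫ k in cube D, ∏ i, Complex.exp ((k i : ℂ) * x i * Complex.I)).re := by
    have h1 : ∀ k : Fin D → ℝ, ∏ i, Complex.exp ((k i : ℂ) * x i * Complex.I) =
        Complex.exp (((∑ i, k i * x i : ℝ) : ℂ) * Complex.I) := by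
      intro k
      rw [← Complex.exp_sum]
      congr 1
      push_cast
      rw [Finset.sum_mul]
    have hint : IntegrableOn (fun k : Fin D → ℝ =>
        ∏ i, Complex.exp ((k i : ℂ) * x i * Complex.I)) (cube D) := by
      refine ContinuousOn.integrableOn_compact ?_ ?_
      · exact isCompact_univ_pi fun _ => isCompact_Icc
      · exact (by fun_prop : Continuous _).continuousOn
    have h2 := integral_re hint
    simp only [RCLike.re_eq_complex_re] at h2
    rw [← h2]
    refine integral_congr_ae (Filter.Eventually.of_forall fun k => ?_)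
    simp only
    rw [h1, Complex.exp_ofReal_mul_I_re]
  have hprod : ∫ k in cube D, ∏ i, Complex.exp ((k i : ℂ) * x i * Complex.I) =
      ∏ i, ∫ t in Set.Icc (-Real.pi) Real.pi, Complex.exp ((t : ℂ) * x i * Complex.I) := by
    unfold cube
    rw [volume_pi, Measure.restrict_pi_pi]
    exact integral_fintype_prod_eq_prod
      (fun (i : Fin D) (t : ℝ) => Complex.exp ((t : ℂ) * x i * Complex.I))
  rw [hre, hprod]
  simp only [integral_exp_one]
  by_cases hx : x = 0
  · rw [if_pos hx]
    simp only [hx, Pi.zero_apply, if_true]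
    rw [Finset.prod_const, Finset.card_univ, Fintype.card_fin, ← Complex.ofReal_pow,
      Complex.ofReal_re]
  · rw [if_neg hx]
    obtain ⟨i, hi⟩ : ∃ i, x i ≠ 0 := by
      by_contra h
      push Not at h
      exact hx (funext h)
    rw [Finset.prod_eq_zero (Finset.mem_univ i) (if_neg hi)]
    simp

/-- Inversion of the three functions: `y` comparable with `φ (δ)`. -/
theorem invert_log (c C : ℝ) (hc : 0 < c) (hC : 0 < C) : ∃ ε c' C' : ℝ, 0 < ε ∧ 0 < c' ∧ 0 < C' ∧
    ∀ δ y, 0 < δ → δ ≤ ε → 0 < y → y ≤ ε → c * (δ * Real.log (1 / δ)) ≤ y →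
      y ≤ C * (δ * Real.log (1 / δ)) →
      c' * (y / |Real.log y|) ≤ δ ∧ δ ≤ C' * (y / |Real.log y|) := by
  set M : ℝ := 1 + |Real.log c| + 16 * C with hM
  have hM1 : 1 ≤ M := by
    have := abs_nonneg (Real.log c)
    linarith
  refine ⟨Real.exp (-M), 1 / (2 * C), 2 / c, Real.exp_pos _, by positivity, by positivity, ?_⟩
  intro δ y hδ hδM hy hyM h1 h2
  set L : ℝ := Real.log (1 / δ) with hL
  have hLδ : L = -Real.log δ := by rw [hL, one_div, Real.log_inv]
  have hLM : M ≤ L := by
    have := Real.log_le_log hδ hδM
    rw [Real.log_exp] at this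
    linarith
  have hL0 : 0 < L := by linarith
  have hylog : Real.log y ≤ -M := by
    have := Real.log_le_log hy hyM
    rwa [Real.log_exp] at this
  have habs : |Real.log y| = -Real.log y := abs_of_neg (by linarith)
  have hY : 0 < -Real.log y := by linarith
  have hlogc := abs_le.1 (le_refl |Real.log c|)
  -- upper bound for log (1 / y)
  have hup : -Real.log y ≤ 2 * L := by
    have h3 : Real.log (c * δ) ≤ Real.log y := by
      refine Real.log_le_log (by positivity) (le_trans ?_ h1)
      refine mul_le_mul_of_nonneg_left ?_ hc.le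
      nlinarith
    rw [Real.log_mul hc.ne' hδ.ne'] at h3
    linarith [hlogc.1]
  -- lower bound
  have hlow : L / 2 ≤ -Real.log y := by
    have h3 : Real.log y ≤ Real.log (C * (δ * L)) := Real.log_le_log hy h2
    rw [Real.log_mul hC.ne' (by positivity), Real.log_mul hδ.ne' hL0.ne'] at h3
    have h4 : Real.log C + Real.log L ≤ L / 2 := by
      rw [← Real.log_mul hC.ne' hL0.ne']
      rw [Real.log_le_iff_le_exp (by positivity)]
      have h5 : (L / 4) ^ 2 ≤ Real.exp (L / 2) := by
        have h6 : L / 4 ≤ Real.exp (L / 4) := by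
          have := Real.add_one_le_exp (L / 4)
          linarith
        calc (L / 4) ^ 2 ≤ (Real.exp (L / 4)) ^ 2 := by
              refine pow_le_pow_left₀ (by positivity) h6 2
          _ = Real.exp (L / 2) := by
              rw [← Real.exp_nat_mul]
              congr 1
              push_cast
              ring
      have h7 : C * L ≤ (L / 4) ^ 2 := by
        have : 16 * C ≤ L := by
          have := abs_nonneg (Real.log c)
          linarith
        nlinarith
      exact h7.trans h5
    linarith
  rw [habs]
  constructor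
  · rw [div_mul_div_comm, div_le_iff₀ (by positivity), one_mul]
    have h3 : C * (δ * L) ≤ C * (δ * (2 * -Real.log y)) := by
      refine mul_le_mul_of_nonneg_left (mul_le_mul_of_nonneg_left ?_ hδ.le) hC.le
      linarith
    nlinarith
  · rw [div_mul_div_comm, le_div_iff₀ (by positivity)]
    have h3 : δ * (c * -Real.log y) ≤ δ * (c * (2 * L)) := by
      refine mul_le_mul_of_nonneg_left (mul_le_mul_of_nonneg_left hup hc.le) hδ.le
    nlinarith

end Pool.Agent.SB
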