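import Pool.Agent.SB.Defs2

/-!
# Kernels and convolutions on `ℓ¹` and `ℓ^∞` (row LP)
-/

set_option autoImplicit false

namespace Pool.Agent.SB

open Filter Topology

section basic

variable {α : Type}

lemma L1.summable (f : L1 α) : Summable fun x => |f x| := by
  have := (lp.memℓp f).summable (by simp)
  simpa using this

lemma L1.norm_eq (f : L1 α) : ‖f‖ = ∑' x, |f x| := by
  have := lp.norm_eq_tsum_rpow (p := 1) (by simp) f
  simpa using this

lemma Li.abs_le (g : Li α) (x : α) : |g x| ≤ ‖g‖ := by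
  have := lp.norm_apply_le_norm (p := ⊤) (by simp) g x
  simpa using this

lemma memL1_of_summable {f : α → ℝ} (hf : Summable fun x => |f x|) :
    Memℓp (E := fun _ : α => ℝ) f 1 := by
  refine memℓp_gen ?_
  simpa using hf

/-- Elements of `ℓ¹` from absolutely summable functions. -/
noncomputable def mkL1 (f : α → ℝ) (hf : Summable fun x => |f x|) : L1 α :=
  ⟨f, memL1_of_summable hf⟩

@[simp] lemma mkL1_apply (f : α → ℝ) (hf : Summable fun x => |f x|) (x : α) :
    mkL1 f hf x = f x := rfl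

lemma norm_mkL1 (f : α → ℝ) (hf : Summable fun x => |f x|) : ‖mkL1 f hf‖ = ∑' x, |f x| :=
  L1.norm_eq _

lemma memLi_of_bound {g : α → ℝ} (C : ℝ) (hg : ∀ x, |g x| ≤ C) :
    Memℓp (E := fun _ : α => ℝ) g ⊤ := by
  refine memℓp_infty ⟨C, ?_⟩
  rintro _ ⟨x, rfl⟩
  simpa using hg x

/-- Elements of `ℓ^∞` from bounded functions. -/
noncomputable def mkLi (g : α → ℝ) (C : ℝ) (hg : ∀ x, |g x| ≤ C) : Li α :=
  ⟨g, memLi_of_bound C hg⟩

@[simp] lemma mkLi_apply (g : α → ℝ) (C : ℝ) (hg : ∀ x, |g x| ≤ C) (x : α) :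
    mkLi g C hg x = g x := rfl

lemma norm_mkLi_le (g : α → ℝ) (C : ℝ) (hC : 0 ≤ C) (hg : ∀ x, |g x| ≤ C) :
    ‖mkLi g C hg‖ ≤ C :=
  lp.norm_le_of_forall_le hC fun x => by simpa using hg x

lemma norm_Li_le (g : Li α) (C : ℝ) (hC : 0 ≤ C) (hg : ∀ x, |g x| ≤ C) : ‖g‖ ≤ C :=
  lp.norm_le_of_forall_le hC fun x => by simpa using hg x

end basic

section ker

variable {α : Type}

lemma ker_summable_row (k : L1 (α × α)) (g : Li α) (x : α) :
    Summable fun y => |k (x, y) * g y| := by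
  have h1 : Summable fun y => |k (x, y)| := by
    have := (L1.summable k).prod_factor x
    simpa using this
  refine Summable.of_nonneg_of_le (fun _ => abs_nonneg _) (fun y => ?_) (h1.mul_right ‖g‖)
  rw [abs_mul]
  exact mul_le_mul_of_nonneg_left (Li.abs_le g y) (abs_nonneg _)

lemma ker_summable (k : L1 (α × α)) (g : Li α) :
    Summable fun p : α × α => |k p * g p.2| := by
  refine Summable.of_nonneg_of_le (fun _ => abs_nonneg _) (fun p => ?_)
    ((L1.summable k).mul_right ‖g‖)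
  rw [abs_mul]
  exact mul_le_mul_of_nonneg_left (Li.abs_le g p.2) (abs_nonneg _)

lemma ker_abs_le (k : L1 (α × α)) (g : Li α) (x : α) :
    |∑' y, k (x, y) * g y| ≤ ∑' y, |k (x, y) * g y| := by
  have h := ker_summable_row k g x
  have := norm_tsum_le_tsum_norm (f := fun y => k (x, y) * g y) (by simpa using h)
  simpa using this

lemma ker_sum (k : L1 (α × α)) (g : Li α) :
    Summable (fun x => |∑' y, k (x, y) * g y|) ∧
      ∑' x, |∑' y, k (x, y) * g y| ≤ ‖k‖ * ‖g‖ := by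
  have h1 : Summable fun x => ∑' y, |k (x, y) * g y| := (ker_summable k g).prod
  have h2 : Summable (fun x => |∑' y, k (x, y) * g y|) :=
    Summable.of_nonneg_of_le (fun _ => abs_nonneg _) (ker_abs_le k g) h1
  refine ⟨h2, (h2.tsum_le_tsum (ker_abs_le k g) h1).trans ?_⟩
  have h3 : ∑' x, ∑' y, |k (x, y) * g y| = ∑' p : α × α, |k p * g p.2| :=
    ((ker_summable k g).tsum_prod).symm
  rw [h3, L1.norm_eq, ← tsum_mul_right]
  refine (ker_summable k g).tsum_le_tsum (fun p => ?_) ((L1.summable k).mul_right ‖g‖)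
  rw [abs_mul]
  exact mul_le_mul_of_nonneg_left (Li.abs_le g p.2) (abs_nonneg _)

/-- The bilinear map of a kernel. -/
noncomputable def kerFun (k : L1 (α × α)) (g : Li α) : L1 α :=
  mkL1 (fun x => ∑' y, k (x, y) * g y) (ker_sum k g).1

lemma kerFun_apply (k : L1 (α × α)) (g : Li α) (x : α) :
    kerFun k g x = ∑' y, k (x, y) * g y := rfl

lemma norm_kerFun_le (k : L1 (α × α)) (g : Li α) : ‖kerFun k g‖ ≤ ‖k‖ * ‖g‖ := by
  rw [kerFun, norm_mkL1]
  exact (ker_sum k g).2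

/-- The kernel map, general index set. -/
theorem exists_kerL' (α : Type) : ∃ T : L1 (α × α) →L[ℝ] (Li α →L[ℝ] L1 α),
    (∀ k, ‖T k‖ ≤ ‖k‖) ∧ ∀ k g x, (T k g : α → ℝ) x = ∑' y, k (x, y) * g y := by
  let L : L1 (α × α) →ₗ[ℝ] Li α →ₗ[ℝ] L1 α :=
    LinearMap.mk₂ ℝ kerFun
      (fun k k' g => by
        ext x
        simp only [kerFun_apply, lp.coeFn_add, Pi.add_apply, add_mul]
        exact ((ker_summable_row k g x).of_abs).tsum_add ((ker_summable_row k' g x).of_abs))
      (fun c k g => by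
        ext x
        simp only [kerFun_apply, lp.coeFn_smul, Pi.smul_apply, smul_eq_mul, mul_assoc]
        rw [tsum_mul_left])
      (fun k g g' => by
        ext x
        simp only [kerFun_apply, lp.coeFn_add, Pi.add_apply, mul_add]
        exact ((ker_summable_row k g x).of_abs).tsum_add ((ker_summable_row k g' x).of_abs))
      (fun c k g => by
        ext x
        simp only [kerFun_apply, lp.coeFn_smul, Pi.smul_apply, smul_eq_mul]
        rw [← tsum_mul_left]
        exact tsum_congr fun y => by ring)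
  have hL : ∀ k g, ‖L k g‖ ≤ 1 * ‖k‖ * ‖g‖ := fun k g => by
    rw [one_mul]; exact norm_kerFun_le k g
  refine ⟨L.mkContinuous₂ 1 hL, fun k => ?_, fun k g x => ?_⟩
  · calc ‖L.mkContinuous₂ 1 hL k‖ ≤ ‖L.mkContinuous₂ 1 hL‖ * ‖k‖ :=
          ContinuousLinearMap.le_opNorm _ _
      _ ≤ 1 * ‖k‖ := by gcongr; exact L.mkContinuous₂_norm_le zero_le_one hL
      _ = ‖k‖ := one_mul _
  · rw [LinearMap.mkContinuous₂_apply]
    rfl

end ker

section conv

variable {Γ : Type} [AddCommGroup Γ]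

lemma conv_summable (R : Li Γ) (p : L1 Γ) (x : Γ) : Summable fun w => |R (x - w) * p w| := by
  refine Summable.of_nonneg_of_le (fun _ => abs_nonneg _) (fun w => ?_)
    ((L1.summable p).mul_left ‖R‖)
  rw [abs_mul]
  exact mul_le_mul_of_nonneg_right (Li.abs_le R _) (abs_nonneg _)

lemma conv_abs_le (R : Li Γ) (p : L1 Γ) (x : Γ) : |∑' w, R (x - w) * p w| ≤ ‖R‖ * ‖p‖ := by
  have h := conv_summable R p x
  have h1 := norm_tsum_le_tsum_norm (f := fun w => R (x - w) * p w) (by simpa using h)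
  simp only [Real.norm_eq_abs] at h1
  refine h1.trans ?_
  rw [L1.norm_eq, ← tsum_mul_left]
  refine h.tsum_le_tsum (fun w => ?_) ((L1.summable p).mul_left ‖R‖)
  rw [abs_mul]
  exact mul_le_mul_of_nonneg_right (Li.abs_le R _) (abs_nonneg _)

/-- Convolution with a bounded function. -/
noncomputable def convFun (R : Li Γ) (p : L1 Γ) : Li Γ :=
  mkLi (fun x => ∑' w, R (x - w) * p w) (‖R‖ * ‖p‖) (conv_abs_le R p)

lemma convFun_apply (R : Li Γ) (p : L1 Γ) (x : Γ) :
    convFun R p x = ∑' w, R (x - w) * p w := rfl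

lemma norm_convFun_le (R : Li Γ) (p : L1 Γ) : ‖convFun R p‖ ≤ ‖R‖ * ‖p‖ :=
  norm_mkLi_le _ _ (by positivity) _

theorem exists_convL' (Γ : Type) [AddCommGroup Γ] : ∃ T : Li Γ →L[ℝ] (L1 Γ →L[ℝ] Li Γ),
    (∀ R, ‖T R‖ ≤ ‖R‖) ∧ ∀ R p x, (T R p : Γ → ℝ) x = ∑' w, R (x - w) * p w := by
  let L : Li Γ →ₗ[ℝ] L1 Γ →ₗ[ℝ] Li Γ :=
    LinearMap.mk₂ ℝ convFun
      (fun k k' g => by
        ext x
        simp only [convFun_apply, lp.coeFn_add, Pi.add_apply, add_mul]
        exact ((conv_summable k g x).of_abs).tsum_add ((conv_summable k' g x).of_abs))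
      (fun c k g => by
        ext x
        simp only [convFun_apply, lp.coeFn_smul, Pi.smul_apply, smul_eq_mul, mul_assoc]
        rw [tsum_mul_left])
      (fun k g g' => by
        ext x
        simp only [convFun_apply, lp.coeFn_add, Pi.add_apply, mul_add]
        exact ((conv_summable k g x).of_abs).tsum_add ((conv_summable k g' x).of_abs))
      (fun c k g => by
        ext x
        simp only [convFun_apply, lp.coeFn_smul, Pi.smul_apply, smul_eq_mul]
        rw [← tsum_mul_left]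
        exact tsum_congr fun y => by ring)
  have hL : ∀ k g, ‖L k g‖ ≤ 1 * ‖k‖ * ‖g‖ := fun k g => by
    rw [one_mul]; exact norm_convFun_le k g
  refine ⟨L.mkContinuous₂ 1 hL, fun k => ?_, fun k g x => ?_⟩
  · calc ‖L.mkContinuous₂ 1 hL k‖ ≤ ‖L.mkContinuous₂ 1 hL‖ * ‖k‖ :=
          ContinuousLinearMap.le_opNorm _ _
      _ ≤ 1 * ‖k‖ := by gcongr; exact L.mkContinuous₂_norm_le zero_le_one hL
      _ = ‖k‖ := one_mul _
  · rw [LinearMap.mkContinuous₂_apply]
    rfl

end conv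

/-- The kernel `k` acts from `ℓ^∞` to `ℓ¹`. -/
theorem exists_kerL (D : ℕ) : ∃ T : L1 (Gam D × Gam D) →L[ℝ] (Li (Gam D) →L[ℝ] L1 (Gam D)),
    (∀ k, ‖T k‖ ≤ ‖k‖) ∧ ∀ k g x, (T k g : Gam D → ℝ) x = ∑' y, k (x, y) * g y :=
  exists_kerL' (Gam D)

/-- Convolution with a bounded function, from `ℓ¹` to `ℓ^∞`. -/
theorem exists_convL (D : ℕ) : ∃ T : Li (Gam D) →L[ℝ] (L1 (Gam D) →L[ℝ] Li (Gam D)),
    (∀ R, ‖T R‖ ≤ ‖R‖) ∧ ∀ R p x, (T R p : Gam D → ℝ) x = ∑' w, R (x - w) * p w :=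
  exists_convL' (Gam D)

/-- Evaluation at `0`. -/
theorem exists_evL (D : ℕ) : ∃ T : Li (Gam D) →L[ℝ] ℝ, ‖T‖ ≤ 1 ∧ ∀ g, T g = g 0 := by
  let L : Li (Gam D) →ₗ[ℝ] ℝ :=
    { toFun := fun g => g 0
      map_add' := fun g g' => by simp
      map_smul' := fun c g => by simp }
  have hL : ∀ g, ‖L g‖ ≤ 1 * ‖g‖ := fun g => by
    rw [one_mul]; exact Li.abs_le g 0
  exact ⟨L.mkContinuous 1 hL, L.mkContinuous_norm_le zero_le_one hL, fun g => rfl⟩

/-- The sum functional on `ℓ¹`. -/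
theorem exists_sumL (D : ℕ) : ∃ T : L1 (Gam D) →L[ℝ] ℝ, ‖T‖ ≤ 1 ∧ ∀ g, T g = ∑' x, g x := by
  let L : L1 (Gam D) →ₗ[ℝ] ℝ :=
    { toFun := fun g => ∑' x, g x
      map_add' := fun g g' => by
        simp only [lp.coeFn_add, Pi.add_apply]
        exact (L1.summable g).of_abs.tsum_add (L1.summable g').of_abs
      map_smul' := fun c g => by
        simp only [lp.coeFn_smul, Pi.smul_apply, smul_eq_mul, RingHom.id_apply]
        rw [tsum_mul_left] }
  have hL : ∀ g, ‖L g‖ ≤ 1 * ‖g‖ := fun g => by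
    rw [one_mul, L1.norm_eq]
    have h1 := norm_tsum_le_tsum_norm (f := fun w => g w) (by simpa using L1.summable g)
    simp only [Real.norm_eq_abs] at h1
    exact h1
  exact ⟨L.mkContinuous 1 hL, L.mkContinuous_norm_le zero_le_one hL, fun g => rfl⟩

end Pool.Agent.SB
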