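import Pool.Agent.SB.Lap
import Pool.Agent.SB.Coe
import Pool.Agent.SB.KSa

/-!
# The perturbation
-/

set_option autoImplicit false
set_option linter.unusedSectionVars false

namespace Pool.Agent.SB

open Finset Filter Topology

/-! ### The one-step coefficients at the line -/

/-- `(exp (β J) - 1) / q` -/
noncomputable def tJ (q : ℕ) (β J : ℝ) : ℝ := (Real.exp (β * J) - 1) / q

theorem prod_nb0 {D : ℕ} (f : Site D → ℝ) : ∏ y ∈ nb ((0, 0) : Site D), f y =
    (f (1, 0) * f (-1, 0)) * ∏ i, (f (0, Pi.single i 1) * f (0, Pi.single i (-1))) := by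
  unfold nb
  rw [prod_image (fun d _ d' _ h => dir_injective (add_left_cancel h)), Fintype.prod_prod_type,
    Fintype.prod_option]
  simp only [Fintype.prod_bool, Prod.mk_zero_zero, zero_add]
  rfl

theorem vv_on {D : ℕ} (β J : ℝ) (n : ℤ) : vv β J ((0, 0) : Site D) (n, 0) = Real.exp (β * J) - 1 := by
  unfold vv coup
  simp

theorem vv_off {D : ℕ} (β J : ℝ) {n : ℤ} {y : Gam D} (hy : y ≠ 0) :
    vv β J ((0, 0) : Site D) (n, y) = Real.exp (β * 1) - 1 := by
  unfold vv coup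
  simp [hy]

theorem prod_vv {D : ℕ} (q : ℕ) (β J : ℝ) :
    ∏ y ∈ nb ((0, 0) : Site D), (1 + vv β J (0, 0) y / q) =
      (1 + tJ q β J) ^ 2 * (1 + tJ q β 1) ^ (2 * D) := by
  rw [prod_nb0]
  have h1 : ∀ i : Fin D, (1 + vv β J ((0, 0) : Site D) (0, Pi.single i 1) / q) *
      (1 + vv β J ((0, 0) : Site D) (0, Pi.single i (-1)) / q) = (1 + tJ q β 1) ^ 2 := by
    intro i
    have h2 : (Pi.single i 1 : Gam D) ≠ 0 := by
      intro h
      have := congrFun h i
      simp at this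
    have h3 : (Pi.single i (-1) : Gam D) ≠ 0 := by
      intro h
      have := congrFun h i
      simp at this
    rw [vv_off β J h2, vv_off β J h3, tJ]
    ring
  rw [vv_on, vv_on, prod_congr rfl fun i _ => h1 i, prod_const, card_univ, Fintype.card_fin, ← pow_mul]
  simp only [tJ]
  ring

section coef
variable {D q : ℕ} [NeZero q] {β J J' : ℝ}

theorem tJ_nonneg (hβ : 0 < β) (hJ : 0 ≤ J) : 0 ≤ tJ q β J := by
  unfold tJ
  have : 1 ≤ Real.exp (β * J) := Real.one_le_exp (by positivity)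
  have h2 : (0 : ℝ) ≤ q := Nat.cast_nonneg q
  exact div_nonneg (by linarith) h2

theorem cc_line (hβ : 0 < β) (hJ : 0 ≤ J) {n : ℤ} (hn : ((n, 0) : Site D) ∈ nb ((0, 0) : Site D)) :
    cc q β J ((0, 0) : Site D) (n, 0) =
      tJ q β J * (1 + tJ q β J) * (1 + tJ q β 1) ^ (2 * D) := by
  have h1 := cc_eq D q β J (0, 0) (n, 0) hn
  have h2 := mul_prod_erase (nb ((0, 0) : Site D)) (fun y => 1 + vv β J (0, 0) y / q) hn
  rw [prod_vv] at h2
  simp only [vv_on] at h1 h2
  have ht := tJ_nonneg (q := q) hβ hJ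
  have h3 : (1 + (Real.exp (β * J) - 1) / q) = 1 + tJ q β J := rfl
  rw [h3] at h2
  have h4 : ∏ y' ∈ (nb ((0, 0) : Site D)).erase (n, 0), (1 + vv β J (0, 0) y' / q) =
      (1 + tJ q β J) * (1 + tJ q β 1) ^ (2 * D) := by
    have h5 : (1 + tJ q β J) ≠ 0 := by positivity
    refine mul_left_cancel₀ h5 ?_
    rw [h2]
    ring
  rw [h1, h4]
  unfold tJ
  ring

theorem cc_off (hβ : 0 < β) {y : Gam D} (hy : y ≠ 0)
    (hn : ((0, y) : Site D) ∈ nb ((0, 0) : Site D)) :
    cc q β J ((0, 0) : Site D) (0, y) * (1 + tJ q β 1) =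
      tJ q β 1 * ((1 + tJ q β J) ^ 2 * (1 + tJ q β 1) ^ (2 * D)) := by
  have h1 := cc_eq D q β J (0, 0) (0, y) hn
  have h2 := mul_prod_erase (nb ((0, 0) : Site D)) (fun y => 1 + vv β J (0, 0) y / q) hn
  rw [prod_vv] at h2
  simp only [vv_off β J hy] at h1 h2
  rw [h1, ← h2]
  unfold tJ
  ring

theorem kap_zero : kap q β J ((0, 0) : Site D) =
    (1 + tJ q β J) ^ 2 * (1 + tJ q β 1) ^ (2 * D) - 1 := by
  rw [kap_eq, prod_vv]

theorem line_mem (D : ℕ) : ((1, 0) : Site D) ∈ nb ((0, 0) : Site D) ∧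
    ((-1, 0) : Site D) ∈ nb ((0, 0) : Site D) := by
  constructor
  · exact e1_mem_nb D
  · unfold nb
    rw [mem_image]
    exact ⟨(none, false), mem_univ _, by simp [dir]⟩

/-- Off the line nothing depends on the coupling. -/
theorem cc_indep {x : Site D} (hx : x.2 ≠ 0) (y : Site D) : cc q β J x y = cc q β J' x y := by
  unfold cc tB vv
  refine sum_congr rfl fun B _ => prod_congr rfl fun y _ => ?_
  rw [coup_off (J := J) (J' := J') hx]

theorem kap_indep {x : Site D} (hx : x.2 ≠ 0) : kap q β J x = kap q β J' x := by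
  unfold kap tB vv
  refine sum_congr rfl fun B _ => prod_congr rfl fun y _ => ?_
  rw [coup_off (J := J) (J' := J') hx]

theorem dz_indep (z : ℝ) {x : Gam D} (hx : x ≠ 0) (y : Gam D) :
    dz D q β J z x y = dz D q β J' z x y := by
  unfold dz
  rw [cc_indep (J := J) (J' := J') (x := ((0, x) : Site D)) hx,
    cc_indep (J := J) (J' := J') (x := ((0, x) : Site D)) hx,
    cc_indep (J := J) (J' := J') (x := ((0, x) : Site D)) hx,
    kap_indep (J := J) (J' := J') (x := ((0, x) : Site D)) hx]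

/-- `z`-independence off the diagonal -/
theorem dz_off (z z' : ℝ) {x y : Gam D} (h : y ≠ x) : dz D q β J z x y = dz D q β J z' x y := by
  unfold dz
  rw [if_neg h, if_neg h]

/-- the increments of `t` -/
theorem tJ_diff (hβ : 0 < β) (hβ1 : β ≤ 1 / 16) (hJ' : 0 ≤ J') (h : J' ≤ J) (hJ2 : J ≤ 2) :
    β * (J - J') / q ≤ tJ q β J - tJ q β J' ∧ tJ q β J - tJ q β J' ≤ 2 * β * (J - J') / q := by
  have hq : (0 : ℝ) < q := by exact_mod_cast Nat.pos_of_ne_zero (NeZero.ne q)
  have e1 : tJ q β J - tJ q β J' = (Real.exp (β * J') * (Real.exp (β * (J - J')) - 1)) / q := by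
    unfold tJ
    rw [mul_sub, mul_one, ← Real.exp_add]
    rw [← sub_div]
    congr 1
    ring_nf
  rw [e1]
  have h0 : 0 ≤ J - J' := sub_nonneg.2 h
  have h1 : 0 ≤ β * (J - J') := by positivity
  have h2 : β * (J - J') ≤ Real.exp (β * (J - J')) - 1 := by
    have := Real.add_one_le_exp (β * (J - J'))
    linarith
  have h3 : 1 ≤ Real.exp (β * J') := Real.one_le_exp (by positivity)
  have h7 : β * (J - J') ≤ 1 / 8 := by nlinarith
  have h4 : Real.exp (β * (J - J')) - 1 ≤ (3 / 2) * (β * (J - J')) := by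
    have h5 := Real.abs_exp_sub_one_sub_id_le (x := β * (J - J')) (by
      rw [abs_of_nonneg h1]
      linarith)
    have h6 := (abs_le.1 h5).2
    have h8 : (β * (J - J')) ^ 2 ≤ (1 / 2) * (β * (J - J')) := by nlinarith
    linarith
  have h5 : Real.exp (β * J') ≤ 4 / 3 := by
    have h6 := Real.abs_exp_sub_one_sub_id_le (x := β * J') (by
      rw [abs_of_nonneg (by positivity)]
      nlinarith)
    have h7 := (abs_le.1 h6).2
    have h8 : β * J' ≤ 1 / 8 := by nlinarith
    have h9 : 0 ≤ β * J' := by positivity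
    nlinarith
  constructor
  · refine div_le_div_of_nonneg_right ?_ hq.le
    calc β * (J - J') ≤ Real.exp (β * (J - J')) - 1 := h2
      _ ≤ Real.exp (β * J') * (Real.exp (β * (J - J')) - 1) :=
        le_mul_of_one_le_left (h1.trans h2) h3
  · refine div_le_div_of_nonneg_right ?_ hq.le
    calc Real.exp (β * J') * (Real.exp (β * (J - J')) - 1) ≤
          (4 / 3) * ((3 / 2) * (β * (J - J'))) :=
        mul_le_mul h5 h4 (h1.trans h2) (by norm_num)
      _ = 2 * β * (J - J') := by ring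

theorem tJ_zero : tJ q β 0 = 0 := by simp [tJ]

theorem tJ_le (hβ : 0 < β) (hβ1 : β ≤ 1 / 16) (hJ : 0 ≤ J) (hJ2 : J ≤ 2) :
    tJ q β J ≤ 1 / 4 ∧ tJ q β J ≤ 2 * β * J / q := by
  have h1 := (tJ_diff (q := q) hβ hβ1 le_rfl hJ hJ2).2
  rw [tJ_zero, sub_zero, sub_zero] at h1
  refine ⟨h1.trans ?_, h1⟩
  have hq : (1 : ℝ) ≤ q := by exact_mod_cast NeZero.one_le
  rw [div_le_iff₀ (by linarith)]
  nlinarith

theorem pow_E (hβ : 0 < β) (hβ1 : ((D : ℝ) + 1) * β ≤ 1 / 16) :
    1 ≤ (1 + tJ q β 1) ^ (2 * D) ∧ (1 + tJ q β 1) ^ (2 * D) ≤ 2 := by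
  have hD : (0 : ℝ) ≤ D := Nat.cast_nonneg D
  have hb : β ≤ 1 / 16 := by nlinarith
  have h0 := tJ_nonneg (q := q) hβ (zero_le_one' ℝ)
  have h1 := (tJ_le (q := q) hβ hb (zero_le_one' ℝ) one_le_two).2
  have hq : (1 : ℝ) ≤ q := by exact_mod_cast NeZero.one_le
  have h2 : tJ q β 1 ≤ 2 * β := h1.trans (by
    rw [div_le_iff₀ (by linarith)]
    nlinarith)
  refine ⟨one_le_pow₀ (by linarith), ?_⟩
  have h3 : 1 + tJ q β 1 ≤ Real.exp (2 * β) := by
    have := Real.add_one_le_exp (2 * β)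
    linarith
  calc (1 + tJ q β 1) ^ (2 * D) ≤ (Real.exp (2 * β)) ^ (2 * D) :=
        pow_le_pow_left₀ (by linarith) h3 _
    _ = Real.exp (((2 * D : ℕ) : ℝ) * (2 * β)) := by rw [← Real.exp_nat_mul]
    _ ≤ Real.exp (1 / 4) := by
        refine Real.exp_le_exp.2 ?_
        push_cast
        nlinarith
    _ ≤ 2 := by
        have h6 := Real.abs_exp_sub_one_sub_id_le (x := (1 / 4 : ℝ)) (by
          rw [abs_of_nonneg (by norm_num)]
          norm_num)
        have h7 := (abs_le.1 h6).2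
        norm_num at h7
        linarith

/-- the coefficient along the line -/
noncomputable def aJ (D q : ℕ) (β J : ℝ) : ℝ := tJ q β J * (1 + tJ q β J) * (1 + tJ q β 1) ^ (2 * D)

theorem aJ_diff (hβ : 0 < β) (hβ1 : ((D : ℝ) + 1) * β ≤ 1 / 16) (hJ' : 0 ≤ J') (h : J' ≤ J)
    (hJ2 : J ≤ 2) :
    β * (J - J') / q ≤ aJ D q β J - aJ D q β J' ∧
      aJ D q β J - aJ D q β J' ≤ 8 * β * (J - J') / q ∧
      0 ≤ kap q β J ((0, 0) : Site D) - kap q β J' ((0, 0) : Site D) ∧
      kap q β J ((0, 0) : Site D) - kap q β J' ((0, 0) : Site D) ≤ 12 * β * (J - J') / q := by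
  have hD : (0 : ℝ) ≤ D := Nat.cast_nonneg D
  have hb : β ≤ 1 / 16 := by nlinarith
  have hq : (0 : ℝ) < q := by exact_mod_cast Nat.pos_of_ne_zero (NeZero.ne q)
  obtain ⟨d1, d2⟩ := tJ_diff (q := q) hβ hb hJ' h hJ2
  obtain ⟨e1, e2⟩ := pow_E (D := D) (q := q) hβ hβ1
  have s0 := tJ_nonneg (q := q) hβ (hJ'.trans h)
  have s0' := tJ_nonneg (q := q) hβ hJ'
  have s1 := (tJ_le (q := q) hβ hb (hJ'.trans h) hJ2).1
  have s1' := (tJ_le (q := q) hβ hb hJ' (h.trans hJ2)).1
  rw [kap_zero, kap_zero]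
  unfold aJ
  set E := (1 + tJ q β 1) ^ (2 * D)
  set s := tJ q β J
  set s' := tJ q β J'
  have hδ : 0 ≤ s - s' := le_trans (by have := sub_nonneg.2 h; positivity) d1
  have k1 : s * (1 + s) * E - s' * (1 + s') * E = (s - s') * ((1 + s + s') * E) := by ring
  have k2 : (1 + s) ^ 2 * E - 1 - ((1 + s') ^ 2 * E - 1) = (s - s') * ((2 + s + s') * E) := by ring
  rw [k1, k2]
  have f1 : 1 ≤ (1 + s + s') * E := by nlinarith
  have f2 : (1 + s + s') * E ≤ 4 := by nlinarith
  have f3 : 0 ≤ (2 + s + s') * E := by positivity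
  have f4 : (2 + s + s') * E ≤ 6 := by nlinarith
  have e8 : 8 * β * (J - J') / q = 4 * (2 * β * (J - J') / q) := by ring
  have e12 : 12 * β * (J - J') / q = 6 * (2 * β * (J - J') / q) := by ring
  refine ⟨?_, ?_, mul_nonneg hδ f3, ?_⟩
  · exact d1.trans (le_mul_of_one_le_right hδ f1)
  · rw [e8]
    nlinarith
  · rw [e12]
    nlinarith

theorem dz_zero (hβ : 0 < β) (hJ : 0 ≤ J) (z : ℝ) :
    dz D q β J z 0 0 = (z + z⁻¹) * aJ D q β J - kap q β J ((0, 0) : Site D) := by
  unfold dz aJ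
  rw [if_pos rfl, cc_line hβ hJ (line_mem D).1, cc_line hβ hJ (line_mem D).2]
  ring

theorem cc_off_diff (hβ : 0 < β) (hβ1 : ((D : ℝ) + 1) * β ≤ 1 / 16) (hJ' : 0 ≤ J') (h : J' ≤ J)
    (hJ2 : J ≤ 2) {y : Gam D} (hy : y ≠ 0) (hn : ((0, y) : Site D) ∈ nb ((0, 0) : Site D)) :
    |cc q β J ((0, 0) : Site D) (0, y) - cc q β J' ((0, 0) : Site D) (0, y)| ≤
      24 * β ^ 2 * (J - J') := by
  have hD : (0 : ℝ) ≤ D := Nat.cast_nonneg D
  have hb : β ≤ 1 / 16 := by nlinarith
  have hq1 : (1 : ℝ) ≤ q := by exact_mod_cast NeZero.one_le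
  have h1 := cc_off (q := q) (J := J) hβ hy hn
  have h2 := cc_off (q := q) (J := J') hβ hy hn
  obtain ⟨-, -, k3, k4⟩ := aJ_diff (D := D) (q := q) hβ hβ1 hJ' h hJ2
  rw [kap_zero, kap_zero] at k3 k4
  have u0 := tJ_nonneg (q := q) hβ (zero_le_one' ℝ)
  have u1 := (tJ_le (q := q) hβ hb (zero_le_one' ℝ) one_le_two).2
  have u2 : tJ q β 1 ≤ 2 * β := u1.trans (by
    rw [div_le_iff₀ (by linarith)]
    nlinarith)
  have k5 : 12 * β * (J - J') / q ≤ 12 * β * (J - J') := by
    rw [div_le_iff₀ (by linarith)]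
    have : 0 ≤ 12 * β * (J - J') := by have := sub_nonneg.2 h; positivity
    nlinarith
  set X := cc q β J ((0, 0) : Site D) (0, y)
  set Y := cc q β J' ((0, 0) : Site D) (0, y)
  set P := (1 + tJ q β J) ^ 2 * (1 + tJ q β 1) ^ (2 * D)
  set P' := (1 + tJ q β J') ^ 2 * (1 + tJ q β 1) ^ (2 * D)
  set u := tJ q β 1
  have h3 : (X - Y) * (1 + u) = u * (P - P') := by linear_combination h1 - h2
  have hP : 0 ≤ P - P' := by linarith
  have hXY : 0 ≤ X - Y := by
    by_contra hcon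
    have h4 : (X - Y) * (1 + u) < 0 := mul_neg_of_neg_of_pos (not_le.1 hcon) (by linarith)
    have h5 := mul_nonneg u0 hP
    linarith
  rw [abs_of_nonneg hXY]
  have h4 : X - Y ≤ (X - Y) * (1 + u) := le_mul_of_one_le_right hXY (by linarith)
  have h5 : P - P' ≤ 12 * β * (J - J') := by linarith
  calc X - Y ≤ u * (P - P') := by rw [← h3]; exact h4
    _ ≤ (2 * β) * (12 * β * (J - J')) := mul_le_mul u2 h5 hP (by positivity)
    _ = _ := by ring

theorem cc_off_diff' (hβ : 0 < β) (hβ1 : ((D : ℝ) + 1) * β ≤ 1 / 16) (hJ' : 0 ≤ J') (hJ : 0 ≤ J)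
    (hJ2 : J ≤ 2) (hJ2' : J' ≤ 2) {y : Gam D} (hy : y ≠ 0)
    (hn : ((0, y) : Site D) ∈ nb ((0, 0) : Site D)) :
    |cc q β J ((0, 0) : Site D) (0, y) - cc q β J' ((0, 0) : Site D) (0, y)| ≤
      24 * β ^ 2 * |J - J'| := by
  rcases le_total J' J with h | h
  · rw [abs_of_nonneg (sub_nonneg.2 h)]
    exact cc_off_diff hβ hβ1 hJ' h hJ2 hy hn
  · rw [abs_sub_comm, abs_sub_comm J J', abs_of_nonneg (sub_nonneg.2 h)]
    exact cc_off_diff hβ hβ1 hJ h hJ2' hy hn

/-- the sites next to the line -/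
noncomputable def ring0 (D : ℕ) : Finset (Gam D × Gam D) :=
  (nb ((0, 0) : Site D)).image fun y => (0, y.2)

theorem card_ring0 (D : ℕ) : ((ring0 D).card : ℝ) ≤ 2 * (D + 1) := by
  have h1 : (ring0 D).card ≤ 2 * (D + 1) := card_image_le.trans (card_nb _).le
  exact_mod_cast h1

/-- the difference of the one-step kernels off the origin -/
theorem dz_diff (hβ : 0 < β) (hβ1 : ((D : ℝ) + 1) * β ≤ 1 / 16) (hJ' : 0 ≤ J') (hJ : 0 ≤ J)
    (hJ2 : J ≤ 2) (hJ2' : J' ≤ 2) (z : ℝ) {p : Gam D × Gam D} (hp : p ≠ (0, 0)) :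
    |dz D q β J z p.1 p.2 - dz D q β J' z p.1 p.2| ≤
      if p ∈ ring0 D then 24 * β ^ 2 * |J - J'| else 0 := by
  obtain ⟨x, y⟩ := p
  dsimp only
  by_cases hx : x = 0
  · subst hx
    have hy : y ≠ 0 := fun h => hp (by rw [h])
    unfold dz
    rw [if_neg hy, if_neg hy]
    by_cases hn : ((0, y) : Site D) ∈ nb ((0, 0) : Site D)
    · have hm : ((0, y) : Gam D × Gam D) ∈ ring0 D := mem_image.2 ⟨(0, y), hn, rfl⟩
      rw [if_pos hn, if_pos hn, if_pos hm]
      exact cc_off_diff' hβ hβ1 hJ' hJ hJ2 hJ2' hy hn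
    · rw [if_neg hn, if_neg hn, sub_self, abs_zero]
      split_ifs
      · positivity
      · exact le_rfl
  · rw [dz_indep (J := J) (J' := J') z hx, sub_self, abs_zero]
    split_ifs
    · positivity
    · exact le_rfl

end coef

/-- a term is at most the sum -/
theorem abs_le_tsum {ι : Type} {f : ι → ℝ} (h : Summable fun i => |f i|) (i : ι) :
    |f i| ≤ ∑' i, |f i| := h.le_tsum i fun _ _ => abs_nonneg _

/-- The perturbation (`V' = Vf`, `v = vsc`). -/
theorem pert (D q : ℕ) [NeZero q] (hq : 2 ≤ q) : ∃ β₀ K : ℝ, 0 < β₀ ∧ 0 < K ∧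
    ∀ β, 0 < β → β < β₀ →
      (∀ J z, 0 ≤ J → J ≤ 2 → 1 ≤ z → z ≤ zm q β → Summable fun p => |Vf D q β J z p|) ∧
      (∀ J J' z, 0 ≤ J → J ≤ 2 → 0 ≤ J' → J' ≤ 2 → 1 ≤ z → z ≤ zm q β →
        ∑' p, |Vf D q β J z p - Vf D q β J' z p| ≤ K * β ^ 2 * |J - J'|) ∧
      (∀ J z z', 0 ≤ J → J ≤ 2 → za D β ≤ z → z ≤ z' → z' ≤ zm q β →
        ∑' p, |Vf D q β J z' p - Vf D q β J z p| ≤ K * β ^ 3 * (z' - z)) ∧
      (∀ J J' z, 0 ≤ J' → J' ≤ J → J ≤ 2 → za D β ≤ z → z ≤ zm q β →
        (J - J') / K ≤ vsc D q β J z - vsc D q β J' z ∧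
        vsc D q β J z - vsc D q β J' z ≤ K * (J - J')) ∧
      (∀ J z z', 1 ≤ J → J ≤ 2 → za D β ≤ z → z ≤ z' → z' ≤ zm q β →
        0 ≤ vsc D q β J z' - vsc D q β J z ∧ vsc D q β J z' - vsc D q β J z ≤ z' - z) ∧
      ∀ J, 1 ≤ J → J ≤ 2 → vsc D q β J (za D β) ≤ 1 / 8 := by
  obtain ⟨βS, K₀, hβS, hK₀, hSd⟩ := Sz_diff D q hq
  have hD : (0 : ℝ) ≤ D := Nat.cast_nonneg D
  have hq2 : (2 : ℝ) ≤ q := by exact_mod_cast hq
  have hq0 : (0 : ℝ) < q := by linarith
  set G : ℝ := 512 * ((D : ℝ) + 1) * q * (12 + K₀) with hG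
  have hG0 : 0 < G := by positivity
  set K : ℝ := K₀ + 48 * ((D : ℝ) + 1) + 256 * ((D : ℝ) + 1) * q + 40 with hK
  have hKpos : 0 < K := by positivity
  refine ⟨min βS (1 / G), K, lt_min hβS (by positivity), hKpos, ?_⟩
  intro β hβ hβ0
  have hβ1 : β < βS := hβ0.trans_le (min_le_left _ _)
  have hβ2 : β < 1 / G := hβ0.trans_le (min_le_right _ _)
  rw [lt_div_iff₀ hG0] at hβ2
  -- the smallness conditions
  have hsm : ((D : ℝ) + 1) * q * (β * (12 + K₀)) < 1 / 512 := by
    have : β * G = 512 * (((D : ℝ) + 1) * q * (β * (12 + K₀))) := by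
      rw [hG]
      ring
    linarith
  have hb12 : 0 < β * (12 + K₀) := by positivity
  have hDq : 2 ≤ ((D : ℝ) + 1) * q := by
    clear * - hD hq2
    nlinarith
  have hb : β * (12 + K₀) < 1 / 1024 := by
    have := mul_le_mul_of_nonneg_right hDq hb12.le
    linarith
  have hsplit : β * (12 + K₀) = 12 * β + K₀ * β := by ring
  have hKb0 : 0 < K₀ * β := by positivity
  have hK0b : K₀ * β < 1 / 1024 := by linarith
  have hbb : β < 1 / 4096 := by linarith
  have hDb3 : ((D : ℝ) + 1) * β < 1 / 12288 := by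
    have h1 : ((D : ℝ) + 1) * β * 24 ≤ ((D : ℝ) + 1) * β * (q * (12 + K₀)) := by
      refine mul_le_mul_of_nonneg_left ?_ (by positivity)
      clear * - hq2 hK₀
      nlinarith
    have h2 : ((D : ℝ) + 1) * β * (q * (12 + K₀)) = ((D : ℝ) + 1) * q * (β * (12 + K₀)) := by ring
    linarith
  have hDb : ((D : ℝ) + 1) * β ≤ 1 / 16 := by linarith
  have hDb2 : 256 * (((D : ℝ) + 1) * β) ≤ 1 := by linarith
  have hKb2 : K₀ * β ^ 2 ≤ K₀ * β := by
    refine mul_le_mul_of_nonneg_left ?_ hK₀.le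
    clear * - hβ hbb
    nlinarith
  have hza : za D β = 1 / (128 * (((D : ℝ) + 1) * β)) := by
    unfold za rr
    congr 1
    ring
  have hDβ0 : 0 < ((D : ℝ) + 1) * β := by positivity
  have hza2 : 2 ≤ za D β := by
    rw [hza, le_div_iff₀ (by positivity)]
    linarith
  -- the difference of two couplings
  have hE : ∀ J J' z, 0 ≤ J → J ≤ 2 → 0 ≤ J' → J' ≤ 2 → 1 ≤ z → z ≤ zm q β →
      Summable (fun p => |Vf D q β J z p - Vf D q β J' z p|) ∧
      ∑' p, |Vf D q β J z p - Vf D q β J' z p| ≤ K * β ^ 2 * |J - J'| := by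
    intro J J' z hJ hJ2 hJ' hJ2' h1 hz
    obtain ⟨a1, a2⟩ := (hSd β hβ hβ1 J J' hJ hJ2 hJ' hJ2').1 z h1 hz
    have b1 : ∀ p, |Vf D q β J z p - Vf D q β J' z p| ≤
        (if p ∈ ring0 D then 24 * β ^ 2 * |J - J'| else 0) +
          |Sz D q β J z p.1 p.2 - Sz D q β J' z p.1 p.2| := by
      intro p
      unfold Vf
      by_cases hp : p = (0, 0)
      · rw [if_pos hp, if_pos hp, sub_self, abs_zero]
        refine add_nonneg ?_ (abs_nonneg _)
        split_ifs
        · positivity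
        · exact le_rfl
      · rw [if_neg hp, if_neg hp]
        have e1 : (Ez D q β J z p.1 p.2 - Ez D q β 1 z p.1 p.2) -
            (Ez D q β J' z p.1 p.2 - Ez D q β 1 z p.1 p.2) =
            (dz D q β J z p.1 p.2 - dz D q β J' z p.1 p.2) +
            (Sz D q β J z p.1 p.2 - Sz D q β J' z p.1 p.2) := by
          unfold Ez
          ring
        rw [e1]
        exact (abs_add_le _ _).trans (add_le_add (dz_diff hβ hDb hJ' hJ hJ2 hJ2' z hp) le_rfl)
    have c1 : Summable fun p : Gam D × Gam D => if p ∈ ring0 D then 24 * β ^ 2 * |J - J'| else 0 :=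
      summable_of_ne_finset_zero (s := ring0 D) fun p hp => if_neg hp
    have c2 : ∑' p : Gam D × Gam D, (if p ∈ ring0 D then 24 * β ^ 2 * |J - J'| else 0) ≤
        48 * ((D : ℝ) + 1) * β ^ 2 * |J - J'| := by
      rw [tsum_eq_sum (s := ring0 D) fun p hp => if_neg hp, sum_congr rfl fun p hp => if_pos hp,
        sum_const, nsmul_eq_mul]
      have c3 := card_ring0 D
      calc ((ring0 D).card : ℝ) * (24 * β ^ 2 * |J - J'|) ≤
            (2 * (D + 1)) * (24 * β ^ 2 * |J - J'|) := by gcongr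
        _ = _ := by ring
    have s1 := Summable.of_nonneg_of_le (fun p => abs_nonneg _) b1 (c1.add a1)
    refine ⟨s1, (s1.tsum_le_tsum b1 (c1.add a1)).trans ?_⟩
    rw [c1.tsum_add a1]
    have hc : 0 ≤ β ^ 2 * |J - J'| := by positivity
    have hKK : 48 * ((D : ℝ) + 1) + K₀ ≤ K := by
      rw [hK]
      have : (0 : ℝ) ≤ 256 * ((D : ℝ) + 1) * q + 40 := by positivity
      linarith
    calc _ ≤ 48 * ((D : ℝ) + 1) * β ^ 2 * |J - J'| + K₀ * β ^ 2 * |J - J'| := add_le_add c2 a2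
      _ = (48 * ((D : ℝ) + 1) + K₀) * (β ^ 2 * |J - J'|) := by ring
      _ ≤ K * (β ^ 2 * |J - J'|) := mul_le_mul_of_nonneg_right hKK hc
      _ = _ := by ring
  have hV1 : ∀ z p, Vf D q β 1 z p = 0 := by
    intro z p
    unfold Vf
    split_ifs
    · rfl
    · exact sub_self _
  -- the scalar part
  have hv : ∀ J J' z, 0 ≤ J → 0 ≤ J' → vsc D q β J z - vsc D q β J' z =
      (z + z⁻¹) * (aJ D q β J - aJ D q β J') -
      (kap q β J ((0, 0) : Site D) - kap q β J' ((0, 0) : Site D)) +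
      (Sz D q β J z 0 0 - Sz D q β J' z 0 0) := by
    intro J J' z hJ hJ'
    unfold vsc Ez
    rw [dz_zero hβ hJ, dz_zero hβ hJ']
    ring
  have hS0 : ∀ J J' z, 0 ≤ J → J ≤ 2 → 0 ≤ J' → J' ≤ 2 → 1 ≤ z → z ≤ zm q β →
      |Sz D q β J z 0 0 - Sz D q β J' z 0 0| ≤ K₀ * β ^ 2 * |J - J'| := by
    intro J J' z hJ hJ2 hJ' hJ2' h1 hz
    obtain ⟨a1, a2⟩ := (hSd β hβ hβ1 J J' hJ hJ2 hJ' hJ2').1 z h1 hz
    exact (abs_le_tsum a1 (0, 0)).trans a2
  have hSz : ∀ J z z', 0 ≤ J → J ≤ 2 → za D β ≤ z → z ≤ z' → z' ≤ zm q β →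
      Summable (fun p : Gam D × Gam D => |(Sz D q β J z' p.1 p.2 - Sz D q β 1 z' p.1 p.2) -
          (Sz D q β J z p.1 p.2 - Sz D q β 1 z p.1 p.2)|) ∧
      ∑' p : Gam D × Gam D, |(Sz D q β J z' p.1 p.2 - Sz D q β 1 z' p.1 p.2) -
          (Sz D q β J z p.1 p.2 - Sz D q β 1 z p.1 p.2)| ≤ K₀ * β ^ 3 * (z' - z) * |J - 1| := by
    intro J z z' hJ hJ2 h1 h2 h3
    obtain ⟨a0, a3⟩ := hSd β hβ hβ1 J 1 hJ hJ2 zero_le_one one_le_two
    have a1 := (a0 z' (by linarith) h3).1
    have a2 := (a0 z (by linarith) (h2.trans h3)).1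
    refine ⟨Summable.of_nonneg_of_le (fun p => abs_nonneg _) (fun p => ?_) (a1.add a2),
      a3 z z' h1 h2 h3⟩
    exact abs_sub _ _
  refine ⟨?_, fun J J' z hJ hJ2 hJ' hJ2' h1 hz => (hE J J' z hJ hJ2 hJ' hJ2' h1 hz).2, ?_, ?_, ?_, ?_⟩
  · intro J z hJ hJ2 h1 hz
    have := (hE J 1 z hJ hJ2 zero_le_one one_le_two h1 hz).1
    simpa only [hV1, sub_zero] using this
  · intro J z z' hJ hJ2 h1 h2 h3
    obtain ⟨s1, s2⟩ := hSz J z z' hJ hJ2 h1 h2 h3
    have b1 : ∀ p, |Vf D q β J z' p - Vf D q β J z p| ≤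
        |(Sz D q β J z' p.1 p.2 - Sz D q β 1 z' p.1 p.2) -
          (Sz D q β J z p.1 p.2 - Sz D q β 1 z p.1 p.2)| := by
      intro p
      unfold Vf
      by_cases hp : p = (0, 0)
      · rw [if_pos hp, if_pos hp, sub_self, abs_zero]
        exact abs_nonneg _
      · rw [if_neg hp, if_neg hp]
        have e1 : (dz D q β J z' p.1 p.2 - dz D q β 1 z' p.1 p.2) -
            (dz D q β J z p.1 p.2 - dz D q β 1 z p.1 p.2) = 0 := by
          by_cases hx : p.1 = 0
          · have hy : p.2 ≠ p.1 := by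
              intro h
              apply hp
              rw [hx] at h
              exact Prod.ext hx h
            rw [dz_off z' z hy, dz_off (J := 1) z' z hy, sub_self]
          · rw [dz_indep (J := J) (J' := 1) z' hx, dz_indep (J := J) (J' := 1) z hx, sub_self,
              sub_self, sub_self]
        have e2 : (Ez D q β J z' p.1 p.2 - Ez D q β 1 z' p.1 p.2) -
            (Ez D q β J z p.1 p.2 - Ez D q β 1 z p.1 p.2) =
            ((dz D q β J z' p.1 p.2 - dz D q β 1 z' p.1 p.2) -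
              (dz D q β J z p.1 p.2 - dz D q β 1 z p.1 p.2)) +
            ((Sz D q β J z' p.1 p.2 - Sz D q β 1 z' p.1 p.2) -
              (Sz D q β J z p.1 p.2 - Sz D q β 1 z p.1 p.2)) := by
          unfold Ez
          ring
        rw [e2, e1, zero_add]
    have s3 := Summable.of_nonneg_of_le (fun p => abs_nonneg _) b1 s1
    refine (s3.tsum_le_tsum b1 s1).trans (s2.trans ?_)
    have hJ1 : |J - 1| ≤ 1 := abs_le.2 ⟨by linarith, by linarith⟩
    have h6 : 0 ≤ z' - z := sub_nonneg.2 h2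
    have h7 : 0 ≤ β ^ 3 * (z' - z) := by positivity
    calc K₀ * β ^ 3 * (z' - z) * |J - 1| ≤ K₀ * β ^ 3 * (z' - z) * 1 := by gcongr
      _ = K₀ * (β ^ 3 * (z' - z)) := by ring
      _ ≤ K * (β ^ 3 * (z' - z)) := by
          refine mul_le_mul_of_nonneg_right ?_ h7
          rw [hK]
          have : 0 ≤ 48 * ((D : ℝ) + 1) + 256 * ((D : ℝ) + 1) * q + 40 := by positivity
          linarith
      _ = _ := by ring
  · intro J J' z hJ' hJJ hJ2 h1 hz
    have hJ : 0 ≤ J := hJ'.trans hJJ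
    have hd : 0 ≤ J - J' := sub_nonneg.2 hJJ
    obtain ⟨k1, k2, k3, k4⟩ := aJ_diff (D := D) (q := q) hβ hDb hJ' hJJ hJ2
    have k5 := hS0 J J' z hJ hJ2 hJ' (hJJ.trans hJ2) (by linarith) hz
    rw [abs_of_nonneg hd] at k5
    obtain ⟨k6, k7⟩ := abs_le.1 k5
    rw [hv J J' z hJ hJ']
    have hz0 : 0 < z := by linarith
    have hzi : 0 < z⁻¹ := by positivity
    have hzi1 : z⁻¹ ≤ 1 := inv_le_one_of_one_le₀ (by linarith)
    have hbq : 12 * β * (J - J') / q ≤ 12 * β * (J - J') :=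
      div_le_self (by positivity) (by linarith)
    have hA0 : 0 ≤ β * (J - J') / q := by positivity
    constructor
    · -- lower bound
      have l1 : za D β * (β * (J - J') / q) = (J - J') / (128 * (((D : ℝ) + 1) * q)) := by
        rw [hza]
        field_simp
      have l2 : za D β * (β * (J - J') / q) ≤ (z + z⁻¹) * (aJ D q β J - aJ D q β J') :=
        mul_le_mul (by linarith) k1 hA0 (by positivity)
      have l3 : 12 * β * (J - J') + K₀ * β ^ 2 * (J - J') ≤
          (J - J') / (256 * (((D : ℝ) + 1) * q)) := by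
        rw [le_div_iff₀ (by positivity)]
        have l4 : (12 * β + K₀ * β ^ 2) * (256 * (((D : ℝ) + 1) * q)) ≤ 1 := by
          have l5 : 12 * β + K₀ * β ^ 2 ≤ β * (12 + K₀) := by linarith
          have l6 : (12 * β + K₀ * β ^ 2) * (((D : ℝ) + 1) * q) ≤
              (β * (12 + K₀)) * (((D : ℝ) + 1) * q) :=
            mul_le_mul_of_nonneg_right l5 (by positivity)
          have l9 : (12 * β + K₀ * β ^ 2) * (256 * (((D : ℝ) + 1) * q)) =
              256 * ((12 * β + K₀ * β ^ 2) * (((D : ℝ) + 1) * q)) := by ring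
          have l10 : (β * (12 + K₀)) * (((D : ℝ) + 1) * q) =
              ((D : ℝ) + 1) * q * (β * (12 + K₀)) := by ring
          linarith
        calc (12 * β * (J - J') + K₀ * β ^ 2 * (J - J')) * (256 * (((D : ℝ) + 1) * q)) =
              (J - J') * ((12 * β + K₀ * β ^ 2) * (256 * (((D : ℝ) + 1) * q))) := by ring
          _ ≤ (J - J') * 1 := mul_le_mul_of_nonneg_left l4 hd
          _ = J - J' := mul_one _
      have l7 : (J - J') / (128 * (((D : ℝ) + 1) * q)) =
          2 * ((J - J') / (256 * (((D : ℝ) + 1) * q))) := by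
        field_simp
        ring
      have l8 : (J - J') / K ≤ (J - J') / (256 * (((D : ℝ) + 1) * q)) := by
        refine div_le_div_of_nonneg_left hd (by positivity) ?_
        rw [hK]
        have : 0 ≤ K₀ + 48 * ((D : ℝ) + 1) + 40 := by positivity
        have l9 : 256 * (((D : ℝ) + 1) * q) = 256 * ((D : ℝ) + 1) * q := by ring
        linarith
      rw [l7] at l1
      linarith
    · have u1 : z * (8 * β * (J - J') / q) ≤ 32 * (J - J') := by
        have u2 : zm q β * (8 * β * (J - J') / q) = 32 * (J - J') := by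
          unfold zm
          field_simp
          ring
        rw [← u2]
        have : 0 ≤ 8 * β * (J - J') / q := by positivity
        gcongr
      have u3 : z⁻¹ * (8 * β * (J - J') / q) ≤ J - J' := by
        have u4 : 8 * β * (J - J') / q ≤ J - J' := by
          refine (div_le_self (by positivity) (by linarith)).trans ?_
          exact mul_le_of_le_one_left hd (by linarith)
        calc z⁻¹ * (8 * β * (J - J') / q) ≤ 1 * (8 * β * (J - J') / q) := by
              have : 0 ≤ 8 * β * (J - J') / q := by positivity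
              gcongr
          _ ≤ J - J' := by rw [one_mul]; exact u4
      have u5 : (z + z⁻¹) * (aJ D q β J - aJ D q β J') ≤ (z + z⁻¹) * (8 * β * (J - J') / q) :=
        mul_le_mul_of_nonneg_left k2 (by positivity)
      rw [add_mul z z⁻¹ (8 * β * (J - J') / q)] at u5
      have u6 : K₀ * β ^ 2 * (J - J') ≤ J - J' := by
        exact mul_le_of_le_one_left hd (by linarith)
      have u7 : 34 * (J - J') ≤ K * (J - J') := by
        refine mul_le_mul_of_nonneg_right ?_ hd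
        rw [hK]
        have : 0 ≤ K₀ + 48 * ((D : ℝ) + 1) + 256 * ((D : ℝ) + 1) * q := by positivity
        linarith
      linarith
  · intro J z z' hJ hJ2 h1 h2 h3
    have hJ0 : 0 ≤ J := by linarith
    have hd : 0 ≤ J - 1 := sub_nonneg.2 hJ
    have h6 : 0 ≤ z' - z := sub_nonneg.2 h2
    obtain ⟨k1, k2, -, -⟩ := aJ_diff (D := D) (q := q) hβ hDb zero_le_one hJ hJ2
    obtain ⟨s1, s2⟩ := hSz J z z' hJ0 hJ2 h1 h2 h3
    have k5 := (abs_le_tsum s1 (0, 0)).trans s2
    dsimp only at k5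
    rw [abs_of_nonneg hd] at k5
    obtain ⟨k6, k7⟩ := abs_le.1 k5
    have e1 : vsc D q β J z' - vsc D q β J z =
        (vsc D q β J z' - vsc D q β 1 z') - (vsc D q β J z - vsc D q β 1 z) := by
      have : ∀ z, vsc D q β 1 z = 0 := fun z => sub_self _
      rw [this, this]
      ring
    rw [e1, hv J 1 z' hJ0 zero_le_one, hv J 1 z hJ0 zero_le_one]
    have hz0 : 0 < z := by linarith
    have hz0' : 0 < z' := by linarith
    have e2 : z' + z'⁻¹ - (z + z⁻¹) = (z' - z) * (1 - (z * z')⁻¹) := by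
      field_simp
      ring
    have e3 : (z * z')⁻¹ ≤ 1 / 4 := by
      rw [one_div]
      refine inv_anti₀ (by norm_num) ?_
      have e6 : 2 ≤ z := by linarith
      have e7 : 2 ≤ z' := by linarith
      clear * - e6 e7
      nlinarith
    have e4 : 0 < (z * z')⁻¹ := by positivity
    set dA := aJ D q β J - aJ D q β 1 with hdA
    have hdA0 : 0 ≤ dA := le_trans (by positivity) k1
    have e5 : ((z' + z'⁻¹) * dA - (kap q β J ((0, 0) : Site D) - kap q β 1 ((0, 0) : Site D)) +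
        (Sz D q β J z' 0 0 - Sz D q β 1 z' 0 0)) -
        ((z + z⁻¹) * dA - (kap q β J ((0, 0) : Site D) - kap q β 1 ((0, 0) : Site D)) +
        (Sz D q β J z 0 0 - Sz D q β 1 z 0 0)) =
        (z' - z) * ((1 - (z * z')⁻¹) * dA) +
        ((Sz D q β J z' 0 0 - Sz D q β 1 z' 0 0) - (Sz D q β J z 0 0 - Sz D q β 1 z 0 0)) := by
      linear_combination dA * e2
    rw [e5]
    constructor
    · have m1 : (3 / 4) * (β * (J - 1) / q) ≤ (1 - (z * z')⁻¹) * dA :=
        mul_le_mul (by linarith) k1 (by positivity) (by linarith)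
      have m2 : K₀ * β ^ 3 * (J - 1) ≤ (3 / 4) * (β * (J - 1) / q) := by
        have m3 : K₀ * β ^ 2 * q ≤ 3 / 4 := by
          have m4 : K₀ * β ^ 2 * q ≤ K₀ * β * q := mul_le_mul_of_nonneg_right hKb2 hq0.le
          have m5 : K₀ * β * q ≤ ((D : ℝ) + 1) * q * (β * (12 + K₀)) := by
            have m6 : 0 ≤ K₀ * β * q := by positivity
            have m7 : 0 ≤ β * q * 12 := by positivity
            have m8 := mul_nonneg hD m6
            have m9 := mul_nonneg hD m7
            have m10 : ((D : ℝ) + 1) * q * (β * (12 + K₀)) = K₀ * β * q + D * (K₀ * β * q) +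
              β * q * 12 + D * (β * q * 12) := by ring
            linarith
          linarith
        have m8 : (3 / 4) * (β * (J - 1) / q) = (β * (J - 1)) * ((3 / 4) / q) := by ring
        rw [m8]
        have m9 : K₀ * β ^ 2 ≤ (3 / 4) / q := by
          rw [le_div_iff₀ hq0]
          exact m3
        calc K₀ * β ^ 3 * (J - 1) = (β * (J - 1)) * (K₀ * β ^ 2) := by ring
          _ ≤ _ := mul_le_mul_of_nonneg_left m9 (by positivity)
      have m10 : (z' - z) * (K₀ * β ^ 3 * (J - 1)) ≤ (z' - z) * ((1 - (z * z')⁻¹) * dA) :=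
        mul_le_mul_of_nonneg_left (m2.trans m1) h6
      have m11 : K₀ * β ^ 3 * (z' - z) * (J - 1) = (z' - z) * (K₀ * β ^ 3 * (J - 1)) := by ring
      rw [m11] at k6
      linarith
    · have m1 : (1 - (z * z')⁻¹) * dA ≤ 1 / 2 := by
        have m2 : dA ≤ 1 / 2 := by
          refine k2.trans ((div_le_self (by positivity) (by linarith)).trans ?_)
          have : J - 1 ≤ 1 := by linarith
          clear * - this hbb hβ hd
          nlinarith
        have m3 : (1 - (z * z')⁻¹) * dA ≤ 1 * dA := by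
          gcongr
          linarith
        linarith
      have m4 : K₀ * β ^ 3 * (J - 1) ≤ 1 / 2 := by
        have m5 : K₀ * β ^ 3 ≤ 1 / 2 := by
          have : K₀ * β ^ 3 = (K₀ * β ^ 2) * β := by ring
          rw [this]
          have m6 : 0 ≤ K₀ * β ^ 2 := by positivity
          have m7 : K₀ * β ^ 2 ≤ 1 / 2 := by linarith
          clear * - m6 m7 hβ hbb
          nlinarith
        have m6 : 0 ≤ K₀ * β ^ 3 := by positivity
        have m7 : J - 1 ≤ 1 := by linarith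
        clear * - m5 m6 m7 hd
        nlinarith
      have m11 : K₀ * β ^ 3 * (z' - z) * (J - 1) = (z' - z) * (K₀ * β ^ 3 * (J - 1)) := by ring
      rw [m11] at k7
      have m12 := mul_le_mul_of_nonneg_left m1 h6
      have m13 := mul_le_mul_of_nonneg_left m4 h6
      linarith
  · intro J hJ hJ2
    have hJ0 : 0 ≤ J := by linarith
    have hd : 0 ≤ J - 1 := sub_nonneg.2 hJ
    have hzm : za D β ≤ zm q β := by
      unfold zm
      rw [hza, div_le_div_iff₀ (by positivity) hβ]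
      clear * - hq2 hD hβ
      have h1 : β ≤ ((D : ℝ) + 1) * β := by nlinarith
      have h2 : ((D : ℝ) + 1) * β ≤ q * (((D : ℝ) + 1) * β) := by nlinarith
      have h3 : 4 * (q : ℝ) * (128 * (((D : ℝ) + 1) * β)) = 512 * (q * (((D : ℝ) + 1) * β)) := by ring
      linarith
    obtain ⟨k1, k2, k3, -⟩ := aJ_diff (D := D) (q := q) hβ hDb zero_le_one hJ hJ2
    have k5 := hS0 J 1 (za D β) hJ0 hJ2 zero_le_one one_le_two (by linarith) hzm
    rw [abs_of_nonneg hd] at k5
    have k6 := (abs_le.1 k5).2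
    have e1 : vsc D q β J (za D β) = vsc D q β J (za D β) - vsc D q β 1 (za D β) := by
      have : vsc D q β 1 (za D β) = 0 := sub_self _
      rw [this, sub_zero]
    rw [e1, hv J 1 _ hJ0 zero_le_one]
    have k7 : aJ D q β J - aJ D q β 1 ≤ 4 * β := by
      refine k2.trans ?_
      rw [div_le_iff₀ hq0]
      have : J - 1 ≤ 1 := by linarith
      clear * - this hβ hd hq2
      nlinarith [mul_le_mul_of_nonneg_left this hβ.le]
    have k8 : za D β * (4 * β) ≤ 1 / 32 := by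
      have : za D β * (4 * β) = 1 / (32 * ((D : ℝ) + 1)) := by
        rw [hza]
        field_simp
        ring
      rw [this]
      refine div_le_div_of_nonneg_left (by norm_num) (by norm_num) ?_
      linarith
    have k9 : (za D β)⁻¹ ≤ 1 := inv_le_one_of_one_le₀ (by linarith)
    have k10 : 0 < (za D β)⁻¹ := by
      have : 0 < za D β := by linarith
      positivity
    have k11 : (za D β + (za D β)⁻¹) * (aJ D q β J - aJ D q β 1) ≤
        (za D β + (za D β)⁻¹) * (4 * β) :=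
      mul_le_mul_of_nonneg_left k7 (by linarith)
    have k12 : (za D β)⁻¹ * (4 * β) ≤ 1 / 32 :=
      (mul_le_of_le_one_left (by positivity) k9).trans (by linarith)
    have k13 : K₀ * β ^ 2 * (J - 1) ≤ 1 / 32 :=
      (mul_le_of_le_one_right (by positivity) (by linarith)).trans (by linarith)
    rw [add_mul (za D β)] at k11
    rw [add_mul (za D β)] at k11 ⊢
    linarith

end Pool.Agent.SB
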