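import Pool.Agent.SB.Thr
import Pool.Agent.SB.Pert
import Pool.Agent.SB.Leq
import Pool.Agent.SB.Fek2
import Pool.Agent.SB.Src
import Pool.Agent.SB.Res
import Pool.Agent.SB.Lp
import Pool.Agent.SB.Int2
import Pool.Agent.SB.Ana
import Pool.Agent.SB.Idn

/-!
# Assembly, part A: the critical coupling and the radii of convergence
-/

set_option autoImplicit false
set_option linter.unusedSectionVars false

namespace Pool.Agent.SB

open Finset Filter Topology

lemma summable_abs_L1 {α : Type} (f : L1 α) : Summable fun i => |f i| := by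
  have h := (lp.memℓp f).summable (by norm_num)
  simpa using h

lemma norm_L1 {α : Type} (f : L1 α) : ‖f‖ = ∑' i, |f i| := by
  rw [lp.norm_eq_tsum_rpow (by norm_num) f]
  simp

/-- The on-axis series is bounded below `z₂` if it converges at `z₂`. -/
lemma axis_bound (g : ℤ → ℝ) (hg0 : ∀ n, 0 ≤ g n) (hg1 : ∀ n, g n ≤ 1) (z₀ z₂ : ℝ) (hz₀ : 2 ≤ z₀)
    (hs : Summable fun n : ℕ => z₂ ^ n * g n) (h2 : 0 ≤ z₂) : ∃ M : ℝ, 0 < M ∧ ∀ z, z₀ ≤ z → z ≤ z₂ →
      ∑' n : ℤ, z ^ n * g n ≤ M := by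
  set B1 : ℤ → ℝ := fun n => if 0 ≤ n then z₂ ^ n * g n else 0 with hB1
  set B2 : ℤ → ℝ := fun n => (1 / 2 : ℝ) ^ n.natAbs with hB2
  have hB1s : Summable B1 := by
    apply Summable.of_nat_of_neg
    · refine hs.congr fun n => ?_
      simp [hB1]
    · apply summable_of_ne_finset_zero (s := {0})
      intro n hn
      have hn0 : n ≠ 0 := by simpa using hn
      have : ¬ (0 : ℤ) ≤ -(n : ℤ) := by omega
      simp only [hB1, if_neg this]
  have hB2s : Summable B2 := by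
    apply Summable.of_nat_of_neg
    · simpa [hB2] using summable_geometric_two
    · simpa [hB2] using summable_geometric_two
  have hBs := hB1s.add hB2s
  have hB10 : ∀ n, 0 ≤ B1 n := by
    intro n
    simp only [hB1]
    split_ifs
    · exact mul_nonneg (zpow_nonneg h2 _) (hg0 _)
    · exact le_refl _
  have hB20 : ∀ n, 0 < B2 n := by
    intro n
    simp only [hB2]
    positivity
  refine ⟨∑' n, (B1 n + B2 n), ?_, ?_⟩
  · exact hBs.tsum_pos (fun n => add_nonneg (hB10 n) (hB20 n).le) 0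
      (add_pos_of_nonneg_of_pos (hB10 0) (hB20 0))
  · intro z hz hz2
    have hz0 : 0 < z := by linarith
    have hle : ∀ n : ℤ, z ^ n * g n ≤ B1 n + B2 n := by
      intro n
      by_cases hn : 0 ≤ n
      · have h1 : z ^ n ≤ z₂ ^ n := zpow_le_zpow_left₀ hn hz0.le hz2
        have h3 : B1 n = z₂ ^ n * g n := by simp only [hB1, if_pos hn]
        rw [h3]
        have := mul_le_mul_of_nonneg_right h1 (hg0 n)
        linarith [(hB20 n).le]
      · have hn' : n < 0 := not_le.1 hn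
        have h3 : B1 n = 0 := by simp only [hB1, if_neg hn]
        rw [h3, zero_add]
        have h4 : z ^ n ≤ B2 n := by
          obtain ⟨m, rfl⟩ : ∃ m : ℕ, n = -(m : ℤ) := ⟨n.natAbs, by omega⟩
          simp only [hB2]
          rw [zpow_neg, zpow_natCast, Int.natAbs_neg, Int.natAbs_natCast, one_div, inv_pow]
          apply inv_anti₀ (by positivity)
          exact pow_le_pow_left₀ (by norm_num) (by linarith) _
        calc z ^ n * g n ≤ z ^ n * 1 := mul_le_mul_of_nonneg_left (hg1 n) (by positivity)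
          _ ≤ B2 n := by rw [mul_one]; exact h4
    have hsum : Summable fun n : ℤ => z ^ n * g n :=
      Summable.of_nonneg_of_le (fun n => mul_nonneg (by positivity) (hg0 n)) hle hBs
    exact hsum.tsum_le_tsum hle hBs

theorem package (D q : ℕ) [NeZero q] (hq : 2 ≤ q) (hD : 3 ≤ D) : ∃ β₀ : ℝ, 0 < β₀ ∧
    ∀ β, 0 < β → β < β₀ → ∃ z1 Jc η c C : ℝ, 2 ≤ za D β ∧ za D β + 2 ≤ z1 ∧ z1 ≤ zm q β ∧
      hh D q β z1 0 = 0 ∧ 1 < Jc ∧ Jc < 2 ∧ 0 < η ∧ Jc + η ≤ 2 ∧ 0 < c ∧ 0 < C ∧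
      (∀ z, za D β ≤ z → z < z1 →
        Summable (fun p : Gam D × ℤ => z ^ p.2 * G D q β Jc (0, p.1) (p.2, 0))) ∧
      (∀ J, Jc < J → J < Jc + η → ∃ zJ, z1 - 1 < zJ ∧ zJ < z1 ∧
        (∀ z, za D β ≤ z → z < zJ →
          Summable (fun p : Gam D × ℤ => z ^ p.2 * G D q β J (0, p.1) (p.2, 0))) ∧
        (∀ z2, zJ < z2 → ¬ Summable (fun n : ℕ => z2 ^ n * G D q β J (0, 0) (n, 0))) ∧
        c * (Rz D q β z1 0 - Rz D q β zJ 0) ≤ J - Jc ∧
        J - Jc ≤ C * (Rz D q β z1 0 - Rz D q β zJ 0)) ∧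
      ¬ Summable (fun p : Gam D × ℤ => z1 ^ p.2 * G D q β 1 (0, p.1) (p.2, 0)) := by
  classical
  obtain ⟨β1, K1, hβ1, hK1, pert⟩ := pert D q hq
  obtain ⟨β2, K2, hβ2, hK2, symb⟩ := symbol D q hq
  obtain ⟨β3, K3, hβ3, hK3, reso⟩ := resolvent D q hq hD
  obtain ⟨β4, hβ4, rana⟩ := resolvent_analytic D q hq hD
  obtain ⟨β5, hβ5, pana⟩ := pert_analytic D q hq
  obtain ⟨β6, hβ6, iden⟩ := identify D q hq hD
  set K : ℝ := max 1 (max K1 K3) with hK
  have hK1' : K1 ≤ K := le_trans (le_max_left _ _) (le_max_right _ _)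
  have hK3' : K3 ≤ K := le_trans (le_max_right _ _) (le_max_right _ _)
  have hK0 : 0 < K := lt_of_lt_of_le one_pos (le_max_left _ _)
  obtain ⟨b0, hb0, thr⟩ := threshold K (le_max_left _ _)
  refine ⟨min (min (min β1 β2) (min β3 β4)) (min (min β5 β6) b0), by positivity, ?_⟩
  intro β hβ hβm
  simp only [lt_min_iff] at hβm
  obtain ⟨⟨⟨b1, b2⟩, b3, b4⟩, ⟨b5, b6⟩, b7⟩ := hβm
  obtain ⟨p1, p2, p3, p4, p5, p6⟩ := pert β hβ b1
  obtain ⟨s1, s2, s3, s4, s5, z1, hz1, hz1m, hz10⟩ := symb β hβ b2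
  obtain ⟨r1, r2, r3, r4, r5, r6, r7, r8⟩ := reso β hβ b3 z1 (by linarith) hz1m hz10
  obtain ⟨Rl, hRl, hRla⟩ := rana β hβ b4 z1 (by linarith) hz1m hz10
  have hpa := pana β hβ b5
  have hVex : ∀ J : ℝ, ∃ V : ℝ → L1 (Gam D × Gam D), 0 ≤ J → J ≤ 2 →
      (∀ z p, 1 ≤ z → z ≤ zm q β → V z p = Vf D q β J z p) ∧
        (∀ z, za D β < z → z < zm q β → AnalyticAt ℝ V z) := by
    intro J
    by_cases hJ : 0 ≤ J ∧ J ≤ 2
    · obtain ⟨_, V, h1, h2⟩ := hpa J hJ.1 hJ.2
      exact ⟨V, fun _ _ => ⟨h1, h2⟩⟩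
    · exact ⟨fun _ => 0, fun h1 h2 => absurd ⟨h1, h2⟩ hJ⟩
  choose Vl hVl using hVex
  obtain ⟨kerL, hk1, hk2⟩ := exists_kerL D
  obtain ⟨convL, hc1, hc2⟩ := exists_convL D
  obtain ⟨ε, hε1, hε2⟩ := exists_evL D
  set e : L1 (Gam D) := lp.single 1 (0 : Gam D) (1 : ℝ) with he
  have he0 : ∀ x, e x = if x = 0 then 1 else 0 := by
    intro x
    rw [he]
    simp [lp.single_apply, Pi.single_apply]
  have he1 : ‖e‖ ≤ 1 := by
    rw [he, lp.norm_single (by norm_num)]
    simp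
  set R : ℝ → L1 (Gam D) →L[ℝ] Li (Gam D) := fun z => convL (Rl z) with hR
  set V : ℝ → ℝ → Li (Gam D) →L[ℝ] L1 (Gam D) := fun J z => kerL (Vl J z) with hV
  have hza1 : (1 : ℝ) ≤ za D β := by linarith
  -- the resolvent
  have hre : ∀ z, za D β ≤ z → z ≤ z1 → Rz D q β z 0 = ε (R z e) := by
    intro z hz hz'
    rw [hε2, hR]
    simp only
    rw [hc2, tsum_eq_single 0]
    · rw [he0, if_pos rfl, mul_one, sub_zero, hRl z 0 hz hz']
    · intro w hw
      rw [he0, if_neg hw, mul_zero]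
  have hRn : ∀ z, za D β ≤ z → z ≤ z1 → ‖R z‖ ≤ Rz D q β z 0 := by
    intro z hz hz'
    refine (hc1 (Rl z)).trans ?_
    apply lp.norm_le_of_forall_le
    · linarith [r2 z hz hz']
    · intro x
      rw [hRl z x hz hz', Real.norm_eq_abs]
      exact r1 z x hz hz'
  have hRd : ∀ z z', za D β ≤ z → z ≤ z' → z' ≤ z1 →
      ‖R z' - R z‖ ≤ Rz D q β z' 0 - Rz D q β z 0 := by
    intro z z' hz hzz hz'
    have h1 : R z' - R z = convL (Rl z' - Rl z) := by
      rw [hR]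
      simp only
      rw [map_sub]
    rw [h1]
    refine (hc1 _).trans ?_
    apply lp.norm_le_of_forall_le
    · have := r3 z z' 0 hz hzz hz'
      exact (abs_nonneg _).trans this
    · intro x
      have h2 : (Rl z' - Rl z : Li (Gam D)) x = Rz D q β z' x - Rz D q β z x := by
        rw [lp.coeFn_sub, Pi.sub_apply, hRl z' x (hz.trans hzz) hz', hRl z x hz (hzz.trans hz')]
      rw [h2, Real.norm_eq_abs]
      exact r3 z z' x hz hzz hz'
  -- the perturbation
  have hVd : ∀ J J' z z', 0 ≤ J → J ≤ 2 → 0 ≤ J' → J' ≤ 2 → za D β ≤ z → z ≤ z1 →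
      za D β ≤ z' → z' ≤ z1 →
      ‖V J' z' - V J z‖ ≤ ∑' p, |Vf D q β J' z' p - Vf D q β J z p| := by
    intro J J' z z' h1 h2 h3 h4 h5 h6 h7 h8
    have h9 : V J' z' - V J z = kerL (Vl J' z' - Vl J z) := by
      rw [hV]
      simp only
      rw [map_sub]
    rw [h9]
    refine (hk1 _).trans ?_
    rw [norm_L1]
    apply le_of_eq
    apply tsum_congr
    intro p
    rw [lp.coeFn_sub, Pi.sub_apply, (hVl J' h3 h4).1 z' p (by linarith) (by linarith),
      (hVl J h1 h2).1 z p (by linarith) (by linarith)]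
  have hV1 : ∀ z, za D β ≤ z → z ≤ z1 → V 1 z = 0 := by
    intro z hz hz'
    have h1 : Vl 1 z = 0 := by
      apply lp.ext
      funext p
      rw [(hVl 1 (by norm_num) (by norm_num)).1 z p (by linarith) (by linarith)]
      simp [Vf]
    rw [hV]
    simp only
    rw [h1, map_zero]
  have hthr := thr β hβ b7 (L1 (Gam D)) (Li (Gam D)) e ε R V (vsc D q β) (fun z => Rz D q β z 0)
    (za D β) z1 he1 hε1 (by linarith) hre (fun z hz hz' => ⟨r2 z hz hz', hRn z hz hz'⟩) hRd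
    (r4.trans (div_le_div_of_nonneg_right hK3' hβ.le)) r5
    (fun z z' hz hzz hz' => le_trans (by
      apply div_le_div_of_nonneg_left (by linarith) (by positivity)
      exact mul_le_mul_of_nonneg_right hK3' hβ.le) (r6 z z' hz (by linarith) hzz hz'))
    r8 hV1
    (fun J J' z h1 h2 h3 h4 h5 h6 => by
      refine (hVd J' J z z (by linarith) h4 (by linarith) h2 h5 h6 h5 h6).trans ?_
      refine (p2 J J' z (by linarith) h2 (by linarith) h4 (by linarith) (by linarith)).trans ?_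
      exact mul_le_mul_of_nonneg_right (mul_le_mul_of_nonneg_right hK1' (by positivity))
        (abs_nonneg _))
    (fun J z z' h1 h2 h3 h4 h5 => by
      refine (hVd J J z z' (by linarith) h2 (by linarith) h2 h3 (by linarith) (by linarith)
        h5).trans ?_
      refine (p3 J z z' (by linarith) h2 h3 h4 (by linarith)).trans ?_
      exact mul_le_mul_of_nonneg_right (mul_le_mul_of_nonneg_right hK1' (by positivity))
        (by linarith))
    (fun z _ _ => by simp [vsc])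
    (fun J J' z h1 h2 h3 h4 h5 => by
      have h6 := p4 J J' z (by linarith) h2 h3 h4 (by linarith)
      refine ⟨le_trans ?_ h6.1, h6.2.trans ?_⟩
      · exact div_le_div_of_nonneg_left (by linarith) hK1 hK1'
      · exact mul_le_mul_of_nonneg_right hK1' (by linarith))
    (fun J z z' h1 h2 h3 h4 h5 => p5 J z z' h1 h2 h3 h4 (by linarith))
    (fun J h1 h2 => p6 J h1 h2)
  obtain ⟨hB, Jc, η, c, C, hJc1, hJc2, hη, hη2, hc, hC, hpos, hJ⟩ := hthr
  have hRf : ∀ z (p : L1 (Gam D)) x, za D β ≤ z → z ≤ z1 →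
      (R z p : Gam D → ℝ) x = ∑' w, Rz D q β z (x - w) * p w := by
    intro z p x hz hz'
    rw [hR]
    simp only
    rw [hc2]
    exact tsum_congr fun w => by rw [hRl z _ hz hz']
  have hRa : ∀ z, za D β < z → z < z1 → AnalyticAt ℝ R z := by
    intro z hz hz'
    exact convL.analyticAt _ |>.comp (hRla z hz hz')
  have hVf : ∀ J z g x, 0 ≤ J → J ≤ 2 → za D β ≤ z → z ≤ z1 →
      (V J z g : Gam D → ℝ) x = ∑' y, Vf D q β J z (x, y) * g y := by
    intro J z g x h1 h2 h3 h4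
    rw [hV]
    simp only
    rw [hk2]
    exact tsum_congr fun y => by rw [(hVl J h1 h2).1 z _ (by linarith) (by linarith)]
  have hVa : ∀ J z, 0 ≤ J → J ≤ 2 → za D β < z → z < z1 → AnalyticAt ℝ (V J) z := by
    intro J z h1 h2 h3 h4
    exact kerL.analyticAt _ |>.comp ((hVl J h1 h2).2 z h3 (by linarith))
  obtain ⟨id1, id2, id3, id4⟩ := iden β hβ b6 z1 hz1 hz1m hz10 e ε R V he0 hε2 hRf hRa hVf hVa hB
  refine ⟨z1, Jc, η, c, C, s1, hz1, hz1m, hz10, hJc1, hJc2, hη, hη2, hc, hC, ?_, ?_, id4⟩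
  · exact id1 Jc z1 hJc1.le hJc2.le (by linarith) le_rfl hpos
  · intro J hJc hJη
    obtain ⟨zJ, hz1J, hzJ1, hposJ, hzero, hl, hu⟩ := hJ J hJc hJη
    have hJ1 : 1 ≤ J := by linarith
    have hJ2 : J ≤ 2 := by linarith
    have hsum := id1 J zJ hJ1 hJ2 (by linarith) hzJ1.le hposJ
    refine ⟨zJ, hz1J, hzJ1, hsum, ?_, hl, hu⟩
    intro z2 hz2 hs2
    obtain ⟨M, hM, hMb⟩ := axis_bound (fun n : ℤ => G D q β J (0, 0) (n, 0))
      (fun n => G_nonneg hq β J hβ.le (by linarith) _ _)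
      (fun n => G_le_one hq β J hβ.le (by linarith) _ _) (za D β) z2 s1 (by simpa using hs2)
      (by linarith)
    have hcont := id3 J zJ hJ1 hJ2 (by linarith) hzJ1
    have hlt : ∀ᶠ z in 𝓝 zJ, DD e ε (R z) (V J z) (vsc D q β J z) < 1 / (4 * M) := by
      apply hcont.eventually_lt_const
      show DD e ε (R zJ) (V J zJ) (vsc D q β J zJ) < 1 / (4 * M)
      rw [hzero]
      positivity
    have hleft : ∀ᶠ z in 𝓝[<] zJ, DD e ε (R z) (V J z) (vsc D q β J z) < 1 / (4 * M) :=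
      hlt.filter_mono nhdsWithin_le_nhds
    have hleft2 : ∀ᶠ z in 𝓝[<] zJ, za D β ≤ z ∧ z < zJ := by
      have h1 : ∀ᶠ z in 𝓝[<] zJ, za D β < z :=
        (lt_mem_nhds (show za D β < zJ by linarith)).filter_mono nhdsWithin_le_nhds
      filter_upwards [h1, self_mem_nhdsWithin] with z hz hz'
      exact ⟨hz.le, hz'⟩
    obtain ⟨z, hz1', hz2', hz3'⟩ := (hleft.and hleft2).exists
    have h5 := id2 J z hJ1 hJ2 hz2' (by linarith) (hsum z hz2' hz3')
    have h6 := hMb z hz2' (by linarith)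
    have h7 := hposJ z hz2' hz3'
    have h8 : DD e ε (R z) (V J z) (vsc D q β J z) *
        ∑' n : ℤ, z ^ n * G D q β J (0, 0) (n, 0) ≤
        DD e ε (R z) (V J z) (vsc D q β J z) * M := mul_le_mul_of_nonneg_left h6 h7.le
    have h9 : DD e ε (R z) (V J z) (vsc D q β J z) * M < 1 / (4 * M) * M :=
      mul_lt_mul_of_pos_right hz1' hM
    have h10 : 1 / (4 * M) * M = 1 / 4 := by field_simp
    linarith

end Pool.Agent.SB
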