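import Pool.Agent.SB.Defs2

/-!
# Identification, abstract part: the linear algebra of the perturbed equation (row IDN)
-/

set_option autoImplicit false

namespace Pool.Agent.SB

open Filter Topology

section alg

variable {X Y : Type} [NormedAddCommGroup X] [NormedSpace ℝ X] [CompleteSpace X]
  [NormedAddCommGroup Y] [NormedSpace ℝ Y] {e : X} {ε : Y →L[ℝ] ℝ} {R : X →L[ℝ] Y}
  {V : Y →L[ℝ] X}

lemma isUnit_one_sub_comp (h : ‖V.comp R‖ ≤ 1 / 16) : IsUnit (1 - V.comp R) :=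
  isUnit_one_sub_of_norm_lt_one (h.trans_lt (by norm_num))

lemma inv_apply_left (h : ‖V.comp R‖ ≤ 1 / 16) (x : X) :
    (Ring.inverse (1 - V.comp R) : X →L[ℝ] X) (x - V (R x)) = x := by
  have h1 := Ring.inverse_mul_cancel _ (isUnit_one_sub_comp h)
  have h2 := congrArg (fun T : X →L[ℝ] X => T x) h1
  simpa using h2

lemma inv_apply_right (h : ‖V.comp R‖ ≤ 1 / 16) (x : X) :
    (Ring.inverse (1 - V.comp R) : X →L[ℝ] X) x -
      V (R ((Ring.inverse (1 - V.comp R) : X →L[ℝ] X) x)) = x := by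
  have h1 := Ring.mul_inverse_cancel _ (isUnit_one_sub_comp h)
  have h2 := congrArg (fun T : X →L[ℝ] X => T x) h1
  simpa using h2

/-- The key identity: `ε g * DD = ε R (1 - V R)⁻¹ s`. -/
lemma key_identity (h : ‖V.comp R‖ ≤ 1 / 16) {v : ℝ} {g : Y} {p s : X} (hg : g = R p)
    (hp : p = (v * ε g) • e + V g + s) :
    ε g * DD e ε R V v = ε (R ((Ring.inverse (1 - V.comp R) : X →L[ℝ] X) s)) := by
  have h1 : p - V (R p) = (v * ε g) • e + s := by
    rw [← hg]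
    nth_rewrite 1 [hp]
    abel
  have h2 := inv_apply_left h p
  rw [h1, map_add, map_smul] at h2
  have h3 : ε g = v * ε g * ε (R ((Ring.inverse (1 - V.comp R) : X →L[ℝ] X) e)) +
      ε (R ((Ring.inverse (1 - V.comp R) : X →L[ℝ] X) s)) := by
    conv_lhs => rw [hg, ← h2]
    simp
  unfold DD
  linarith

/-- The solution `p`. -/
lemma key_solution (h : ‖V.comp R‖ ≤ 1 / 16) {v : ℝ} {g : Y} {p s : X} (hg : g = R p)
    (hp : p = (v * ε g) • e + V g + s) :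
    p = (Ring.inverse (1 - V.comp R) : X →L[ℝ] X) ((v * ε g) • e + s) := by
  have h1 : p - V (R p) = (v * ε g) • e + s := by
    rw [← hg]
    nth_rewrite 1 [hp]
    abel
  rw [← h1, inv_apply_left h]

/-- The numerator is at least `1 / 4`. -/
lemma numerator_ge (h : ‖V.comp R‖ ≤ 1 / 16) {s : X} (he : ‖e‖ ≤ 1) (hs : ‖s - e‖ ≤ 1 / 16)
    (hr : 1 / 2 ≤ ε (R e)) (hR : ∀ u, |ε (R u)| ≤ ε (R e) * ‖u‖) :
    1 / 4 ≤ ε (R ((Ring.inverse (1 - V.comp R) : X →L[ℝ] X) s)) := by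
  set w : X := (Ring.inverse (1 - V.comp R) : X →L[ℝ] X) s with hw
  have h1 : w - V (R w) = s := inv_apply_right h s
  have h2 : w - e = (V.comp R) (w - e) + ((s - e) + (V.comp R) e) := by
    have : s = w - V (R w) := h1.symm
    rw [this]
    simp only [ContinuousLinearMap.comp_apply, map_sub]
    abel
  have h3 : ‖w - e‖ ≤ 1 / 16 * ‖w - e‖ + (1 / 16 + 1 / 16) := by
    calc ‖w - e‖ = ‖(V.comp R) (w - e) + ((s - e) + (V.comp R) e)‖ := congrArg norm h2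
      _ ≤ ‖(V.comp R) (w - e)‖ + ‖(s - e) + (V.comp R) e‖ := norm_add_le _ _
      _ ≤ ‖(V.comp R) (w - e)‖ + (‖s - e‖ + ‖(V.comp R) e‖) := by
        gcongr; exact norm_add_le _ _
      _ ≤ ‖V.comp R‖ * ‖w - e‖ + (1 / 16 + ‖V.comp R‖ * ‖e‖) := by
        gcongr
        · exact ContinuousLinearMap.le_opNorm _ _
        · exact ContinuousLinearMap.le_opNorm _ _
      _ ≤ 1 / 16 * ‖w - e‖ + (1 / 16 + 1 / 16 * 1) := by gcongr
      _ = 1 / 16 * ‖w - e‖ + (1 / 16 + 1 / 16) := by ring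
  have h4 : ‖w - e‖ ≤ 2 / 15 := by linarith
  have h5 : ε (R w) = ε (R e) + ε (R (w - e)) := by simp
  have h6 := (abs_le.mp (hR (w - e))).1
  rw [h5]
  nlinarith

end alg

section ana

variable {X Y : Type} [NormedAddCommGroup X] [NormedSpace ℝ X] [CompleteSpace X]
  [NormedAddCommGroup Y] [NormedSpace ℝ Y] {R : ℝ → X →L[ℝ] Y} {V : ℝ → Y →L[ℝ] X} {z : ℝ}

lemma analyticAt_clm_comp {X Y Z : Type} [NormedAddCommGroup X] [NormedSpace ℝ X]
    [NormedAddCommGroup Y] [NormedSpace ℝ Y] [NormedAddCommGroup Z] [NormedSpace ℝ Z]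
    {A : ℝ → Y →L[ℝ] Z} {B : ℝ → X →L[ℝ] Y} (hA : AnalyticAt ℝ A z) (hB : AnalyticAt ℝ B z) :
    AnalyticAt ℝ (fun z => (A z).comp (B z)) z :=
  ((ContinuousLinearMap.compL ℝ X Y Z).analyticAt_bilinear (A z, B z)).comp₂ hA hB

lemma analyticAt_clm_apply {X Y : Type} [NormedAddCommGroup X] [NormedSpace ℝ X]
    [NormedAddCommGroup Y] [NormedSpace ℝ Y] {A : ℝ → X →L[ℝ] Y} {u : ℝ → X}
    (hA : AnalyticAt ℝ A z) (hu : AnalyticAt ℝ u z) : AnalyticAt ℝ (fun z => A z (u z)) z :=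
  ((ContinuousLinearMap.id ℝ (X →L[ℝ] Y)).analyticAt_bilinear (A z, u z)).comp₂ hA hu

lemma analyticAt_inv_comp (hR : AnalyticAt ℝ R z) (hV : AnalyticAt ℝ V z)
    (h : ‖(V z).comp (R z)‖ ≤ 1 / 16) :
    AnalyticAt ℝ (fun z => (Ring.inverse (1 - (V z).comp (R z)) : X →L[ℝ] X)) z := by
  have h1 : AnalyticAt ℝ (fun z => (1 : X →L[ℝ] X) - (V z).comp (R z)) z :=
    analyticAt_const.sub (analyticAt_clm_comp hV hR)
  have h2 : AnalyticAt ℝ (Ring.inverse : (X →L[ℝ] X) → (X →L[ℝ] X))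
      ((1 : X →L[ℝ] X) - (V z).comp (R z)) :=
    analyticAt_inverse (𝕜 := ℝ) (isUnit_one_sub_comp h).unit
  exact AnalyticAt.fun_comp (g := Ring.inverse)
    (f := fun z => (1 : X →L[ℝ] X) - (V z).comp (R z)) h2 h1

end ana

end Pool.Agent.SB
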