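import Mathlib

/-!
# Pringsheim's theorem for real series, and analyticity of Laurent series (row PRI)
-/

set_option autoImplicit false

namespace Pool.Agent.SB

open Filter Topology Metric

section shift

variable {a : ℕ → ℝ}

/-- The double family `a n * C(n,k) * c^(n-k) * w^k`. -/
noncomputable def priFam (a : ℕ → ℝ) (c w : ℝ) (p : ℕ × ℕ) : ℝ :=
  a p.1 * ((p.1.choose p.2 : ℝ) * c ^ (p.1 - p.2)) * w ^ p.2

lemma priFam_nonneg (ha : ∀ n, 0 ≤ a n) {c w : ℝ} (hc : 0 ≤ c) (hw : 0 ≤ w) (p : ℕ × ℕ) :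
    0 ≤ priFam a c w p := by
  unfold priFam
  have := ha p.1
  positivity

lemma priFam_row {c w : ℝ} (n : ℕ) :
    HasSum (fun k => priFam a c w (n, k)) (a n * (c + w) ^ n) := by
  have h : a n * (c + w) ^ n = ∑ k ∈ Finset.range (n + 1), priFam a c w (n, k) := by
    rw [add_comm c w, add_pow, Finset.mul_sum]
    refine Finset.sum_congr rfl fun k _ => ?_
    simp only [priFam]
    ring
  rw [h]
  refine hasSum_sum_of_ne_finset_zero fun k hk => ?_
  have : n < k := by simpa using hk
  simp [priFam, Nat.choose_eq_zero_of_lt this]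

lemma priFam_summable (ha : ∀ n, 0 ≤ a n) {c w : ℝ} (hc : 0 ≤ c) (hw : 0 ≤ w)
    (hs : Summable fun n => a n * (c + w) ^ n) : Summable (priFam a c w) := by
  rw [summable_prod_of_nonneg (fun p => priFam_nonneg ha hc hw p)]
  refine ⟨fun n => (priFam_row n).summable, ?_⟩
  simpa only [(priFam_row _).tsum_eq] using hs

/-- The Taylor coefficients at `c`. -/
noncomputable def priCoef (a : ℕ → ℝ) (c : ℝ) (k : ℕ) : ℝ :=
  ∑' n, a n * ((n.choose k : ℝ) * c ^ (n - k))

lemma priCoef_summable (ha : ∀ n, 0 ≤ a n) {c w : ℝ} (hc : 0 ≤ c) (hw : 0 < w)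
    (hs : Summable fun n => a n * (c + w) ^ n) (k : ℕ) :
    Summable fun n => a n * ((n.choose k : ℝ) * c ^ (n - k)) := by
  have h1 := (priFam_summable ha hc hw.le hs).prod_symm.prod_factor k
  have h2 : (fun n => a n * ((n.choose k : ℝ) * c ^ (n - k)) ) =
      fun n => (priFam a c w (n, k)) * (w ^ k)⁻¹ := by
    funext n
    simp only [priFam]
    field_simp
  rw [h2]
  exact Summable.mul_right _ (by simpa using h1)

/-- If the shifted series converges at `w ≥ 0` then so does the original one at `c + w`. -/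
lemma summable_of_priCoef (ha : ∀ n, 0 ≤ a n) {c w0 w : ℝ} (hc : 0 ≤ c) (hw0 : 0 < w0)
    (hw : 0 ≤ w) (hs : Summable fun n => a n * (c + w0) ^ n)
    (hb : Summable fun k => priCoef a c k * w ^ k) : Summable fun n => a n * (c + w) ^ n := by
  have hswap : Summable (fun p : ℕ × ℕ => priFam a c w (p.2, p.1)) := by
    rw [summable_prod_of_nonneg (fun p => priFam_nonneg ha hc hw _)]
    refine ⟨fun k => ?_, ?_⟩
    · simpa only [priFam] using (priCoef_summable ha hc hw0 hs k).mul_right (w ^ k)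
    · have : (fun k => ∑' n, priFam a c w (n, k)) = fun k => priCoef a c k * w ^ k := by
        funext k
        simp only [priFam, priCoef]
        rw [tsum_mul_right]
      simpa only [this] using hb
  have hF : Summable (priFam a c w) := by simpa using hswap.prod_symm
  have := hF.prod
  simpa only [(priFam_row _).tsum_eq] using this

/-- The function `∑ a n z^n` has at `c` the power series with coefficients `priCoef a c`. -/
lemma priHasSum_shift (ha : ∀ n, 0 ≤ a n) {c w0 : ℝ} (hc : 0 ≤ c) (hw0 : 0 < w0)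
    (hs : Summable fun n => a n * (c + w0) ^ n) (w : ℝ) (hw : |w| ≤ w0) :
    HasSum (fun k => w ^ k * priCoef a c k) (∑' n, a n * (c + w) ^ n) := by
  have hsw : Summable fun n => a n * (c + |w|) ^ n := by
    refine Summable.of_nonneg_of_le (fun n => ?_) (fun n => ?_) hs
    · have := ha n; positivity
    · have := ha n; gcongr
  have hfam := priFam_summable ha hc (abs_nonneg w) hsw
  have hGn : ∀ p, ‖priFam a c w p‖ = priFam a c |w| p := by
    intro p
    simp only [priFam, norm_mul, norm_pow, Real.norm_eq_abs,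
      abs_of_nonneg (ha p.1), abs_of_nonneg hc, Nat.abs_cast]
  have hG : Summable (priFam a c w) := by
    refine Summable.of_norm ?_
    simpa only [hGn] using hfam
  have hcol : ∀ k, HasSum (fun n => priFam a c w (n, k)) (w ^ k * priCoef a c k) := by
    intro k
    have h3 := (priCoef_summable ha hc hw0 hs k).hasSum.mul_left (w ^ k)
    have h4 : (fun n => priFam a c w (n, k)) =
        fun n => w ^ k * (a n * ((n.choose k : ℝ) * c ^ (n - k))) := by
      funext n
      simp only [priFam]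
      ring
    rw [h4]
    exact h3
  have h1 : (∑' p, priFam a c w p) = ∑' n, a n * (c + w) ^ n := by
    rw [hG.tsum_prod]
    simp only [(priFam_row _).tsum_eq]
  have hswap : HasSum (fun p : ℕ × ℕ => priFam a c w (p.2, p.1)) (∑' p, priFam a c w p) :=
    (Equiv.prodComm ℕ ℕ).hasSum_iff.mpr hG.hasSum
  rw [← h1]
  exact hswap.prod_fiberwise fun k => hcol k

end shift

/-- `∑ a n z^n` has the power series `priCoef a c` at `c`. -/
lemma hasFPowerSeriesAt_priCoef {a : ℕ → ℝ} (ha : ∀ n, 0 ≤ a n) {c w0 : ℝ} (hc : 0 ≤ c)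
    (hw0 : 0 < w0) (hs : Summable fun n => a n * (c + w0) ^ n) :
    HasFPowerSeriesAt (fun z : ℝ => ∑' n, a n * z ^ n)
      (FormalMultilinearSeries.ofScalars ℝ fun k => priCoef a c k) c := by
  rw [hasFPowerSeriesAt_iff]
  filter_upwards [Metric.closedBall_mem_nhds (0 : ℝ) hw0] with z hz
  have := priHasSum_shift ha hc hw0 hs z (by simpa using hz)
  simpa [smul_eq_mul] using this

/-- **Pringsheim's theorem**: a power series with nonnegative coefficients, convergent on `[0, ρ)`,
whose sum continues analytically to `ρ`, converges beyond `ρ`. -/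
theorem pringsheim (a : ℕ → ℝ) (ha : ∀ n, 0 ≤ a n) (ρ η : ℝ) (hρ : 0 < ρ) (hη : 0 < η)
    (hs : ∀ z, 0 ≤ z → z < ρ → Summable fun n => a n * z ^ n) (F : ℝ → ℝ) (hF : AnalyticAt ℝ F ρ)
    (hFa : ∀ z, ρ - η < z → 0 ≤ z → z < ρ → F z = ∑' n, a n * z ^ n) :
    ∃ z, ρ < z ∧ Summable fun n => a n * z ^ n := by
  obtain ⟨p, r, hp⟩ := hF
  obtain ⟨δ, hδ, hδr⟩ : ∃ δ : NNReal, 0 < δ ∧ (δ : ENNReal) < r := by
    obtain ⟨δ, h1, h2⟩ := ENNReal.lt_iff_exists_nnreal_btwn.mp hp.r_pos
    exact ⟨δ, by exact_mod_cast h1, h2⟩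
  have hδ' : (0 : ℝ) < δ := hδ
  -- the centre `c = ρ - t`
  obtain ⟨t, ht0, htη, htρ, htδ⟩ : ∃ t : ℝ, 0 < t ∧ t < η ∧ t < ρ ∧ t < δ / 4 := by
    refine ⟨min (min η ρ) (δ / 4) / 2, ?_, ?_, ?_, ?_⟩
    · positivity
    · have := min_le_left (min η ρ) ((δ : ℝ) / 4)
      have := min_le_left η ρ
      have : 0 < min (min η ρ) ((δ : ℝ) / 4) := by positivity
      linarith
    · have := min_le_left (min η ρ) ((δ : ℝ) / 4)
      have := min_le_right η ρ
      have : 0 < min (min η ρ) ((δ : ℝ) / 4) := by positivity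
      linarith
    · have := min_le_right (min η ρ) ((δ : ℝ) / 4)
      have : 0 < min (min η ρ) ((δ : ℝ) / 4) := by positivity
      linarith
  set c : ℝ := ρ - t with hcdef
  have hc : 0 ≤ c := by linarith
  have hnn : ((‖(-t : ℝ)‖₊ : NNReal) : ENNReal) < r := by
    refine lt_trans ?_ hδr
    have : ‖(-t : ℝ)‖₊ < δ := by
      rw [← NNReal.coe_lt_coe]
      simp only [coe_nnnorm, Real.norm_eq_abs, abs_neg, abs_of_pos ht0]
      linarith
    exact_mod_cast this
  have h2 := hp.changeOrigin hnn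
  have hcc : ρ + -t = c := by rw [hcdef]; ring
  rw [hcc] at h2
  have hs0 : Summable fun n => a n * (c + t / 2) ^ n := hs _ (by linarith) (by rw [hcdef]; linarith)
  have ht2 : 0 < t / 2 := by linarith
  have h1 := hasFPowerSeriesAt_priCoef ha hc ht2 hs0
  have hev : ∀ᶠ z in 𝓝 c, F z = ∑' n, a n * z ^ n := by
    have : Set.Ioo (max 0 (ρ - η)) ρ ∈ 𝓝 c := by
      refine Ioo_mem_nhds (max_lt ?_ ?_) ?_ <;> rw [hcdef] <;> linarith
    filter_upwards [this] with z hz
    exact hFa z ((le_max_right _ _).trans_lt hz.1) ((le_max_left _ _).trans hz.1.le) hz.2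
  have h3 := h2.hasFPowerSeriesAt.eq_formalMultilinearSeries_of_eventually h1 hev
  rw [h3] at h2
  -- the point `w = t + δ / 4`
  have hw : (t + δ / 4 : ℝ) ∈ Metric.eball (0 : ℝ) (r - ‖(-t : ℝ)‖₊) := by
    rw [Metric.mem_eball, edist_zero_right, enorm_eq_nnnorm, lt_tsub_iff_right]
    refine lt_trans ?_ hδr
    have : ‖(t + δ / 4 : ℝ)‖₊ + ‖(-t : ℝ)‖₊ < δ := by
      rw [← NNReal.coe_lt_coe]
      push_cast
      simp only [Real.norm_eq_abs, abs_neg, abs_of_pos ht0,
        abs_of_pos (show (0 : ℝ) < t + δ / 4 by positivity)]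
      linarith
    exact_mod_cast this
  have h4 := (h2.hasSum hw).summable
  refine ⟨c + (t + δ / 4), by rw [hcdef]; linarith, ?_⟩
  refine summable_of_priCoef ha hc ht2 (by positivity) hs0 ?_
  refine h4.congr fun k => ?_
  rw [FormalMultilinearSeries.apply_eq_pow_smul_coeff]
  simp [mul_comm]

/-- A power series with values in a Banach space is analytic inside its disc (real variable). -/
lemma analyticAt_powser {E : Type*} [NormedAddCommGroup E] [NormedSpace ℝ E] [CompleteSpace E]
    (c : ℕ → E) (r : ℝ) (hr : 0 < r) (hs : Summable fun n : ℕ => r ^ n * ‖c n‖) (z : ℝ)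
    (hz : |z| < r) : AnalyticAt ℝ (fun z : ℝ => ∑' n : ℕ, z ^ n • c n) z := by
  set p : FormalMultilinearSeries ℝ ℝ E := fun n =>
    ContinuousMultilinearMap.mkPiRing ℝ (Fin n) (c n) with hp
  have hpn : ∀ n, ‖p n‖ = ‖c n‖ := fun n => by
    simp only [hp]
    exact ContinuousMultilinearMap.norm_mkPiRing _
  obtain ⟨R, hR⟩ : ∃ R : NNReal, (R : ℝ) = r := ⟨⟨r, hr.le⟩, rfl⟩
  have hrad : (R : ENNReal) ≤ p.radius := by
    refine p.le_radius_of_summable_norm ?_
    simpa only [hpn, hR, mul_comm] using hs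
  have hR0 : (0 : ENNReal) < p.radius := by
    refine lt_of_lt_of_le ?_ hrad
    have : 0 < R := by rw [← NNReal.coe_lt_coe, hR]; exact hr
    exact_mod_cast this
  have hb := p.hasFPowerSeriesOnBall hR0
  have hmem : z ∈ Metric.eball (0 : ℝ) p.radius := by
    refine Metric.mem_eball.mpr (lt_of_lt_of_le ?_ hrad)
    rw [edist_zero_right, enorm_eq_nnnorm]
    have : ‖z‖₊ < R := by rw [← NNReal.coe_lt_coe, hR]; simpa using hz
    exact_mod_cast this
  have h1 := hb.analyticAt_of_mem hmem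
  have h2 : p.sum = fun z : ℝ => ∑' n : ℕ, z ^ n • c n := by
    funext z
    simp [FormalMultilinearSeries.sum, hp]
  rwa [h2] at h1

/-- Laurent series with values in a Banach space are analytic (real variable). -/
theorem analyticAt_laurent {E : Type*} [NormedAddCommGroup E] [NormedSpace ℝ E] [CompleteSpace E]
    (c : ℤ → E) (r₀ r₁ : ℝ) (hr : 0 ≤ r₀)
    (hs : ∀ z, r₀ < z → z < r₁ → Summable fun n : ℤ => z ^ n * ‖c n‖) (z : ℝ) (hz : r₀ < z)
    (hz1 : z < r₁) : AnalyticAt ℝ (fun z : ℝ => ∑' n : ℤ, z ^ n • c n) z := by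
  have hz0 : 0 < z := hr.trans_lt hz
  -- the two radii
  obtain ⟨s, hzs, hs1⟩ := exists_between hz1
  obtain ⟨t, ht0, htz⟩ := exists_between hz
  have ht : 0 < t := hr.trans_lt ht0
  have hpos : AnalyticAt ℝ (fun z : ℝ => ∑' n : ℕ, z ^ n • c n) z := by
    refine analyticAt_powser (fun n : ℕ => c n) s (hz0.trans hzs) ?_ z
      (by rwa [abs_of_pos hz0])
    have := (hs s (hz.trans hzs) hs1).comp_injective (i := fun n : ℕ => (n : ℤ))
      Nat.cast_injective
    simpa [Function.comp_def] using this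
  have hneg : AnalyticAt ℝ (fun w : ℝ => ∑' n : ℕ, w ^ n • c (-((n : ℤ) + 1))) z⁻¹ := by
    refine analyticAt_powser (fun n : ℕ => c (-((n : ℤ) + 1))) t⁻¹ (inv_pos.mpr ht) ?_ z⁻¹ ?_
    · have hinj : Function.Injective fun n : ℕ => (-((n : ℤ) + 1)) := by
        intro m n h
        simpa using h
      have := ((hs t ht0 (htz.trans hz1)).comp_injective hinj).mul_left t
      refine this.congr fun n => ?_
      simp only [Function.comp_apply, zpow_neg, inv_pow]
      rw [zpow_add_one₀ ht.ne', zpow_natCast]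
      field_simp
    · rw [abs_of_pos (inv_pos.mpr hz0)]
      exact (inv_lt_inv₀ hz0 ht).mpr htz
  have hinv : AnalyticAt ℝ (fun z : ℝ => z⁻¹) z := analyticAt_inv hz0.ne'
  have h3 : AnalyticAt ℝ (fun z : ℝ => ∑' n : ℕ, z ^ n • c n +
      z⁻¹ • ∑' n : ℕ, (z⁻¹) ^ n • c (-((n : ℤ) + 1))) z :=
    hpos.add (hinv.smul (hneg.fun_comp hinv))
  refine h3.congr ?_
  have hI : Set.Ioo t s ∈ 𝓝 z := Ioo_mem_nhds htz hzs
  filter_upwards [hI] with w hw
  have hw0 : 0 < w := ht.trans hw.1
  have hsw := hs w (ht0.trans hw.1) (hw.2.trans hs1)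
  have hsum : Summable fun n : ℤ => w ^ n • c n := by
    refine Summable.of_norm ?_
    simpa [norm_smul, abs_of_pos hw0] using hsw
  rw [tsum_of_nat_of_neg_add_one (f := fun n : ℤ => w ^ n • c n)]
  · congr 1
    rw [← tsum_const_smul'']
    refine tsum_congr fun n => ?_
    rw [smul_smul, zpow_neg, zpow_add_one₀ hw0.ne', zpow_natCast]
    congr 1
    rw [inv_pow, mul_inv, mul_comm]
  · exact hsum.comp_injective (i := fun n : ℕ => (n : ℤ)) Nat.cast_injective
  · have hinj : Function.Injective fun n : ℕ => (-((n : ℤ) + 1)) := by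
      intro m n h
      simpa using h
    exact hsum.comp_injective hinj

end Pool.Agent.SB
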