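import Pool.Agent.SB.ResAbs
import Pool.Agent.SB.Int2

/-!
# The inverse of a convolution operator with positive symbol
-/

set_option autoImplicit false

namespace Pool.Agent.SB

open MeasureTheory Set Filter Topology

variable {D : ℕ} {f : (Fin D → ℝ) → ℝ} {H : Gam D → ℝ}

theorem kdot_add (k : Fin D → ℝ) (y u : Gam D) :
    (∑ i, k i * ((y + u) i : ℤ)) = (∑ i, k i * y i) + ∑ i, k i * u i := by
  rw [← Finset.sum_add_distrib]
  refine Finset.sum_congr rfl fun i _ => ?_
  rw [Pi.add_apply, Int.cast_add, mul_add]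

theorem dot_neg (k : Fin D → ℝ) (u : Gam D) :
    (∑ i, k i * ((-u) i : ℤ)) = -∑ i, k i * u i := by
  rw [← Finset.sum_neg_distrib]
  refine Finset.sum_congr rfl fun i _ => ?_
  rw [Pi.neg_apply, Int.cast_neg, mul_neg]

theorem tsum_shift (hH : Summable fun u => |H u|) (he : ∀ u, H (-u) = H u)
    (hf : ∀ k, f k = ∑' u : Gam D, H u * Real.cos (∑ i, k i * u i)) (y : Gam D)
    (k : Fin D → ℝ) :
    ∑' u : Gam D, H u * Real.cos (∑ i, k i * ((y + u) i : ℤ)) =
      Real.cos (∑ i, k i * y i) * f k := by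
  have hc : Summable fun u : Gam D => H u * Real.cos (∑ i, k i * u i) :=
    Summable.of_norm_bounded hH fun u => by
      rw [norm_mul, Real.norm_eq_abs, Real.norm_eq_abs]
      exact mul_le_of_le_one_right (abs_nonneg _) (Real.abs_cos_le_one _)
  have hs : Summable fun u : Gam D => H u * Real.sin (∑ i, k i * u i) :=
    Summable.of_norm_bounded hH fun u => by
      rw [norm_mul, Real.norm_eq_abs, Real.norm_eq_abs]
      exact mul_le_of_le_one_right (abs_nonneg _) (Real.abs_sin_le_one _)
  have hs0 : ∑' u : Gam D, H u * Real.sin (∑ i, k i * u i) = 0 := by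
    have h1 := (Equiv.neg (Gam D)).tsum_eq fun u : Gam D => H u * Real.sin (∑ i, k i * u i)
    have h2 : ∀ u : Gam D, H ((Equiv.neg (Gam D)) u) *
        Real.sin (∑ i, k i * (((Equiv.neg (Gam D)) u) i : ℤ)) =
        -(H u * Real.sin (∑ i, k i * u i)) := by
      intro u
      rw [Equiv.neg_apply, dot_neg, he, Real.sin_neg, mul_neg]
    simp only [h2, tsum_neg] at h1
    linarith
  have e : ∀ u : Gam D, H u * Real.cos (∑ i, k i * ((y + u) i : ℤ)) =
      Real.cos (∑ i, k i * y i) * (H u * Real.cos (∑ i, k i * u i)) -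
        Real.sin (∑ i, k i * y i) * (H u * Real.sin (∑ i, k i * u i)) := by
    intro u
    rw [kdot_add, Real.cos_add]
    ring
  simp only [e]
  rw [(hc.mul_left _).tsum_sub (hs.mul_left _), tsum_mul_left, tsum_mul_left, hs0, ← hf]
  ring

/-- `R * H = δ`. -/
theorem conv_eq (hH : Summable fun u => |H u|) (he : ∀ u, H (-u) = H u)
    (hf : ∀ k, f k = ∑' u : Gam D, H u * Real.cos (∑ i, k i * u i)) (hcont : Continuous f)
    (m : ℝ) (hm : 0 < m) (hfm : ∀ k ∈ cube D, m ≤ f k) (y : Gam D) :
    Summable (fun u : Gam D => H u * Rk f (y + u)) ∧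
    ∑' u : Gam D, H u * Rk f (y + u) = if y = 0 then 1 else 0 := by
  have hp : (0 : ℝ) < (2 * Real.pi) ^ D := by positivity
  set F : Gam D → (Fin D → ℝ) → ℝ := fun u k =>
    H u * (Real.cos (∑ i, k i * ((y + u) i : ℤ)) / f k) with hF
  have hmeas : ∀ u, AEStronglyMeasurable (F u) (volume.restrict (cube D)) := by
    intro u
    refine Measurable.aestronglyMeasurable ?_
    exact ((cont_cos D (y + u)).measurable.div hcont.measurable).const_mul _
  have hb : ∀ u, ∀ k ∈ cube D, ‖F u k‖ ≤ |H u| * m⁻¹ := by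
    intro u k hk
    have h1 := hfm k hk
    rw [hF, norm_mul, norm_div, Real.norm_eq_abs, Real.norm_of_nonneg (hm.le.trans h1)]
    refine mul_le_mul_of_nonneg_left ?_ (abs_nonneg _)
    rw [div_le_iff₀ (hm.trans_le h1)]
    calc ‖Real.cos (∑ i, k i * ((y + u) i : ℤ))‖ ≤ 1 := Real.abs_cos_le_one _
      _ = m⁻¹ * m := by field_simp
      _ ≤ m⁻¹ * f k := mul_le_mul_of_nonneg_left h1 (by positivity)
  have hint : ∀ u, IntegrableOn (F u) (cube D) := fun u =>
    Integrable.mono' (integrableOn_const_cube D (|H u| * m⁻¹)) (hmeas u)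
      ((ae_restrict_iff' (measurableSet_cube D)).2 (Eventually.of_forall fun k hk => hb u k hk))
  have hsum : Summable fun u => ∫ k in cube D, ‖F u k‖ := by
    refine Summable.of_nonneg_of_le (fun u => integral_nonneg fun k => norm_nonneg _)
      (fun u => ?_) (hH.mul_right (m⁻¹ * (2 * Real.pi) ^ D))
    calc ∫ k in cube D, ‖F u k‖ ≤ ∫ _ in cube D, |H u| * m⁻¹ := by
          refine setIntegral_mono_on (hint u).norm (integrableOn_const_cube D _)
            (measurableSet_cube D) fun k hk => hb u k hk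
      _ = _ := by rw [integral_const_cube]; ring
  have key := hasSum_integral_of_summable_integral_norm hint hsum
  have e1 : ∀ u, ∫ k in cube D, F u k = (2 * Real.pi) ^ D * (H u * Rk f (y + u)) := by
    intro u
    rw [hF, Rk]
    simp only
    rw [integral_const_mul]
    field_simp
  have e2 : ∫ k in cube D, ∑' u, F u k = (2 * Real.pi) ^ D * if y = 0 then 1 else 0 := by
    have : ∫ k in cube D, ∑' u, F u k = ∫ k in cube D, Real.cos (∑ i, k i * y i) := by
      refine setIntegral_congr_fun (measurableSet_cube D) fun k hk => ?_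
      have h1 := hfm k hk
      have h2 : f k ≠ 0 := (hm.trans_le h1).ne'
      simp only [hF]
      have h3 : ∀ u : Gam D, H u * (Real.cos (∑ i, k i * ((y + u) i : ℤ)) / f k) =
          H u * Real.cos (∑ i, k i * ((y + u) i : ℤ)) * (f k)⁻¹ := fun u => by
        rw [div_eq_mul_inv, mul_assoc]
      simp only [h3]
      rw [tsum_mul_right, tsum_shift hH he hf, mul_assoc, mul_inv_cancel₀ h2, mul_one]
    rw [this, integral_cos]
    split_ifs <;> simp
  simp only [e1] at key
  rw [e2] at key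
  have key2 := (key.mul_left ((2 * Real.pi) ^ D)⁻¹)
  have e3 : ∀ u : Gam D, ((2 * Real.pi) ^ D)⁻¹ * ((2 * Real.pi) ^ D * (H u * Rk f (y + u))) =
      H u * Rk f (y + u) := fun u => by
    rw [← mul_assoc, inv_mul_cancel₀ hp.ne', one_mul]
  simp only [e3] at key2
  rw [← mul_assoc, inv_mul_cancel₀ hp.ne', one_mul] at key2
  exact ⟨key2.summable, key2.tsum_eq⟩

/-- The inverse operator. -/
theorem inv_conv (hH : Summable fun u => |H u|) (he : ∀ u, H (-u) = H u)
    (hf : ∀ k, f k = ∑' u : Gam D, H u * Real.cos (∑ i, k i * u i)) (hcont : Continuous f)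
    (m : ℝ) (hm : 0 < m) (hfm : ∀ k ∈ cube D, m ≤ f k) (M : ℝ) (hM : ∀ x, |Rk f x| ≤ M)
    (g : Gam D → ℝ) (hg : Summable g) (x : Gam D) :
    g x = ∑' w, Rk f (x - w) * ∑' u, H u * g (w + u) := by
  have hg' : Summable fun v => |g v| := hg.abs
  -- the double family, indexed by `(v, u)` with `v = w + u`
  have hM0 : 0 ≤ M := (abs_nonneg _).trans (hM 0)
  have hprod : Summable fun p : Gam D × Gam D => g p.1 * (H p.2 * Rk f (x - p.1 + p.2)) := by
    have h1 : Summable fun p : Gam D × Gam D => |g p.1| * |H p.2| :=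
      hg'.mul_of_nonneg hH (fun _ => abs_nonneg _) (fun _ => abs_nonneg _)
    refine Summable.of_norm_bounded (h1.mul_right M) fun p => ?_
    rw [norm_mul, norm_mul, Real.norm_eq_abs, Real.norm_eq_abs, Real.norm_eq_abs, ← mul_assoc]
    exact mul_le_mul_of_nonneg_left (hM _) (by positivity)
  have e1 : ∑' p : Gam D × Gam D, g p.1 * (H p.2 * Rk f (x - p.1 + p.2)) = g x := by
    rw [hprod.tsum_prod]
    have : ∀ v : Gam D, ∑' u, g v * (H u * Rk f (x - v + u)) = if v = x then g x else 0 := by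
      intro v
      rw [tsum_mul_left, (conv_eq hH he hf hcont m hm hfm (x - v)).2]
      by_cases hv : v = x
      · simp [hv]
      · rw [if_neg (fun h => hv (sub_eq_zero.1 h).symm), if_neg hv, mul_zero]
    simp only [this]
    rw [tsum_ite_eq]
  -- change of variables `(w, u) ↦ (w + u, u)`
  let e : Gam D × Gam D ≃ Gam D × Gam D :=
    { toFun := fun p => (p.1 + p.2, p.2)
      invFun := fun p => (p.1 - p.2, p.2)
      left_inv := fun p => by ext <;> simp
      right_inv := fun p => by ext <;> simp }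
  have h2 := e.tsum_eq fun p : Gam D × Gam D => g p.1 * (H p.2 * Rk f (x - p.1 + p.2))
  have h3 : Summable fun p : Gam D × Gam D => g (e p).1 * (H (e p).2 * Rk f (x - (e p).1 + (e p).2)) :=
    e.summable_iff.2 hprod
  rw [e1] at h2
  rw [← h2, h3.tsum_prod]
  refine tsum_congr fun w => ?_
  rw [← tsum_mul_left]
  refine tsum_congr fun u => ?_
  have h4 : x - (w + u) + u = x - w := by abel
  simp only [e, Equiv.coe_fn_mk, h4]
  ring

theorem Rk_bound (hcont : Continuous f) (m : ℝ) (hm : 0 < m) (hfm : ∀ k ∈ cube D, m ≤ f k)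
    (x : Gam D) : |Rk f x| ≤ m⁻¹ := by
  have hp : (0 : ℝ) < (2 * Real.pi) ^ D := by positivity
  rw [Rk, abs_mul, abs_of_nonneg (inv_nonneg.2 hp.le), inv_mul_le_iff₀ hp,
    ← Real.norm_eq_abs, ← integral_const_cube]
  refine norm_integral_le_of_norm_le (integrableOn_const_cube D _)
    ((ae_restrict_iff' (measurableSet_cube D)).2 (Eventually.of_forall fun k hk => ?_))
  have h1 := hfm k hk
  have h2 := hm.trans_le h1
  rw [norm_div, Real.norm_of_nonneg h2.le, div_eq_mul_inv]
  calc ‖Real.cos (∑ i, k i * (x i : ℤ))‖ * (f k)⁻¹ ≤ 1 * m⁻¹ :=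
        mul_le_mul (Real.abs_cos_le_one _) (inv_anti₀ hm h1) (inv_nonneg.2 h2.le) zero_le_one
    _ = m⁻¹ := one_mul _

section Hk
variable (D q : ℕ) [NeZero q]

/-- The nearest neighbour part of the kernel of the homogeneous operator. -/
noncomputable def Hn (β z : ℝ) (u : Gam D) : ℝ :=
  (if u = 0 then 1 + kap0 D q β - c0 D q β * (z + z⁻¹) else 0) -
    c0 D q β * ∑ i, ((if u = Pi.single i 1 then 1 else 0) + if u = -Pi.single i 1 then 1 else 0)

/-- The kernel of the homogeneous operator. -/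
noncomputable def Hk (β z : ℝ) (u : Gam D) : ℝ := Hn D q β z u - Sz D q β 1 z 0 u

theorem hasSum_ite_mul (φ : Gam D → ℝ) (a : Gam D) (b : ℝ) :
    HasSum (fun u : Gam D => (if u = a then b else 0) * φ u) (b * φ a) := by
  have h1 := hasSum_ite_eq a (b * φ a)
  have h2 : (fun u : Gam D => (if u = a then b else 0) * φ u) =
      fun u => if u = a then b * φ a else 0 := by
    funext u
    by_cases h : u = a
    · rw [if_pos h, if_pos h, h]
    · rw [if_neg h, if_neg h, zero_mul]
  rw [h2]
  exact h1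

theorem Hn_hasSum (β z : ℝ) (φ : Gam D → ℝ) : HasSum (fun u => Hn D q β z u * φ u)
    ((1 + kap0 D q β - c0 D q β * (z + z⁻¹)) * φ 0 -
      c0 D q β * ∑ i, (φ (Pi.single i 1) + φ (-Pi.single i 1))) := by
  have h2 : HasSum (fun u : Gam D => (∑ i : Fin D, ((if u = Pi.single i 1 then (1 : ℝ) else 0) +
      if u = -Pi.single i 1 then 1 else 0)) * φ u)
      (∑ i : Fin D, (φ (Pi.single i 1) + φ (-Pi.single i 1))) := by
    have h3 : ∀ i ∈ (Finset.univ : Finset (Fin D)), HasSum (fun u : Gam D =>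
        ((if u = Pi.single i 1 then (1 : ℝ) else 0) + if u = -Pi.single i 1 then 1 else 0) * φ u)
        (φ (Pi.single i 1) + φ (-Pi.single i 1)) := by
      intro i _
      have h4 := (hasSum_ite_mul D φ (Pi.single i 1) 1).add (hasSum_ite_mul D φ (-Pi.single i 1) 1)
      rw [one_mul, one_mul] at h4
      simpa only [add_mul] using h4
    have h5 := hasSum_sum h3
    simpa only [Finset.sum_mul] using h5
  have h6 := (hasSum_ite_mul D φ 0 (1 + kap0 D q β - c0 D q β * (z + z⁻¹))).sub
    (h2.mul_left (c0 D q β))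
  refine h6.congr_fun fun u => ?_
  simp only [Hn]
  ring

theorem Hn_even (β z : ℝ) (u : Gam D) : Hn D q β z (-u) = Hn D q β z u := by
  unfold Hn
  congr 1
  · by_cases h : u = 0
    · rw [if_pos h, if_pos (by rw [h, neg_zero])]
    · rw [if_neg h, if_neg (fun h' => h (neg_eq_zero.1 h'))]
  · congr 1
    refine Finset.sum_congr rfl fun i _ => ?_
    rw [add_comm]
    congr 1
    · by_cases h : u = Pi.single i 1
      · rw [if_pos h, if_pos (by rw [h])]
      · rw [if_neg h, if_neg (fun h' => h (neg_injective h'))]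
    · by_cases h : u = -Pi.single i 1
      · rw [if_pos h, if_pos (by rw [h, neg_neg])]
      · rw [if_neg h, if_neg (fun h' => h (by rw [← h', neg_neg]))]

theorem Hk_summable (β z : ℝ) (hs : Summable fun w => |Sz D q β 1 z 0 w|) :
    Summable fun u => |Hk D q β z u| := by
  have h1 : Summable fun u => Hn D q β z u * 1 := (Hn_hasSum D q β z fun _ => 1).summable
  have h2 : Summable fun u => |Hn D q β z u| := by simpa only [mul_one] using h1.abs
  refine Summable.of_nonneg_of_le (fun _ => abs_nonneg _) (fun u => ?_) (h2.add hs)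
  exact abs_sub _ _

theorem Hz_eq (β z : ℝ) (hs : Summable fun w => |Sz D q β 1 z 0 w|) (g : Gam D → ℝ) (B : ℝ)
    (hB : ∀ x, |g x| ≤ B) (w : Gam D) :
    Hz D q β z g w = ∑' u, Hk D q β z u * g (w + u) := by
  have h1 := Hn_hasSum D q β z fun u => g (w + u)
  have h2 : Summable fun u => Sz D q β 1 z 0 u * g (w + u) := by
    refine Summable.of_norm_bounded (hs.mul_right B) fun u => ?_
    rw [norm_mul, Real.norm_eq_abs, Real.norm_eq_abs]
    exact mul_le_mul_of_nonneg_left (hB _) (abs_nonneg _)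
  have h3 := h1.sub h2.hasSum
  have h4 : (fun u => Hk D q β z u * g (w + u)) =
      fun u => Hn D q β z u * g (w + u) - Sz D q β 1 z 0 u * g (w + u) := by
    funext u
    rw [Hk, sub_mul]
  rw [h4, h3.tsum_eq, Hz]
  simp only [add_zero, sub_eq_add_neg]

theorem hh_eq (β z : ℝ) (hs : Summable fun w => |Sz D q β 1 z 0 w|) (k : Fin D → ℝ) :
    hh D q β z k = ∑' u, Hk D q β z u * Real.cos (∑ i, k i * u i) := by
  have h1 := Hn_hasSum D q β z fun u => Real.cos (∑ i, k i * (u i : ℤ))
  have h2 : Summable fun u : Gam D => Sz D q β 1 z 0 u * Real.cos (∑ i, k i * u i) := by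
    refine Summable.of_norm_bounded hs fun u => ?_
    rw [norm_mul, Real.norm_eq_abs, Real.norm_eq_abs]
    exact mul_le_of_le_one_right (abs_nonneg _) (Real.abs_cos_le_one _)
  have h3 := h1.sub h2.hasSum
  have h4 : (fun u : Gam D => Hk D q β z u * Real.cos (∑ i, k i * u i)) =
      fun u : Gam D => Hn D q β z u * Real.cos (∑ i, k i * u i) -
        Sz D q β 1 z 0 u * Real.cos (∑ i, k i * u i) := by
    funext u
    rw [Hk, sub_mul]
  have h5 : ∀ i : Fin D, (∑ j, k j * (((Pi.single i 1 : Gam D) j : ℤ) : ℝ)) = k i := by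
    intro i
    rw [Finset.sum_eq_single i]
    · simp
    · intro j _ hj
      rw [Pi.single_eq_of_ne hj, Int.cast_zero, mul_zero]
    · intro h
      exact absurd (Finset.mem_univ i) h
  rw [h4, h3.tsum_eq, hh]
  simp only [dot_neg, h5, Real.cos_neg, Pi.zero_apply, Int.cast_zero, mul_zero,
    Finset.sum_const_zero, Real.cos_zero, mul_one, Finset.sum_add_distrib]
  ring

/-- The inverse of the homogeneous operator. -/
theorem rinv_abs (β z : ℝ) (hs : Summable fun w => |Sz D q β 1 z 0 w|)
    (he : ∀ w, Sz D q β 1 z 0 (-w) = Sz D q β 1 z 0 w) (hcont : Continuous (hh D q β z))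
    (m : ℝ) (hm : 0 < m) (hfm : ∀ k ∈ cube D, m ≤ hh D q β z k) (M : ℝ)
    (hM : ∀ x, |Rz D q β z x| ≤ M) (g : Gam D → ℝ) (hg : Summable g) (x : Gam D) :
    g x = ∑' w, Rz D q β z (x - w) * Hz D q β z g w := by
  have hg' : Summable fun v => |g v| := hg.abs
  have hB : ∀ x, |g x| ≤ ∑' v, |g v| := fun x => hg'.le_tsum x fun _ _ => abs_nonneg _
  simp only [Hz_eq D q β z hs g _ hB]
  exact inv_conv (Hk_summable D q β z hs)
    (fun u => by rw [Hk, Hk, Hn_even, he]) (hh_eq D q β z hs) hcont m hm hfm M hM g hg x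

/-- The inverse of the homogeneous operator, from the bounds for the symbol. -/
theorem rinv_of_symB (β c K a z1 : ℝ) (S : SymB D (hh D q β) c K a z1) (z : ℝ) (ha : a ≤ z)
    (hz : z < z1) (hs : Summable fun w => |Sz D q β 1 z 0 w|)
    (he : ∀ w, Sz D q β 1 z 0 (-w) = Sz D q β 1 z 0 w) (g : Gam D → ℝ) (hg : Summable g)
    (x : Gam D) : g x = ∑' w, Rz D q β z (x - w) * Hz D q β z g w := by
  have hc := S.c_pos
  have hK := S.K_pos
  have hm : 0 < c / 2 * (z1 - z) := mul_pos (by linarith) (by linarith)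
  have hfm : ∀ k ∈ cube D, c / 2 * (z1 - z) ≤ hh D q β z k := fun k hk => by
    have h1 := S.lower ha hz.le hk
    have h2 : 0 ≤ c / K * ‖k‖ ^ 2 := by positivity
    linarith
  exact rinv_abs D q β z hs he (S.cont z ha hz.le) _ hm hfm _
    (Rk_bound (S.cont z ha hz.le) _ hm hfm) g hg x

end Hk

end Pool.Agent.SB
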