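import Pool.Agent.SB.Lp
import Pool.Agent.SB.Pri
import Pool.Agent.SB.RinvAbs
import Pool.Agent.SB.IdnAbs

/-!
# Identification, part A: the functions `g_z` and the radius of the sum (row IDN)
-/

set_option autoImplicit false

namespace Pool.Agent.SB

open Filter Topology

section sums

variable (D q : ℕ) [NeZero q]

/-- The Laplace transform of the two-point function. -/
noncomputable def gz (β J z : ℝ) (y : Gam D) : ℝ := ∑' n : ℤ, z ^ n * G D q β J (0, y) (n, 0)

/-- Convergence of the full sum at `z`. -/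
def SumAt (β J z : ℝ) : Prop :=
  Summable (fun p : Gam D × ℤ => z ^ p.2 * G D q β J (0, p.1) (p.2, 0))

/-- The plane sums. -/
noncomputable def An (β J : ℝ) (n : ℤ) : ℝ := ∑' y : Gam D, G D q β J (0, y) (n, 0)

variable {D q}

lemma SumAt.gz_summable {β J z : ℝ} (h : SumAt D q β J z) : Summable (gz D q β J z) := h.prod

lemma gz_nonneg {β J z : ℝ} (hz : 0 ≤ z) (hG : ∀ x y, 0 ≤ G D q β J x y) (y : Gam D) :
    0 ≤ gz D q β J z y :=
  tsum_nonneg fun n => mul_nonneg (zpow_nonneg hz n) (hG _ _)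

lemma SumAt.plane {β J z : ℝ} (h : SumAt D q β J z) (hz : 0 < z) (n : ℤ) :
    Summable fun y : Gam D => G D q β J (0, y) (n, 0) := by
  have h1 : Summable fun y : Gam D => z ^ n * G D q β J (0, y) (n, 0) := by
    have := h.prod_symm.prod_factor n
    simpa using this
  have h2 := h1.mul_left (z ^ n)⁻¹
  refine h2.congr fun y => ?_
  rw [← mul_assoc, inv_mul_cancel₀ (zpow_pos hz n).ne', one_mul]

lemma SumAt.int {β J z : ℝ} (h : SumAt D q β J z) :
    Summable (fun n : ℤ => z ^ n * An D q β J n) ∧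
      ∑' y, gz D q β J z y = ∑' n : ℤ, z ^ n * An D q β J n := by
  have h1 : (fun n : ℤ => z ^ n * An D q β J n) =
      fun n : ℤ => ∑' y : Gam D, z ^ n * G D q β J (0, y) (n, 0) := by
    funext n
    rw [An, tsum_mul_left]
  rw [h1]
  refine ⟨?_, ?_⟩
  · have := h.prod_symm.prod
    simpa using this
  · unfold gz
    exact (Summable.tsum_comm
      (f := fun (y : Gam D) (n : ℤ) => z ^ n * G D q β J (0, y) (n, 0)) h).symm

lemma sumAt_of_int {β J z : ℝ} (hz : 0 ≤ z) (hG : ∀ x y, 0 ≤ G D q β J x y)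
    (hp : ∀ n : ℤ, Summable fun y : Gam D => G D q β J (0, y) (n, 0))
    (hs : Summable fun n : ℤ => z ^ n * An D q β J n) : SumAt D q β J z := by
  have h1 : Summable fun p : ℤ × Gam D => z ^ p.1 * G D q β J (0, p.2) (p.1, 0) := by
    rw [summable_prod_of_nonneg (fun p => mul_nonneg (zpow_nonneg hz _) (hG _ _))]
    refine ⟨fun n => (hp n).mul_left (z ^ n), ?_⟩
    refine hs.congr fun n => ?_
    rw [An, ← tsum_mul_left]
  have := h1.prod_symm
  simpa [SumAt] using this

lemma An_nonneg {β J : ℝ} (hG : ∀ x y, 0 ≤ G D q β J x y) (n : ℤ) : 0 ≤ An D q β J n :=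
  tsum_nonneg fun _ => hG _ _

/-- The negative part converges as soon as `1 ≤ z`. -/
lemma summable_neg_part {β J z : ℝ} (h1 : SumAt D q β J 1) (hz : 1 ≤ z)
    (hG : ∀ x y, 0 ≤ G D q β J x y) :
    Summable fun n : ℕ => z ^ (-((n : ℤ) + 1)) * An D q β J (-((n : ℤ) + 1)) := by
  have h2 := h1.int.1
  have hinj : Function.Injective fun n : ℕ => (-((n : ℤ) + 1)) := fun m n h => by simpa using h
  have h3 := h2.comp_injective hinj
  refine Summable.of_nonneg_of_le (fun n => ?_) (fun n => ?_) h3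
  · exact mul_nonneg (zpow_nonneg (by linarith) _) (An_nonneg hG _)
  · simp only [Function.comp_apply, one_zpow, one_mul]
    refine mul_le_of_le_one_left (An_nonneg hG _) ?_
    exact zpow_le_one_of_nonpos₀ hz (by omega)

lemma sumAt_iff {β J z : ℝ} (h1 : SumAt D q β J 1) (hz : 1 ≤ z)
    (hG : ∀ x y, 0 ≤ G D q β J x y) :
    SumAt D q β J z ↔ Summable fun n : ℕ => An D q β J n * z ^ n := by
  have hz0 : 0 < z := by linarith
  constructor
  · intro h
    have h3 := h.int.1.comp_injective (i := fun n : ℕ => (n : ℤ)) Nat.cast_injective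
    refine h3.congr fun n => ?_
    simp [mul_comm]
  · intro h
    refine sumAt_of_int hz0.le hG (h1.plane one_pos) ?_
    refine Summable.of_nat_of_neg_add_one ?_ (summable_neg_part h1 hz hG)
    refine h.congr fun n => ?_
    simp [mul_comm]

/-- The negative part. -/
noncomputable def negPart (D q : ℕ) [NeZero q] (β J z : ℝ) : ℝ :=
  ∑' n : ℤ, z ^ n • (if n < 0 then An D q β J n else 0)

lemma negPart_analytic {β J z : ℝ} (h1 : SumAt D q β J 1) (hz : 1 < z)
    (hG : ∀ x y, 0 ≤ G D q β J x y) : AnalyticAt ℝ (negPart D q β J) z := by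
  unfold negPart
  refine analyticAt_laurent (fun n : ℤ => if n < 0 then An D q β J n else 0) 1 (z + 1)
    zero_le_one ?_ z hz (by linarith)
  intro w hw _
  refine Summable.of_nat_of_neg_add_one ?_ ?_
  · refine summable_zero.congr fun n => ?_
    have : ¬ ((n : ℤ) < 0) := by omega
    simp [this]
  · refine (summable_neg_part h1 hw.le hG).congr fun n => ?_
    have : (-((n : ℤ) + 1)) < 0 := by omega
    rw [if_pos this, Real.norm_eq_abs, abs_of_nonneg (An_nonneg hG _)]

lemma sum_split {β J z : ℝ} (h : SumAt D q β J z) (h1 : SumAt D q β J 1) (hz : 1 ≤ z)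
    (hG : ∀ x y, 0 ≤ G D q β J x y) :
    ∑' y, gz D q β J z y = ∑' n : ℕ, An D q β J n * z ^ n + negPart D q β J z := by
  rw [h.int.2]
  have hn := summable_neg_part h1 hz hG
  have hp : Summable fun n : ℕ => z ^ (n : ℤ) * An D q β J (n : ℤ) := by
    refine ((sumAt_iff h1 hz hG).mp h).congr fun n => ?_
    simp [mul_comm]
  rw [tsum_of_nat_of_neg_add_one hp hn]
  congr 1
  · refine tsum_congr fun n => ?_
    simp [mul_comm]
  · unfold negPart
    have e1 : ∀ n : ℕ, (fun n : ℤ => z ^ n • (if n < 0 then An D q β J n else 0)) n = 0 := by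
      intro n
      have : ¬ ((n : ℤ) < 0) := by omega
      simp [this]
    have e2 : ∀ n : ℕ, (fun n : ℤ => z ^ n • (if n < 0 then An D q β J n else 0)) (-((n : ℤ) + 1)) =
        z ^ (-((n : ℤ) + 1)) * An D q β J (-((n : ℤ) + 1)) := by
      intro n
      have : (-((n : ℤ) + 1)) < 0 := by omega
      simp only [if_pos this, smul_eq_mul]
    rw [tsum_of_nat_of_neg_add_one (f := fun n : ℤ => z ^ n • (if n < 0 then An D q β J n else 0))]
    · simp only [e1, e2, tsum_zero, zero_add]
    · simp only [e1]; exact summable_zero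
    · simp only [e2]; exact hn

/-- Propagation: if the full sum is given on `(za, ρ)` by a function analytic at `ρ` then it
converges beyond `ρ`. -/
lemma sumAt_of_analytic {β J x0 x1 : ℝ} (h1 : SumAt D q β J 1) (hx0 : 1 ≤ x0) {y0 : ℝ}
    (hy0 : x0 < y0) (hy : SumAt D q β J y0) (hG : ∀ x y, 0 ≤ G D q β J x y) (Φ : ℝ → ℝ)
    (hΦ : ∀ z, x0 < z → z < x1 → AnalyticAt ℝ Φ z)
    (heq : ∀ z, x0 < z → z < x1 → SumAt D q β J z → Φ z = ∑' y, gz D q β J z y) :
    ∀ z, 1 ≤ z → z < x1 → SumAt D q β J z := by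
  intro b hb1 hbx
  by_contra hbad
  set a : ℕ → ℝ := fun n => An D q β J n with ha
  have ha0 : ∀ n, 0 ≤ a n := fun n => An_nonneg hG _
  have hmono : ∀ {x y : ℝ}, 0 ≤ x → x ≤ y → (Summable fun n => a n * y ^ n) →
      Summable fun n => a n * x ^ n := by
    intro x y hx hxy hs
    refine Summable.of_nonneg_of_le (fun n => ?_) (fun n => ?_) hs
    · have := ha0 n; positivity
    · have := ha0 n; gcongr
  set S : Set ℝ := {x | 0 ≤ x ∧ Summable fun n => a n * x ^ n} with hS
  have hyS : y0 ∈ S := ⟨by linarith, (sumAt_iff h1 (by linarith) hG).mp hy⟩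
  have hub : ∀ x ∈ S, x ≤ b := by
    intro x hx
    by_contra hlt
    exact hbad ((sumAt_iff h1 hb1 hG).mpr (hmono (by linarith) (not_le.mp hlt).le hx.2))
  have hbdd : BddAbove S := ⟨b, hub⟩
  set R : ℝ := sSup S with hR
  have hyR : y0 ≤ R := le_csSup hbdd hyS
  have hRb : R ≤ b := csSup_le ⟨y0, hyS⟩ hub
  have hsum : ∀ x, 0 ≤ x → x < R → Summable fun n => a n * x ^ n := by
    intro x hx hxR
    obtain ⟨y, hy, hxy⟩ := exists_lt_of_lt_csSup ⟨y0, hyS⟩ hxR
    exact hmono hx hxy.le hy.2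
  have hx0R : x0 < R := hy0.trans_le hyR
  have hRx1 : R < x1 := hRb.trans_lt hbx
  have hF : AnalyticAt ℝ (fun z => Φ z - negPart D q β J z) R :=
    (hΦ R hx0R hRx1).sub (negPart_analytic h1 (by linarith) hG)
  obtain ⟨z, hz, hzs⟩ := pringsheim a ha0 R (R - x0) (by linarith) (by linarith) hsum _ hF (by
    intro z hz hz0 hzR
    have hz1 : x0 < z := by linarith
    have hzS : SumAt D q β J z := (sumAt_iff h1 (by linarith) hG).mpr (hsum z hz0 hzR)
    rw [heq z hz1 (hzR.trans hRx1) hzS, sum_split hzS h1 (by linarith) hG]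
    ring)
  have := le_csSup hbdd (show z ∈ S from ⟨by linarith, hzs⟩)
  rw [← hR] at this
  linarith

/-- Sum of the homogeneous operator. -/
lemma Hz_sum (β z : ℝ) (hs : Summable fun w => |Sz D q β 1 z 0 w|) (g : Gam D → ℝ)
    (hg : Summable g) (hg0 : ∀ x, 0 ≤ g x) :
    ∑' w, Hz D q β z g w = hh D q β z 0 * ∑' x, g x := by
  have hB : ∀ x, |g x| ≤ ∑' x, g x := fun x => by
    rw [abs_of_nonneg (hg0 x)]
    exact hg.le_tsum x fun _ _ => hg0 _
  have h1 : ∀ w, Hz D q β z g w = ∑' u, Hk D q β z u * g (w + u) :=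
    Hz_eq D q β z hs g _ hB
  have hH := Hk_summable D q β z hs
  have hprod : Summable fun p : Gam D × Gam D => Hk D q β z p.2 * g (p.1 + p.2) := by
    have h2 : Summable fun p : Gam D × Gam D => |Hk D q β z p.1| * g p.2 :=
      hH.mul_of_nonneg hg (fun _ => abs_nonneg _) hg0
    let φ : Gam D × Gam D ≃ Gam D × Gam D :=
      { toFun := fun p => (p.2, p.1 + p.2)
        invFun := fun p => (p.2 - p.1, p.1)
        left_inv := fun p => by simp
        right_inv := fun p => by simp }
    have h3 := (φ.summable_iff).mpr h2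
    refine Summable.of_norm (h3.congr fun p => ?_)
    simp [φ, abs_of_nonneg (hg0 _)]
  calc ∑' w, Hz D q β z g w = ∑' w, ∑' u, Hk D q β z u * g (w + u) := tsum_congr h1
    _ = ∑' u, ∑' w, Hk D q β z u * g (w + u) :=
      (Summable.tsum_comm (f := fun (w u : Gam D) => Hk D q β z u * g (w + u)) hprod).symm
    _ = ∑' u, Hk D q β z u * ∑' x, g x := by
      refine tsum_congr fun u => ?_
      rw [tsum_mul_left]
      congr 1
      exact (Equiv.addRight u).tsum_eq g
    _ = (∑' u, Hk D q β z u) * ∑' x, g x := tsum_mul_right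
    _ = hh D q β z 0 * ∑' x, g x := by
      congr 1
      rw [hh_eq D q β z hs 0]
      simp

end sums

end Pool.Agent.SB
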