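import Pool.Agent.SB.Defs2
import Pool.Agent.SB.Pri
import Pool.Agent.SB.Lp

/-!
# Laurent series with values in `ℓ¹`, and the weights `θ^N` (for the rows SRC and ANA)
-/

set_option autoImplicit false

namespace Pool.Agent.SB

open Filter Topology

section weight

/-- `z^n ρ^N ≤ θ^N` if `2n ≤ N`, `1 ≤ z ≤ A/ρ`, `θ² = A ρ`. -/
lemma lau_weight {A ρ θ z : ℝ} (hρ : 0 < ρ) (hA : 1 ≤ A) (hθ : 0 ≤ θ) (hθ1 : θ ≤ 1)
    (hθ2 : A * ρ = θ ^ 2) (h1 : 1 ≤ z) (hz : z ≤ A / ρ) (n : ℤ) (N : ℕ) (hn : 2 * n ≤ N) :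
    z ^ n * ρ ^ N ≤ θ ^ N := by
  have hρθ : ρ ≤ θ := by
    have h2 : ρ ≤ A * ρ := by nlinarith
    have h3 : θ ^ 2 ≤ θ := by nlinarith
    linarith
  rcases le_or_gt n 0 with h0 | h0
  · have h2 : z ^ n ≤ 1 := zpow_le_one_of_nonpos₀ h1 h0
    calc z ^ n * ρ ^ N ≤ 1 * ρ ^ N := by gcongr
      _ = ρ ^ N := one_mul _
      _ ≤ θ ^ N := by gcongr
  · obtain ⟨m, rfl⟩ := Int.eq_ofNat_of_zero_le h0.le
    have hm : 2 * m ≤ N := by exact_mod_cast hn
    obtain ⟨k, rfl⟩ := Nat.exists_eq_add_of_le hm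
    rw [show z ^ ((m : ℕ) : ℤ) = z ^ m from zpow_natCast z m]
    have hz0 : 0 ≤ z := by linarith
    calc z ^ m * ρ ^ (2 * m + k) ≤ (A / ρ) ^ m * ρ ^ (2 * m + k) := by gcongr
      _ = (A * ρ) ^ m * ρ ^ k := by
          rw [pow_add, pow_mul, div_pow, mul_pow]
          field_simp
          ring
      _ = θ ^ (2 * m) * ρ ^ k := by rw [hθ2, ← pow_mul]
      _ ≤ θ ^ (2 * m) * θ ^ k := by gcongr
      _ = θ ^ (2 * m + k) := by rw [pow_add]

lemma lau_nt_cons {D : ℕ} (a : ℤ) (x : Fin D → ℤ) :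
    nt (Fin.cons a x : Fin (D + 1) → ℤ) = a.natAbs + nt x := by
  simp [nt, Fin.sum_univ_succ]

lemma lau_summable_int {θ : ℝ} (hθ : 0 ≤ θ) (hθ1 : θ < 1) :
    Summable fun a : ℤ => θ ^ a.natAbs := by
  have h := summable_geometric_of_lt_one hθ hθ1
  refine Summable.of_nat_of_neg ?_ ?_ <;> simpa using h

lemma lau_summable_nt (D : ℕ) {θ : ℝ} (hθ : 0 ≤ θ) (hθ1 : θ < 1) :
    Summable fun x : Gam D => θ ^ nt x := by
  induction D with
  | zero => exact Summable.of_finite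
  | succ D ih =>
    have h1 := (lau_summable_int hθ hθ1).mul_of_nonneg ih (fun _ => by positivity)
      (fun _ => by positivity)
    have h2 : (fun p : ℤ × Gam D => θ ^ p.1.natAbs * θ ^ nt p.2) =
        (fun x : Gam (D + 1) => θ ^ nt x) ∘ (Fin.consEquiv fun _ => ℤ) := by
      funext p
      simp only [Function.comp_apply]
      rw [← pow_add, ← lau_nt_cons]
      rfl
    rw [h2] at h1
    exact (Equiv.summable_iff _).mp h1

lemma AA_ge_one (D q : ℕ) [NeZero q] : 1 ≤ AA D q := by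
  have : (1 : ℝ) ≤ q := by exact_mod_cast NeZero.one_le
  have hD : (0 : ℝ) ≤ D := by positivity
  unfold AA
  nlinarith

lemma zm_eq_div (D q : ℕ) (β : ℝ) (hβ : 0 < β) : zm q β = AA D q / rr D β := by
  have : (D : ℝ) + 1 ≠ 0 := by positivity
  unfold zm AA rr
  field_simp
  ring

end weight

section laurent

/-- Evaluation on `ℓ¹`. -/
noncomputable def evL1 {I : Type} (i : I) : L1 I →L[ℝ] ℝ :=
  LinearMap.mkContinuous
    { toFun := fun g => g i
      map_add' := fun g g' => by simp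
      map_smul' := fun c g => by simp } 1 fun g => by
    rw [one_mul]
    have h := (L1.summable g).le_tsum i (fun _ _ => abs_nonneg _)
    rw [L1.norm_eq]
    exact h

@[simp] lemma evL1_apply {I : Type} (i : I) (g : L1 I) : evL1 i g = g i := rfl

/-- A Laurent series with absolutely summable coefficients is analytic with values in `ℓ¹`. -/
theorem laurent_L1 {I : Type} (F : I → ℤ → ℕ → ℝ) (r₀ r₁ : ℝ) (h0 : 0 < r₀)
    (hs : ∀ z, r₀ ≤ z → z ≤ r₁ →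
      Summable fun p : I × (ℤ × ℕ) => z ^ p.2.1 * |F p.1 p.2.1 p.2.2|) :
    ∃ s : ℝ → L1 I, (∀ z i, r₀ ≤ z → z ≤ r₁ → s z i = ∑' p : ℤ × ℕ, z ^ p.1 * F i p.1 p.2) ∧
      ∀ z, r₀ < z → z < r₁ → AnalyticAt ℝ s z := by
  rcases lt_or_ge r₁ r₀ with hr | hr
  · exact ⟨fun _ => 0, fun z i h1 h2 => absurd (h1.trans h2) (not_le.mpr hr),
      fun z h1 h2 => absurd (h1.trans h2) (not_lt.mpr hr.le)⟩
  -- rearrangement
  let e : ℤ × (I × ℕ) ≃ I × (ℤ × ℕ) :=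
    { toFun := fun p => (p.2.1, p.1, p.2.2)
      invFun := fun p => (p.2.1, p.1, p.2.2)
      left_inv := fun p => rfl
      right_inv := fun p => rfl }
  have hs' : ∀ z, r₀ ≤ z → z ≤ r₁ →
      Summable fun p : ℤ × (I × ℕ) => z ^ p.1 * |F p.2.1 p.1 p.2.2| := fun z h1 h2 =>
    (e.summable_iff.mpr (hs z h1 h2) : _)
  have hrow : ∀ n, Summable fun p : I × ℕ => |F p.1 n p.2| := by
    intro n
    have h1 := (hs' r₀ le_rfl hr).prod_factor n
    have h2 := h1.mul_left (r₀ ^ n)⁻¹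
    refine h2.congr fun p => ?_
    have : r₀ ^ n ≠ 0 := (zpow_pos h0 n).ne'
    field_simp
  have hrowi : ∀ n i, Summable fun N : ℕ => |F i n N| := fun n i => (hrow n).prod_factor i
  have habs : ∀ n i, |∑' N, F i n N| ≤ ∑' N, |F i n N| := by
    intro n i
    have h1 := norm_tsum_le_tsum_norm (f := fun N => F i n N) (by simpa using hrowi n i)
    simpa using h1
  have hc : ∀ n, Summable fun i => |∑' N, F i n N| := fun n =>
    Summable.of_nonneg_of_le (fun _ => abs_nonneg _) (habs n) (hrow n).prod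
  set c : ℤ → L1 I := fun n => mkL1 (fun i => ∑' N, F i n N) (hc n) with hcdef
  have hcn : ∀ n, ‖c n‖ ≤ ∑' p : I × ℕ, |F p.1 n p.2| := by
    intro n
    rw [hcdef]
    simp only
    rw [norm_mkL1, (hrow n).tsum_prod]
    exact (hc n).tsum_le_tsum (habs n) (hrow n).prod
  have hsum : ∀ z, r₀ ≤ z → z ≤ r₁ → Summable fun n : ℤ => z ^ n * ‖c n‖ := by
    intro z h1 h2
    have hz : 0 < z := h0.trans_le h1
    have h3 := (hs' z h1 h2).prod
    refine Summable.of_nonneg_of_le (fun n => ?_) (fun n => ?_) h3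
    · have := zpow_pos hz n; positivity
    · change z ^ n * ‖c n‖ ≤ ∑' p : I × ℕ, z ^ n * |F p.1 n p.2|
      rw [tsum_mul_left]
      have := zpow_pos hz n
      gcongr
      exact hcn n
  refine ⟨fun z => ∑' n : ℤ, z ^ n • c n, fun z i h1 h2 => ?_, fun z h1 h2 => ?_⟩
  · have hz : 0 < z := h0.trans_le h1
    have h3 : Summable fun n : ℤ => z ^ n • c n := by
      refine Summable.of_norm ?_
      refine (hsum z h1 h2).congr fun n => ?_
      rw [norm_smul, Real.norm_eq_abs, abs_of_pos (zpow_pos hz n)]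
    have h4 : (∑' n : ℤ, z ^ n • c n : L1 I) i = ∑' n : ℤ, z ^ n * ∑' N, F i n N := by
      have h5 := (evL1 i).map_tsum h3
      rw [evL1_apply] at h5
      rw [h5]
      refine tsum_congr fun n => ?_
      rw [map_smul, evL1_apply, smul_eq_mul, hcdef]
      rfl
    rw [h4]
    have h6 : Summable fun p : ℤ × ℕ => z ^ p.1 * F i p.1 p.2 := by
      have h7 := (hs z h1 h2).prod_factor i
      refine Summable.of_norm (h7.congr fun p => ?_)
      rw [norm_mul, Real.norm_eq_abs, Real.norm_eq_abs, abs_of_pos (zpow_pos hz _)]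
    rw [h6.tsum_prod]
    exact tsum_congr fun n => tsum_mul_left.symm
  · exact analyticAt_laurent c r₀ r₁ h0.le
      (fun z h3 h4 => hsum z h3.le h4.le) z h1 h2

/-- Summability from weighted bounds. -/
lemma lau_sum {I : Type} (F : I → ℤ → ℕ → ℝ) (ρ z B : ℝ) (w : I → ℝ) (hz : 0 < z)
    (hw : Summable w) (hw0 : ∀ i, 0 ≤ w i)
    (hs : ∀ i, Summable fun p : ℤ × ℕ => |F i p.1 p.2| * (ρ⁻¹) ^ p.2)
    (hB : ∀ i, ∑' p : ℤ × ℕ, |F i p.1 p.2| * (ρ⁻¹) ^ p.2 ≤ B)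
    (hk : ∀ i n N, z ^ n * |F i n N| ≤ w i * (|F i n N| * (ρ⁻¹) ^ N)) :
    (Summable fun p : I × (ℤ × ℕ) => z ^ p.2.1 * |F p.1 p.2.1 p.2.2|) ∧
      (∀ i, Summable fun p : ℤ × ℕ => z ^ p.1 * F i p.1 p.2) ∧
      ∀ i, |∑' p : ℤ × ℕ, z ^ p.1 * F i p.1 p.2| ≤ B * w i := by
  have hrow : ∀ i, Summable fun p : ℤ × ℕ => z ^ p.1 * |F i p.1 p.2| := fun i =>
    Summable.of_nonneg_of_le (fun p => mul_nonneg (zpow_pos hz _).le (abs_nonneg _))
      (fun p => hk i p.1 p.2) ((hs i).mul_left (w i))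
  have htot : ∀ i, ∑' p : ℤ × ℕ, z ^ p.1 * |F i p.1 p.2| ≤ B * w i := by
    intro i
    calc ∑' p : ℤ × ℕ, z ^ p.1 * |F i p.1 p.2|
        ≤ ∑' p : ℤ × ℕ, w i * (|F i p.1 p.2| * (ρ⁻¹) ^ p.2) :=
          (hrow i).tsum_le_tsum (fun p => hk i p.1 p.2) ((hs i).mul_left (w i))
      _ = w i * ∑' p : ℤ × ℕ, |F i p.1 p.2| * (ρ⁻¹) ^ p.2 := tsum_mul_left
      _ ≤ w i * B := mul_le_mul_of_nonneg_left (hB i) (hw0 i)
      _ = B * w i := mul_comm _ _
  have hn : ∀ i (p : ℤ × ℕ), ‖z ^ p.1 * F i p.1 p.2‖ = z ^ p.1 * |F i p.1 p.2| := by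
    intro i p
    rw [norm_mul, Real.norm_eq_abs, Real.norm_eq_abs, abs_of_pos (zpow_pos hz _)]
  have hrow' : ∀ i, Summable fun p : ℤ × ℕ => ‖z ^ p.1 * F i p.1 p.2‖ := fun i =>
    (hrow i).congr fun p => (hn i p).symm
  refine ⟨?_, fun i => (hrow' i).of_norm, fun i => ?_⟩
  · rw [summable_prod_of_nonneg fun p => mul_nonneg (zpow_pos hz _).le (abs_nonneg _)]
    refine ⟨hrow, Summable.of_nonneg_of_le (fun i => tsum_nonneg fun p =>
      mul_nonneg (zpow_pos hz _).le (abs_nonneg _)) htot (hw.mul_left B)⟩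
  · have h1 := norm_tsum_le_tsum_norm (hrow' i)
    rw [Real.norm_eq_abs] at h1
    refine h1.trans (le_trans (le_of_eq (tsum_congr fun p => hn i p)) (htot i))

/-- The basic term bound. -/
lemma lau_key {A ρ θ z a : ℝ} (hρ : 0 < ρ) (hA : 1 ≤ A) (hθ : 0 ≤ θ) (hθ1 : θ ≤ 1)
    (hθ2 : A * ρ = θ ^ 2) (h1 : 1 ≤ z) (hz : z ≤ A / ρ) (n : ℤ) (N : ℕ) (hn : 2 * n ≤ N) :
    z ^ n * |a| ≤ θ ^ N * (|a| * (ρ⁻¹) ^ N) := by
  have h3 := lau_weight hρ hA hθ hθ1 hθ2 h1 hz n N hn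
  have h4 : z ^ n * |a| = z ^ n * ρ ^ N * (|a| * (ρ⁻¹) ^ N) := by
    rw [inv_pow]
    field_simp
  rw [h4]
  gcongr

lemma lau_small (D q : ℕ) [NeZero q] (M : ℝ) (hM : 1 ≤ M) : ∃ β₀ : ℝ, 0 < β₀ ∧
    ∀ β, 0 < β → β < β₀ → M * (AA D q * rr D β) ≤ 1 / 16 := by
  have hA := AA_ge_one D q
  have hD : (0 : ℝ) < 32 * ((D : ℝ) + 1) := by positivity
  have hA0 : 0 < AA D q := by linarith
  have hM0 : 0 < M := by linarith
  refine ⟨1 / (16 * M * AA D q * (32 * ((D : ℝ) + 1))), by positivity, fun β h1 h2 => ?_⟩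
  rw [lt_div_iff₀ (by positivity)] at h2
  unfold rr
  linarith

end laurent

end Pool.Agent.SB
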