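import Pool.Agent.SB.Defs2

/-!
# Bounds for the resolvent, from bounds for the symbol
-/

set_option autoImplicit false

namespace Pool.Agent.SB

open MeasureTheory Set Filter Topology

/-- The bounds for the symbol. -/
structure SymB (D : ℕ) (h : ℝ → (Fin D → ℝ) → ℝ) (c K a z1 : ℝ) : Prop where
  c_pos : 0 < c
  K_pos : 0 < K
  a_le : a ≤ z1
  cont : ∀ z, a ≤ z → z ≤ z1 → Continuous (h z)
  dz : ∀ z z' k, a ≤ z → z ≤ z' → z' ≤ z1 →
    c / 2 * (z' - z) ≤ h z k - h z' k ∧ h z k - h z' k ≤ 2 * c * (z' - z)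
  dk : ∀ z k, a ≤ z → z ≤ z1 → k ∈ cube D →
    c / K * ‖k‖ ^ 2 ≤ h z k - h z 0 ∧ h z k - h z 0 ≤ K * c * ‖k‖ ^ 2
  ha : ∀ k, 1 / 2 ≤ h a k ∧ h a k ≤ 2
  h1 : h z1 0 = 0

/-- The kernel. -/
noncomputable def Rk {D : ℕ} (f : (Fin D → ℝ) → ℝ) (x : Gam D) : ℝ :=
  ((2 * Real.pi) ^ D)⁻¹ * ∫ k in cube D, Real.cos (∑ i, k i * x i) / f k

theorem Rz_eq_Rk (D q : ℕ) [NeZero q] (β z : ℝ) (x : Gam D) :
    Rz D q β z x = Rk (hh D q β z) x := rfl

variable {D : ℕ} {h : ℝ → (Fin D → ℝ) → ℝ} {c K a z1 : ℝ}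

namespace SymB

theorem h0 (S : SymB D h c K a z1) {z : ℝ} (ha : a ≤ z) (hz : z ≤ z1) :
    c / 2 * (z1 - z) ≤ h z 0 ∧ h z 0 ≤ 2 * c * (z1 - z) := by
  have := S.dz z z1 0 ha hz le_rfl
  rw [S.h1] at this
  constructor <;> linarith [this.1, this.2]

theorem lower (S : SymB D h c K a z1) {z : ℝ} (ha : a ≤ z) (hz : z ≤ z1) {k : Fin D → ℝ}
    (hk : k ∈ cube D) : c / 2 * (z1 - z) + c / K * ‖k‖ ^ 2 ≤ h z k := by
  linarith [(S.h0 ha hz).1, (S.dk z k ha hz hk).1]

theorem upper (S : SymB D h c K a z1) {z : ℝ} (ha : a ≤ z) (hz : z ≤ z1) {k : Fin D → ℝ}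
    (hk : k ∈ cube D) : h z k ≤ 2 * c * (z1 - z) + K * c * ‖k‖ ^ 2 := by
  linarith [(S.h0 ha hz).2, (S.dk z k ha hz hk).2]

theorem lower' (S : SymB D h c K a z1) {z : ℝ} (ha : a ≤ z) (hz : z ≤ z1) {k : Fin D → ℝ}
    (hk : k ∈ cube D) : c / K * ‖k‖ ^ 2 ≤ h z k := by
  have h1 := S.lower ha hz hk
  have h2 : 0 ≤ c / 2 * (z1 - z) := mul_nonneg (by linarith [S.c_pos]) (by linarith)
  linarith

theorem pos (S : SymB D h c K a z1) {z : ℝ} (ha : a ≤ z) (hz : z ≤ z1) {k : Fin D → ℝ}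
    (hk : k ∈ cube D) (h0 : k ≠ 0) : 0 < h z k := by
  have h1 := S.lower' ha hz hk
  have h2 : 0 < c / K * ‖k‖ ^ 2 := by
    have := S.c_pos
    have := S.K_pos
    have := norm_pos_iff.2 h0
    positivity
  linarith

theorem nonneg (S : SymB D h c K a z1) {z : ℝ} (ha : a ≤ z) (hz : z ≤ z1) {k : Fin D → ℝ}
    (hk : k ∈ cube D) : 0 ≤ h z k := by
  have h1 := S.lower' ha hz hk
  have h2 : 0 ≤ c / K * ‖k‖ ^ 2 := by
    have := S.c_pos
    have := S.K_pos
    positivity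
  linarith

theorem anti (S : SymB D h c K a z1) {z z' : ℝ} (ha : a ≤ z) (hz : z ≤ z') (hz' : z' ≤ z1)
    (k : Fin D → ℝ) : h z' k ≤ h z k := by
  have h1 := (S.dz z z' k ha hz hz').1
  have h2 : 0 ≤ c / 2 * (z' - z) := mul_nonneg (by linarith [S.c_pos]) (by linarith)
  linarith

theorem le_two (S : SymB D h c K a z1) {z : ℝ} (ha : a ≤ z) (hz : z ≤ z1) (k : Fin D → ℝ) :
    h z k ≤ 2 := (S.anti le_rfl ha hz k).trans (S.ha k).2

theorem inv_le (S : SymB D h c K a z1) {z : ℝ} (ha : a ≤ z) (hz : z ≤ z1) {k : Fin D → ℝ}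
    (hk : k ∈ cube D) : (h z k)⁻¹ ≤ K / c * (1 / ‖k‖ ^ 2) ∨ k = 0 := by
  by_cases h0 : k = 0
  · exact Or.inr h0
  · left
    have h1 := S.lower' ha hz hk
    have hc := S.c_pos
    have hK := S.K_pos
    have hn := norm_pos_iff.2 h0
    have h2 : 0 < c / K * ‖k‖ ^ 2 := by positivity
    calc (h z k)⁻¹ ≤ (c / K * ‖k‖ ^ 2)⁻¹ := inv_anti₀ h2 h1
      _ = K / c * (1 / ‖k‖ ^ 2) := by field_simp

end SymB

theorem ae_ne_zero (D : ℕ) (hD : 1 ≤ D) : ∀ᵐ k : Fin D → ℝ, k ≠ 0 := by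
  have : Nonempty (Fin D) := ⟨⟨0, hD⟩⟩
  simp [ae_iff, measure_singleton]

theorem volume_cube (D : ℕ) : (volume : Measure (Fin D → ℝ)).real (cube D) =
    (2 * Real.pi) ^ D := by
  have hp : (0 : ℝ) ≤ 2 * Real.pi := by positivity
  rw [Measure.real, cube, volume_pi_pi]
  simp only [Real.volume_Icc, Finset.prod_const, Finset.card_univ, Fintype.card_fin]
  rw [ENNReal.toReal_pow, ENNReal.toReal_ofReal (by linarith [Real.pi_pos])]
  congr 1
  ring

theorem volume_cube_ne_top (D : ℕ) : (volume : Measure (Fin D → ℝ)) (cube D) ≠ ⊤ := by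
  rw [cube, volume_pi_pi]
  simp only [Real.volume_Icc, Finset.prod_const, Finset.card_univ, Fintype.card_fin]
  exact ENNReal.pow_ne_top ENNReal.ofReal_ne_top

theorem integrableOn_const_cube (D : ℕ) (b : ℝ) :
    IntegrableOn (fun _ : Fin D → ℝ => b) (cube D) :=
  integrableOn_const (volume_cube_ne_top D)

theorem integral_const_cube (D : ℕ) (b : ℝ) :
    ∫ _ in cube D, b = (2 * Real.pi) ^ D * b := by
  rw [setIntegral_const, volume_cube, smul_eq_mul]

theorem ae_cube (D : ℕ) (hD : 1 ≤ D) {p : (Fin D → ℝ) → Prop}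
    (hp : ∀ k ∈ cube D, k ≠ 0 → p k) : ∀ᵐ k ∂(volume.restrict (cube D)), p k := by
  rw [ae_restrict_iff' (measurableSet_cube D)]
  filter_upwards [ae_ne_zero D hD] with k hk hc using hp k hc hk

theorem cont_cos (D : ℕ) (x : Gam D) : Continuous fun k : Fin D → ℝ => Real.cos (∑ i, k i * x i) :=
  Real.continuous_cos.comp (continuous_finsetSum _ fun i _ => (continuous_apply i).mul
    continuous_const)

namespace SymB

theorem meas (S : SymB D h c K a z1) {z : ℝ} (ha : a ≤ z) (hz : z ≤ z1) :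
    Measurable fun k => (h z k)⁻¹ := ((S.cont z ha hz).measurable).inv

theorem integrable_bound (hD : 3 ≤ D) : IntegrableOn (fun k : Fin D → ℝ => K / c * (1 / ‖k‖ ^ 2))
    (cube D) := (integrable_inv_sq D hD).const_mul _

theorem integrable_inv (S : SymB D h c K a z1) (hD : 3 ≤ D) {z : ℝ} (ha : a ≤ z) (hz : z ≤ z1) :
    IntegrableOn (fun k => (h z k)⁻¹) (cube D) := by
  refine Integrable.mono' (integrable_bound (c := c) (K := K) hD)
    (S.meas ha hz).aestronglyMeasurable (ae_cube D (by omega) fun k hk h0 => ?_)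
  rw [Real.norm_of_nonneg (inv_nonneg.2 (S.nonneg ha hz hk))]
  exact (S.inv_le ha hz hk).resolve_right h0

theorem integrable_cos (S : SymB D h c K a z1) (hD : 3 ≤ D) {z : ℝ} (ha : a ≤ z) (hz : z ≤ z1)
    (x : Gam D) : IntegrableOn (fun k => Real.cos (∑ i, k i * x i) / h z k) (cube D) := by
  refine Integrable.mono' (S.integrable_inv hD ha hz)
    (((cont_cos D x).measurable.mul (S.meas ha hz)).aestronglyMeasurable.congr
      (Eventually.of_forall fun k => (div_eq_mul_inv _ _).symm))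
    (ae_cube D (by omega) fun k hk h0 => ?_)
  have hp := S.pos ha hz hk h0
  rw [norm_div, Real.norm_of_nonneg hp.le, div_eq_mul_inv]
  exact mul_le_of_le_one_left (inv_nonneg.2 hp.le) (Real.abs_cos_le_one _)

theorem Rk_zero (z : ℝ) : Rk (h z) 0 = ((2 * Real.pi) ^ D)⁻¹ * ∫ k in cube D, (h z k)⁻¹ := by
  simp only [Rk, Pi.zero_apply, Int.cast_zero, mul_zero, Finset.sum_const_zero, Real.cos_zero,
    one_div]

theorem Rk_le (S : SymB D h c K a z1) (hD : 3 ≤ D) {z : ℝ} (ha : a ≤ z) (hz : z ≤ z1)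
    (x : Gam D) : |Rk (h z) x| ≤ Rk (h z) 0 := by
  have hp : (0 : ℝ) ≤ ((2 * Real.pi) ^ D)⁻¹ := by positivity
  rw [Rk_zero, Rk, abs_mul, abs_of_nonneg hp]
  refine mul_le_mul_of_nonneg_left ?_ hp
  rw [← Real.norm_eq_abs]
  refine norm_integral_le_of_norm_le (S.integrable_inv hD ha hz)
    (ae_cube D (by omega) fun k hk h0 => ?_)
  have hp := S.pos ha hz hk h0
  rw [norm_div, Real.norm_of_nonneg hp.le, div_eq_mul_inv]
  exact mul_le_of_le_one_left (inv_nonneg.2 hp.le) (Real.abs_cos_le_one _)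

theorem half_le (S : SymB D h c K a z1) (hD : 3 ≤ D) {z : ℝ} (ha : a ≤ z) (hz : z ≤ z1) :
    1 / 2 ≤ Rk (h z) 0 := by
  have hp : (0 : ℝ) < (2 * Real.pi) ^ D := by positivity
  rw [Rk_zero, ← div_eq_inv_mul, le_div_iff₀ hp]
  calc 1 / 2 * (2 * Real.pi) ^ D = ∫ _ in cube D, (1 / 2 : ℝ) := by
        rw [integral_const_cube]; ring
    _ ≤ _ := by
        refine integral_mono_ae (integrableOn_const_cube D _) (S.integrable_inv hD ha hz)
          (ae_cube D (by omega) fun k hk h0 => ?_)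
        have hp := S.pos ha hz hk h0
        simp only
        rw [one_div]
        exact inv_anti₀ hp (S.le_two ha hz k)

theorem ra_le (S : SymB D h c K a z1) (hD : 3 ≤ D) : Rk (h a) 0 ≤ 2 := by
  have hp : (0 : ℝ) < (2 * Real.pi) ^ D := by positivity
  rw [Rk_zero, ← div_eq_inv_mul, div_le_iff₀ hp]
  calc ∫ k in cube D, (h a k)⁻¹ ≤ ∫ _ in cube D, (2 : ℝ) := by
        refine integral_mono_ae (S.integrable_inv hD le_rfl S.a_le) (integrableOn_const_cube D _)
          (Eventually.of_forall fun k => ?_)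
        simp only
        rw [← inv_inv (2 : ℝ)]
        exact inv_anti₀ (by norm_num) (by rw [← one_div]; exact (S.ha k).1)
    _ = _ := by rw [integral_const_cube]; ring

theorem r1_le (S : SymB D h c K a z1) (hD : 3 ≤ D) : Rk (h z1) 0 ≤
    K / c * (((2 * Real.pi) ^ D)⁻¹ * ∫ k in cube D, 1 / ‖k‖ ^ 2) := by
  have hp : (0 : ℝ) ≤ ((2 * Real.pi) ^ D)⁻¹ := by positivity
  rw [Rk_zero, mul_left_comm]
  refine mul_le_mul_of_nonneg_left ?_ hp
  rw [← integral_const_mul]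
  refine integral_mono_ae (S.integrable_inv hD S.a_le le_rfl) (integrable_bound hD)
    (ae_cube D (by omega) fun k hk h0 => ?_)
  exact (S.inv_le S.a_le le_rfl hk).resolve_right h0

theorem Rk_sub (S : SymB D h c K a z1) (hD : 3 ≤ D) {z z' : ℝ} (ha : a ≤ z) (hz : z ≤ z')
    (hz' : z' ≤ z1) : Rk (h z') 0 - Rk (h z) 0 =
      ((2 * Real.pi) ^ D)⁻¹ * ∫ k in cube D, ((h z' k)⁻¹ - (h z k)⁻¹) := by
  rw [Rk_zero, Rk_zero, integral_sub (S.integrable_inv hD (ha.trans hz) hz')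
    (S.integrable_inv hD ha (hz.trans hz')), mul_sub]

theorem sub_le (S : SymB D h c K a z1) (hD : 3 ≤ D) {z z' : ℝ} (ha : a ≤ z) (hz : z ≤ z')
    (hz' : z' ≤ z1) (x : Gam D) : |Rk (h z') x - Rk (h z) x| ≤ Rk (h z') 0 - Rk (h z) 0 := by
  have hp : (0 : ℝ) ≤ ((2 * Real.pi) ^ D)⁻¹ := by positivity
  rw [S.Rk_sub hD ha hz hz', Rk, Rk, ← mul_sub, abs_mul, abs_of_nonneg hp,
    ← integral_sub (S.integrable_cos hD (ha.trans hz) hz' x)
      (S.integrable_cos hD ha (hz.trans hz') x)]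
  refine mul_le_mul_of_nonneg_left ?_ hp
  rw [← Real.norm_eq_abs]
  refine norm_integral_le_of_norm_le ((S.integrable_inv hD (ha.trans hz) hz').sub
    (S.integrable_inv hD ha (hz.trans hz'))) (ae_cube D (by omega) fun k hk h0 => ?_)
  have h1 := S.pos (ha.trans hz) hz' hk h0
  have h2 := S.anti ha hz hz' k
  have h3 : (h z k)⁻¹ ≤ (h z' k)⁻¹ := inv_anti₀ h1 h2
  rw [div_eq_mul_inv, div_eq_mul_inv, ← mul_sub, norm_mul, Real.norm_of_nonneg (sub_nonneg.2 h3)]
  exact mul_le_of_le_one_left (sub_nonneg.2 h3) (Real.abs_cos_le_one _)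

theorem inv_sub (S : SymB D h c K a z1) {z z' : ℝ} (ha : a ≤ z) (hz : z ≤ z')
    (hz' : z' ≤ z1) {k : Fin D → ℝ} (hk : k ∈ cube D) (h0 : k ≠ 0) :
    (h z' k)⁻¹ - (h z k)⁻¹ = (h z k - h z' k) / (h z k * h z' k) := by
  have h1 := S.pos (ha.trans hz) hz' hk h0
  have h2 := S.pos ha (hz.trans hz') hk h0
  field_simp

theorem le_sub (S : SymB D h c K a z1) (hD : 3 ≤ D) {z z' : ℝ} (ha : a ≤ z) (hz : z ≤ z')
    (hz' : z' ≤ z1) (h1 : z1 - 1 ≤ z) :
    (z' - z) / (2 * (2 + K * Real.pi ^ 2) ^ 2 * c) ≤ Rk (h z') 0 - Rk (h z) 0 := by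
  have hp : (0 : ℝ) < (2 * Real.pi) ^ D := by positivity
  have hc := S.c_pos
  have hK := S.K_pos
  rw [S.Rk_sub hD ha hz hz', ← div_eq_inv_mul, le_div_iff₀ hp]
  calc (z' - z) / (2 * (2 + K * Real.pi ^ 2) ^ 2 * c) * (2 * Real.pi) ^ D =
        ∫ _ in cube D, (z' - z) / (2 * (2 + K * Real.pi ^ 2) ^ 2 * c) := by
        rw [integral_const_cube]; ring
    _ ≤ _ := by
        refine integral_mono_ae (integrableOn_const_cube D _)
          ((S.integrable_inv hD (ha.trans hz) hz').sub (S.integrable_inv hD ha (hz.trans hz')))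
          (ae_cube D (by omega) fun k hk h0 => ?_)
        simp only
        rw [S.inv_sub ha hz hz' hk h0]
        have p1 := S.pos ha (hz.trans hz') hk h0
        have p2 := S.pos (ha.trans hz) hz' hk h0
        have hn : ‖k‖ ^ 2 ≤ Real.pi ^ 2 := pow_le_pow_left₀ (norm_nonneg _) (mem_cube.1 hk) 2
        have u1 : h z k ≤ (2 + K * Real.pi ^ 2) * c := by
          have := S.upper ha (hz.trans hz') hk
          have e : K * c * ‖k‖ ^ 2 ≤ K * c * Real.pi ^ 2 :=
            mul_le_mul_of_nonneg_left hn (by positivity)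
          nlinarith
        have u2 : h z' k ≤ (2 + K * Real.pi ^ 2) * c := (S.anti ha hz hz' k).trans u1
        have d := (S.dz z z' k ha hz hz').1
        rw [div_le_div_iff₀ (by positivity) (by positivity)]
        have e1 : h z k * h z' k ≤ (2 + K * Real.pi ^ 2) * c * ((2 + K * Real.pi ^ 2) * c) :=
          mul_le_mul u1 u2 p2.le (by positivity)
        calc (z' - z) * (h z k * h z' k) ≤
              (z' - z) * ((2 + K * Real.pi ^ 2) * c * ((2 + K * Real.pi ^ 2) * c)) :=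
              mul_le_mul_of_nonneg_left e1 (by linarith)
          _ = (c / 2 * (z' - z)) * (2 * (2 + K * Real.pi ^ 2) ^ 2 * c) := by ring
          _ ≤ _ := mul_le_mul_of_nonneg_right d (by positivity)

theorem integrable_Phi (hD : 3 ≤ D) {δ : ℝ} (hδ : 0 < δ) :
    IntegrableOn (fun k : Fin D → ℝ => δ / ((δ + ‖k‖ ^ 2) * ‖k‖ ^ 2)) (cube D) := by
  refine Integrable.mono' (integrable_inv_sq D hD) ?_ (ae_cube D (by omega) fun k hk h0 => ?_)
  · exact Measurable.aestronglyMeasurable (by fun_prop)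
  · have hn := norm_pos_iff.2 h0
    rw [Real.norm_of_nonneg (by positivity), div_le_div_iff₀ (by positivity) (by positivity),
      one_mul]
    refine mul_le_mul_of_nonneg_right ?_ (by positivity)
    linarith [sq_nonneg ‖k‖]

/-- Comparison with `Phi`. -/
theorem phi (S : SymB D h c K a z1) (hD : 3 ≤ D) {δ : ℝ} (hδ : 0 < δ) (ha : a ≤ z1 - δ) :
    ((2 * Real.pi) ^ D)⁻¹ * ((2 * (2 + K) * K * c)⁻¹ * Phi D δ) ≤
      Rk (h z1) 0 - Rk (h (z1 - δ)) 0 ∧
    Rk (h z1) 0 - Rk (h (z1 - δ)) 0 ≤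
      ((2 * Real.pi) ^ D)⁻¹ * (2 * K * (2 + K) / c * Phi D δ) := by
  have hp : (0 : ℝ) ≤ ((2 * Real.pi) ^ D)⁻¹ := by positivity
  have hc := S.c_pos
  have hK := S.K_pos
  have hzz : z1 - δ ≤ z1 := by linarith
  have hPhi : ∀ b : ℝ, b * Phi D δ = ∫ k in cube D, b * (δ / ((δ + ‖k‖ ^ 2) * ‖k‖ ^ 2)) :=
    fun b => by rw [Phi, integral_const_mul]
  rw [S.Rk_sub hD ha hzz le_rfl, hPhi, hPhi]
  have hI := (S.integrable_inv hD (ha.trans hzz) le_rfl).sub (S.integrable_inv hD ha hzz)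
  have key : ∀ k ∈ cube D, k ≠ 0 →
      (2 * (2 + K) * K * c)⁻¹ * (δ / ((δ + ‖k‖ ^ 2) * ‖k‖ ^ 2)) ≤
        (h z1 k)⁻¹ - (h (z1 - δ) k)⁻¹ ∧
      (h z1 k)⁻¹ - (h (z1 - δ) k)⁻¹ ≤
        2 * K * (2 + K) / c * (δ / ((δ + ‖k‖ ^ 2) * ‖k‖ ^ 2)) := by
    intro k hk h0
    have hn := norm_pos_iff.2 h0
    have hn2 : 0 < ‖k‖ ^ 2 := by positivity
    set n := ‖k‖ ^ 2 with hnd
    rw [S.inv_sub ha hzz le_rfl hk h0]
    have p1 := S.pos ha hzz hk h0
    have p2 := S.pos (ha.trans hzz) le_rfl hk h0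
    have d := S.dz (z1 - δ) z1 k ha hzz le_rfl
    have l1 := S.lower ha hzz hk
    have l2 := S.lower (ha.trans hzz) le_rfl hk
    have u1 := S.upper ha hzz hk
    have u2 := S.upper (ha.trans hzz) le_rfl hk
    rw [← hnd] at l1 l2 u1 u2
    have e : z1 - (z1 - δ) = δ := by ring
    rw [e] at d l1 u1
    rw [sub_self, mul_zero, zero_add] at l2 u2
    have hk1 : c / K * n = c * n / K := by ring
    constructor
    · have u1' : h (z1 - δ) k ≤ (2 + K) * c * (δ + n) := by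
        nlinarith [mul_pos hc hδ, mul_pos hK hn2, mul_pos hK (mul_pos hc hδ), mul_pos hc hn2]
      have u2' : h z1 k ≤ K * c * n := u2
      have e1 : h (z1 - δ) k * h z1 k ≤ (2 + K) * c * (δ + n) * (K * c * n) :=
        mul_le_mul u1' u2' p2.le (by positivity)
      rw [inv_mul_eq_div, div_div, div_le_div_iff₀ (by positivity) (by positivity)]
      calc δ * (h (z1 - δ) k * h z1 k) ≤ δ * ((2 + K) * c * (δ + n) * (K * c * n)) :=
            mul_le_mul_of_nonneg_left e1 hδ.le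
        _ = c / 2 * δ * ((δ + n) * n * (2 * (2 + K) * K * c)) := by ring
        _ ≤ _ := mul_le_mul_of_nonneg_right d.1 (by positivity)
    · have l1' : c / (2 + K) * (δ + n) ≤ h (z1 - δ) k := by
        refine le_trans ?_ l1
        have q1 : c / (2 + K) ≤ c / 2 := div_le_div_of_nonneg_left hc.le (by norm_num) (by linarith)
        have q2 : c / (2 + K) ≤ c / K := div_le_div_of_nonneg_left hc.le hK (by linarith)
        nlinarith
      have e1 : c / (2 + K) * (δ + n) * (c / K * n) ≤ h (z1 - δ) k * h z1 k :=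
        mul_le_mul l1' l2 (by positivity) p1.le
      rw [div_mul_div_comm, div_le_div_iff₀ (by positivity) (by positivity)]
      calc (h (z1 - δ) k - h z1 k) * (c * ((δ + n) * n)) ≤ 2 * c * δ * (c * ((δ + n) * n)) :=
            mul_le_mul_of_nonneg_right d.2 (by positivity)
        _ = 2 * K * (2 + K) * δ * (c / (2 + K) * (δ + n) * (c / K * n)) := by
            field_simp
        _ ≤ _ := mul_le_mul_of_nonneg_left e1 (by positivity)
  constructor
  · refine mul_le_mul_of_nonneg_left ?_ hp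
    refine integral_mono_ae ((integrable_Phi hD hδ).const_mul _) hI
      (ae_cube D (by omega) fun k hk h0 => (key k hk h0).1)
  · refine mul_le_mul_of_nonneg_left ?_ hp
    refine integral_mono_ae hI ((integrable_Phi hD hδ).const_mul _)
      (ae_cube D (by omega) fun k hk h0 => (key k hk h0).2)

theorem continuousOn_r (S : SymB D h c K a z1) (hD : 3 ≤ D) :
    ContinuousOn (fun z => Rk (h z) 0) (Set.Icc a z1) := by
  simp only [Rk_zero]
  refine ContinuousOn.mul continuousOn_const ?_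
  intro z hz
  refine continuousWithinAt_of_dominated (bound := fun k => K / c * (1 / ‖k‖ ^ 2)) ?_ ?_
    (integrable_bound hD) ?_
  · filter_upwards [self_mem_nhdsWithin] with y hy using (S.meas hy.1 hy.2).aestronglyMeasurable
  · filter_upwards [self_mem_nhdsWithin] with y hy
    refine ae_cube D (by omega) fun k hk h0 => ?_
    rw [Real.norm_of_nonneg (inv_nonneg.2 (S.nonneg hy.1 hy.2 hk))]
    exact (S.inv_le hy.1 hy.2 hk).resolve_right h0
  · refine ae_cube D (by omega) fun k hk h0 => ?_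
    refine ContinuousWithinAt.inv₀ ?_ (S.pos hz.1 hz.2 hk h0).ne'
    have hL : ∀ y ∈ Set.Icc a z1, dist (h y k) (h z k) ≤ 2 * c * dist y z := by
      intro y hy
      rw [Real.dist_eq, Real.dist_eq]
      rcases le_total y z with hyz | hyz
      · have d := S.dz y z k hy.1 hyz hz.2
        have d1 := S.anti hy.1 hyz hz.2 k
        rw [abs_of_nonneg (by linarith), abs_of_nonpos (by linarith)]
        linarith [d.2]
      · have d := S.dz z y k hz.1 hyz hy.2
        have d1 := S.anti hz.1 hyz hy.2 k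
        rw [abs_of_nonpos (by linarith), abs_of_nonneg (by linarith)]
        linarith [d.2]
    rw [Metric.continuousWithinAt_iff]
    intro ε hε
    have hc := S.c_pos
    refine ⟨ε / (2 * c), by positivity, fun y hy hyz => ?_⟩
    calc dist (h y k) (h z k) ≤ 2 * c * dist y z := hL y hy
      _ < 2 * c * (ε / (2 * c)) := mul_lt_mul_of_pos_left hyz (by positivity)
      _ = ε := by field_simp

end SymB

end Pool.Agent.SB
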