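import Pool.Agent.SB.RinvAbs
import Pool.Agent.SB.Coe

/-!
# The resolvent bounds, from the bounds for the symbol
-/

set_option autoImplicit false

namespace Pool.Agent.SB

open MeasureTheory Set Filter Topology

/-- The bounds for the symbol give the structure `SymB`. -/
theorem symB_of (D q : ℕ) [NeZero q] (β K : ℝ) (hK : 0 < K) (hc : 0 < c0 D q β)
    (h2 : 2 ≤ za D β)
    (hcont : ∀ z, 1 ≤ z → z ≤ zm q β → Continuous (hh D q β z))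
    (hdz : ∀ z z' k, za D β ≤ z → z ≤ z' → z' ≤ zm q β →
        c0 D q β / 2 * (z' - z) ≤ hh D q β z k - hh D q β z' k ∧
        hh D q β z k - hh D q β z' k ≤ 2 * c0 D q β * (z' - z))
    (hdk : ∀ z k, 1 ≤ z → z ≤ zm q β → k ∈ cube D →
        c0 D q β / K * ‖k‖ ^ 2 ≤ hh D q β z k - hh D q β z 0 ∧
        hh D q β z k - hh D q β z 0 ≤ K * c0 D q β * ‖k‖ ^ 2)
    (hha : ∀ k, 1 / 2 ≤ hh D q β (za D β) k ∧ hh D q β (za D β) k ≤ 2) (z1 : ℝ)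
    (h1 : za D β ≤ z1) (hz1 : z1 ≤ zm q β) (h0 : hh D q β z1 0 = 0) :
    SymB D (hh D q β) (c0 D q β) K (za D β) z1 where
  c_pos := hc
  K_pos := hK
  a_le := h1
  cont := fun z hz hz' => hcont z (by linarith) (hz'.trans hz1)
  dz := fun z z' k hz hzz hz' => hdz z z' k hz hzz (hz'.trans hz1)
  dk := fun z k hz hz' hk => hdk z k (by linarith) (hz'.trans hz1) hk
  ha := hha
  h1 := h0

theorem resolvent_aux (D q : ℕ) [NeZero q] (hq : 2 ≤ q) (hD : 3 ≤ D)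
    (hsym : ∃ β₀ K : ℝ, 0 < β₀ ∧ 0 < K ∧
      ∀ β, 0 < β → β < β₀ →
      2 ≤ za D β ∧
      (∀ z, 1 ≤ z → z ≤ zm q β → Continuous (hh D q β z)) ∧
      (∀ z z' k, za D β ≤ z → z ≤ z' → z' ≤ zm q β →
        c0 D q β / 2 * (z' - z) ≤ hh D q β z k - hh D q β z' k ∧
        hh D q β z k - hh D q β z' k ≤ 2 * c0 D q β * (z' - z)) ∧
      (∀ z k, 1 ≤ z → z ≤ zm q β → k ∈ cube D →
        c0 D q β / K * ‖k‖ ^ 2 ≤ hh D q β z k - hh D q β z 0 ∧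
        hh D q β z k - hh D q β z 0 ≤ K * c0 D q β * ‖k‖ ^ 2) ∧
      (∀ k, 1 / 2 ≤ hh D q β (za D β) k ∧ hh D q β (za D β) k ≤ 2)) :
    ∃ β₀ K : ℝ, 0 < β₀ ∧ 0 < K ∧
    ∀ β, 0 < β → β < β₀ → ∀ z1, za D β ≤ z1 → z1 ≤ zm q β → hh D q β z1 0 = 0 →
      (∀ z x, za D β ≤ z → z ≤ z1 → |Rz D q β z x| ≤ Rz D q β z 0) ∧
      (∀ z, za D β ≤ z → z ≤ z1 → 1 / 2 ≤ Rz D q β z 0) ∧
      (∀ z z' x, za D β ≤ z → z ≤ z' → z' ≤ z1 →
        |Rz D q β z' x - Rz D q β z x| ≤ Rz D q β z' 0 - Rz D q β z 0) ∧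
      Rz D q β z1 0 ≤ K / β ∧ Rz D q β (za D β) 0 ≤ 2 ∧
      (∀ z z', z1 - 1 ≤ z → za D β ≤ z → z ≤ z' → z' ≤ z1 →
        (z' - z) / (K * β) ≤ Rz D q β z' 0 - Rz D q β z 0) ∧
      (∃ c C : ℝ, 0 < c ∧ 0 < C ∧ ∀ δ, 0 < δ → δ ≤ 1 → za D β ≤ z1 - δ →
        c * Phi D δ ≤ Rz D q β z1 0 - Rz D q β (z1 - δ) 0 ∧
        Rz D q β z1 0 - Rz D q β (z1 - δ) 0 ≤ C * Phi D δ) ∧
      ContinuousOn (fun z => Rz D q β z 0) (Set.Icc (za D β) z1) := by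
  obtain ⟨β₁, K, hβ₁, hK, hs⟩ := hsym
  obtain ⟨β₂, hβ₂, hc0⟩ := c0_bounds D q hq
  have hq0 : (0 : ℝ) < q := by exact_mod_cast (by omega : 0 < q)
  have hq1 : (1 : ℝ) ≤ q := by exact_mod_cast (by omega : 1 ≤ q)
  set I : ℝ := ((2 * Real.pi) ^ D)⁻¹ * ∫ k in cube D, 1 / ‖k‖ ^ 2 with hI
  have hI0 : 0 ≤ I := mul_nonneg (by positivity) (integral_nonneg fun k => by positivity)
  set K' : ℝ := K * q * I + 4 * (2 + K * Real.pi ^ 2) ^ 2 + 1 with hK'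
  have hK'0 : 0 < K' := by positivity
  refine ⟨min β₁ β₂, K', lt_min hβ₁ hβ₂, hK'0, fun β hβ hβ0 z1 h1 hz1 h0 => ?_⟩
  obtain ⟨s1, s2, s3, s4, s5⟩ := hs β hβ (hβ0.trans_le (min_le_left _ _))
  obtain ⟨c1, c2, -, -⟩ := hc0 β hβ (hβ0.trans_le (min_le_right _ _))
  have hc : 0 < c0 D q β := lt_of_lt_of_le (by positivity) c1
  have S := symB_of D q β K hK hc s1 s2 s3 s4 s5 z1 h1 hz1 h0
  simp only [Rz_eq_Rk]
  refine ⟨fun z x hz hz' => S.Rk_le hD hz hz' x, fun z hz hz' => S.half_le hD hz hz',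
    fun z z' x hz hzz hz' => S.sub_le hD hz hzz hz' x, ?_, S.ra_le hD, ?_, ?_,
    S.continuousOn_r hD⟩
  · refine (S.r1_le hD).trans ?_
    rw [← hI, div_mul_eq_mul_div, div_le_div_iff₀ hc hβ]
    have e1 : β ≤ q * c0 D q β := by
      rw [div_le_iff₀ hq0] at c1
      linarith
    calc K * I * β ≤ K * I * (q * c0 D q β) := mul_le_mul_of_nonneg_left e1 (by positivity)
      _ = K * q * I * c0 D q β := by ring
      _ ≤ K' * c0 D q β := by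
          refine mul_le_mul_of_nonneg_right ?_ hc.le
          rw [hK']
          nlinarith [sq_nonneg (2 + K * Real.pi ^ 2)]
  · intro z z' hz1' hz hzz hz'
    refine le_trans ?_ (S.le_sub hD hz hzz hz' hz1')
    refine div_le_div_of_nonneg_left (by linarith) (by positivity) ?_
    have e1 : c0 D q β ≤ 2 * β := c2.trans (div_le_self (by positivity) hq1)
    calc 2 * (2 + K * Real.pi ^ 2) ^ 2 * c0 D q β ≤ 2 * (2 + K * Real.pi ^ 2) ^ 2 * (2 * β) :=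
          mul_le_mul_of_nonneg_left e1 (by positivity)
      _ = 4 * (2 + K * Real.pi ^ 2) ^ 2 * β := by ring
      _ ≤ K' * β := by
          refine mul_le_mul_of_nonneg_right ?_ hβ.le
          rw [hK']
          have : 0 ≤ K * q * I := by positivity
          linarith
  · refine ⟨((2 * Real.pi) ^ D)⁻¹ * (2 * (2 + K) * K * c0 D q β)⁻¹,
      ((2 * Real.pi) ^ D)⁻¹ * (2 * K * (2 + K) / c0 D q β), by positivity, by positivity,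
      fun δ hδ _ hδ' => ?_⟩
    have h := S.phi hD hδ hδ'
    rwa [← mul_assoc, ← mul_assoc] at h

theorem resolvent_inv_aux (D q : ℕ) [NeZero q] (hq : 2 ≤ q)
    (hsym : ∃ β₀ K : ℝ, 0 < β₀ ∧ 0 < K ∧
      ∀ β, 0 < β → β < β₀ →
      2 ≤ za D β ∧
      (∀ z, 1 ≤ z → z ≤ zm q β → Continuous (hh D q β z)) ∧
      (∀ z z' k, za D β ≤ z → z ≤ z' → z' ≤ zm q β →
        c0 D q β / 2 * (z' - z) ≤ hh D q β z k - hh D q β z' k ∧
        hh D q β z k - hh D q β z' k ≤ 2 * c0 D q β * (z' - z)) ∧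
      (∀ z k, 1 ≤ z → z ≤ zm q β → k ∈ cube D →
        c0 D q β / K * ‖k‖ ^ 2 ≤ hh D q β z k - hh D q β z 0 ∧
        hh D q β z k - hh D q β z 0 ≤ K * c0 D q β * ‖k‖ ^ 2) ∧
      (∀ k, 1 / 2 ≤ hh D q β (za D β) k ∧ hh D q β (za D β) k ≤ 2))
    (hSz : ∃ β₀ : ℝ, 0 < β₀ ∧ ∀ β, 0 < β → β < β₀ → ∀ z, 1 ≤ z → z ≤ zm q β →
      (Summable fun w => |Sz D q β 1 z 0 w|) ∧
        ∀ w, Sz D q β 1 z 0 (-w) = Sz D q β 1 z 0 w) :
    ∃ β₀ : ℝ, 0 < β₀ ∧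
    ∀ β, 0 < β → β < β₀ → ∀ z1, za D β ≤ z1 → z1 ≤ zm q β → hh D q β z1 0 = 0 →
      ∀ z, za D β ≤ z → z < z1 → ∀ g : Gam D → ℝ, Summable g → ∀ x,
        g x = ∑' w, Rz D q β z (x - w) * Hz D q β z g w := by
  obtain ⟨β₁, K, hβ₁, hK, hs⟩ := hsym
  obtain ⟨β₂, hβ₂, hc0⟩ := c0_bounds D q hq
  obtain ⟨β₃, hβ₃, hSz⟩ := hSz
  have hq0 : (0 : ℝ) < q := by exact_mod_cast (by omega : 0 < q)
  refine ⟨min (min β₁ β₂) β₃, lt_min (lt_min hβ₁ hβ₂) hβ₃, fun β hβ hβ0 z1 h1 hz1 h0 z hz hzz g hg x => ?_⟩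
  have hb := hβ0.trans_le (min_le_left _ _)
  obtain ⟨s1, s2, s3, s4, s5⟩ := hs β hβ (hb.trans_le (min_le_left _ _))
  obtain ⟨c1, c2, -, -⟩ := hc0 β hβ (hb.trans_le (min_le_right _ _))
  have hc : 0 < c0 D q β := lt_of_lt_of_le (by positivity) c1
  have S := symB_of D q β K hK hc s1 s2 s3 s4 s5 z1 h1 hz1 h0
  obtain ⟨t1, t2⟩ := hSz β hβ (hβ0.trans_le (min_le_right _ _)) z (by linarith)
    (hzz.le.trans hz1)
  exact rinv_of_symB D q β _ K _ z1 S z hz hzz t1 t2 g hg x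

end Pool.Agent.SB
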