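import Pool.Agent.SB.Defs2

/-!
# The abstract threshold lemma (page section 5)
-/

set_option autoImplicit false
set_option linter.unusedSectionVars false
set_option linter.unusedVariables false

namespace Pool.Agent.SB

open Finset Filter Topology

/-! ### The real part -/

section realpart

variable {K b z₀ z₁ : ℝ} {r : ℝ → ℝ} {ρ v : ℝ → ℝ → ℝ}

/-- The estimates used in the real part. -/
structure Est (K b z₀ z₁ : ℝ) (r : ℝ → ℝ) (ρ v : ℝ → ℝ → ℝ) : Prop where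
  hK : 1 ≤ K
  hb : 0 < b
  hbK : 1000 * K ^ 6 * b ≤ 1
  hz : z₀ + 1 ≤ z₁
  half : ∀ z, z₀ ≤ z → z ≤ z₁ → 1 / 2 ≤ r z
  mono : ∀ z z', z₀ ≤ z → z ≤ z' → z' ≤ z₁ → r z ≤ r z'
  top : r z₁ ≤ K / b
  slope : ∀ z z', z₁ - 1 ≤ z → z ≤ z' → z' ≤ z₁ → (z' - z) / (K * b) ≤ r z' - r z
  cont : ContinuousOn r (Set.Icc z₀ z₁)
  rho1 : ∀ J z, 1 ≤ J → J ≤ 2 → z₀ ≤ z → z ≤ z₁ → |ρ J z - r z| ≤ 2 * K ^ 2 * b * r z
  rho2 : ∀ J z z', 1 ≤ J → J ≤ 2 → z₀ ≤ z → z ≤ z' → z' ≤ z₁ →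
    |ρ J z' - ρ J z - (r z' - r z)| ≤ 5 * K ^ 2 * b * (r z' - r z) + 3 * K ^ 3 * b * (z' - z)
  rho3 : ∀ J J' z, 1 ≤ J → J ≤ 2 → 1 ≤ J' → J' ≤ 2 → z₀ ≤ z → z ≤ z₁ →
    |ρ J z - ρ J' z| ≤ 3 * K ^ 2 * b * r z * |J - J'|
  v1 : ∀ z, z₀ ≤ z → z ≤ z₁ → v 1 z = 0
  v2 : ∀ J J' z, 1 ≤ J' → J' ≤ J → J ≤ 2 → z₀ ≤ z → z ≤ z₁ →
    (J - J') / K ≤ v J z - v J' z ∧ v J z - v J' z ≤ K * (J - J')
  v3 : ∀ J z z', 1 ≤ J → J ≤ 2 → z₀ ≤ z → z ≤ z' → z' ≤ z₁ →
    0 ≤ v J z' - v J z ∧ v J z' - v J z ≤ z' - z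

namespace Est

variable (E : Est K b z₀ z₁ r ρ v)
include E

lemma K0 : 0 < K := by linarith [E.hK]

lemma Kpow {n : ℕ} (hn : n ≤ 6) : K ^ n * b ≤ 1 / 1000 := by
  have h1 : K ^ n ≤ K ^ 6 := pow_le_pow_right₀ E.hK hn
  have h2 := mul_le_mul_of_nonneg_right h1 E.hb.le
  linarith [E.hbK]

lemma rpos {z : ℝ} (h0 : z₀ ≤ z) (h1 : z ≤ z₁) : 0 < r z := by linarith [E.half z h0 h1]

lemma rho_low {J z : ℝ} (hJ : 1 ≤ J) (hJ2 : J ≤ 2) (h0 : z₀ ≤ z) (h1 : z ≤ z₁) :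
    (1 - 2 * K ^ 2 * b) * r z ≤ ρ J z := by
  have := (abs_le.1 (E.rho1 J z hJ hJ2 h0 h1)).1
  linarith

lemma rho_up {J z : ℝ} (hJ : 1 ≤ J) (hJ2 : J ≤ 2) (h0 : z₀ ≤ z) (h1 : z ≤ z₁) :
    ρ J z ≤ (1 + 2 * K ^ 2 * b) * r z := by
  have := (abs_le.1 (E.rho1 J z hJ hJ2 h0 h1)).2
  linarith

lemma rho_half {J z : ℝ} (hJ : 1 ≤ J) (hJ2 : J ≤ 2) (h0 : z₀ ≤ z) (h1 : z ≤ z₁) :
    r z / 2 ≤ ρ J z := by
  have h2 := E.rho_low hJ hJ2 h0 h1
  have h3 := E.Kpow (n := 2) (by norm_num)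
  have h4 := E.rpos h0 h1
  have h5 : (1 / 2 : ℝ) * r z ≤ (1 - 2 * K ^ 2 * b) * r z :=
    mul_le_mul_of_nonneg_right (by linarith) h4.le
  linarith

lemma rho_two {J z : ℝ} (hJ : 1 ≤ J) (hJ2 : J ≤ 2) (h0 : z₀ ≤ z) (h1 : z ≤ z₁) :
    ρ J z ≤ 2 * r z := by
  have h2 := E.rho_up hJ hJ2 h0 h1
  have h3 := E.Kpow (n := 2) (by norm_num)
  have h4 := E.rpos h0 h1
  have h5 : (1 + 2 * K ^ 2 * b) * r z ≤ 2 * r z :=
    mul_le_mul_of_nonneg_right (by linarith) h4.le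
  linarith

lemma rho_pos {J z : ℝ} (hJ : 1 ≤ J) (hJ2 : J ≤ 2) (h0 : z₀ ≤ z) (h1 : z ≤ z₁) : 0 < ρ J z := by
  have h2 := E.rho_half hJ hJ2 h0 h1
  have h4 := E.rpos h0 h1
  linarith

lemma v_nonneg {J z : ℝ} (hJ : 1 ≤ J) (hJ2 : J ≤ 2) (h0 : z₀ ≤ z) (h1 : z ≤ z₁) :
    (J - 1) / K ≤ v J z ∧ v J z ≤ K * (J - 1) := by
  have := E.v2 J 1 z le_rfl hJ hJ2 h0 h1
  rw [E.v1 z h0 h1, sub_zero] at this
  exact this

lemma v_le {J z : ℝ} (hJ : 1 ≤ J) (hJ2 : J ≤ 2) (h0 : z₀ ≤ z) (h1 : z ≤ z₁) : v J z ≤ K := by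
  have h2 := (E.v_nonneg hJ hJ2 h0 h1).2
  have h3 : K * (J - 1) ≤ K * 1 := mul_le_mul_of_nonneg_left (by linarith) E.K0.le
  linarith

lemma v_ge {J z : ℝ} (hJ : 1 ≤ J) (hJ2 : J ≤ 2) (h0 : z₀ ≤ z) (h1 : z ≤ z₁) : 0 ≤ v J z := by
  have h2 := (E.v_nonneg hJ hJ2 h0 h1).1
  have h3 : 0 ≤ (J - 1) / K := div_nonneg (by linarith) E.K0.le
  linarith

/-- Dependence of `v ρ` on `J`. -/
lemma F_J {J J' z : ℝ} (hJ' : 1 ≤ J') (hJJ : J' ≤ J) (hJ : J ≤ 2) (h0 : z₀ ≤ z) (h1 : z ≤ z₁) :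
    (J - J') * (r z / (4 * K)) ≤ v J z * ρ J z - v J' z * ρ J' z ∧
      v J z * ρ J z - v J' z * ρ J' z ≤ (J - J') * (3 * K * r z) := by
  have hJ1 : 1 ≤ J := hJ'.trans hJJ
  have hJ'2 : J' ≤ 2 := hJJ.trans hJ
  have hd : 0 ≤ J - J' := by linarith
  have hr := E.rpos h0 h1
  have hK0 := E.K0
  obtain ⟨a1, a2⟩ := E.v2 J J' z hJ' hJJ hJ h0 h1
  have a3 := E.rho3 J J' z hJ1 hJ hJ' hJ'2 h0 h1
  rw [abs_of_nonneg hd] at a3
  obtain ⟨a4, a5⟩ := abs_le.1 a3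
  have a6 := E.v_le hJ' hJ'2 h0 h1
  have a7 := E.v_ge hJ' hJ'2 h0 h1
  have a8 := E.rho_half hJ1 hJ h0 h1
  have a9 := E.rho_two hJ1 hJ h0 h1
  have key : v J z * ρ J z - v J' z * ρ J' z =
      (v J z - v J' z) * ρ J z + v J' z * (ρ J z - ρ J' z) := by ring
  have hM : 0 ≤ 3 * K ^ 2 * b * r z * (J - J') := by
    have := E.hb
    positivity
  have b1 : |v J' z * (ρ J z - ρ J' z)| ≤ K * (3 * K ^ 2 * b * r z * (J - J')) := by
    rw [abs_mul, abs_of_nonneg a7]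
    exact mul_le_mul a6 a3 (abs_nonneg _) hK0.le
  obtain ⟨b2, b3⟩ := abs_le.1 b1
  have hsm : K ^ 4 * b ≤ 1 / 1000 := E.Kpow (by norm_num)
  have b4 : K * (3 * K ^ 2 * b * r z * (J - J')) ≤ (J - J') * (r z / (4 * K)) := by
    have : K * (3 * K ^ 2 * b * r z * (J - J')) = (J - J') * (r z / (4 * K)) * (12 * (K ^ 4 * b)) := by
      field_simp
      ring
    rw [this]
    refine mul_le_of_le_one_right (by positivity) (by linarith)
  rw [key]
  constructor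
  · have c1 : (J - J') / K * (r z / 2) ≤ (v J z - v J' z) * ρ J z := by
      refine mul_le_mul a1 a8 (by positivity) ?_
      have : 0 ≤ (J - J') / K := by positivity
      linarith
    have c2 : (J - J') / K * (r z / 2) = 2 * ((J - J') * (r z / (4 * K))) := by
      field_simp
      ring
    linarith
  · have c1 : (v J z - v J' z) * ρ J z ≤ K * (J - J') * (2 * r z) :=
      mul_le_mul a2 a9 (E.rho_pos hJ1 hJ h0 h1).le (by positivity)
    have c2 : (J - J') * (r z / (4 * K)) ≤ (J - J') * (K * r z) := by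
      refine mul_le_mul_of_nonneg_left ?_ hd
      rw [div_le_iff₀ (by positivity)]
      have : r z * 1 ≤ r z * (K * (4 * K)) := by
        refine mul_le_mul_of_nonneg_left ?_ hr.le
        nlinarith [E.hK]
      linarith
    have c3 : (J - J') * (3 * K * r z) = K * (J - J') * (2 * r z) + (J - J') * (K * r z) := by ring
    linarith

/-- Growth of `ρ` near `z₁`. -/
lemma rho_near {J z z' : ℝ} (hJ : 1 ≤ J) (hJ2 : J ≤ 2) (h0 : z₁ - 1 ≤ z) (h1 : z ≤ z')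
    (h2 : z' ≤ z₁) : (r z' - r z) / 2 ≤ ρ J z' - ρ J z ∧ ρ J z' - ρ J z ≤ 2 * (r z' - r z) := by
  have hz0 : z₀ ≤ z := by linarith [E.hz]
  have a1 := E.rho2 J z z' hJ hJ2 hz0 h1 h2
  have a2 := E.slope z z' h0 h1 h2
  have a3 := E.mono z z' hz0 h1 h2
  have hKb : 0 < K * b := mul_pos E.K0 E.hb
  have a4 : z' - z ≤ (r z' - r z) * (K * b) := (div_le_iff₀ hKb).1 a2
  have a5 : 3 * K ^ 3 * b * (z' - z) ≤ 3 * K ^ 3 * b * ((r z' - r z) * (K * b)) :=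
    mul_le_mul_of_nonneg_left a4 (by have := E.K0; have := E.hb; positivity)
  have h4 : K ^ 4 * b ≤ 1 / 1000 := E.Kpow (by norm_num)
  have h22 : K ^ 2 * b ≤ 1 / 1000 := E.Kpow (by norm_num)
  have hb1 : K ^ 0 * b ≤ 1 / 1000 := E.Kpow (by norm_num)
  rw [pow_zero, one_mul] at hb1
  have a6 : 3 * K ^ 3 * b * ((r z' - r z) * (K * b)) ≤ (1 / 100) * (r z' - r z) := by
    have : 3 * K ^ 3 * b * ((r z' - r z) * (K * b)) = (3 * ((K ^ 4 * b) * b)) * (r z' - r z) := by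
      ring
    rw [this]
    refine mul_le_mul_of_nonneg_right ?_ (by linarith)
    have : (K ^ 4 * b) * b ≤ (1 / 1000) * (1 / 1000) :=
      mul_le_mul h4 hb1 E.hb.le (by norm_num)
    linarith
  have a7 : 5 * K ^ 2 * b * (r z' - r z) ≤ (1 / 100) * (r z' - r z) :=
    mul_le_mul_of_nonneg_right (by linarith) (by linarith)
  obtain ⟨b1, b2⟩ := abs_le.1 a1
  constructor <;> linarith

lemma rho_cont {J : ℝ} (hJ : 1 ≤ J) (hJ2 : J ≤ 2) : ContinuousOn (ρ J) (Set.Icc z₀ z₁) := by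
  have hsm : K ^ 2 * b ≤ 1 / 1000 := E.Kpow (by norm_num)
  have hsm3 : K ^ 3 * b ≤ 1 / 1000 := E.Kpow (by norm_num)
  have key : ∀ z ∈ Set.Icc z₀ z₁, ∀ z' ∈ Set.Icc z₀ z₁,
      |ρ J z' - ρ J z| ≤ 2 * |r z' - r z| + |z' - z| := by
    have one : ∀ z z', z₀ ≤ z → z ≤ z' → z' ≤ z₁ →
        |ρ J z' - ρ J z| ≤ 2 * |r z' - r z| + |z' - z| := by
      intro z z' h0 h1 h2
      have a1 := E.rho2 J z z' hJ hJ2 h0 h1 h2
      have a2 := E.mono z z' h0 h1 h2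
      rw [abs_of_nonneg (by linarith : 0 ≤ r z' - r z), abs_of_nonneg (by linarith : 0 ≤ z' - z)]
      obtain ⟨b1, b2⟩ := abs_le.1 a1
      have a3 : 5 * K ^ 2 * b * (r z' - r z) ≤ 1 * (r z' - r z) :=
        mul_le_mul_of_nonneg_right (by linarith) (by linarith)
      have a4 : 3 * K ^ 3 * b * (z' - z) ≤ 1 * (z' - z) :=
        mul_le_mul_of_nonneg_right (by linarith) (by linarith)
      rw [abs_le]
      constructor <;> linarith
    intro z hz z' hz'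
    rcases le_total z z' with h | h
    · exact one z z' hz.1 h hz'.2
    · have := one z' z hz'.1 h hz.2
      rw [abs_sub_comm, abs_sub_comm (r z') , abs_sub_comm z']
      exact this
  intro z hz
  have h1 := E.cont z hz
  unfold ContinuousWithinAt at h1 ⊢
  rw [tendsto_iff_dist_tendsto_zero] at h1 ⊢
  have h2 : Tendsto (fun z' => 2 * dist (r z') (r z) + dist z' z) (𝓝[Set.Icc z₀ z₁] z) (𝓝 0) := by
    have h3 : Tendsto (fun z' => dist z' z) (𝓝[Set.Icc z₀ z₁] z) (𝓝 0) := by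
      rw [← tendsto_iff_dist_tendsto_zero]
      exact tendsto_nhdsWithin_of_tendsto_nhds tendsto_id
    have := (h1.const_mul 2).add h3
    simpa using this
  refine squeeze_zero' (Eventually.of_forall fun _ => dist_nonneg) ?_ h2
  filter_upwards [self_mem_nhdsWithin] with z' hz'
  rw [Real.dist_eq, Real.dist_eq, Real.dist_eq]
  exact key z hz z' hz'

lemma v_cont {J : ℝ} (hJ : 1 ≤ J) (hJ2 : J ≤ 2) : ContinuousOn (v J) (Set.Icc z₀ z₁) := by
  have key : ∀ z ∈ Set.Icc z₀ z₁, ∀ z' ∈ Set.Icc z₀ z₁, dist (v J z) (v J z') ≤ dist z z' := by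
    have one : ∀ z z', z₀ ≤ z → z ≤ z' → z' ≤ z₁ → dist (v J z) (v J z') ≤ dist z z' := by
      intro z z' h0 h1 h2
      obtain ⟨a1, a2⟩ := E.v3 J z z' hJ hJ2 h0 h1 h2
      rw [dist_comm, dist_comm z, Real.dist_eq, Real.dist_eq, abs_of_nonneg a1,
        abs_of_nonneg (by linarith : 0 ≤ z' - z)]
      exact a2
    intro z hz z' hz'
    rcases le_total z z' with h | h
    · exact one z z' hz.1 h hz'.2
    · rw [dist_comm, dist_comm z]
      exact one z' z hz'.1 h hz.2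
  have : LipschitzOnWith 1 (v J) (Set.Icc z₀ z₁) := by
    apply LipschitzOnWith.of_dist_le_mul
    intro z hz z' hz'
    rw [NNReal.coe_one, one_mul]
    exact key z hz z' hz'
  exact this.continuousOn

/-- `v ρ` is strictly increasing in `z` near `z₁`. -/
lemma F_z {J z z' : ℝ} (hJ : 1 < J) (hJ2 : J ≤ 2) (h0 : z₁ - 1 ≤ z) (h1 : z < z')
    (h2 : z' ≤ z₁) : v J z * ρ J z < v J z' * ρ J z' := by
  have hz0 : z₀ ≤ z := by linarith [E.hz]
  have hz' : z₀ ≤ z' := by linarith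
  have hz1 : z ≤ z₁ := by linarith
  obtain ⟨a1, -⟩ := E.v3 J z z' hJ.le hJ2 hz0 h1.le h2
  have a2 := E.rho_near hJ.le hJ2 h0 h1.le h2
  have a3 := E.slope z z' h0 h1.le h2
  have hKb : 0 < K * b := mul_pos E.K0 E.hb
  have a4 : 0 < (z' - z) / (K * b) := div_pos (by linarith) hKb
  have a5 : ρ J z < ρ J z' := by linarith [a2.1]
  have a6 := (E.v_nonneg hJ.le hJ2 hz' h2).1
  have a7 : 0 < (J - 1) / K := div_pos (by linarith) E.K0
  have a8 : 0 < v J z' := by linarith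
  calc v J z * ρ J z ≤ v J z' * ρ J z :=
        mul_le_mul_of_nonneg_right (by linarith) (E.rho_pos hJ.le hJ2 hz0 hz1).le
    _ < v J z' * ρ J z' := mul_lt_mul_of_pos_left a5 a8

theorem main : ∃ Jc η c C : ℝ, 1 < Jc ∧ Jc < 2 ∧ 0 < η ∧ Jc + η ≤ 2 ∧ 0 < c ∧ 0 < C ∧
    (∀ z, z₀ ≤ z → z < z₁ → 0 < 1 - v Jc z * ρ Jc z) ∧
    ∀ J, Jc < J → J < Jc + η → ∃ zJ, z₁ - 1 < zJ ∧ zJ < z₁ ∧
      (∀ z, z₀ ≤ z → z < zJ → 0 < 1 - v J z * ρ J z) ∧
      1 - v J zJ * ρ J zJ = 0 ∧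
      c * (r z₁ - r zJ) ≤ J - Jc ∧ J - Jc ≤ C * (r z₁ - r zJ) := by
  have hK0 := E.K0
  have hb := E.hb
  have hz01 : z₀ ≤ z₁ := by linarith [E.hz]
  have hr1 : 0 < r z₁ := E.rpos hz01 le_rfl
  have hKb : 0 < K * b := mul_pos hK0 hb
  have hz1m : z₀ ≤ z₁ - 1 := by linarith [E.hz]
  -- `r z₁` is large
  have hrm := E.slope (z₁ - 1) z₁ le_rfl (by linarith) le_rfl
  have hrm1 : 0 < r (z₁ - 1) := E.rpos hz1m (by linarith)
  have hrbig : 1 / (K * b) ≤ r z₁ - r (z₁ - 1) := by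
    have : z₁ - (z₁ - 1) = 1 := by ring
    rwa [this] at hrm
  -- the function `J ↦ v ρ` at `z₁`
  set F : ℝ → ℝ := fun J => v J z₁ * ρ J z₁ with hF
  have hF1 : F 1 = 0 := by simp only [hF]; rw [E.v1 z₁ hz01 le_rfl, zero_mul]
  have hF2 : 1 < F 2 := by
    have h1 := (E.F_J (J := 2) (J' := 1) le_rfl (by norm_num) le_rfl hz01 le_rfl).1
    have h2 : F 2 = v 2 z₁ * ρ 2 z₁ - v 1 z₁ * ρ 1 z₁ := by
      rw [E.v1 z₁ hz01 le_rfl, zero_mul, sub_zero]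
    rw [h2]
    refine lt_of_lt_of_le ?_ h1
    have h3 : (2 - 1 : ℝ) * (r z₁ / (4 * K)) = r z₁ / (4 * K) := by ring
    rw [h3, lt_div_iff₀ (by positivity)]
    have h4 : 1 * (4 * K) < 1 / (K * b) := by
      rw [lt_div_iff₀ hKb]
      have : K ^ 2 * b ≤ 1 / 1000 := E.Kpow (by norm_num)
      nlinarith
    linarith
  have hFmono : ∀ J J', 1 ≤ J' → J' < J → J ≤ 2 → F J' < F J := by
    intro J J' h1 h2 h3
    have h4 := (E.F_J h1 h2.le h3 hz01 le_rfl).1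
    have h5 : 0 < (J - J') * (r z₁ / (4 * K)) := by
      have : 0 < J - J' := by linarith
      positivity
    simp only [hF]
    linarith
  have hFcont : ContinuousOn F (Set.Icc 1 2) := by
    have : LipschitzOnWith (Real.toNNReal (3 * K * r z₁)) F (Set.Icc 1 2) := by
      apply LipschitzOnWith.of_dist_le_mul
      have hc : ((Real.toNNReal (3 * K * r z₁) : NNReal) : ℝ) = 3 * K * r z₁ :=
        Real.coe_toNNReal _ (by positivity)
      have one : ∀ J J', 1 ≤ J' → J' ≤ J → J ≤ 2 → dist (F J) (F J') ≤ 3 * K * r z₁ * dist J J' := by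
        intro J J' h1 h2 h3
        obtain ⟨h4, h5⟩ := E.F_J h1 h2 h3 hz01 le_rfl
        have h6 : 0 ≤ (J - J') * (r z₁ / (4 * K)) := by
          have : 0 ≤ J - J' := by linarith
          positivity
        rw [Real.dist_eq, Real.dist_eq, abs_of_nonneg (by simp only [hF]; linarith),
          abs_of_nonneg (by linarith : 0 ≤ J - J')]
        simp only [hF]
        linarith
      intro J hJ J' hJ'
      rw [hc]
      rcases le_total J J' with h | h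
      · rw [dist_comm, dist_comm J]
        exact one J' J hJ.1 h hJ'.2
      · exact one J J' hJ'.1 h hJ.2
    exact this.continuousOn
  obtain ⟨Jc, ⟨hJc1, hJc2⟩, hJcF⟩ : ∃ Jc ∈ Set.Ioo (1 : ℝ) 2, F Jc = 1 := by
    have h1 := intermediate_value_Ioo (by norm_num : (1 : ℝ) ≤ 2) hFcont
    have h2 : (1 : ℝ) ∈ Set.Ioo (F 1) (F 2) := ⟨by rw [hF1]; norm_num, hF2⟩
    obtain ⟨J, hJ, hJF⟩ := h1 h2
    exact ⟨J, hJ, hJF⟩
  have hJcF' : v Jc z₁ * ρ Jc z₁ = 1 := hJcF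
  have hρc := E.rho_pos hJc1.le hJc2.le hz01 le_rfl
  have hvc : 0 < v Jc z₁ := by
    rcases (E.v_ge hJc1.le hJc2.le hz01 le_rfl).eq_or_lt with h | h
    · rw [← h, zero_mul] at hJcF'
      norm_num at hJcF'
    · exact h
  -- far from `z₁`
  set κ : ℝ := (1 - 1 / K ^ 2) * (1 + 2 * K ^ 2 * b) / (1 - 2 * K ^ 2 * b) with hκ
  have h2b : K ^ 2 * b ≤ 1 / 1000 := E.Kpow (by norm_num)
  have h4b : K ^ 4 * b ≤ 1 / 1000 := E.Kpow (by norm_num)
  have hden : 0 < 1 - 2 * K ^ 2 * b := by linarith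
  have hκ1 : κ < 1 := by
    rw [hκ, div_lt_one hden]
    have h1 : (1 - 1 / K ^ 2) * (1 + 2 * K ^ 2 * b) = 1 + 2 * K ^ 2 * b - 1 / K ^ 2 - 2 * b := by
      field_simp
      ring
    rw [h1]
    have h2 : 4 * K ^ 2 * b < 1 / K ^ 2 := by
      rw [lt_div_iff₀ (by positivity)]
      have : 4 * K ^ 2 * b * K ^ 2 = 4 * (K ^ 4 * b) := by ring
      rw [this]
      linarith
    linarith
  have hfar : ∀ z, z₀ ≤ z → z ≤ z₁ - 1 → v Jc z * ρ Jc z ≤ κ := by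
    intro z h0 h1
    have hz1 : z ≤ z₁ := by linarith
    have a1 := E.rho_up hJc1.le hJc2.le h0 hz1
    have a2 := (E.v3 Jc z z₁ hJc1.le hJc2.le h0 hz1 le_rfl).1
    have a3 := E.rho_low hJc1.le hJc2.le hz01 le_rfl
    have a4 := E.mono z (z₁ - 1) h0 h1 (by linarith)
    have a5 : r z ≤ (1 - 1 / K ^ 2) * r z₁ := by
      have h2 : r z₁ / K ^ 2 ≤ 1 / (K * b) := by
        rw [div_le_div_iff₀ (by positivity) hKb]
        have h3 : r z₁ * b ≤ K := (le_div_iff₀ hb).1 E.top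
        have h4 : K * (r z₁ * b) ≤ K * K := mul_le_mul_of_nonneg_left h3 hK0.le
        nlinarith
      have h3 : (1 - 1 / K ^ 2) * r z₁ = r z₁ - r z₁ / K ^ 2 := by ring
      rw [h3]
      linarith
    have a6 : v Jc z₁ * ((1 - 2 * K ^ 2 * b) * r z₁) ≤ 1 :=
      (mul_le_mul_of_nonneg_left a3 hvc.le).trans_eq hJcF'
    rw [hκ, le_div_iff₀ hden]
    have hrz := E.rpos h0 hz1
    have a7 : v Jc z * ρ Jc z ≤ v Jc z₁ * ((1 + 2 * K ^ 2 * b) * ((1 - 1 / K ^ 2) * r z₁)) := by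
      refine mul_le_mul (by linarith) (a1.trans (mul_le_mul_of_nonneg_left a5 (by positivity)))
        (E.rho_pos hJc1.le hJc2.le h0 hz1).le hvc.le
    have hK2 : 0 ≤ 1 - 1 / K ^ 2 := by
      rw [sub_nonneg, div_le_one (by positivity)]
      exact one_le_pow₀ E.hK
    calc v Jc z * ρ Jc z * (1 - 2 * K ^ 2 * b)
        ≤ v Jc z₁ * ((1 + 2 * K ^ 2 * b) * ((1 - 1 / K ^ 2) * r z₁)) * (1 - 2 * K ^ 2 * b) :=
          mul_le_mul_of_nonneg_right a7 hden.le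
      _ = (1 - 1 / K ^ 2) * (1 + 2 * K ^ 2 * b) * (v Jc z₁ * ((1 - 2 * K ^ 2 * b) * r z₁)) := by
          ring
      _ ≤ (1 - 1 / K ^ 2) * (1 + 2 * K ^ 2 * b) * 1 :=
          mul_le_mul_of_nonneg_left a6 (by positivity)
      _ = (1 - 1 / K ^ 2) * (1 + 2 * K ^ 2 * b) := mul_one _
  -- the radius in `J`
  set η : ℝ := min (2 - Jc) ((1 - κ) / (3 * K * r z₁)) with hη
  have hη0 : 0 < η := lt_min (by linarith) (div_pos (by linarith) (by positivity))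
  refine ⟨Jc, η, 1 / (4 * r z₁) / (3 * K * r z₁), (2 * K + 2 * r z₁ * (K * b)) / (r z₁ / (4 * K)),
    hJc1, hJc2, hη0, ?_, by positivity, by positivity, ?_, ?_⟩
  · have := min_le_left (2 - Jc) ((1 - κ) / (3 * K * r z₁))
    rw [← hη] at this
    linarith
  · intro z h0 h1
    rcases le_or_gt z (z₁ - 1) with h | h
    · linarith [hfar z h0 h]
    · have := E.F_z hJc1 hJc2.le h.le h1 le_rfl
      linarith
  · intro J hJ1 hJ2
    have hJη := min_le_right (2 - Jc) ((1 - κ) / (3 * K * r z₁))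
    have hJη' := min_le_left (2 - Jc) ((1 - κ) / (3 * K * r z₁))
    rw [← hη] at hJη hJη'
    have hJ2' : J ≤ 2 := by linarith
    have hJ1' : 1 < J := by linarith
    -- positivity far from `z₁`
    have hfar2 : ∀ z, z₀ ≤ z → z ≤ z₁ - 1 → 0 < 1 - v J z * ρ J z := by
      intro z h0 h1
      have hz1 : z ≤ z₁ := by linarith
      have a1 := (E.F_J hJc1.le hJ1.le hJ2' h0 hz1).2
      have a2 := hfar z h0 h1
      have a3 : (J - Jc) * (3 * K * r z) ≤ (J - Jc) * (3 * K * r z₁) := by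
        refine mul_le_mul_of_nonneg_left ?_ (by linarith)
        exact mul_le_mul_of_nonneg_left (E.mono z z₁ h0 hz1 le_rfl) (by positivity)
      have a4 : (J - Jc) * (3 * K * r z₁) < 1 - κ := by
        have : J - Jc < (1 - κ) / (3 * K * r z₁) := by linarith
        rwa [lt_div_iff₀ (by positivity)] at this
      linarith
    -- the zero
    have hcont : ContinuousOn (fun z => v J z * ρ J z) (Set.Icc (z₁ - 1) z₁) := by
      have h1 : Set.Icc (z₁ - 1) z₁ ⊆ Set.Icc z₀ z₁ := Set.Icc_subset_Icc_left hz1m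
      exact ((E.v_cont hJ1'.le hJ2').mono h1).mul ((E.rho_cont hJ1'.le hJ2').mono h1)
    have hend : 1 < v J z₁ * ρ J z₁ := by
      have := hFmono J Jc hJc1.le hJ1 hJ2'
      rw [hJcF] at this
      exact this
    have hstart : v J (z₁ - 1) * ρ J (z₁ - 1) < 1 := by
      linarith [hfar2 (z₁ - 1) hz1m le_rfl]
    obtain ⟨zJ, ⟨hzJ1, hzJ2⟩, hzJ⟩ : ∃ zJ ∈ Set.Ioo (z₁ - 1) z₁, v J zJ * ρ J zJ = 1 := by
      have h1 := intermediate_value_Ioo (by linarith : z₁ - 1 ≤ z₁) hcont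
      obtain ⟨y, hy, hy'⟩ := h1 ⟨hstart, hend⟩
      exact ⟨y, hy, hy'⟩
    refine ⟨zJ, hzJ1, hzJ2, ?_, by rw [hzJ]; ring, ?_⟩
    · intro z h0 h1
      rcases le_or_gt z (z₁ - 1) with h | h
      · exact hfar2 z h0 h
      · have := E.F_z hJ1' hJ2' h.le h1 hzJ2.le
        linarith
    -- comparison
    have hzJ0 : z₀ ≤ zJ := by linarith
    obtain ⟨c1, c2⟩ := E.F_J hJc1.le hJ1.le hJ2' hz01 le_rfl
    rw [hJcF'] at c1 c2
    have hRHS : v J z₁ * ρ J z₁ - 1 =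
        v J z₁ * (ρ J z₁ - ρ J zJ) + (v J z₁ - v J zJ) * ρ J zJ := by
      rw [← hzJ]; ring
    obtain ⟨d1, d2⟩ := E.rho_near hJ1'.le hJ2' hzJ1.le hzJ2.le le_rfl
    obtain ⟨e1, e2⟩ := E.v3 J zJ z₁ hJ1'.le hJ2' hzJ0 hzJ2.le le_rfl
    have f1 := E.v_le hJ1'.le hJ2' hz01 le_rfl
    have f2 := E.slope zJ z₁ hzJ1.le hzJ2.le le_rfl
    have f3 : z₁ - zJ ≤ (r z₁ - r zJ) * (K * b) := (div_le_iff₀ hKb).1 f2
    have f4 := E.mono zJ z₁ hzJ0 hzJ2.le le_rfl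
    have f5 := E.rho_two hJ1'.le hJ2' hzJ0 hzJ2.le
    have f6 := E.rho_pos hJ1'.le hJ2' hzJ0 hzJ2.le
    have f7 : 1 / (2 * r z₁) ≤ v J z₁ := by
      have g1 := (E.v2 J Jc z₁ hJc1.le hJ1.le hJ2' hz01 le_rfl).1
      have g2 : 0 ≤ (J - Jc) / K := div_nonneg (by linarith) hK0.le
      have g3 : 1 / (2 * r z₁) ≤ v Jc z₁ := by
        rw [div_le_iff₀ (by positivity), ← hJcF']
        exact mul_le_mul_of_nonneg_left (E.rho_two hJc1.le hJc2.le hz01 le_rfl) hvc.le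
      linarith
    have hd0 : 0 ≤ r z₁ - r zJ := by linarith
    have low : 1 / (4 * r z₁) * (r z₁ - r zJ) ≤ v J z₁ * ρ J z₁ - 1 := by
      rw [hRHS]
      have g1 : 1 / (2 * r z₁) * ((r z₁ - r zJ) / 2) ≤ v J z₁ * (ρ J z₁ - ρ J zJ) :=
        mul_le_mul f7 d1 (by linarith) (by linarith [E.v_ge hJ1'.le hJ2' hz01 le_rfl])
      have g2 : 0 ≤ (v J z₁ - v J zJ) * ρ J zJ := mul_nonneg e1 f6.le
      have g3 : 1 / (2 * r z₁) * ((r z₁ - r zJ) / 2) = 1 / (4 * r z₁) * (r z₁ - r zJ) := by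
        field_simp
        ring
      linarith
    have up : v J z₁ * ρ J z₁ - 1 ≤ (2 * K + 2 * r z₁ * (K * b)) * (r z₁ - r zJ) := by
      rw [hRHS]
      have g1 : v J z₁ * (ρ J z₁ - ρ J zJ) ≤ K * (2 * (r z₁ - r zJ)) :=
        mul_le_mul f1 d2 (by linarith) hK0.le
      have g2 : (v J z₁ - v J zJ) * ρ J zJ ≤ ((r z₁ - r zJ) * (K * b)) * (2 * r z₁) :=
        mul_le_mul (e2.trans f3) (by linarith) f6.le (by positivity)
      have g3 : (2 * K + 2 * r z₁ * (K * b)) * (r z₁ - r zJ) =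
          K * (2 * (r z₁ - r zJ)) + ((r z₁ - r zJ) * (K * b)) * (2 * r z₁) := by ring
      linarith
    constructor
    · have g1 : 1 / (4 * r z₁) * (r z₁ - r zJ) ≤ (J - Jc) * (3 * K * r z₁) := low.trans c2
      rw [div_mul_eq_mul_div, div_le_iff₀ (by positivity)]
      exact g1
    · have g1 : (J - Jc) * (r z₁ / (4 * K)) ≤ (2 * K + 2 * r z₁ * (K * b)) * (r z₁ - r zJ) :=
        c1.trans up
      rw [div_mul_eq_mul_div, le_div_iff₀ (by positivity)]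
      exact g1

end Est

end realpart

/-! ### The Banach space part -/

section banach

variable {X : Type} [NormedAddCommGroup X] [NormedSpace ℝ X] [CompleteSpace X]

/-- The Neumann vector. -/
noncomputable def nv (B : X →L[ℝ] X) (e : X) : X := (Ring.inverse (1 - B) : X →L[ℝ] X) e

lemma nv_eq (B : X →L[ℝ] X) (e : X) (hB : ‖B‖ ≤ 1 / 16) : nv B e = e + B (nv B e) := by
  have hu : IsUnit (1 - B) := isUnit_one_sub_of_norm_lt_one (by linarith)
  have h1 : (1 - B) * Ring.inverse (1 - B) = 1 := Ring.mul_inverse_cancel _ hu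
  have h2 : ((1 - B) * Ring.inverse (1 - B)) e = (1 : X →L[ℝ] X) e := by rw [h1]
  have h3 : nv B e - B (nv B e) = e := h2
  exact sub_eq_iff_eq_add.1 h3

lemma nv_norm (B : X →L[ℝ] X) (e : X) (hB : ‖B‖ ≤ 1 / 16) (he : ‖e‖ ≤ 1) : ‖nv B e‖ ≤ 2 := by
  have h1 : ‖nv B e‖ ≤ ‖e‖ + ‖B (nv B e)‖ := by
    conv_lhs => rw [nv_eq B e hB]
    exact norm_add_le _ _
  have h2 : ‖B (nv B e)‖ ≤ 1 / 16 * ‖nv B e‖ :=
    (B.le_opNorm _).trans (mul_le_mul_of_nonneg_right hB (norm_nonneg _))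
  linarith

lemma nv_sub (B : X →L[ℝ] X) (e : X) (hB : ‖B‖ ≤ 1 / 16) (he : ‖e‖ ≤ 1) :
    ‖nv B e - e‖ ≤ 2 * ‖B‖ := by
  have h1 : nv B e - e = B (nv B e) := by
    conv_lhs => rw [nv_eq B e hB]
    exact add_sub_cancel_left _ _
  rw [h1]
  calc ‖B (nv B e)‖ ≤ ‖B‖ * ‖nv B e‖ := B.le_opNorm _
    _ ≤ ‖B‖ * 2 := mul_le_mul_of_nonneg_left (nv_norm B e hB he) (norm_nonneg _)
    _ = 2 * ‖B‖ := mul_comm _ _

lemma nv_sub_nv (B B' : X →L[ℝ] X) (e : X) (hB : ‖B‖ ≤ 1 / 16) (hB' : ‖B'‖ ≤ 1 / 16)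
    (he : ‖e‖ ≤ 1) : ‖nv B' e - nv B e‖ ≤ 3 * ‖B' - B‖ := by
  have h1 : nv B' e - nv B e = B' (nv B' e - nv B e) + (B' - B) (nv B e) := by
    conv_lhs => rw [nv_eq B e hB, nv_eq B' e hB']
    rw [map_sub, ContinuousLinearMap.sub_apply]
    abel
  have h2 : ‖nv B' e - nv B e‖ ≤ ‖B' (nv B' e - nv B e)‖ + ‖(B' - B) (nv B e)‖ := by
    conv_lhs => rw [h1]
    exact norm_add_le _ _
  have h3 : ‖B' (nv B' e - nv B e)‖ ≤ 1 / 16 * ‖nv B' e - nv B e‖ :=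
    (B'.le_opNorm _).trans (mul_le_mul_of_nonneg_right hB' (norm_nonneg _))
  have h4 : ‖(B' - B) (nv B e)‖ ≤ ‖B' - B‖ * 2 :=
    ((B' - B).le_opNorm _).trans (mul_le_mul_of_nonneg_left (nv_norm B e hB he) (norm_nonneg _))
  have h5 := norm_nonneg (B' - B)
  linarith

end banach

theorem threshold (K : ℝ) (hK : 1 ≤ K) : ∃ b₀ : ℝ, 0 < b₀ ∧ ∀ b, 0 < b → b < b₀ →
    ∀ (X Y : Type) [NormedAddCommGroup X] [NormedSpace ℝ X] [CompleteSpace X]
      [NormedAddCommGroup Y] [NormedSpace ℝ Y] (e : X) (ε : Y →L[ℝ] ℝ) (R : ℝ → X →L[ℝ] Y)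
      (V : ℝ → ℝ → Y →L[ℝ] X) (v : ℝ → ℝ → ℝ) (r : ℝ → ℝ) (z₀ z₁ : ℝ), ‖e‖ ≤ 1 → ‖ε‖ ≤ 1 →
      z₀ + 1 ≤ z₁ →
      (∀ z, z₀ ≤ z → z ≤ z₁ → r z = ε (R z e)) →
      (∀ z, z₀ ≤ z → z ≤ z₁ → 1 / 2 ≤ r z ∧ ‖R z‖ ≤ r z) →
      (∀ z z', z₀ ≤ z → z ≤ z' → z' ≤ z₁ → ‖R z' - R z‖ ≤ r z' - r z) →
      r z₁ ≤ K / b → r z₀ ≤ 2 →
      (∀ z z', z₁ - 1 ≤ z → z ≤ z' → z' ≤ z₁ → (z' - z) / (K * b) ≤ r z' - r z) →
      ContinuousOn r (Set.Icc z₀ z₁) →
      (∀ z, z₀ ≤ z → z ≤ z₁ → V 1 z = 0) →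
      (∀ J J' z, 1 ≤ J → J ≤ 2 → 1 ≤ J' → J' ≤ 2 → z₀ ≤ z → z ≤ z₁ →
        ‖V J z - V J' z‖ ≤ K * b ^ 2 * |J - J'|) →
      (∀ J z z', 1 ≤ J → J ≤ 2 → z₀ ≤ z → z ≤ z' → z' ≤ z₁ →
        ‖V J z' - V J z‖ ≤ K * b ^ 3 * (z' - z)) →
      (∀ z, z₀ ≤ z → z ≤ z₁ → v 1 z = 0) →
      (∀ J J' z, 1 ≤ J' → J' ≤ J → J ≤ 2 → z₀ ≤ z → z ≤ z₁ →
        (J - J') / K ≤ v J z - v J' z ∧ v J z - v J' z ≤ K * (J - J')) →
      (∀ J z z', 1 ≤ J → J ≤ 2 → z₀ ≤ z → z ≤ z' → z' ≤ z₁ →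
        0 ≤ v J z' - v J z ∧ v J z' - v J z ≤ z' - z) →
      (∀ J, 1 ≤ J → J ≤ 2 → v J z₀ ≤ 1 / 8) →
      (∀ J z, 1 ≤ J → J ≤ 2 → z₀ ≤ z → z ≤ z₁ → ‖(V J z).comp (R z)‖ ≤ 1 / 16) ∧
      ∃ Jc η c C : ℝ, 1 < Jc ∧ Jc < 2 ∧ 0 < η ∧ Jc + η ≤ 2 ∧ 0 < c ∧ 0 < C ∧
        (∀ z, z₀ ≤ z → z < z₁ → 0 < DD e ε (R z) (V Jc z) (v Jc z)) ∧
        ∀ J, Jc < J → J < Jc + η → ∃ zJ, z₁ - 1 < zJ ∧ zJ < z₁ ∧
          (∀ z, z₀ ≤ z → z < zJ → 0 < DD e ε (R z) (V J z) (v J z)) ∧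
          DD e ε (R zJ) (V J zJ) (v J zJ) = 0 ∧
          c * (r z₁ - r zJ) ≤ J - Jc ∧ J - Jc ≤ C * (r z₁ - r zJ) := by
  have hK0 : 0 < K := by linarith
  refine ⟨1 / (1000 * K ^ 6), by positivity, ?_⟩
  intro b hb hbb X Y _ _ _ _ _ e ε R V v r z₀ z₁ he hε hz hr hrR hRR htop _ hslope hcont hV1 hVJ hVz
    hv1 hv2 hv3 _
  have hbK : 1000 * K ^ 6 * b ≤ 1 := by
    rw [lt_div_iff₀ (by positivity)] at hbb
    linarith
  have hKpow : ∀ n : ℕ, n ≤ 6 → K ^ n * b ≤ 1 / 1000 := by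
    intro n hn
    have h1 : K ^ n ≤ K ^ 6 := pow_le_pow_right₀ hK hn
    have h2 := mul_le_mul_of_nonneg_right h1 hb.le
    linarith
  have hmono : ∀ z z', z₀ ≤ z → z ≤ z' → z' ≤ z₁ → r z ≤ r z' := by
    intro z z' h0 h1 h2
    have := (norm_nonneg _).trans (hRR z z' h0 h1 h2)
    linarith
  have hrb : ∀ z, z₀ ≤ z → z ≤ z₁ → b * r z ≤ K := by
    intro z h0 h1
    have h2 := (hmono z z₁ h0 h1 le_rfl).trans htop
    rw [le_div_iff₀ hb] at h2
    linarith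
  have hrpos : ∀ z, z₀ ≤ z → z ≤ z₁ → 0 < r z := by
    intro z h0 h1
    linarith [(hrR z h0 h1).1]
  have hVn : ∀ J z, 1 ≤ J → J ≤ 2 → z₀ ≤ z → z ≤ z₁ → ‖V J z‖ ≤ K * b ^ 2 := by
    intro J z hJ hJ2 h0 h1
    have h2 := hVJ J 1 z hJ hJ2 le_rfl (by norm_num) h0 h1
    rw [hV1 z h0 h1, sub_zero, abs_of_nonneg (by linarith : 0 ≤ J - 1)] at h2
    refine h2.trans (mul_le_of_le_one_right (by positivity) (by linarith))
  have hBn : ∀ J z, 1 ≤ J → J ≤ 2 → z₀ ≤ z → z ≤ z₁ → ‖(V J z).comp (R z)‖ ≤ K ^ 2 * b := by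
    intro J z hJ hJ2 h0 h1
    calc ‖(V J z).comp (R z)‖ ≤ ‖V J z‖ * ‖R z‖ := ContinuousLinearMap.opNorm_comp_le _ _
      _ ≤ (K * b ^ 2) * r z :=
          mul_le_mul (hVn J z hJ hJ2 h0 h1) (hrR z h0 h1).2 (norm_nonneg _) (by positivity)
      _ = K * b * (b * r z) := by ring
      _ ≤ K * b * K := mul_le_mul_of_nonneg_left (hrb z h0 h1) (by positivity)
      _ = K ^ 2 * b := by ring
  have hB16 : ∀ J z, 1 ≤ J → J ≤ 2 → z₀ ≤ z → z ≤ z₁ → ‖(V J z).comp (R z)‖ ≤ 1 / 16 := by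
    intro J z hJ hJ2 h0 h1
    have := hKpow 2 (by norm_num)
    linarith [hBn J z hJ hJ2 h0 h1]
  refine ⟨hB16, ?_⟩
  set ρ : ℝ → ℝ → ℝ := fun J z => ε (R z (nv ((V J z).comp (R z)) e)) with hρ
  have hDD : ∀ J z, DD e ε (R z) (V J z) (v J z) = 1 - v J z * ρ J z := fun J z => rfl
  have hεle : ∀ y : Y, |ε y| ≤ ‖y‖ := by
    intro y
    have h1 := ε.le_opNorm y
    rw [Real.norm_eq_abs] at h1
    exact h1.trans (mul_le_of_le_one_left (norm_nonneg _) hε)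
  have E : Est K b z₀ z₁ r ρ v :=
    { hK := hK
      hb := hb
      hbK := hbK
      hz := hz
      half := fun z h0 h1 => (hrR z h0 h1).1
      mono := hmono
      top := htop
      slope := hslope
      cont := hcont
      v1 := hv1
      v2 := hv2
      v3 := hv3
      rho1 := by
        intro J z hJ hJ2 h0 h1
        have h2 : ρ J z - r z = ε (R z (nv ((V J z).comp (R z)) e - e)) := by
          rw [hr z h0 h1, map_sub, map_sub]
        rw [h2]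
        calc |ε (R z (nv ((V J z).comp (R z)) e - e))|
            ≤ ‖R z (nv ((V J z).comp (R z)) e - e)‖ := hεle _
          _ ≤ ‖R z‖ * ‖nv ((V J z).comp (R z)) e - e‖ := (R z).le_opNorm _
          _ ≤ r z * (2 * (K ^ 2 * b)) := by
              refine mul_le_mul (hrR z h0 h1).2 ?_ (norm_nonneg _) (hrpos z h0 h1).le
              refine (nv_sub _ e (hB16 J z hJ hJ2 h0 h1) he).trans ?_
              exact mul_le_mul_of_nonneg_left (hBn J z hJ hJ2 h0 h1) (by norm_num)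
          _ = 2 * K ^ 2 * b * r z := by ring
      rho2 := by
        intro J z z' hJ hJ2 h0 h1 h2
        have h0' : z₀ ≤ z' := h0.trans h1
        have h1' : z ≤ z₁ := h1.trans h2
        set w := nv ((V J z).comp (R z)) e with hw
        set w' := nv ((V J z').comp (R z')) e with hw'
        have h3 : ρ J z' - ρ J z - (r z' - r z) =
            ε ((R z' - R z) (w' - e)) + ε (R z (w' - w)) := by
          rw [hr z h0 h1', hr z' h0' h2]
          simp only [hρ, ← hw, ← hw', ContinuousLinearMap.sub_apply, map_sub]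
          ring
        rw [h3]
        have hBB : ‖(V J z').comp (R z') - (V J z).comp (R z)‖ ≤
            K * b ^ 2 * (r z' - r z) + K * b ^ 3 * (z' - z) * r z := by
          have h4 : (V J z').comp (R z') - (V J z).comp (R z) =
              (V J z').comp (R z' - R z) + (V J z' - V J z).comp (R z) := by
            ext x
            simp only [ContinuousLinearMap.sub_apply, ContinuousLinearMap.comp_apply,
              ContinuousLinearMap.add_apply, map_sub]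
            abel
          rw [h4]
          refine (norm_add_le _ _).trans (add_le_add ?_ ?_)
          · refine (ContinuousLinearMap.opNorm_comp_le _ _).trans ?_
            exact mul_le_mul (hVn J z' hJ hJ2 h0' h2) (hRR z z' h0 h1 h2) (norm_nonneg _)
              (by positivity)
          · refine (ContinuousLinearMap.opNorm_comp_le _ _).trans ?_
            refine mul_le_mul (hVz J z z' hJ hJ2 h0 h1 h2) (hrR z h0 h1').2 (norm_nonneg _) ?_
            have : 0 ≤ z' - z := by linarith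
            positivity
        have hww : ‖w' - w‖ ≤ 3 * (K * b ^ 2 * (r z' - r z) + K * b ^ 3 * (z' - z) * r z) :=
          (nv_sub_nv _ _ e (hB16 J z hJ hJ2 h0 h1') (hB16 J z' hJ hJ2 h0' h2) he).trans
            (mul_le_mul_of_nonneg_left hBB (by norm_num))
        have hwe : ‖w' - e‖ ≤ 2 * (K ^ 2 * b) :=
          (nv_sub _ e (hB16 J z' hJ hJ2 h0' h2) he).trans
            (mul_le_mul_of_nonneg_left (hBn J z' hJ hJ2 h0' h2) (by norm_num))
        have hdr : 0 ≤ r z' - r z := by linarith [hmono z z' h0 h1 h2]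
        have hdz : 0 ≤ z' - z := by linarith
        have t1 : |ε ((R z' - R z) (w' - e))| ≤ (r z' - r z) * (2 * (K ^ 2 * b)) := by
          refine (hεle _).trans (((R z' - R z).le_opNorm _).trans ?_)
          exact mul_le_mul (hRR z z' h0 h1 h2) hwe (norm_nonneg _) hdr
        have t2 : |ε (R z (w' - w))| ≤
            r z * (3 * (K * b ^ 2 * (r z' - r z) + K * b ^ 3 * (z' - z) * r z)) := by
          refine (hεle _).trans (((R z).le_opNorm _).trans ?_)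
          exact mul_le_mul (hrR z h0 h1').2 hww (norm_nonneg _) (hrpos z h0 h1').le
        have t3 : r z * (3 * (K * b ^ 2 * (r z' - r z) + K * b ^ 3 * (z' - z) * r z)) ≤
            3 * K ^ 2 * b * (r z' - r z) + 3 * K ^ 3 * b * (z' - z) := by
          have u1 := hrb z h0 h1'
          have u0 : 0 ≤ b * r z := mul_nonneg hb.le (hrpos z h0 h1').le
          have u2 : (b * r z) * (b * r z) ≤ K * K := mul_le_mul u1 u1 u0 hK0.le
          have u3 : r z * (3 * (K * b ^ 2 * (r z' - r z) + K * b ^ 3 * (z' - z) * r z)) =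
              3 * K * b * (r z' - r z) * (b * r z) +
                3 * K * b * (z' - z) * ((b * r z) * (b * r z)) := by ring
          rw [u3]
          have u4 : 3 * K * b * (r z' - r z) * (b * r z) ≤ 3 * K * b * (r z' - r z) * K :=
            mul_le_mul_of_nonneg_left u1 (by positivity)
          have u5 : 3 * K * b * (z' - z) * ((b * r z) * (b * r z)) ≤
              3 * K * b * (z' - z) * (K * K) := mul_le_mul_of_nonneg_left u2 (by positivity)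
          calc _ ≤ 3 * K * b * (r z' - r z) * K + 3 * K * b * (z' - z) * (K * K) :=
                add_le_add u4 u5
            _ = _ := by ring
        refine (abs_add_le _ _).trans ?_
        calc |ε ((R z' - R z) (w' - e))| + |ε (R z (w' - w))|
            ≤ (r z' - r z) * (2 * (K ^ 2 * b)) +
              (3 * K ^ 2 * b * (r z' - r z) + 3 * K ^ 3 * b * (z' - z)) :=
              add_le_add t1 (t2.trans t3)
          _ = 5 * K ^ 2 * b * (r z' - r z) + 3 * K ^ 3 * b * (z' - z) := by ring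
      rho3 := by
        intro J J' z hJ hJ2 hJ' hJ'2 h0 h1
        set w := nv ((V J z).comp (R z)) e with hw
        set w' := nv ((V J' z).comp (R z)) e with hw'
        have h3 : ρ J z - ρ J' z = ε (R z (w - w')) := by
          simp only [hρ, ← hw, ← hw', map_sub]
        rw [h3]
        have hBB : ‖(V J z).comp (R z) - (V J' z).comp (R z)‖ ≤ K * b ^ 2 * |J - J'| * r z := by
          rw [← ContinuousLinearMap.sub_comp]
          refine (ContinuousLinearMap.opNorm_comp_le _ _).trans ?_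
          exact mul_le_mul (hVJ J J' z hJ hJ2 hJ' hJ'2 h0 h1) (hrR z h0 h1).2 (norm_nonneg _)
            (by positivity)
        have hww : ‖w - w'‖ ≤ 3 * (K * b ^ 2 * |J - J'| * r z) :=
          (nv_sub_nv _ _ e (hB16 J' z hJ' hJ'2 h0 h1) (hB16 J z hJ hJ2 h0 h1) he).trans
            (mul_le_mul_of_nonneg_left hBB (by norm_num))
        have t2 : |ε (R z (w - w'))| ≤ r z * (3 * (K * b ^ 2 * |J - J'| * r z)) := by
          refine (hεle _).trans (((R z).le_opNorm _).trans ?_)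
          exact mul_le_mul (hrR z h0 h1).2 hww (norm_nonneg _) (hrpos z h0 h1).le
        refine t2.trans ?_
        have u1 := hrb z h0 h1
        have hrz := hrpos z h0 h1
        calc r z * (3 * (K * b ^ 2 * |J - J'| * r z))
            = 3 * K * b * |J - J'| * r z * (b * r z) := by ring
          _ ≤ 3 * K * b * |J - J'| * r z * K := mul_le_mul_of_nonneg_left u1 (by positivity)
          _ = 3 * K ^ 2 * b * r z * |J - J'| := by ring }
  obtain ⟨Jc, η, c, C, h1, h2, h3, h4, h5, h6, h7, h8⟩ := E.main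
  refine ⟨Jc, η, c, C, h1, h2, h3, h4, h5, h6, ?_, ?_⟩
  · intro z h0 h1
    rw [hDD]
    exact h7 z h0 h1
  · intro J hJ hJ2
    obtain ⟨zJ, g1, g2, g3, g4, g5, g6⟩ := h8 J hJ hJ2
    refine ⟨zJ, g1, g2, ?_, ?_, g5, g6⟩
    · intro z h0 h1
      rw [hDD]
      exact g3 z h0 h1
    · rw [hDD]
      exact g4

end Pool.Agent.SB
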