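import Pool.Agent.SB.Vol
import Pool.Agent.SB.KS

/-!
# The infinite volume functional (an ultralimit)
-/

set_option autoImplicit false

namespace Pool.Agent.SB

open Finset Filter Topology

variable {D q : ℕ} [NeZero q]

theorem uL_den_pos (β J : ℝ) (Λ : Finset (Site D)) :
    0 < ∑ s : Λ → ZMod q, Real.exp (β * energy J Λ s) :=
  sum_pos (fun _ _ => Real.exp_pos _) univ_nonempty

theorem abs_uL_le (β J : ℝ) (Λ : Finset (Site D)) (a : St D q) : |uL β J Λ a| ≤ 1 := by
  unfold uL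
  rw [abs_div, abs_of_pos (uL_den_pos β J Λ), div_le_one (uL_den_pos β J Λ)]
  refine (abs_sum_le_sum_abs _ _).trans (sum_le_sum fun s _ => ?_)
  rw [abs_mul, abs_of_pos (Real.exp_pos _)]
  exact mul_le_of_le_one_left (Real.exp_pos _).le (Real.abs_cos_le_one _)

theorem uL_zero (β J : ℝ) (Λ : Finset (Site D)) : uL β J Λ (0 : St D q) = 1 := by
  unfold uL
  have h : ∀ s : Λ → ZMod q,
      cosq ((0 : St D q).sum fun x k => k * ext s x) * Real.exp (β * energy J Λ s) =
        Real.exp (β * energy J Λ s) := by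
    intro s
    rw [Finsupp.sum_zero_index]
    simp [cosq]
  rw [sum_congr rfl fun s _ => h s]
  exact div_self (uL_den_pos β J Λ).ne'

theorem exists_u (hq : 2 ≤ q) (β J : ℝ) (hβ : 0 ≤ β) (hJ : 0 ≤ J) :
    ∃ u : St D q → ℝ, (∀ a, |u a| ≤ 1) ∧ u 0 = 1 ∧
      (∀ x y, u (Finsupp.single x 1 - Finsupp.single y 1) = G D q β J x y) ∧
      ∀ a x, x ∈ a.support → u a = ∑ B ∈ (nb x).powerset.erase ∅, tB q β J x B *
        (∑ b ∈ lab B (a x), u (a - Finsupp.single x (a x) + b) -
          ∑ b ∈ lab B (0 : ZMod q), u (a + b)) := by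
  classical
  set U : Ultrafilter (Finset (Site D)) := Ultrafilter.of atTop with hU
  have hUle : (U : Filter (Finset (Site D))) ≤ atTop := Ultrafilter.of_le atTop
  have hlim : ∀ a : St D q, ∃ r : ℝ, |r| ≤ 1 ∧
      Tendsto (fun Λ => uL β J Λ a) (U : Filter (Finset (Site D))) (𝓝 r) := by
    intro a
    have hc : IsCompact (Set.Icc (-1 : ℝ) 1) := isCompact_Icc
    obtain ⟨r, hr, hr'⟩ := hc.ultrafilter_le_nhds (U.map fun Λ => uL β J Λ a) (by
      rw [le_principal_iff, Ultrafilter.mem_coe, Ultrafilter.mem_map]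
      exact Filter.univ_mem' fun Λ => abs_le.1 (abs_uL_le β J Λ a))
    exact ⟨r, abs_le.2 hr, hr'⟩
  choose u hu1 hu2 using hlim
  refine ⟨u, hu1, ?_, ?_, ?_⟩
  · refine tendsto_nhds_unique (hu2 0) ?_
    simp only [uL_zero]
    exact tendsto_const_nhds
  · intro x y
    refine tendsto_nhds_unique (hu2 _) ((tendsto_gL hq β J hβ hJ x y).mono_left hUle |>.congr' ?_)
    have h1 : ∀ᶠ Λ : Finset (Site D) in atTop, {x, y} ⊆ Λ := eventually_ge_atTop _
    refine (h1.filter_mono hUle).mono fun Λ h => ?_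
    change gL D q β J Λ x y = uL β J Λ _
    unfold gL
    exact if_pos ⟨h (by simp), h (by simp)⟩
  · intro a x hx
    refine tendsto_nhds_unique (hu2 a) ?_
    have h1 : ∀ᶠ Λ : Finset (Site D) in atTop, insert x (nb x) ⊆ Λ := eventually_ge_atTop _
    have h2 : Tendsto (fun Λ => ∑ B ∈ (nb x).powerset.erase ∅, tB q β J x B *
        (∑ b ∈ lab B (a x), uL β J Λ (a - Finsupp.single x (a x) + b) -
          ∑ b ∈ lab B (0 : ZMod q), uL β J Λ (a + b))) (U : Filter (Finset (Site D)))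
        (𝓝 (∑ B ∈ (nb x).powerset.erase ∅, tB q β J x B *
        (∑ b ∈ lab B (a x), u (a - Finsupp.single x (a x) + b) -
          ∑ b ∈ lab B (0 : ZMod q), u (a + b)))) :=
      tendsto_finsetSum _ fun B _ => (((tendsto_finsetSum _ fun b _ => hu2 _).sub
        (tendsto_finsetSum _ fun b _ => hu2 _)).const_mul _)
    refine h2.congr' ((h1.filter_mono hUle).mono fun Λ h => ?_)
    exact (uL_step hq β J Λ a x hx (h (mem_insert_self _ _))
      ((subset_insert _ _).trans h)).symm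

end Pool.Agent.SB
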